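import Mathlib
import Pool.Agent.Work.MP_e120ef_ag.SerMul

attribute [-instance] Subalgebra.normedCommRing Subalgebra.seminormedCommRing
  Subalgebra.seminormedRing Subalgebra.normedRing
  Localization.subalgebra.instIsFractionRingSubtypeMemSubalgebra
attribute [local instance 2000] RingHomClass.toAddMonoidHomClass AddMonoidHomClass.toAddHomClass
  RingHom.instRingHomClass AlgHomClass.toRingHomClass IsDomain.to_noZeroDivisors
  IsDomain.toNontrivial NeZero.one RingHomClass.toMonoidHomClass MonoidHomClass.toMulHomClass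
  RingHomClass.toMonoidWithZeroHomClass AddMonoidHomClass.toZeroHomClass MonoidHomClass.toOneHomClass
attribute [-instance] instCharZeroOfIsSemireal AlgHom.instContinuousLinearMapClassOfAlgHomClass
  RingHomClass.toLinearMapClassRat RingHomClass.toLinearMapClassNNRat NumberField.to_charZero

-- merged part: Pool.Agent.Work.MP_e120ef_ag.H.Ent
section
/-!
# Restricted and entire power series, and their values

`Res K c`: series restricted for the radii `c`; `Ent K σ`: entire series; `T K n`: the Tate algebra.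
`ev F z` is the value of `F` at a point `z` of a complete valued field `L` over `K`.
Plans.  `hasSum_ev`: in a complete ultrametric group a family tending to zero along `cofinite` is summable
(`NonarchimedeanAddGroup.summable_of_tendsto_cofinite_zero`), and `‖algebraMap c * mon z I‖ = ‖c‖ * I.prod ..`.
`ev_mul`: `HasSum.mul_of_nonarchimedean` then regroup along antidiagonals (`HasSum.sigma`, `Finset.sigmaAntidiagonalEquivProd`, `coeff_mul`).
`norm_ev_le`: `IsUltrametricDist.norm_tsum_le_of_forall_le_of_nonneg`.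
`pderiv_res`: `coeff I (pderiv l F) = coeff (I + single l 1) F * (I l + 1)`, `‖(n : K)‖ ≤ 1` (`IsUltrametricDist.norm_natCast_le_one`), and `I ↦ I + single l 1` is injective.
`ent_of_hasSum`: for `c` take `z s` with `|c s| ≤ ‖z s‖` (`NormedField.exists_lt_norm`).
-/

open Filter Topology MvPowerSeries

namespace Pool.Agent.Work.MP_e120ef_ag.H

variable (K : Type) [NontriviallyNormedField K] [IsUltrametricDist K] {σ : Type}

/-- series restricted for the radii `c` -/
def Res (c : σ → ℝ) : Subalgebra K (MvPowerSeries σ K) :=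
  { IsRestricted.subring c with algebraMap_mem' := fun a => isRestricted_C c a }

/-- entire series -/
def Ent (σ : Type) : Subalgebra K (MvPowerSeries σ K) where
  carrier := {F | ∀ c, IsRestricted c F}
  add_mem' ha hb c := isRestricted.add c (ha c) (hb c)
  mul_mem' ha hb c := isRestricted.mul c (ha c) (hb c)
  algebraMap_mem' a c := isRestricted_C c a

/-- the Tate algebra -/
abbrev T (n : ℕ) : Subalgebra K (MvPowerSeries (Fin n) K) := Res K fun _ => 1

variable {K}

instance sub_domain (S : Subalgebra K (MvPowerSeries σ K)) : IsDomain S :=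
  haveI : IsDomain (MvPowerSeries σ K) := NoZeroDivisors.to_isDomain _
  inferInstance

theorem mem_Res {c : σ → ℝ} {F : MvPowerSeries σ K} : F ∈ Res K c ↔ IsRestricted c F := Iff.rfl

theorem mem_Ent {F : MvPowerSeries σ K} : F ∈ Ent K σ ↔ ∀ c, IsRestricted c F := Iff.rfl

omit [IsUltrametricDist K] in
theorem res_mono {c c' : σ → ℝ} {F : MvPowerSeries σ K} (h : IsRestricted c F)
    (h0 : ∀ s, 0 ≤ c' s) (hc : ∀ s, c' s ≤ c s) : IsRestricted c' F := by
  rw [← isRestricted_abs_iff, IsRestricted] at h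
  refine tendsto_const_nhds.squeeze h (fun I => ?_) fun I => ?_
  · exact mul_nonneg (norm_nonneg _) (Finset.prod_nonneg fun s _ => pow_nonneg (h0 s) _)
  · refine mul_le_mul_of_nonneg_left ?_ (norm_nonneg _)
    exact Finset.prod_le_prod (fun s _ => pow_nonneg (h0 s) _) fun s _ =>
      pow_le_pow_left₀ (h0 s) ((hc s).trans (le_abs_self _)) _

theorem coe_res (c : σ → ℝ) (P : MvPolynomial σ K) : IsRestricted c (P : MvPowerSeries σ K) := by
  refine tendsto_nhds_of_eventually_eq (P.support.finite_toSet.subset fun I hI => ?_)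
  by_contra h
  apply hI
  have : P.coeff I = 0 := by simpa using h
  simp [MvPolynomial.coeff_coe, this]

theorem pderiv_res {c : σ → ℝ} (hc : ∀ s, 0 < c s) {F : MvPowerSeries σ K} (h : IsRestricted c F)
    (l : σ) : IsRestricted c (pderiv K l F) := by
  have hinj : Function.Injective fun I : σ →₀ ℕ => I + Finsupp.single l 1 :=
    add_left_injective _
  have h1 := (h.comp hinj.tendsto_cofinite).const_mul (c l)⁻¹
  rw [mul_zero] at h1
  refine tendsto_const_nhds.squeeze h1 (fun I => ?_) fun I => ?_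
  · exact mul_nonneg (norm_nonneg _) (Finset.prod_nonneg fun s _ => pow_nonneg (hc s).le _)
  · have hp : (I + Finsupp.single l 1).prod (fun s n => c s ^ n)
        = I.prod (fun s n => c s ^ n) * c l := by
      rw [Finsupp.prod_add_index' (h := fun s n => c s ^ n) (fun _ => pow_zero _)
        (fun _ _ _ => pow_add _ _ _),
        Finsupp.prod_single_index (h := fun s n => c s ^ n) (pow_zero _), pow_one]
    have h0 : 0 ≤ I.prod (fun s n => c s ^ n) :=
      Finset.prod_nonneg fun s _ => pow_nonneg (hc s).le _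
    have hn : ‖((I l : K) + 1)‖ ≤ 1 := by
      have := IsUltrametricDist.norm_natCast_le_one K (I l + 1)
      simpa using this
    have hl := (hc l).ne'
    simp only [Function.comp_apply, hp, coeff_pderiv, norm_mul]
    calc ‖coeff (I + Finsupp.single l 1) F‖ * ‖((I l : K) + 1)‖ * I.prod (fun s n => c s ^ n)
        ≤ ‖coeff (I + Finsupp.single l 1) F‖ * 1 * I.prod (fun s n => c s ^ n) := by gcongr
      _ = _ := by field_simp

theorem pderiv_ent {F : MvPowerSeries σ K} (h : F ∈ Ent K σ) (l : σ) : pderiv K l F ∈ Ent K σ := by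
  intro c
  rw [← isRestricted_abs_iff]
  refine res_mono (pderiv_res (c := fun s => |c s| + 1) (fun s => by positivity) (h _) l)
    (fun s => abs_nonneg _) fun s => ?_
  exact le_add_of_nonneg_right zero_le_one

/-- polynomials as elements of a subalgebra of series -/
noncomputable def toS (S : Subalgebra K (MvPowerSeries σ K))
    (h : ∀ P : MvPolynomial σ K, (P : MvPowerSeries σ K) ∈ S) : MvPolynomial σ K →ₐ[K] S where
  toFun P := ⟨P, h P⟩
  map_one' := Subtype.ext MvPolynomial.coe_one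
  map_mul' P Q := Subtype.ext (MvPolynomial.coe_mul P Q)
  map_zero' := Subtype.ext MvPolynomial.coe_zero
  map_add' P Q := Subtype.ext (MvPolynomial.coe_add P Q)
  commutes' c := Subtype.ext (MvPolynomial.coe_C c)

/-- polynomials as entire series -/
noncomputable def toE : MvPolynomial σ K →ₐ[K] Ent K σ := toS _ fun P c => coe_res c P

/-- polynomials as elements of the Tate algebra -/
noncomputable def toT {n : ℕ} : MvPolynomial (Fin n) K →ₐ[K] T K n := toS _ fun P => coe_res _ P

theorem toE_val (P : MvPolynomial σ K) : (toE P : Ent K σ).1 = P := rfl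

theorem toT_val {n : ℕ} (P : MvPolynomial (Fin n) K) : (toT P : T K n).1 = P := rfl

theorem toE_inj : Function.Injective (toE : MvPolynomial σ K → Ent K σ) := fun _ _ h =>
  MvPolynomial.coe_injective _ _ (congrArg Subtype.val h)

theorem toT_inj {n : ℕ} : Function.Injective (toT : MvPolynomial (Fin n) K → T K n) := fun _ _ h =>
  MvPolynomial.coe_injective _ _ (congrArg Subtype.val h)

/-- restriction of a partial derivative to a stable subalgebra -/
noncomputable def pdS (S : Subalgebra K (MvPowerSeries σ K)) (l : σ)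
    (h : ∀ F ∈ S, pderiv K l F ∈ S) : Derivation K S S :=
  Derivation.mk'
    { toFun := fun F => ⟨pderiv K l F.1, h F F.2⟩
      map_add' := fun a b => Subtype.ext (map_add (pderiv K l) a.1 b.1)
      map_smul' := fun c b => Subtype.ext ((pderiv K l).map_smul c b.1) }
    fun a b => Subtype.ext ((pderiv K l).leibniz a.1 b.1)

variable (K) in
/-- partial derivatives of entire series -/
noncomputable def pdE (l : σ) : Derivation K (Ent K σ) (Ent K σ) := pdS _ l fun _ h => pderiv_ent h l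

variable (K) in
/-- partial derivatives on the Tate algebra -/
noncomputable def pdT {n : ℕ} (l : Fin n) : Derivation K (T K n) (T K n) :=
  pdS _ l fun _ h => pderiv_res (fun _ => one_pos) h l

theorem pdE_val (l : σ) (F : Ent K σ) : (pdE K l F).1 = pderiv K l F.1 := rfl

theorem pdT_val {n : ℕ} (l : Fin n) (F : T K n) : (pdT K l F).1 = pderiv K l F.1 := rfl

theorem pdE_toE (l : σ) (P : MvPolynomial σ K) : pdE K l (toE P) = toE (MvPolynomial.pderiv l P) :=
  Subtype.ext (pderiv_coe P)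

theorem pdT_toT {n : ℕ} (l : Fin n) (P : MvPolynomial (Fin n) K) :
    pdT K l (toT P) = toT (MvPolynomial.pderiv l P) := Subtype.ext (pderiv_coe P)

variable {L L' : Type} [NontriviallyNormedField L] [IsUltrametricDist L] [CompleteSpace L]
  [NormedAlgebra K L] [NontriviallyNormedField L'] [IsUltrametricDist L'] [CompleteSpace L']
  [NormedAlgebra K L']

/-- the value of a monomial -/
def mon {R : Type} [CommMonoid R] (z : σ → R) (I : σ →₀ ℕ) : R := I.prod fun s n => z s ^ n

/-- the series converges at `z` -/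
def Cvg (F : MvPowerSeries σ K) (z : σ → L) : Prop := IsRestricted (fun s => ‖z s‖) F

/-- the value of a series -/
noncomputable def ev (F : MvPowerSeries σ K) (z : σ → L) : L :=
  ∑' I, algebraMap K L (coeff I F) * mon z I

variable {F G : MvPowerSeries σ K} {z : σ → L}

theorem Ent_mon_add {R : Type} [CommMonoid R] (z : σ → R) (I J : σ →₀ ℕ) :
    mon z (I + J) = mon z I * mon z J :=
  Finsupp.prod_add_index' (fun _ => pow_zero _) fun _ _ _ => pow_add _ _ _

omit [IsUltrametricDist K] [IsUltrametricDist L] [CompleteSpace L] in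
theorem Ent_norm_term (a : K) (z : σ → L) (I : σ →₀ ℕ) :
    ‖algebraMap K L a * mon z I‖ = ‖a‖ * I.prod (fun s n => ‖z s‖ ^ n) := by
  simp [mon, Finsupp.prod, norm_prod]

omit [IsUltrametricDist K] in
theorem hasSum_ev (h : Cvg F z) : HasSum (fun I => algebraMap K L (coeff I F) * mon z I) (ev F z) := by
  refine (NonarchimedeanAddGroup.summable_of_tendsto_cofinite_zero ?_).hasSum
  rw [tendsto_zero_iff_norm_tendsto_zero]
  simp only [Ent_norm_term]
  exact h

theorem ev_add (hF : Cvg F z) (hG : Cvg G z) : ev (F + G) z = ev F z + ev G z := by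
  have := ((hasSum_ev hF).add (hasSum_ev hG)).tsum_eq
  rw [← this, ev]
  simp only [map_add, add_mul]

theorem ev_mul (hF : Cvg F z) (hG : Cvg G z) : ev (F * G) z = ev F z * ev G z := by
  classical
  have : NonarchimedeanRing L := ⟨NonarchimedeanAddGroup.is_nonarchimedean⟩
  have h1 := hasSum_ev hF
  have h2 := hasSum_ev hG
  have h3 := h1.summable.tsum_mul_tsum_eq_tsum_sum_antidiagonal h2.summable
    (h1.mul_of_nonarchimedean h2).summable
  rw [ev, ev, ev, h3]
  refine tsum_congr fun I => ?_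
  rw [coeff_mul, map_sum, Finset.sum_mul]
  refine Finset.sum_congr rfl fun p hp => ?_
  rw [← Finset.HasAntidiagonal.mem_antidiagonal.1 hp, Ent_mon_add, map_mul]
  ring

theorem ev_C (c : K) : ev (C c : MvPowerSeries σ K) z = algebraMap K L c := by
  classical
  rw [ev, tsum_eq_single 0]
  · simp [mon]
  · intro I hI
    simp [coeff_C, hI]

theorem ev_coe (P : MvPolynomial σ K) : ev (P : MvPowerSeries σ K) z = MvPolynomial.aeval z P := by
  rw [ev, tsum_eq_sum (s := P.support), MvPolynomial.aeval_def, MvPolynomial.eval₂_eq]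
  · refine Finset.sum_congr rfl fun I _ => ?_
    rw [MvPolynomial.coeff_coe]
    rfl
  · intro I hI
    have : P.coeff I = 0 := by simpa using hI
    simp [MvPolynomial.coeff_coe, this]

theorem ev_zero (F : MvPowerSeries σ K) :
    ev F (0 : σ → L) = algebraMap K L (constantCoeff F) := by
  rw [ev, tsum_eq_single 0]
  · simp [mon]
  · intro I hI
    obtain ⟨s, hs⟩ := Finsupp.support_nonempty_iff.2 hI
    have : mon (0 : σ → L) I = 0 :=
      Finset.prod_eq_zero hs (by simp [Finsupp.mem_support_iff.1 hs])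
    rw [this, mul_zero]

theorem norm_ev_le {C : ℝ} (hC : 0 ≤ C)
    (h : ∀ I, ‖coeff I F‖ * I.prod (fun s n => ‖z s‖ ^ n) ≤ C) : ‖ev F z‖ ≤ C := by
  refine IsUltrametricDist.norm_tsum_le_of_forall_le_of_nonneg hC fun I => ?_
  rw [Ent_norm_term]
  exact h I

theorem ev_map (φ : L →ₐ[K] L') (hφ : ∀ x, ‖φ x‖ = ‖x‖) (h : Cvg F z) :
    φ (ev F z) = ev F fun s => φ (z s) := by
  have hc : Continuous φ := by
    refine (AddMonoidHomClass.isometry_of_norm φ hφ).continuous
  have h1 := (hasSum_ev h).map φ hc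
  rw [← h1.tsum_eq, ev]
  refine tsum_congr fun I => ?_
  simp [mon, map_finsuppProd]

/-- evaluation as an algebra map -/
noncomputable def evA (S : Subalgebra K (MvPowerSeries σ K)) (z : σ → L) (h : ∀ F ∈ S, Cvg F z) :
    S →ₐ[K] L where
  toFun F := ev F.1 z
  map_one' := (ev_C (z := z) (1 : K)).trans (map_one _)
  map_mul' F G := ev_mul (h _ F.2) (h _ G.2)
  map_zero' := by simp [ev]
  map_add' F G := ev_add (h _ F.2) (h _ G.2)
  commutes' c := ev_C c

/-- evaluation of entire series -/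
noncomputable def evE (z : σ → L) : Ent K σ →ₐ[K] L := evA _ z fun _ h => h _

theorem evE_apply (F : Ent K σ) : evE z F = ev F.1 z := rfl

theorem evE_toE (P : MvPolynomial σ K) : evE z (toE P) = MvPolynomial.aeval z P := ev_coe P

theorem ent_of_hasSum [CompleteSpace K] [Fintype σ] {c : (σ →₀ ℕ) → K} {a : (σ → K) → K}
    (h : ∀ z, HasSum (fun I => c I * ∏ i, z i ^ I i) (a z)) :
    ∃ F : Ent K σ, ∀ z : σ → K, evE z F = a z := by
  have hm : ∀ (z : σ → K) (I : σ →₀ ℕ), mon z I = ∏ i, z i ^ I i := fun z I =>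
    Finsupp.prod_fintype _ _ fun _ => pow_zero _
  let F : MvPowerSeries σ K := c
  have hF : ∀ I, coeff I F = c I := fun _ => rfl
  have hc : ∀ z : σ → K, Cvg F z := by
    intro z
    have h1 := (h z).summable.tendsto_cofinite_zero
    rw [tendsto_zero_iff_norm_tendsto_zero] at h1
    refine h1.congr fun I => ?_
    rw [← hm, ← hF, ← Ent_norm_term]
    rfl
  refine ⟨⟨F, fun r => ?_⟩, fun z => ?_⟩
  · choose z hz using fun s => NormedField.exists_lt_norm K |r s|
    rw [← isRestricted_abs_iff]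
    exact res_mono (hc z) (fun s => abs_nonneg _) fun s => (hz s).le
  · rw [evE_apply, ← (h z).tsum_eq, ev]
    refine tsum_congr fun I => ?_
    rw [hm, hF]
    rfl

end Pool.Agent.Work.MP_e120ef_ag.H
end

-- merged part: Pool.Agent.Work.MP_e120ef_ag.H.Ser
section
-- merged part: Pool.Agent.Work.MP_e120ef_ag.H.L1
section
/-!
# Laurent series in one variable: definitions

`L1 K P` is the ring of functions given by a Laurent series converging at all points whose norm lies in the interval `P`.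
A radius is always given as the norm of a point `w`.
-/

open Filter Topology

namespace Pool.Agent.Work.MP_e120ef_ag.H

/-- an interval of radii containing one -/
structure Rad where
  I : Set ℝ
  one : 1 ∈ I
  conv : I.OrdConnected

/-- all radii -/
def Rad.all : Rad := ⟨Set.univ, trivial, Set.ordConnected_univ⟩

/-- the radii at least one -/
def Rad.out : Rad := ⟨Set.Ici 1, le_refl (1 : ℝ), Set.ordConnected_Ici⟩

variable (K : Type) [NontriviallyNormedField K]

/-- the points -/
abbrev Pt1 (P : Rad) : Type := {t : Kˣ // ‖(t : K)‖ ∈ P.I}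

/-- the base point -/
def Pt1.one (P : Rad) : Pt1 K P := ⟨1, by simpa using P.one⟩

@[simp] theorem Pt1.one_val (P : Rad) : (Pt1.one K P).1 = 1 := rfl

variable {K} in
/-- the coordinate of a point -/
abbrev Pt1.v {P : Rad} (t : Pt1 K P) : K := (t.1 : K)

variable [IsUltrametricDist K] [CompleteSpace K]

/-- convergent Laurent series -/
def L1 (P : Rad) : Subalgebra K (Pt1 K P → K) where
  carrier := {f | ∃ a : ℤ → K, ∀ t : Pt1 K P, HasSum (fun n => a n * t.v ^ n) (f t)}
  add_mem' := by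
    rintro f g ⟨a, ha⟩ ⟨b, hb⟩
    exact ⟨a + b, fun z => by simpa [add_mul] using (ha z).add (hb z)⟩
  mul_mem' := by
    rintro f g ⟨a, ha⟩ ⟨b, hb⟩
    exact ⟨_, (ser_mul K (fun (t : Pt1 K P) (n : ℤ) => t.v ^ n)
      (fun t m n => zpow_add₀ t.1.ne_zero m n) (Pt1.one K P) (by simp [Pt1.v]) ha hb).2⟩
  algebraMap_mem' c := by
    classical
    refine ⟨Pi.single 0 c, fun z => ?_⟩
    have h := hasSum_single (f := fun n : ℤ => Pi.single (M := fun _ => K) 0 c n * z.v ^ n) 0
      fun n hn => by simp [hn]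
    simpa using h

variable {K} {P : Rad}

/-- the coefficients -/
noncomputable def coef (f : L1 K P) : ℤ → K := f.2.choose

theorem hasSum_coef (f : L1 K P) (t : Pt1 K P) : HasSum (fun n => coef f n * t.v ^ n) (f.1 t) :=
  f.2.choose_spec t

variable (K P) in
/-- the coordinate function -/
def Zf : L1 K P := ⟨fun t => t.v, Pi.single 1 1, fun z => by
  classical
  have h := hasSum_single (f := fun n : ℤ => Pi.single (M := fun _ => K) 1 1 n * z.v ^ n) 1
    fun n hn => by simp [hn]
  simpa using h⟩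

/-- the function `t - c` -/
noncomputable def lin (c : K) : L1 K P := Zf K P - algebraMap K _ c

theorem lin_apply (c : K) (t : Pt1 K P) : (lin c : L1 K P).1 t = t.v - c := rfl

/-- the Gauss norm at the radius `‖w‖` -/
noncomputable def gn (w : Pt1 K P) (f : L1 K P) : ℝ := ⨆ n : ℤ, ‖coef f n * w.v ^ n‖

/-- `n` is the largest index at which the Gauss norm is attained -/
def IsTop (w : Pt1 K P) (f : L1 K P) (n : ℤ) : Prop :=
  ‖coef f n * w.v ^ n‖ = gn w f ∧ ∀ m, n < m → ‖coef f m * w.v ^ m‖ < gn w f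

/-- `n` is the smallest index at which the Gauss norm is attained -/
def IsBot (w : Pt1 K P) (f : L1 K P) (n : ℤ) : Prop :=
  ‖coef f n * w.v ^ n‖ = gn w f ∧ ∀ m, m < n → ‖coef f m * w.v ^ m‖ < gn w f

end Pool.Agent.Work.MP_e120ef_ag.H
end

-- merged part: Pool.Agent.Work.MP_e120ef_ag.H.Ser
section
/-!
# The Gauss norm is the maximum on the circle, and is multiplicative

Plans.  `exists_generic`: divide by `w` (so radius `1`); let `u` run over the elements of `s` of norm `1`; a root `z` of `T * ∏ (T - u) - 1` has `‖z‖ ≤ 1`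
(else the product has norm `> 1`), so all factors have norm `≤ 1` with product of norm `1`, so each has norm `1`; for `‖α‖ ≠ 1` use `IsUltrametricDist.norm_add_eq_max_of_norm_ne_norm`.
`exists_attain_aux` (for a sequence `a` with `a n * w ^ n → 0`, `M = ⨆ ‖a n * w ^ n‖ > 0`): the set `S` of `n` with `‖a n * w ^ n‖ = M` is finite and nonempty, and the other terms are `≤ M' < M`;
`Q = ∑ n ∈ S, a n T ^ (n - n₀)` splits, `Polynomial.gaussNorm_mul` gives Gauss norm `= ‖lead‖ ∏ max ‖w‖ ‖α‖ = ‖Q z‖` for `z` generic for the roots; there is a finite set of `α` such that every generic `z` works.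
`IsUltrametricDist.norm_tsum_le_of_forall_le_of_nonneg`-style bounds.  `coef_unique`: apply this to `a - coef f` at `w = 1`.  `gn_mul`: `≤` from `coef_mul`, `≥` from a common point.
-/

open Filter Topology

namespace Pool.Agent.Work.MP_e120ef_ag.H

variable {K : Type} [NontriviallyNormedField K] [IsUltrametricDist K] [IsAlgClosed K]

omit [IsAlgClosed K] in
theorem Ser_sub_le (x y : K) : ‖x - y‖ ≤ max ‖x‖ ‖y‖ := by
  simpa only [sub_eq_add_neg, norm_neg] using IsUltrametricDist.norm_add_le_max x (-y)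

omit [IsAlgClosed K] in
theorem Ser_sub_eq {x y : K} (h : ‖x‖ ≠ ‖y‖) : ‖x - y‖ = max ‖x‖ ‖y‖ := by
  simpa only [sub_eq_add_neg, norm_neg] using
    IsUltrametricDist.norm_add_eq_max_of_norm_ne_norm (x := x) (y := -y) (by rwa [norm_neg])

theorem exists_generic (s : Finset K) (w : Kˣ) :
    ∃ z : Kˣ, ‖(z : K)‖ = ‖(w : K)‖ ∧ ∀ α ∈ s, ‖(z : K) - α‖ = max ‖(w : K)‖ ‖α‖ := by
  classical
  have hr : 0 < ‖(w : K)‖ := norm_pos_iff.2 w.ne_zero
  set U : Finset K := insert 0 (s.filter fun α => ‖α‖ ≤ ‖(w : K)‖) with hU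
  have h0 : (0 : K) ∈ U := Finset.mem_insert_self _ _
  have hle : ∀ u ∈ U, ‖u‖ ≤ ‖(w : K)‖ := fun u hu => by
    rcases Finset.mem_insert.1 hu with rfl | hu
    · simp
    · exact (Finset.mem_filter.1 hu).2
  obtain ⟨z, hz⟩ := IsAlgClosed.eval_surjective (p := ∏ u ∈ U, (Polynomial.X - Polynomial.C u))
    (by rw [Polynomial.natDegree_finsetProd_X_sub_C_eq_card U fun u => u]
        exact (Finset.card_pos.2 ⟨0, h0⟩).ne') (∏ _u ∈ U, (w : K))
  have hp : ∏ u ∈ U, ‖z - u‖ = ∏ _u ∈ U, ‖(w : K)‖ := by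
    rw [← norm_prod, ← norm_prod, ← hz]
    simp [Polynomial.eval_prod]
  have hz1 : ‖z‖ ≤ ‖(w : K)‖ := by
    by_contra h
    refine (Finset.prod_lt_prod_of_nonempty (fun _ _ => hr) (fun u hu => ?_) ⟨0, h0⟩).ne' hp
    have h1 := (hle u hu).trans_lt (not_le.1 h)
    rw [Ser_sub_eq h1.ne', max_eq_left h1.le]
    exact not_le.1 h
  have hle' : ∀ u ∈ U, ‖z - u‖ ≤ ‖(w : K)‖ := fun u hu =>
    (Ser_sub_le z u).trans (max_le hz1 (hle u hu))
  have heq : ∀ u ∈ U, ‖z - u‖ = ‖(w : K)‖ := fun u hu => by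
    by_contra h
    refine (Finset.prod_lt_prod (fun v hv => ?_) hle' ⟨u, hu, (hle' u hu).lt_of_ne h⟩).ne hp
    refine (norm_nonneg _).lt_of_ne' fun e => ?_
    rw [Finset.prod_eq_zero hv e] at hp
    exact (Finset.prod_pos fun _ _ => hr).ne hp
  have hz2 : ‖z‖ = ‖(w : K)‖ := by simpa using heq 0 h0
  refine ⟨Units.mk0 z (norm_pos_iff.1 (hz2 ▸ hr)), hz2, fun α hα => ?_⟩
  rw [Units.val_mk0]
  rcases le_or_gt ‖α‖ ‖(w : K)‖ with h | h
  · rw [max_eq_left h]
    exact heq α (Finset.mem_insert_of_mem (Finset.mem_filter.2 ⟨hα, h⟩))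
  · rw [← hz2] at h ⊢
    exact Ser_sub_eq h.ne

omit [IsAlgClosed K] in
open Polynomial in
theorem Ser_poly (z c : K) (m : Multiset K) (h : ∀ α ∈ m, ‖z - α‖ = max ‖z‖ ‖α‖) (i : ℕ) :
    ‖(C c * (m.map (X - C ·)).prod).coeff i * z ^ i‖ ≤
      ‖(C c * (m.map (X - C ·)).prod).eval z‖ := by
  induction m using Multiset.induction_on generalizing i with
  | empty =>
    rcases i with _ | i
    · simp
    · simp
  | cons α m ih =>
    have ih' := ih fun β hβ => h β (Multiset.mem_cons_of_mem hβ)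
    rw [Multiset.map_cons, Multiset.prod_cons, mul_left_comm]
    generalize C c * (m.map (X - C ·)).prod = Q at ih' ⊢
    rw [eval_mul, norm_mul (eval z _), eval_sub, eval_X, eval_C, h α (Multiset.mem_cons_self _ _)]
    have h1 : ∀ i, ‖α * (Q.coeff i * z ^ i)‖ ≤ max ‖z‖ ‖α‖ * ‖Q.eval z‖ := fun i => by
      rw [norm_mul]
      exact mul_le_mul (le_max_right _ _) (ih' i) (norm_nonneg _) (by positivity)
    rcases i with _ | i
    · refine le_trans (le_of_eq ?_) (h1 0)
      simp
    · rw [coeff_X_sub_C_mul, show (Q.coeff i - α * Q.coeff (i + 1)) * z ^ (i + 1) =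
        z * (Q.coeff i * z ^ i) - α * (Q.coeff (i + 1) * z ^ (i + 1)) by ring]
      refine (Ser_sub_le _ _).trans (max_le ?_ (h1 _))
      rw [norm_mul]
      exact mul_le_mul (le_max_left _ _) (ih' i) (norm_nonneg _) (by positivity)

open Polynomial in
theorem Ser_fin (a : ℤ → K) (S : Finset ℤ) : ∃ s : Finset K, ∀ z : K, z ≠ 0 →
    (∀ α ∈ s, ‖z - α‖ = max ‖z‖ ‖α‖) → ∀ n ∈ S, ‖a n * z ^ n‖ ≤ ‖∑ m ∈ S, a m * z ^ m‖ := by
  classical
  obtain ⟨N, hN⟩ : ∃ N : ℤ, ∀ n ∈ S, 0 ≤ n + N :=
    ⟨(S.sup Int.natAbs : ℕ), fun n hn => by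
      have := Finset.le_sup (f := Int.natAbs) hn
      omega⟩
  set Q : K[X] := ∑ m ∈ S, monomial (m + N).toNat (a m) with hQ
  refine ⟨Q.roots.toFinset, fun z hz h n hn => ?_⟩
  have h1 := Ser_poly z Q.leadingCoeff Q.roots (fun α hα => h α (Multiset.mem_toFinset.2 hα))
    (n + N).toNat
  rw [← (IsAlgClosed.splits Q).eq_prod_roots] at h1
  have hp : ∀ m ∈ S, z ^ (m + N).toNat = z ^ m * z ^ N := fun m hm => by
    rw [← zpow_natCast, Int.toNat_of_nonneg (hN m hm), zpow_add₀ hz]
  have h2 : Q.coeff (n + N).toNat = a n := by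
    rw [hQ, finsetSum_coeff, Finset.sum_eq_single_of_mem n hn fun m hm e => ?_, coeff_monomial,
      if_pos rfl]
    have := hN m hm
    have := hN n hn
    rw [coeff_monomial, if_neg (by omega)]
  have h3 : Q.eval z = (∑ m ∈ S, a m * z ^ m) * z ^ N := by
    rw [hQ, eval_finsetSum, Finset.sum_mul]
    exact Finset.sum_congr rfl fun m hm => by rw [eval_monomial, hp m hm, mul_assoc]
  rw [h2, h3, hp n hn, ← mul_assoc, norm_mul _ (z ^ N), norm_mul _ (z ^ N)] at h1
  exact le_of_mul_le_mul_right h1 (norm_pos_iff.2 (zpow_ne_zero N hz))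

omit [IsUltrametricDist K] [IsAlgClosed K] in
theorem Ser_congr {z w : K} (h : ‖z‖ = ‖w‖) (c : K) (n : ℤ) : ‖c * z ^ n‖ = ‖c * w ^ n‖ := by
  rw [norm_mul, norm_mul, norm_zpow, norm_zpow, h]

omit [IsUltrametricDist K] [IsAlgClosed K] in
theorem Ser_finite {u : ℤ → K} (h : Tendsto u cofinite (𝓝 0)) {ε : ℝ} (hε : 0 < ε) :
    {n | ε ≤ ‖u n‖}.Finite := by
  have := (tendsto_zero_iff_norm_tendsto_zero.1 h).eventually (gt_mem_nhds hε)
  simpa only [eventually_cofinite, not_lt] using this

theorem Ser_key {a : ℤ → K} {w : K} (hw : w ≠ 0)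
    (h : Tendsto (fun n : ℤ => a n * w ^ n) cofinite (𝓝 0)) {ε : ℝ} (hε : 0 < ε) :
    ∃ s : Finset K, ∀ z y : K, ‖z‖ = ‖w‖ → (∀ α ∈ s, ‖z - α‖ = max ‖w‖ ‖α‖) →
      HasSum (fun n : ℤ => a n * z ^ n) y → ∀ n, ‖a n * w ^ n‖ ≤ max ‖y‖ ε := by
  classical
  set S := (Ser_finite h hε).toFinset
  have hS : ∀ n, n ∉ S → ‖a n * w ^ n‖ ≤ ε := fun n hn =>
    (not_le.1 fun e => hn ((Set.Finite.mem_toFinset _).2 e)).le
  obtain ⟨s, hs⟩ := Ser_fin a S
  refine ⟨s, fun z y hz hg hy n => ?_⟩
  by_cases hn : n ∈ S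
  swap
  · exact (hS n hn).trans (le_max_right _ _)
  have hz0 : z ≠ 0 := norm_pos_iff.1 (hz ▸ norm_pos_iff.2 hw)
  have h1 : HasSum (fun m : ℤ => if m ∈ S then a m * z ^ m else 0) (∑ m ∈ S, a m * z ^ m) := by
    have := hasSum_sum_of_ne_finset_zero (L := SummationFilter.unconditional ℤ) (s := S)
      (f := fun m : ℤ => if m ∈ S then a m * z ^ m else 0) fun m hm => if_neg hm
    rwa [Finset.sum_congr rfl fun m hm => if_pos hm] at this
  have h2 : ‖y - ∑ m ∈ S, a m * z ^ m‖ ≤ ε := by
    rw [← (hy.sub h1).tsum_eq]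
    refine IsUltrametricDist.norm_tsum_le_of_forall_le fun m => ?_
    split_ifs with hm
    · simpa using hε.le
    · rw [sub_zero, Ser_congr hz]; exact hS m hm
  rw [← Ser_congr hz]
  refine (hs z hz0 (by rwa [hz]) n hn).trans ?_
  have := Ser_sub_le y (y - ∑ m ∈ S, a m * z ^ m)
  rw [sub_sub_cancel] at this
  exact this.trans (max_le_max_left _ h2)

variable [CompleteSpace K] {P : Rad}

omit [IsAlgClosed K] in
theorem tendsto_coef (f : L1 K P) (w : Pt1 K P) :
    Tendsto (fun n : ℤ => coef f n * w.v ^ n) cofinite (𝓝 0) := by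
  exact (hasSum_coef f w).summable.tendsto_cofinite_zero

omit [IsAlgClosed K] in
theorem le_gn (f : L1 K P) (w : Pt1 K P) (n : ℤ) : ‖coef f n * w.v ^ n‖ ≤ gn w f := by
  exact le_ciSup (tendsto_coef f w).norm.bddAbove_range_of_cofinite n

omit [IsAlgClosed K] in
theorem gn_nonneg (f : L1 K P) (w : Pt1 K P) : 0 ≤ gn w f := by
  exact (norm_nonneg _).trans (le_gn f w 0)

omit [IsAlgClosed K] in
theorem gn_le (f : L1 K P) (w : Pt1 K P) {C : ℝ} (h : ∀ n, ‖coef f n * w.v ^ n‖ ≤ C) :
    gn w f ≤ C := by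
  exact ciSup_le h

omit [IsAlgClosed K] in
theorem gn_congr (f : L1 K P) {w w' : Pt1 K P} (h : ‖w.v‖ = ‖w'.v‖) : gn w f = gn w' f := by
  exact iSup_congr fun n => Ser_congr h _ n

omit [IsAlgClosed K] in
theorem norm_le_gn (f : L1 K P) {w z : Pt1 K P} (h : ‖z.v‖ = ‖w.v‖) : ‖f.1 z‖ ≤ gn w f := by
  rw [← gn_congr f h, ← (hasSum_coef f z).tsum_eq]
  exact IsUltrametricDist.norm_tsum_le _

omit [IsAlgClosed K] in
theorem gn_eq_zero_imp {f : L1 K P} {w : Pt1 K P} (h : gn w f = 0) : f = 0 := by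
  have h1 : ∀ n, coef f n = 0 := fun n => by
    have := (le_gn f w n).trans_eq h
    exact (mul_eq_zero.1 (norm_le_zero_iff.1 this)).resolve_right (zpow_ne_zero n w.1.ne_zero)
  refine Subtype.ext (funext fun t => (hasSum_coef f t).unique ?_)
  simp only [h1, zero_mul]
  exact hasSum_zero

omit [IsAlgClosed K] in
theorem Ser_max {f : L1 K P} (hf : f ≠ 0) (w : Pt1 K P) :
    ∃ T : Finset ℤ, T.Nonempty ∧ ∀ n, n ∈ T ↔ ‖coef f n * w.v ^ n‖ = gn w f := by
  have h0 : 0 < gn w f := (gn_nonneg f w).lt_of_ne' fun e => hf (gn_eq_zero_imp e)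
  have h1 := Ser_finite (tendsto_coef f w) (half_pos h0)
  obtain ⟨m, hm⟩ : ∃ m, gn w f / 2 < ‖coef f m * w.v ^ m‖ :=
    exists_lt_of_lt_ciSup (half_lt_self h0)
  obtain ⟨n, hn, hmax⟩ := Set.exists_max_image _ (fun n => ‖coef f n * w.v ^ n‖) h1 ⟨m, hm.le⟩
  have h2 : {n | ‖coef f n * w.v ^ n‖ = gn w f}.Finite :=
    h1.subset fun n (hn : _ = _) => (half_le_self h0.le).trans hn.ge
  refine ⟨h2.toFinset, ⟨n, h2.mem_toFinset.2 ((le_gn f w n).antisymm (gn_le f w fun l => ?_))⟩,
    fun n => h2.mem_toFinset⟩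
  rcases le_total (gn w f / 2) ‖coef f l * w.v ^ l‖ with h | h
  · exact hmax l h
  · exact h.trans hn

omit [IsAlgClosed K] in
theorem exists_isTop {f : L1 K P} (hf : f ≠ 0) (w : Pt1 K P) : ∃ n, IsTop w f n := by
  obtain ⟨T, hT, h⟩ := Ser_max hf w
  exact ⟨T.max' hT, (h _).1 (T.max'_mem hT), fun m hm => (le_gn f w m).lt_of_ne fun e =>
    (T.le_max' m ((h m).2 e)).not_gt hm⟩

omit [IsAlgClosed K] in
theorem exists_isBot {f : L1 K P} (hf : f ≠ 0) (w : Pt1 K P) : ∃ n, IsBot w f n := by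
  obtain ⟨T, hT, h⟩ := Ser_max hf w
  exact ⟨T.min' hT, (h _).1 (T.min'_mem hT), fun m hm => (le_gn f w m).lt_of_ne fun e =>
    (T.min'_le m ((h m).2 e)).not_gt hm⟩

omit [IsAlgClosed K] in
theorem IsTop.unique {f : L1 K P} {w : Pt1 K P} {m n : ℤ} (hm : IsTop w f m) (hn : IsTop w f n) :
    m = n := by
  exact le_antisymm (not_lt.1 fun h => (hn.2 m h).ne hm.1) (not_lt.1 fun h => (hm.2 n h).ne hn.1)

omit [IsAlgClosed K] in
theorem IsBot.unique {f : L1 K P} {w : Pt1 K P} {m n : ℤ} (hm : IsBot w f m) (hn : IsBot w f n) :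
    m = n := by
  exact le_antisymm (not_lt.1 fun h => (hm.2 n h).ne hn.1) (not_lt.1 fun h => (hn.2 m h).ne hm.1)

omit [CompleteSpace K] in
theorem Ser_generic (s : Finset K) (w : Pt1 K P) :
    ∃ z : Pt1 K P, ‖z.v‖ = ‖w.v‖ ∧ ∀ α ∈ s, ‖z.v - α‖ = max ‖w.v‖ ‖α‖ := by
  obtain ⟨z, h1, h2⟩ := exists_generic s w.1
  exact ⟨⟨z, h1 ▸ w.2⟩, h1, h2⟩

theorem coef_unique {f : L1 K P} {a : ℤ → K}
    (ha : ∀ t : Pt1 K P, HasSum (fun n => a n * t.v ^ n) (f.1 t)) : coef f = a := by
  have h : ∀ t : Pt1 K P, HasSum (fun n => (coef f n - a n) * t.v ^ n) 0 := fun t => by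
    simpa only [sub_mul, sub_self] using (hasSum_coef f t).sub (ha t)
  let w : Pt1 K P := Pt1.one K P
  funext n
  have h1 : ‖(coef f n - a n) * w.v ^ n‖ ≤ 0 := le_of_forall_pos_le_add fun ε hε => by
    obtain ⟨s, hs⟩ := Ser_key w.1.ne_zero (h w).summable.tendsto_cofinite_zero hε
    obtain ⟨z, h1, h2⟩ := Ser_generic s w
    simpa only [norm_zero, max_eq_right hε.le, zero_add] using hs _ _ h1 h2 (h z) n
  exact sub_eq_zero.1
    ((mul_eq_zero.1 (norm_le_zero_iff.1 h1)).resolve_right (zpow_ne_zero n w.1.ne_zero))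

theorem exists_attain (S : Finset (L1 K P)) (w : Pt1 K P) :
    ∃ z : Pt1 K P, ‖z.v‖ = ‖w.v‖ ∧ ∀ f ∈ S, ‖f.1 z‖ = gn w f := by
  classical
  have key : ∀ f : L1 K P, ∃ s : Finset K, ∀ z : Pt1 K P, ‖z.v‖ = ‖w.v‖ →
      (∀ α ∈ s, ‖z.v - α‖ = max ‖w.v‖ ‖α‖) → ‖f.1 z‖ = gn w f := fun f => by
    rcases (gn_nonneg f w).eq_or_lt with h | h
    · exact ⟨∅, fun z hz _ => (norm_le_gn f hz).antisymm (h.ge.trans (norm_nonneg _))⟩
    · obtain ⟨s, hs⟩ := Ser_key w.1.ne_zero (tendsto_coef f w) (half_pos h)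
      refine ⟨s, fun z hz hg => (norm_le_gn f hz).antisymm ?_⟩
      exact (le_max_iff.1 (gn_le f w (hs _ _ hz hg (hasSum_coef f z)))).resolve_right
        (half_lt_self h).not_ge
  choose s hs using key
  obtain ⟨z, h1, h2⟩ := Ser_generic (S.biUnion s) w
  exact ⟨z, h1, fun f hf => hs f z h1 fun α hα => h2 α (Finset.mem_biUnion.2 ⟨f, hf, hα⟩)⟩

theorem coef_zero (n : ℤ) : coef (0 : L1 K P) n = 0 := by
  refine congrFun (coef_unique (a := fun _ => 0) fun t => ?_) n
  simp only [zero_mul]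
  exact hasSum_zero

theorem coef_add (f g : L1 K P) (n : ℤ) : coef (f + g) n = coef f n + coef g n := by
  refine congrFun (coef_unique (a := fun n => coef f n + coef g n) fun t => ?_) n
  simp only [add_mul]
  exact (hasSum_coef f t).add (hasSum_coef g t)

theorem coef_smul (c : K) (f : L1 K P) (n : ℤ) : coef (c • f) n = c * coef f n := by
  refine congrFun (coef_unique (a := fun n => c * coef f n) fun t => ?_) n
  simp only [mul_assoc]
  exact (hasSum_coef f t).mul_left c

theorem coef_mul (f g : L1 K P) (N : ℤ) : Summable (fun n => coef f n * coef g (N - n)) ∧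
    coef (f * g) N = ∑' n, coef f n * coef g (N - n) := by
  have h := ser_mul K (fun (t : Pt1 K P) (n : ℤ) => t.v ^ n)
    (fun t m n => zpow_add₀ t.1.ne_zero m n) (Pt1.one K P) (by simp [Pt1.v])
    (hasSum_coef f) (hasSum_coef g)
  exact ⟨h.1 N, congrFun (coef_unique (f := f * g) h.2) N⟩

theorem coef_algebraMap (c : K) (n : ℤ) :
    coef (algebraMap K (L1 K P) c) n = if n = 0 then c else 0 := by
  refine congrFun (coef_unique (a := fun n => if n = 0 then c else 0) fun t => ?_) n
  have h := hasSum_single (f := fun n : ℤ => (if n = 0 then c else 0) * t.v ^ n) 0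
    fun n hn => by simp [hn]
  rw [if_pos rfl, zpow_zero, mul_one] at h
  exact h

theorem coef_Zf (n : ℤ) : coef (Zf K P) n = if n = 1 then 1 else 0 := by
  refine congrFun (coef_unique (a := fun n => if n = 1 then 1 else 0) fun t => ?_) n
  have h := hasSum_single (f := fun n : ℤ => (if n = 1 then (1 : K) else 0) * t.v ^ n) 1
    fun n hn => by simp [hn]
  rw [if_pos rfl, zpow_one, one_mul] at h
  exact h

theorem coef_lin_mul (c : K) (g : L1 K P) (n : ℤ) :
    coef (lin c * g) n = coef g (n - 1) - c * coef g n := by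
  refine congrFun (coef_unique (a := fun n => coef g (n - 1) - c * coef g n) fun t => ?_) n
  have h1 := (Equiv.subRight (1 : ℤ)).hasSum_iff.2 ((hasSum_coef g t).mul_left t.v)
  have h2 := h1.sub ((hasSum_coef g t).mul_left c)
  rw [← sub_mul] at h2
  refine h2.congr_fun fun m => ?_
  have e : t.v ^ m = t.v * t.v ^ (m - 1) := by
    rw [← zpow_one_add₀ t.1.ne_zero, add_sub_cancel]
  simp only [Function.comp, Equiv.subRight_apply]
  rw [sub_mul, mul_assoc, mul_left_comm t.v, ← e]

theorem gn_zero (w : Pt1 K P) : gn w (0 : L1 K P) = 0 := by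
  simp [gn, coef_zero]

theorem gn_mul (w : Pt1 K P) (f g : L1 K P) : gn w (f * g) = gn w f * gn w g := by
  classical
  obtain ⟨z, -, h⟩ := exists_attain {f, g, f * g} w
  rw [← h f (by simp), ← h g (by simp), ← h (f * g) (by simp), ← norm_mul]
  rfl

theorem gn_add_le (w : Pt1 K P) (f g : L1 K P) : gn w (f + g) ≤ max (gn w f) (gn w g) := by
  obtain ⟨z, hz, h⟩ := exists_attain {f + g} w
  rw [← h _ (Finset.mem_singleton_self _)]
  exact (IsUltrametricDist.norm_add_le_max (f.1 z) (g.1 z)).trans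
    (max_le_max (norm_le_gn f hz) (norm_le_gn g hz))

theorem gn_algebraMap (w : Pt1 K P) (c : K) : gn w (algebraMap K (L1 K P) c) = ‖c‖ := by
  obtain ⟨z, -, h⟩ := exists_attain {algebraMap K (L1 K P) c} w
  exact (h _ (Finset.mem_singleton_self _)).symm

theorem gn_lin (w : Pt1 K P) (c : K) : gn w (lin c : L1 K P) = max ‖w.v‖ ‖c‖ := by
  refine le_antisymm ?_ ?_
  · obtain ⟨z, hz, h⟩ := exists_attain {(lin c : L1 K P)} w
    rw [← h _ (Finset.mem_singleton_self _), lin_apply, ← hz]
    exact Ser_sub_le _ _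
  · obtain ⟨z, hz, h⟩ := Ser_generic {c} w
    rw [← h c (Finset.mem_singleton_self _), ← lin_apply]
    exact norm_le_gn _ hz

instance L1_isDomain : IsDomain (L1 K P) := by
  let w : Pt1 K P := Pt1.one K P
  have : Nontrivial (L1 K P) := ⟨0, 1, fun h => zero_ne_one (congrFun (congrArg Subtype.val h) w)⟩
  have : NoZeroDivisors (L1 K P) := ⟨fun {f g} h => by
    have h1 := gn_mul w f g
    rw [h, gn_zero] at h1
    exact (mul_eq_zero.1 h1.symm).imp gn_eq_zero_imp gn_eq_zero_imp⟩
  exact NoZeroDivisors.to_isDomain _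

end Pool.Agent.Work.MP_e120ef_ag.H
end
end

-- merged part: Pool.Agent.Work.MP_e120ef_ag.H.Line
section
/-!
# Restriction of a series to a line `t ↦ ζ t ^ k`

`hc d F` is the homogeneous part of degree `d`.  Plans.  `line_hasSum`: `hasSum_ev`, `mon (fun s => ζ s * t ^ k) I = mon ζ I * t ^ (k * degree I)`; group the terms along the fibres of
`I ↦ k * degree I` (`HasSum.sigma`, `Equiv.sigmaFiberEquiv`, each fibre is empty or the finite set `finsuppAntidiag univ d`), or first along `degree : _ → ℕ` and then use `Function.Injective.hasSum_iff` for `d ↦ k * d`.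
`coef_line`: `coef_unique`.  `line_inj`: all `aeval ζ (hc d F)` vanish.  `ent_ext`: for `ζ : σ → K` the function `line _ ζ one_ne_zero _ F` on `Pt1 K Rad.out` is zero, so `aeval ζ (hc d F) = 0` for all `ζ`; `MvPolynomial.funext` (`K` is infinite).
-/

open Filter Topology MvPowerSeries

namespace Pool.Agent.Work.MP_e120ef_ag.H

section hc

variable {K σ : Type} [CommRing K] [Fintype σ]

open Classical in
/-- the homogeneous part of degree `d` -/
noncomputable def hc (d : ℕ) (F : MvPowerSeries σ K) : MvPolynomial σ K :=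
  ∑ I ∈ Finset.finsuppAntidiag Finset.univ d, MvPolynomial.monomial I (coeff I F)

open Classical in
theorem Line_mem {d : ℕ} {I : σ →₀ ℕ} :
    I ∈ Finset.finsuppAntidiag Finset.univ d ↔ I.degree = d := by
  rw [Finset.mem_finsuppAntidiag, Finsupp.degree_eq_sum]
  exact and_iff_left (Finset.subset_univ _)

theorem coeff_hc (d : ℕ) (F : MvPowerSeries σ K) (I : σ →₀ ℕ) :
    (hc d F).coeff I = if I.degree = d then coeff I F else 0 := by
  classical
  rw [hc, MvPolynomial.coeff_sum]
  simp only [MvPolynomial.coeff_monomial]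
  rw [Finset.sum_ite_eq']
  exact if_congr Line_mem rfl rfl

theorem eq_zero_of_hc {F : MvPowerSeries σ K} (h : ∀ d, hc d F = 0) : F = 0 := by
  ext I
  have h1 := coeff_hc I.degree F I
  rw [h, if_pos rfl] at h1
  exact h1.symm

theorem hc_zero (F : MvPowerSeries σ K) : hc 0 F = MvPolynomial.C (constantCoeff F) := by
  classical
  ext I
  rw [coeff_hc, MvPolynomial.coeff_C]
  by_cases e : 0 = I
  · subst e
    rw [if_pos (map_zero _), if_pos rfl, coeff_zero_eq_constantCoeff_apply]
  · rw [if_neg e, if_neg fun h => e ((Finsupp.degree_eq_zero_iff I).1 h).symm]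

theorem pderiv_hc (l : σ) (d : ℕ) (F : MvPowerSeries σ K) :
    MvPolynomial.pderiv l (hc (d + 1) F) = hc d (pderiv K l F) := by
  ext I
  rw [MvPolynomial.coeff_pderiv, coeff_hc, coeff_hc, coeff_pderiv, map_add, Finsupp.degree_single,
    ite_mul, zero_mul]
  exact if_congr (add_left_inj 1) rfl rfl

/-- Euler's identity -/
theorem euler_hc (d : ℕ) (F : MvPowerSeries σ K) :
    ∑ l, MvPolynomial.X l * MvPolynomial.pderiv l (hc d F) = d • hc d F := by
  refine MvPolynomial.IsHomogeneous.sum_X_mul_pderiv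
    (MvPolynomial.IsHomogeneous.sum _ _ _ fun I hI => ?_)
  exact MvPolynomial.isHomogeneous_monomial _ (Line_mem.1 hI)

end hc

variable {K : Type} [NontriviallyNormedField K] [IsUltrametricDist K] {σ : Type} [Fintype σ]
  {L : Type} [NontriviallyNormedField L] [IsUltrametricDist L] [CompleteSpace L] [NormedAlgebra K L]
  {P : Rad}

open Classical in
/-- the coefficients of `t ↦ F (ζ t ^ k)` -/
noncomputable def lc (F : MvPowerSeries σ K) (ζ : σ → L) (k n : ℤ) : L :=
  if h : ∃ d : ℕ, n = k * d then MvPolynomial.aeval ζ (hc h.choose F) else 0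

omit [IsUltrametricDist K] [IsUltrametricDist L] [CompleteSpace L] in
theorem lc_mul (F : MvPowerSeries σ K) (ζ : σ → L) {k : ℤ} (hk : k ≠ 0) (d : ℕ) :
    lc F ζ k (k * d) = MvPolynomial.aeval ζ (hc d F) := by
  have h : ∃ d' : ℕ, k * d = k * d' := ⟨d, rfl⟩
  rw [lc, dif_pos h, ← Int.natCast_inj.1 (mul_left_cancel₀ hk h.choose_spec)]

omit [IsUltrametricDist K] [IsUltrametricDist L] [CompleteSpace L] in
theorem lc_of_not (F : MvPowerSeries σ K) (ζ : σ → L) {k n : ℤ} (h : ∀ d : ℕ, n ≠ k * d) :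
    lc F ζ k n = 0 := dif_neg fun ⟨d, hd⟩ => h d hd

theorem line_hasSum {F : MvPowerSeries σ K} {ζ : σ → L} {k : ℤ} (hk : k ≠ 0) {t : L} (ht : t ≠ 0)
    (h : Cvg F fun s => ζ s * t ^ k) :
    HasSum (fun n : ℤ => lc F ζ k n * t ^ n) (ev F fun s => ζ s * t ^ k) := by
  classical
  have hi : Function.Injective fun d : ℕ => k * d := fun _ _ e =>
    Int.natCast_inj.1 (mul_left_cancel₀ hk e)
  refine (hi.hasSum_iff fun n hn => ?_).1
    (((hasSum_ev h).tsum_fiberwise Finsupp.degree).congr_fun fun d => ?_)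
  · rw [lc_of_not F ζ fun d e => hn ⟨d, e.symm⟩, zero_mul]
  have h1 : (Finsupp.degree : (σ →₀ ℕ) → ℕ) ⁻¹' {d} =
      ((Finset.finsuppAntidiag Finset.univ d : Finset (σ →₀ ℕ)) : Set (σ →₀ ℕ)) :=
    Set.ext fun I => Line_mem.symm
  rw [h1, Finset.tsum_subtype' _ fun I => algebraMap K L (coeff I F) * mon (fun s => ζ s * t ^ k) I,
    Function.comp, lc_mul F ζ hk, hc, map_sum, Finset.sum_mul]
  refine Finset.sum_congr rfl fun I hI => ?_
  rw [MvPolynomial.aeval_monomial, mul_assoc, ← Line_mem.1 hI, zpow_mul, zpow_natCast,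
    Finsupp.degree_apply, ← Finset.prod_pow_eq_pow_sum, Finsupp.prod, ← Finset.prod_mul_distrib]
  exact congrArg _ (Finset.prod_congr rfl fun s _ => (mul_pow _ _ _).symm)

/-- restriction to a line -/
noncomputable def line (S : Subalgebra K (MvPowerSeries σ K)) (ζ : σ → L) {k : ℤ} (hk : k ≠ 0)
    (h : ∀ F ∈ S, ∀ t : Pt1 L P, Cvg F fun s => ζ s * t.v ^ k) : S →ₐ[K] L1 L P where
  toFun F := ⟨fun t => ev F.1 fun s => ζ s * t.v ^ k, lc F.1 ζ k, fun t =>
    line_hasSum hk t.1.ne_zero (h _ F.2 t)⟩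
  map_one' := Subtype.ext (funext fun t => map_one (evA S _ fun F hF => h F hF t))
  map_mul' F G := Subtype.ext (funext fun t => map_mul (evA S _ fun F hF => h F hF t) F G)
  map_zero' := Subtype.ext (funext fun t => map_zero (evA S _ fun F hF => h F hF t))
  map_add' F G := Subtype.ext (funext fun t => map_add (evA S _ fun F hF => h F hF t) F G)
  commutes' c := Subtype.ext (funext fun t => (evA S _ fun F hF => h F hF t).commutes c)

variable {S : Subalgebra K (MvPowerSeries σ K)} {ζ : σ → L} {k : ℤ} {hk : k ≠ 0}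
  {h : ∀ F ∈ S, ∀ t : Pt1 L P, Cvg F fun s => ζ s * t.v ^ k}

theorem line_apply (F : S) (t : Pt1 L P) :
    (line S ζ hk h F).1 t = ev F.1 fun s => ζ s * t.v ^ k := rfl

theorem coef_line [IsAlgClosed L] (F : S) (n : ℤ) : coef (line S ζ hk h F) n = lc F.1 ζ k n := by
  exact congrFun (coef_unique fun t => line_hasSum hk t.1.ne_zero (h _ F.2 t)) n

theorem Line_zero [IsAlgClosed L] {F : S} (e : line S ζ hk h F = 0) (d : ℕ) :
    MvPolynomial.aeval ζ (hc d F.1) = 0 := by
  rw [← lc_mul F.1 ζ hk, ← coef_line (hk := hk) (h := h), e, coef_zero]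

theorem line_inj [IsAlgClosed L] (hζ : AlgebraicIndependent K ζ) :
    Function.Injective (line S ζ hk h) := by
  exact (injective_iff_map_eq_zero _).2 fun F e => Subtype.ext
    (eq_zero_of_hc fun d => hζ.eq_zero_of_aeval_eq_zero _ (Line_zero e d))

variable (P) in
/-- entire series along `t ↦ ζ t ^ e` -/
noncomputable def lineE (ζ : σ → L) {e : ℕ} (he : 0 < e) : Ent K σ →ₐ[K] L1 L P :=
  line (k := e) _ ζ (Int.natCast_ne_zero.2 he.ne') fun _ hF _ => hF _

theorem cvg_out {c : σ → ℝ} {ζ : σ → L} (hζ : ∀ s, ‖ζ s‖ ≤ c s) {F : MvPowerSeries σ K}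
    (hF : F ∈ Res K c) (t : Pt1 L Rad.out) : Cvg F fun s => ζ s * t.v ^ (-1 : ℤ) := by
  refine res_mono hF (fun _ => norm_nonneg _) fun s => le_trans ?_ (hζ s)
  rw [norm_mul, zpow_neg_one, norm_inv]
  exact mul_le_of_le_one_right (norm_nonneg _) (inv_le_one_of_one_le₀ t.2)

/-- restricted series along `t ↦ ζ / t`, for `1 ≤ ‖t‖` -/
noncomputable def lineR (c : σ → ℝ) (ζ : σ → L) (hζ : ∀ s, ‖ζ s‖ ≤ c s) :
    Res K c →ₐ[K] L1 L Rad.out :=
  line _ ζ (by decide) fun _ hF t => cvg_out hζ hF t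

theorem lineE_toE (ζ : σ → L) {e : ℕ} (he : 0 < e) (Q : MvPolynomial σ K) :
    lineE P ζ he (toE Q) =
      MvPolynomial.aeval (fun s => algebraMap L (L1 L P) (ζ s) * Zf L P ^ e) Q := by
  refine Subtype.ext (funext fun t => (ev_coe Q).trans ?_)
  refine Eq.trans ?_ (MvPolynomial.comp_aeval_apply _
    (((Pi.evalAlgHom L (fun _ => L) t).comp (L1 L P).val).restrictScalars K) Q).symm
  simp only [zpow_natCast]
  rfl

theorem ent_ext [CompleteSpace K] [IsAlgClosed K] {F : Ent K σ} (h : ∀ z : σ → K, evE z F = 0) :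
    F = 0 := by
  refine Subtype.ext (eq_zero_of_hc fun d => MvPolynomial.funext fun ζ => ?_)
  rw [map_zero, ← MvPolynomial.aeval_eq_eval]
  exact Line_zero (P := Rad.out) (S := Ent K σ) (hk := one_ne_zero) (h := fun _ hF _ => hF _)
    (Subtype.ext (funext fun t => h _)) d

theorem ent_exists [CompleteSpace K] [IsAlgClosed K] {F : Ent K σ} (h : F ≠ 0) :
    ∃ z : σ → K, evE z F ≠ 0 := by
  by_contra hn
  exact h (ent_ext fun z => not_not.1 fun hz => hn ⟨z, hz⟩)

end Pool.Agent.Work.MP_e120ef_ag.H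
end
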