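import Mathlib
import Pool.Agent.Work.MP_e120ef_ag.H.Line
import Pool.Agent.Work.MP_e120ef_ag.Der

attribute [-instance] Subalgebra.normedCommRing Subalgebra.seminormedCommRing
  Subalgebra.seminormedRing Subalgebra.normedRing
  Localization.subalgebra.instIsFractionRingSubtypeMemSubalgebra
attribute [local instance 2000] RingHomClass.toAddMonoidHomClass AddMonoidHomClass.toAddHomClass
  RingHom.instRingHomClass AlgHomClass.toRingHomClass IsDomain.to_noZeroDivisors
  IsDomain.toNontrivial NeZero.one RingHomClass.toMonoidHomClass MonoidHomClass.toMulHomClass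
  RingHomClass.toMonoidWithZeroHomClass AddMonoidHomClass.toZeroHomClass MonoidHomClass.toOneHomClass
attribute [-instance] instCharZeroOfIsSemireal AlgHom.instContinuousLinearMapClassOfAlgHomClass
  RingHomClass.toLinearMapClassRat RingHomClass.toLinearMapClassNNRat NumberField.to_charZero

-- merged part: Pool.Agent.Work.MP_e120ef_ag.H.KP
section
/-!
# The completed algebraic closure; derivations on finite extensions

Plans.  `exists_Kp`: `AlgebraicClosure K₁` with `spectralNorm.normedField` (`spectralNorm.normedAlgebra`, `isNonarchimedean_spectralNorm`, `spectralNorm_extends`), its `UniformSpace.Completion`, and `IsAlgClosed.of_denseRange`.  The `K`-algebra structure is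
`((algebraMap K₁ K').comp (algebraMap K K₁)).toAlgebra`; characteristic zero from the injective `algebraMap`.
`fin_closed`: `Submodule.closed_of_finiteDimensional` (or `complete_of_finiteDimensional`) for `L.toSubmodule`.
`fin_der`: for `x ∈ L` with minimal polynomial `μ` over `K₁`: `0 = δ (aeval x μ) = aeval x μ' * δ x + ∑ i, algebraMap (d (μ.coeff i)) * x ^ i`, and `aeval x μ' ≠ 0` (separability), so `δ x ∈ L`.
For the bound take a basis `e` of `L` over `K₁`; the coordinates are continuous linear forms (`LinearMap.continuous_of_finiteDimensional`, `ContinuousLinearMap.le_opNorm`); `δ (∑ c i • e i) = ∑ d (c i) • e i + c i • δ (e i)`.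
-/

namespace Pool.Agent.Work.MP_e120ef_ag.H

theorem KP_compl (K K₁ A : Type) [NontriviallyNormedField K] [CharZero K]
    [NontriviallyNormedField K₁] [IsUltrametricDist K₁] [NormedAlgebra K K₁]
    [NormedField A] [NormedAlgebra K₁ A] [IsAlgClosed A] :
    ∃ (K' : Type) (_ : NontriviallyNormedField K') (_ : IsUltrametricDist K') (_ : CompleteSpace K')
      (_ : IsAlgClosed K') (_ : CharZero K') (_ : NormedAlgebra K₁ K') (_ : NormedAlgebra K K'),
      IsScalarTower K K₁ K' := by
  let K' := UniformSpace.Completion A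
  let i1 : NormedField K' := inferInstance
  let i2 : NormedAlgebra K₁ K' := inferInstance
  let i3 : NontriviallyNormedField K' :=
    { i1 with
      non_trivial := by
        obtain ⟨x, hx⟩ := NontriviallyNormedField.non_trivial (α := K₁)
        exact ⟨algebraMap K₁ K' x, by rwa [norm_algebraMap']⟩ }
  have i4 : IsUltrametricDist K' := IsUltrametricDist.of_normedAlgebra K₁
  have i5 : CompleteSpace K' := inferInstance
  let i6 : Algebra K K' := ((algebraMap K₁ K').comp (algebraMap K K₁)).toAlgebra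
  have i7 : CharZero K' := (RingHom.charZero_iff (algebraMap K K').injective).mp inferInstance
  have i8 : IsAlgClosed K' :=
    IsAlgClosed.of_denseRange (K := A) UniformSpace.Completion.denseRange_coe
  let i9 : NormedAlgebra K K' :=
    { i6 with
      norm_smul_le := fun r x => by
        change ‖algebraMap K₁ K' (algebraMap K K₁ r) * x‖ ≤ _
        rw [norm_mul, norm_algebraMap', norm_algebraMap'] }
  exact ⟨K', i3, i4, i5, i8, i7, i2, i9, IsScalarTower.of_algebraMap_eq fun _ => rfl⟩

theorem exists_Kp (K K₁ : Type) [NontriviallyNormedField K] [CharZero K]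
    [NontriviallyNormedField K₁] [IsUltrametricDist K₁] [CompleteSpace K₁] [NormedAlgebra K K₁] :
    ∃ (K' : Type) (_ : NontriviallyNormedField K') (_ : IsUltrametricDist K') (_ : CompleteSpace K')
      (_ : IsAlgClosed K') (_ : CharZero K') (_ : NormedAlgebra K₁ K') (_ : NormedAlgebra K K'),
      IsScalarTower K K₁ K' := by
  let _ : NormedField (AlgebraicClosure K₁) := spectralNorm.normedField K₁ (AlgebraicClosure K₁)
  let _ : NormedAlgebra K₁ (AlgebraicClosure K₁) :=
    spectralNorm.normedAlgebra K₁ (AlgebraicClosure K₁)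
  exact KP_compl K K₁ (AlgebraicClosure K₁)

variable {K K₁ K' : Type} [Field K] [NontriviallyNormedField K₁] [CompleteSpace K₁]
  [NontriviallyNormedField K'] [NormedAlgebra K₁ K'] [Algebra K K₁] [Algebra K K']

theorem fin_closed (L : IntermediateField K₁ K') [FiniteDimensional K₁ L] :
    IsClosed (L : Set K') := by
  have : FiniteDimensional K₁ (Subalgebra.toSubmodule L.toSubalgebra) :=
    (inferInstance : FiniteDimensional K₁ L)
  exact Submodule.closed_of_finiteDimensional (Subalgebra.toSubmodule L.toSubalgebra)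

omit [CompleteSpace K₁] in
theorem KP_aeval (d : Derivation K K₁ K₁)
    (δ : Derivation K K' K') (hδ : ∀ x, δ (algebraMap K₁ K' x) = algebraMap K₁ K' (d x))
    (L : IntermediateField K₁ K') {x : K'} (hx : x ∈ L) (P : Polynomial K₁) :
    δ (Polynomial.aeval x P) - Polynomial.aeval x (Polynomial.derivative P) * δ x ∈ L := by
  induction P using Polynomial.induction_on' with
  | add p q hp hq =>
    have := L.add_mem hp hq
    convert this using 1
    simp only [map_add]
    ring
  | monomial n a =>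
    have h1 : algebraMap K₁ K' (d a) * x ^ n ∈ L :=
      L.mul_mem (L.algebraMap_mem _) (pow_mem hx _)
    convert h1 using 1
    simp only [Polynomial.aeval_monomial, Polynomial.derivative_monomial, Derivation.leibniz,
      Derivation.leibniz_pow, hδ, smul_eq_mul, nsmul_eq_mul, map_mul, map_natCast]
    ring

theorem fin_der [CharZero K'] (d : Derivation K K₁ K₁) {C : ℝ} (hd : ∀ x, ‖d x‖ ≤ C * ‖x‖)
    (δ : Derivation K K' K') (hδ : ∀ x, δ (algebraMap K₁ K' x) = algebraMap K₁ K' (d x))
    (L : IntermediateField K₁ K') [FiniteDimensional K₁ L] :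
    (∀ x ∈ L, δ x ∈ L) ∧ ∃ C' : ℝ, 0 ≤ C' ∧ ∀ x ∈ L, ‖δ x‖ ≤ C' * ‖x‖ := by
  have hz : CharZero K₁ := (RingHom.charZero_iff (algebraMap K₁ K').injective).mpr inferInstance
  constructor
  · intro x hx
    have hi : IsIntegral K₁ x :=
      (Algebra.IsIntegral.isIntegral (R := K₁) (⟨x, hx⟩ : L)).map L.val
    have hs : (minpoly K₁ x).Separable := (minpoly.irreducible hi).separable
    have hne : Polynomial.aeval x (Polynomial.derivative (minpoly K₁ x)) ≠ 0 :=
      hs.aeval_derivative_ne_zero (minpoly.aeval K₁ x)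
    have h1 := KP_aeval d δ hδ L hx (minpoly K₁ x)
    rw [minpoly.aeval, map_zero, zero_sub] at h1
    have h2 : Polynomial.aeval x (Polynomial.derivative (minpoly K₁ x)) ∈ L := by
      have h := Polynomial.aeval_algHom_apply L.val (⟨x, hx⟩ : L)
        (Polynomial.derivative (minpoly K₁ x))
      have h' := (Polynomial.aeval (⟨x, hx⟩ : L) (Polynomial.derivative (minpoly K₁ x))).2
      exact h ▸ h'
    have h3 := L.mul_mem (L.inv_mem h2) (L.neg_mem h1)
    rwa [neg_neg, inv_mul_cancel_left₀ hne] at h3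
  · let e := Module.finBasis K₁ L
    have hC : 0 ≤ C := by
      have := (norm_nonneg _).trans (hd 1)
      simpa using this
    let φ : Fin (Module.finrank K₁ L) → L →L[K₁] K₁ := fun i =>
      LinearMap.toContinuousLinearMap (e.coord i)
    refine ⟨∑ i, (C * ‖φ i‖ * ‖(e i : K')‖ + ‖φ i‖ * ‖δ (e i)‖), by positivity, fun x hx => ?_⟩
    have h1 : x = ∑ i, algebraMap K₁ K' (φ i ⟨x, hx⟩) * (e i : K') := by
      have := congrArg L.val (e.sum_repr ⟨x, hx⟩)
      rw [map_sum] at this
      refine this.symm.trans (Finset.sum_congr rfl fun i _ => ?_)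
      rw [Algebra.smul_def, map_mul, AlgHom.commutes]
      rfl
    have h2 : δ x = ∑ i, (algebraMap K₁ K' (d (φ i ⟨x, hx⟩)) * (e i : K')
        + algebraMap K₁ K' (φ i ⟨x, hx⟩) * δ (e i)) := by
      conv_lhs => rw [h1]
      rw [map_sum]
      refine Finset.sum_congr rfl fun i _ => ?_
      rw [Derivation.leibniz, hδ, smul_eq_mul, smul_eq_mul]
      ring
    rw [h2, Finset.sum_mul]
    refine norm_sum_le_of_le _ fun i _ => (norm_add_le _ _).trans ?_
    have h3 : ‖φ i ⟨x, hx⟩‖ ≤ ‖φ i‖ * ‖x‖ := (φ i).le_opNorm ⟨x, hx⟩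
    have h4 : ‖d (φ i ⟨x, hx⟩)‖ ≤ C * (‖φ i‖ * ‖x‖) :=
      (hd _).trans (mul_le_mul_of_nonneg_left h3 hC)
    rw [norm_mul, norm_mul, norm_algebraMap', norm_algebraMap']
    calc _ ≤ C * (‖φ i‖ * ‖x‖) * ‖(e i : K')‖ + ‖φ i‖ * ‖x‖ * ‖δ (e i)‖ := by gcongr
      _ = _ := by ring

end Pool.Agent.Work.MP_e120ef_ag.H
end

-- merged part: Pool.Agent.Work.MP_e120ef_ag.H.Fr
section
/-! A copy of the fraction field with its own instances (much faster to elaborate). -/

namespace Pool.Agent.Work.MP_e120ef_ag.H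

/-- the fraction field -/
def Fr (R : Type) [CommRing R] : Type := FractionRing R

variable {R : Type} [CommRing R] [IsDomain R]

noncomputable instance : Field (Fr R) := inferInstanceAs (Field (FractionRing R))

noncomputable instance Fr.alg : Algebra R (Fr R) := inferInstanceAs (Algebra R (FractionRing R))

instance : IsFractionRing R (Fr R) := inferInstanceAs (IsFractionRing R (FractionRing R))

noncomputable instance (priority := low) Fr.alg' {k : Type} [Field k] [Algebra k R] :
    Algebra k (Fr R) := ((algebraMap R (Fr R)).comp (algebraMap k R)).toAlgebra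

instance {k : Type} [Field k] [Algebra k R] : IsScalarTower k R (Fr R) :=
  IsScalarTower.of_algebraMap_eq fun _ => rfl

instance {k k' : Type} [Field k] [Field k'] [Algebra k k'] [Algebra k R] [Algebra k' R]
    [IsScalarTower k k' R] : IsScalarTower k k' (Fr R) :=
  IsScalarTower.of_algebraMap_eq fun c =>
    congrArg (algebraMap R (Fr R)) (IsScalarTower.algebraMap_apply k k' R c)

end Pool.Agent.Work.MP_e120ef_ag.H
end

-- merged part: Pool.Agent.Work.MP_e120ef_ag.H.GN
section
/-!
# The Gauss norm on the Tate algebra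

Plans.  The family `‖coeff I F‖` tends to zero along `cofinite`, so it is bounded and attains its supremum on a finite set.
`gN_mul`: `MvPowerSeries.gaussNorm_mul_eq_mul` (radii `1`) with `i`, `j` the lexicographically largest exponents achieving the norms (`toLex`, `Finsupp.Lex`), or a direct proof with `antidiagonal_dominant`.
`T_complete`: the coefficients form Cauchy sequences, uniformly in `I`; the limit family tends to zero.
-/

open Filter Topology MvPowerSeries

namespace Pool.Agent.Work.MP_e120ef_ag.H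

variable {K : Type} [NontriviallyNormedField K] [IsUltrametricDist K] {n : ℕ}

/-- the Gauss norm -/
noncomputable def gN (F : T K n) : ℝ := ⨆ I, ‖coeff I F.1‖

theorem GN_mem {F : MvPowerSeries (Fin n) K} :
    F ∈ T K n ↔ Tendsto (fun I => ‖coeff I F‖) cofinite (𝓝 0) := by
  rw [mem_Res, IsRestricted]
  simp [Finsupp.prod]

theorem GN_fin (F : T K n) {ε : ℝ} (hε : 0 < ε) : {I | ε ≤ ‖coeff I F.1‖}.Finite := by
  have h := (GN_mem.1 F.2).eventually (gt_mem_nhds hε)
  rw [eventually_cofinite] at h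
  simpa only [not_lt] using h

theorem le_gN (F : T K n) (I : Fin n →₀ ℕ) : ‖coeff I F.1‖ ≤ gN F :=
  le_ciSup (GN_mem.1 F.2).bddAbove_range_of_cofinite I

theorem gN_nonneg (F : T K n) : 0 ≤ gN F := (norm_nonneg _).trans (le_gN F 0)

theorem gN_le {F : T K n} {C : ℝ} (h : ∀ I, ‖coeff I F.1‖ ≤ C) : gN F ≤ C := ciSup_le h

theorem gN_eq_zero {F : T K n} : gN F = 0 ↔ F = 0 := by
  constructor
  · intro h
    refine Subtype.ext (MvPowerSeries.ext fun I => ?_)
    have h1 := le_gN F I
    rw [h] at h1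
    exact norm_le_zero_iff.1 h1
  · rintro rfl
    exact le_antisymm (gN_le fun I => by simp) (gN_nonneg _)

theorem gN_add (F G : T K n) : gN (F + G) ≤ max (gN F) (gN G) := by
  refine gN_le fun I => ?_
  have e : coeff I (F + G).1 = coeff I F.1 + coeff I G.1 := map_add (coeff I) F.1 G.1
  rw [e]
  exact (IsUltrametricDist.norm_add_le_max _ _).trans (max_le_max (le_gN F I) (le_gN G I))

theorem gN_neg (F : T K n) : gN (-F) = gN F := by
  refine congrArg iSup (funext fun I => ?_)
  have e : coeff I (-F).1 = -coeff I F.1 := map_neg (coeff I) F.1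
  rw [e, norm_neg]

theorem GN_attain (F : T K n) : ∃ I, ‖coeff I F.1‖ = gN F := by
  rcases (gN_nonneg F).eq_or_lt with h | h
  · exact ⟨0, le_antisymm (le_gN F 0) (h ▸ norm_nonneg _)⟩
  have hf := GN_fin F (half_pos h)
  have hne : {I | gN F / 2 ≤ ‖coeff I F.1‖}.Nonempty := by
    by_contra h1
    have h2 : gN F ≤ gN F / 2 := gN_le fun I => by
      by_contra h3
      exact h1 ⟨I, (not_le.1 h3).le⟩
    linarith
  obtain ⟨I, hI, hm⟩ := Set.exists_max_image _ (fun I => ‖coeff I F.1‖) hf hne
  refine ⟨I, le_antisymm (le_gN F I) (gN_le fun J => ?_)⟩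
  by_cases hJ : gN F / 2 ≤ ‖coeff J F.1‖
  · exact hm J hJ
  · exact (not_le.1 hJ).le.trans hI

theorem GN_top {F : T K n} (h : 0 < gN F) :
    ∃ I, ‖coeff I F.1‖ = gN F ∧ ∀ J, toLex I < toLex J → ‖coeff J F.1‖ < gN F := by
  obtain ⟨I₀, h0⟩ := GN_attain F
  obtain ⟨I, hI, hm⟩ := Set.exists_max_image _ (fun I : Fin n →₀ ℕ => toLex I) (GN_fin F h) ⟨I₀, h0.ge⟩
  refine ⟨I, le_antisymm (le_gN F I) hI, fun J hJ => ?_⟩
  by_contra h1
  exact absurd (hm J (not_lt.1 h1)) (not_le.2 hJ)

theorem gN_mul (F G : T K n) : gN (F * G) = gN F * gN G := by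
  have e : (F * G).1 = F.1 * G.1 := rfl
  refine le_antisymm (gN_le fun I => ?_) ?_
  · rw [e, coeff_mul]
    refine IsUltrametricDist.norm_sum_le_of_forall_le_of_nonneg
      (mul_nonneg (gN_nonneg F) (gN_nonneg G)) fun p _ => ?_
    rw [norm_mul]
    exact mul_le_mul (le_gN F _) (le_gN G _) (norm_nonneg _) (gN_nonneg F)
  rcases (gN_nonneg F).eq_or_lt with hF | hF
  · rw [← hF, zero_mul]
    exact gN_nonneg _
  rcases (gN_nonneg G).eq_or_lt with hG | hG
  · rw [← hG, mul_zero]
    exact gN_nonneg _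
  obtain ⟨i, hi, hi'⟩ := GN_top hF
  obtain ⟨j, hj, hj'⟩ := GN_top hG
  have key := antidiagonal_dominant (fun x : K => ‖x‖) F.1 G.1 i j
    IsUltrametricDist.isNonarchimedean_norm norm_mul (fun a => (norm_neg a).symm) (by
      intro p hp hne
      rw [norm_mul, hi, hj]
      by_cases h1 : toLex i < toLex p.1
      · exact mul_lt_mul_of_lt_of_le_of_nonneg_of_pos (hi' _ h1) (le_gN G _) (norm_nonneg _) hG
      by_cases h2 : toLex j < toLex p.2
      · exact mul_lt_mul' (le_gN F _) (hj' _ h2) (norm_nonneg _) hF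
      have h7 : p.1 + p.2 = i + j := Finset.HasAntidiagonal.mem_antidiagonal.1 hp
      have h3 : toLex p.1 + toLex p.2 = toLex i + toLex j := congrArg toLex h7
      obtain ⟨h4, h5⟩ := (add_eq_add_iff_eq_and_eq (not_lt.1 h1) (not_lt.1 h2)).1 h3
      exact absurd (Prod.ext (toLex.injective h4) (toLex.injective h5)) hne)
  have h6 := le_gN (F * G) (i + j)
  rw [e, key, norm_mul, hi, hj] at h6
  exact h6

theorem gN_alg (c : K) : gN (algebraMap K (T K n) c) = ‖c‖ := by
  have e : (algebraMap K (T K n) c).1 = C c := rfl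
  refine le_antisymm (gN_le fun I => ?_) ?_
  · rw [e, coeff_C]
    split_ifs
    · exact le_rfl
    · simp
  · have h := le_gN (algebraMap K (T K n) c) 0
    rwa [e, coeff_zero_C] at h

theorem gN_X (l : Fin n) : gN (toT (MvPolynomial.X l) : T K n) = 1 := by
  have e : (toT (MvPolynomial.X l) : T K n).1 = X l := MvPolynomial.coe_X l
  refine le_antisymm (gN_le fun I => ?_) ?_
  · rw [e, coeff_X]
    split_ifs
    · simp
    · simp
  · have h := le_gN (toT (MvPolynomial.X l) : T K n) (Finsupp.single l 1)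
    rwa [e, coeff_index_single_self_X, norm_one] at h

theorem gN_pdT (l : Fin n) (F : T K n) : gN (pdT K l F) ≤ gN F := by
  refine gN_le fun I => ?_
  rw [pdT_val, coeff_pderiv, norm_mul]
  have h : ‖((I l : K) + 1)‖ ≤ 1 := by
    have := IsUltrametricDist.norm_natCast_le_one K (I l + 1)
    rwa [Nat.cast_succ] at this
  exact (mul_le_of_le_one_right (norm_nonneg _) h).trans (le_gN F _)

theorem gN_hc_le (F : T K n) (d : ℕ) : gN (toT (hc d F.1)) ≤ gN F := by
  refine gN_le fun I => ?_
  rw [toT_val, MvPolynomial.coeff_coe, coeff_hc]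
  split_ifs
  · exact le_gN F I
  · rw [norm_zero]
    exact gN_nonneg F

theorem exists_gN_hc (F : T K n) : ∃ d, gN (toT (hc d F.1)) = gN F := by
  obtain ⟨I, hI⟩ := GN_attain F
  refine ⟨I.degree, le_antisymm (gN_hc_le F _) ?_⟩
  have h := le_gN (toT (hc I.degree F.1) : T K n) I
  rwa [toT_val, MvPolynomial.coeff_coe, coeff_hc, if_pos rfl, hI] at h

theorem T_complete [CompleteSpace K] (u : ℕ → T K n)
    (hu : ∀ ε > 0, ∃ N, ∀ i ≥ N, ∀ j ≥ N, gN (u i - u j) < ε) :
    ∃ F : T K n, Tendsto (fun i => gN (u i - F)) atTop (𝓝 0) := by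
  have hs : ∀ (F G : T K n) I, coeff I (F - G).1 = coeff I F.1 - coeff I G.1 :=
    fun F G I => map_sub (coeff I) F.1 G.1
  have hc : ∀ I, ∃ a : K, Tendsto (fun i => coeff I (u i).1) atTop (𝓝 a) := by
    intro I
    refine cauchySeq_tendsto_of_complete (Metric.cauchySeq_iff.2 fun ε hε => ?_)
    obtain ⟨N, hN⟩ := hu ε hε
    refine ⟨N, fun i hi j hj => ?_⟩
    rw [dist_eq_norm, ← hs]
    exact (le_gN _ I).trans_lt (hN i hi j hj)
  choose a ha using hc
  have hb : ∀ ε > 0, ∃ N, ∀ i ≥ N, ∀ I, ‖coeff I (u i).1 - a I‖ ≤ ε := by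
    intro ε hε
    obtain ⟨N, hN⟩ := hu ε hε
    refine ⟨N, fun i hi I => le_of_tendsto ((ha I).const_sub (coeff I (u i).1)).norm ?_⟩
    filter_upwards [eventually_ge_atTop N] with j hj
    rw [← hs]
    exact ((le_gN _ I).trans_lt (hN i hi j hj)).le
  let F : MvPowerSeries (Fin n) K := a
  have hF : ∀ I, coeff I F = a I := fun _ => rfl
  have hm : F ∈ T K n := by
    refine GN_mem.2 (Metric.tendsto_nhds.2 fun ε hε => ?_)
    obtain ⟨N, hN⟩ := hb (ε / 2) (half_pos hε)
    filter_upwards [(GN_mem.1 (u N).2).eventually (gt_mem_nhds (half_pos hε))] with I hI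
    rw [dist_zero_right, norm_norm, hF]
    have h1 := hN N le_rfl I
    have h2 := norm_sub_le (coeff I (u N).1) (coeff I (u N).1 - a I)
    rw [sub_sub_cancel] at h2
    linarith
  refine ⟨⟨F, hm⟩, Metric.tendsto_atTop.2 fun ε hε => ?_⟩
  obtain ⟨N, hN⟩ := hb (ε / 2) (half_pos hε)
  refine ⟨N, fun i hi => ?_⟩
  rw [dist_zero_right, Real.norm_of_nonneg (gN_nonneg _)]
  refine lt_of_le_of_lt (gN_le fun I => ?_) (half_lt_self hε)
  rw [hs]
  exact hN i hi I

variable (K n) in
/-- the fraction field of the Tate algebra -/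
abbrev FT : Type := Fr (T K n)

/-- the Tate algebra in its fraction field -/
noncomputable abbrev imT (F : T K n) : FT K n := algebraMap (T K n) (FT K n) F

variable (K) in
/-- derivatives of fractions in one variable -/
noncomputable def pdF (l : Fin n) : Derivation K (FT K n) (FT K n) :=
  (frac_ext (F := FT K n) (pdT K l)).choose

theorem pdF_im (l : Fin n) (F : T K n) : pdF K l (imT F) = imT (pdT K l F) :=
  (frac_ext (F := FT K n) (pdT K l)).choose_spec F

theorem imT_inj : Function.Injective (imT : T K n → FT K n) := IsFractionRing.injective _ _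

theorem FT_rep (x : FT K n) : ∃ a b : T K n, b ≠ 0 ∧ x = imT a / imT b := by
  obtain ⟨a, b, hb, rfl⟩ := IsFractionRing.div_surjective (A := T K n) x
  exact ⟨a, b, nonZeroDivisors.ne_zero hb, rfl⟩

variable (K n) in
/-- the fractions regular at the origin -/
def O₀ : Subalgebra K (FT K n) where
  carrier := {x | ∃ a b : T K n, constantCoeff b.1 ≠ 0 ∧ imT b * x = imT a}
  mul_mem' := by
    rintro x y ⟨a, b, hb, h⟩ ⟨a', b', hb', h'⟩
    refine ⟨a * a', b * b', by simpa using ⟨hb, hb'⟩, ?_⟩
    simp only [imT, map_mul] at h h' ⊢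
    rw [← h, ← h']
    ring
  add_mem' := by
    rintro x y ⟨a, b, hb, h⟩ ⟨a', b', hb', h'⟩
    refine ⟨a * b' + a' * b, b * b', by simpa using ⟨hb, hb'⟩, ?_⟩
    simp only [imT, map_mul, map_add] at h h' ⊢
    rw [← h, ← h']
    ring
  algebraMap_mem' c := ⟨algebraMap K _ c, 1, by simp, by
    rw [imT, imT, map_one, one_mul, ← IsScalarTower.algebraMap_apply]⟩

theorem mem_O₀ {x : FT K n} :
    x ∈ O₀ K n ↔ ∃ a b : T K n, constantCoeff b.1 ≠ 0 ∧ imT b * x = imT a := Iff.rfl

end Pool.Agent.Work.MP_e120ef_ag.H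
end

-- merged part: Pool.Agent.Work.MP_e120ef_ag.H.Gauss
section
/-!
# The field of the Gauss point

Plans.  `exists_GD`: the Gauss norm extends to a nonarchimedean `AbsoluteValue (FT K n) ℝ` `v` (`gN a / gN b`; or `IsFractionRing`-lifting of the monoid hom); `K₁ = v.Completion`
(`AbsoluteValue.Completion`, `WithAbs`, a `NormedField`; give it the `NontriviallyNormedField`, `IsUltrametricDist` and `NormedAlgebra K` structures; `UniformSpace.Completion.instNormedField`, `Completion.norm_coe`, `Completion.coeRingHom`, `Completion.algebra`).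
`v (pdF l x) ≤ v x` (quotient rule, `gN_pdT`), so `pdF l` is a bounded additive map and extends to the completion (`UniformSpace.Completion.map`, `AddMonoidHom.completion` or `NormedAddGroupHom.completion`); linearity, Leibniz and the bound extend by density (`Completion.induction_on₂`).
`closed`: `isClosed` by sequences and `T_complete`.  `evT`: the partial sums of `hasSum_ev` are images of elements `γ_S` of `T`; the sum is `t γ` by `closed`; `‖constantCoeff (γ - γ_S)‖ ≤ gN (γ - γ_S) = ‖t γ - t γ_S‖ → 0`.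
`gn_lT`: `coef_line`, `lc_mul`; the coefficient at `-d` is the image of `toT (hc d F)`, of norm `gN (toT (hc d F))`; `gN_hc_le`, `exists_gN_hc`.
-/

open Filter Topology MvPowerSeries

namespace Pool.Agent.Work.MP_e120ef_ag.H

open UniformSpace in
theorem Gauss_compl (K F : Type) [NontriviallyNormedField K] [NormedField F] [IsUltrametricDist F]
    [NormedAlgebra K F] : ∃ (K₁ : Type) (_ : NontriviallyNormedField K₁) (_ : IsUltrametricDist K₁)
    (_ : CompleteSpace K₁) (_ : NormedAlgebra K K₁) (τ : F →ₐ[K] K₁), (∀ x, ‖τ x‖ = ‖x‖) ∧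
    ∀ D : Derivation K F F, (∀ x, ‖D x‖ ≤ ‖x‖) →
      ∃ d : Derivation K K₁ K₁, (∀ x, d (τ x) = τ (D x)) ∧ ∀ x, ‖d x‖ ≤ ‖x‖ := by
  have hnt : ∃ x : Completion F, 1 < ‖x‖ := by
    obtain ⟨c, hc⟩ := NormedField.exists_one_lt_norm K
    exact ⟨algebraMap K _ c, by rwa [norm_algebraMap']⟩
  have hu : IsUltrametricDist (Completion F) := by
    refine IsUltrametricDist.isUltrametricDist_of_forall_norm_add_le_max_norm fun x y => ?_
    induction x, y using Completion.induction_on₂ with
    | hp => apply isClosed_le <;> fun_prop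
    | ih x y =>
      simpa only [← Completion.coe_add, Completion.norm_coe] using
        IsUltrametricDist.norm_add_le_max x y
  refine ⟨Completion F, { (inferInstance : NormedField (Completion F)) with non_trivial := hnt }, hu,
    inferInstance, (inferInstance : NormedAlgebra K (Completion F)),
    { Completion.coeRingHom with commutes' := fun c => rfl }, fun x => Completion.norm_coe x,
    fun D hD => ?_⟩
  let L : F →L[K] F := D.toLinearMap.mkContinuous 1 fun x => by rw [one_mul]; exact hD x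
  have hL : ∀ x : F, L.completion (x : Completion F) = (D x : F) := fun x =>
    L.completion_apply_coe x
  have hc : Continuous L.completion := L.completion.continuous
  refine ⟨Derivation.mk' L.completion.toLinearMap fun x y => ?_, hL, fun x => ?_⟩
  · change L.completion (x * y) = x * L.completion y + y * L.completion x
    induction x, y using Completion.induction_on₂ with
    | hp => apply isClosed_eq <;> fun_prop
    | ih x y =>
      rw [← Completion.coe_mul, hL, hL, hL, D.leibniz, smul_eq_mul, smul_eq_mul,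
        Completion.coe_add, Completion.coe_mul, Completion.coe_mul]
  · change ‖L.completion x‖ ≤ ‖x‖
    induction x using Completion.induction_on with
    | hp => apply isClosed_le <;> fun_prop
    | ih x => rw [hL, Completion.norm_coe, Completion.norm_coe]; exact hD x

theorem Gauss_abs {R : Type} (F : Type) [CommRing R] [IsDomain R] [Field F] [Algebra R F]
    [IsFractionRing R F] (N : R → ℝ) (h0 : ∀ a, 0 ≤ N a) (hz : ∀ a, N a = 0 ↔ a = 0)
    (ha : ∀ a b, N (a + b) ≤ max (N a) (N b)) (hm : ∀ a b, N (a * b) = N a * N b) :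
    ∃ v : AbsoluteValue F ℝ, (∀ a, v (algebraMap R F a) = N a) ∧
      ∀ x y, v (x + y) ≤ max (v x) (v y) := by
  have rep : ∀ x : F, ∃ a b : R, b ≠ 0 ∧ x = algebraMap R F a / algebraMap R F b := fun x => by
    obtain ⟨a, b, hb, rfl⟩ := IsFractionRing.div_surjective (A := R) x
    exact ⟨a, b, nonZeroDivisors.ne_zero hb, rfl⟩
  choose p q hq hpq using rep
  have inj := IsFractionRing.injective R F
  have ne : ∀ {b : R}, b ≠ 0 → algebraMap R F b ≠ 0 := fun hb =>
    (map_ne_zero_iff _ inj).2 hb
  have pos : ∀ {b : R}, b ≠ 0 → 0 < N b := fun hb => (h0 _).lt_of_ne' fun e => hb ((hz _).1 e)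
  let v : F → ℝ := fun x => N (p x) / N (q x)
  have key : ∀ (a : R) {b : R}, b ≠ 0 → v (algebraMap R F a / algebraMap R F b) = N a / N b := by
    intro a b hb
    have h := hpq (algebraMap R F a / algebraMap R F b)
    rw [div_eq_div_iff (ne hb) (ne (hq _)), ← map_mul, ← map_mul] at h
    have h2 := congrArg N (inj h)
    rw [hm, hm] at h2
    exact (div_eq_div_iff (pos (hq _)).ne' (pos hb).ne').2 h2.symm
  have hadd : ∀ x y, v (x + y) ≤ max (v x) (v y) := by
    intro x y
    have e : x + y = algebraMap R F (p x * q y + q x * p y) / algebraMap R F (q x * q y) := by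
      rw [map_add, map_mul, map_mul, map_mul, ← div_add_div _ _ (ne (hq x)) (ne (hq y)), ← hpq,
        ← hpq]
    have hx := pos (hq x)
    have hy := pos (hq y)
    rw [e, key _ (mul_ne_zero (hq x) (hq y)), hm, div_le_iff₀ (mul_pos hx hy),
      max_mul_of_nonneg _ _ (mul_pos hx hy).le]
    refine (ha _ _).trans (max_le_max (le_of_eq ?_) (le_of_eq ?_))
    · rw [hm]; simp only [v]; field_simp
    · rw [hm]; simp only [v]; field_simp
  have hv0 : ∀ x, 0 ≤ v x := fun x => div_nonneg (h0 _) (h0 _)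
  have h1 : N 1 = 1 := by
    have := hm 1 1
    rw [mul_one] at this
    exact (mul_eq_left₀ (pos one_ne_zero).ne').1 this.symm
  refine ⟨⟨⟨v, fun x y => ?_⟩, hv0, fun x => ?_, fun x y => ?_⟩, fun a => ?_, hadd⟩
  · have e : x * y = algebraMap R F (p x * p y) / algebraMap R F (q x * q y) := by
      rw [map_mul, map_mul, ← div_mul_div_comm, ← hpq, ← hpq]
    rw [e, key _ (mul_ne_zero (hq x) (hq y)), hm, hm, ← div_mul_div_comm]
  · change N (p x) / N (q x) = 0 ↔ x = 0
    rw [div_eq_zero_iff, or_iff_left (pos (hq x)).ne', hz]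
    conv_rhs => rw [hpq x]
    rw [div_eq_zero_iff, or_iff_left (ne (hq x)), map_eq_zero_iff _ inj]
  · exact (hadd x y).trans (max_le (le_add_of_nonneg_right (hv0 _)) (le_add_of_nonneg_left (hv0 _)))
  · have := key a one_ne_zero
    rwa [map_one, div_one, h1, div_one] at this

theorem Gauss_der {K R F : Type} [CommRing K] [CommRing R] [IsDomain R] [Field F] [Algebra R F]
    [IsFractionRing R F] [Algebra K F] (v : AbsoluteValue F ℝ)
    (hv : ∀ x y, v (x + y) ≤ max (v x) (v y)) (D : Derivation K F F)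
    (h : ∀ a : R, v (D (algebraMap R F a)) ≤ v (algebraMap R F a)) (x : F) : v (D x) ≤ v x := by
  obtain ⟨a, b, hb, rfl⟩ := IsFractionRing.div_surjective (A := R) x
  have hb' : algebraMap R F b ≠ 0 :=
    (map_ne_zero_iff _ (IsFractionRing.injective R F)).2 (nonZeroDivisors.ne_zero hb)
  have ha := h a
  have hb2 := h b
  generalize algebraMap R F a = s at *
  generalize algebraMap R F b = t at *
  have e : D (s / t) = D s / t + -(s / t * (D t / t)) := by
    rw [D.leibniz_div, smul_eq_mul, smul_eq_mul, smul_eq_mul]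
    field_simp
    ring
  have ht : 0 < v t := v.pos hb'
  rw [e]
  refine (hv _ _).trans (max_le ?_ ?_)
  · rw [map_div₀, map_div₀]
    gcongr
  · rw [v.map_neg, map_mul]
    refine mul_le_of_le_one_right (v.nonneg _) ?_
    rw [map_div₀]
    exact (div_le_one ht).2 hb2

variable (K : Type) [NontriviallyNormedField K] [IsUltrametricDist K] (n : ℕ)

/-- A complete valued field containing the Tate algebra isometrically, with the partial
derivatives. -/
structure GD (K₁ : Type) [NontriviallyNormedField K₁] [NormedAlgebra K K₁] where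
  τ : FT K n →ₐ[K] K₁
  norm_τ : ∀ F : T K n, ‖τ (imT F)‖ = gN F
  d : Fin n → Derivation K K₁ K₁
  d_τ : ∀ l x, d l (τ x) = τ (pdF K l x)
  d_le : ∀ l x, ‖d l x‖ ≤ ‖x‖

theorem exists_GD : ∃ (K₁ : Type) (_ : NontriviallyNormedField K₁) (_ : IsUltrametricDist K₁)
    (_ : CompleteSpace K₁) (_ : NormedAlgebra K K₁), Nonempty (GD K n K₁) := by
  obtain ⟨v, hv, hu⟩ := Gauss_abs (FT K n) (gN (K := K) (n := n)) gN_nonneg
    (fun _ => gN_eq_zero) gN_add gN_mul
  have hD : ∀ l x, v (pdF K l x) ≤ v x := fun l =>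
    Gauss_der (R := T K n) v hu _ fun a => by
      rw [pdF_im, hv, hv]
      exact gN_pdT l a
  let : NormedField (FT K n) := v.toNormedField
  have : IsUltrametricDist (FT K n) :=
    IsUltrametricDist.isUltrametricDist_of_forall_norm_add_le_max_norm hu
  let : NormedAlgebra K (FT K n) :=
    { norm_smul_le := fun c x => by
        change v (c • x) ≤ ‖c‖ * v x
        rw [Algebra.smul_def, map_mul, IsScalarTower.algebraMap_apply K (T K n), hv, gN_alg] }
  obtain ⟨K₁, i1, i2, i3, i4, τ, h1, h2⟩ := Gauss_compl K (FT K n)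
  choose d hd hd' using fun l => h2 (pdF K l) (hD l)
  exact ⟨K₁, i1, i2, i3, i4, ⟨⟨τ, fun F => (h1 _).trans (hv F), d, hd, hd'⟩⟩⟩

variable {K n} {K₁ : Type} [NontriviallyNormedField K₁] [IsUltrametricDist K₁] [CompleteSpace K₁]
  [NormedAlgebra K K₁] (Γ : GD K n K₁)

namespace GD

/-- the Tate algebra in `K₁` -/
noncomputable def t : T K n →ₐ[K] K₁ := Γ.τ.comp (IsScalarTower.toAlgHom K (T K n) (FT K n))

omit [IsUltrametricDist K₁] [CompleteSpace K₁] in
theorem t_apply (F : T K n) : Γ.t F = Γ.τ (imT F) := rfl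

/-- the coordinates of the Gauss point -/
noncomputable def w (l : Fin n) : K₁ := Γ.t (toT (MvPolynomial.X l))

omit [IsUltrametricDist K₁] [CompleteSpace K₁] in
theorem norm_w (l : Fin n) : ‖Γ.w l‖ = 1 := (Γ.norm_τ _).trans (gN_X l)

omit [IsUltrametricDist K₁] [CompleteSpace K₁] in
theorem Gauss_norm_t (F : T K n) : ‖Γ.t F‖ = gN F := Γ.norm_τ F

omit [IsUltrametricDist K₁] [CompleteSpace K₁] in
theorem t_toT (Q : MvPolynomial (Fin n) K) : Γ.t (toT Q) = MvPolynomial.aeval Γ.w Q := by
  refine DFunLike.congr_fun (?_ : Γ.t.comp toT = MvPolynomial.aeval Γ.w) Q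
  exact MvPolynomial.algHom_ext fun i => (MvPolynomial.aeval_X Γ.w i).symm

omit [IsUltrametricDist K₁] [CompleteSpace K₁] in
theorem t_inj : Function.Injective Γ.t := by
  refine (injective_iff_map_eq_zero _).2 fun F h => gN_eq_zero.1 ?_
  rw [← Γ.Gauss_norm_t, h, norm_zero]

omit [IsUltrametricDist K₁] [CompleteSpace K₁] in
theorem w_indep : AlgebraicIndependent K Γ.w := by
  refine algebraicIndependent_iff.2 fun Q h => toT_inj (Γ.t_inj ?_)
  rw [t_toT, h, map_zero, map_zero]

omit [IsUltrametricDist K₁] [CompleteSpace K₁] in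
theorem d_w (l i : Fin n) : Γ.d l (Γ.w i) = if i = l then 1 else 0 := by
  rw [w, t_apply, Γ.d_τ, pdF_im, pdT_toT, ← t_apply, t_toT, MvPolynomial.pderiv_X, Pi.single_apply]
  split_ifs <;> simp

theorem closed [CompleteSpace K] : IsClosed (Set.range Γ.t) := by
  refine IsSeqClosed.isClosed fun x y hx hy => ?_
  choose u hu using hx
  obtain ⟨F, hF⟩ := T_complete u fun ε hε => by
    obtain ⟨N, hN⟩ := Metric.cauchySeq_iff.1 hy.cauchySeq ε hε
    refine ⟨N, fun i hi j hj => ?_⟩
    rw [← Γ.Gauss_norm_t, map_sub, hu, hu, ← dist_eq_norm]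
    exact hN i hi j hj
  refine ⟨F, tendsto_nhds_unique ?_ hy⟩
  rw [tendsto_iff_norm_sub_tendsto_zero]
  refine hF.congr fun i => ?_
  rw [← Γ.Gauss_norm_t, map_sub, hu]

theorem evT [CompleteSpace K] {r : ℕ} (a : Ent K (Fin r)) (β : Fin r → T K n) :
    ∃ γ : T K n, Γ.t γ = evE (fun i => Γ.t (β i)) a ∧
      constantCoeff γ.1 = evE (fun i => constantCoeff (β i).1) a := by
  let c : T K n →ₐ[K] K :=
    { (constantCoeff (σ := Fin n) (R := K)).comp (T K n).val.toRingHom with
      commutes' := fun x => (constantCoeff_C x : constantCoeff (σ := Fin n) (C x) = x) }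
  let g : Finset (Fin r →₀ ℕ) → T K n := fun S =>
    ∑ I ∈ S, algebraMap K (T K n) (coeff I a.1) * mon β I
  have hg : ∀ {L : Type} [CommRing L] [Algebra K L] (φ : T K n →ₐ[K] L) (S : Finset (Fin r →₀ ℕ)),
      φ (g S) = ∑ I ∈ S, algebraMap K L (coeff I a.1) * mon (fun i => φ (β i)) I := by
    intro L _ _ φ S
    simp only [g, map_sum, map_mul, AlgHom.commutes, mon, map_finsuppProd, map_pow]
  have h1 : Tendsto (fun S => Γ.t (g S)) atTop (𝓝 (evE (fun i => Γ.t (β i)) a)) := by
    simp only [hg]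
    exact hasSum_ev (F := a.1) (z := fun i => Γ.t (β i)) (a.2 _)
  have h2 : Tendsto (fun S => c (g S)) atTop (𝓝 (evE (fun i => c (β i)) a)) := by
    simp only [hg]
    exact hasSum_ev (F := a.1) (z := fun i => c (β i)) (a.2 _)
  obtain ⟨γ, hγ⟩ := Γ.closed.mem_of_tendsto h1 (Eventually.of_forall fun S => ⟨g S, rfl⟩)
  refine ⟨γ, hγ, tendsto_nhds_unique (?_ : Tendsto (fun S => c (g S)) atTop (𝓝 (c γ))) h2⟩
  rw [← hγ, tendsto_iff_norm_sub_tendsto_zero] at h1
  rw [tendsto_iff_norm_sub_tendsto_zero]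
  refine squeeze_zero (fun _ => norm_nonneg _) (fun S => ?_) h1
  rw [← map_sub, ← map_sub, Γ.Gauss_norm_t]
  exact le_gN (g S - γ) 0

variable (K' : Type) [NontriviallyNormedField K'] [IsUltrametricDist K'] [CompleteSpace K']
  [NormedAlgebra K₁ K'] [NormedAlgebra K K'] [IsScalarTower K K₁ K']

/-- the coordinates of the Gauss point in a larger field -/
noncomputable def w' (l : Fin n) : K' := algebraMap K₁ K' (Γ.w l)

omit [IsUltrametricDist K₁] [CompleteSpace K₁] [IsUltrametricDist K'] [CompleteSpace K']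
  [NormedAlgebra K K'] [IsScalarTower K K₁ K'] in
theorem norm_w' (l : Fin n) : ‖Γ.w' K' l‖ = 1 := (norm_algebraMap' K' _).trans (Γ.norm_w l)

omit [IsUltrametricDist K₁] [CompleteSpace K₁] [IsUltrametricDist K'] [CompleteSpace K'] in
theorem w'_indep (ρ : K) (hρ : ρ ≠ 0) : AlgebraicIndependent K fun l => ρ • Γ.w' K' l := by
  have h1 : AlgebraicIndependent K (Γ.w' K') :=
    Γ.w_indep.map' (f := IsScalarTower.toAlgHom K K₁ K') (algebraMap K₁ K').injective
  refine algebraicIndependent_iff_injective_aeval.2 ?_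
  have e : (MvPolynomial.aeval fun l => ρ • Γ.w' K' l : MvPolynomial (Fin n) K →ₐ[K] K') =
      (MvPolynomial.aeval (Γ.w' K')).comp (MvPolynomial.aeval fun l => ρ • MvPolynomial.X l) :=
    MvPolynomial.algHom_ext fun l => by simp
  rw [e, AlgHom.coe_comp]
  refine (algebraicIndependent_iff_injective_aeval.1 h1).comp
    (Function.LeftInverse.injective (g := MvPolynomial.aeval fun l => ρ⁻¹ • MvPolynomial.X l)
      fun Q => ?_)
  refine DFunLike.congr_fun (?_ : (MvPolynomial.aeval fun l => ρ⁻¹ • MvPolynomial.X l).comp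
    (MvPolynomial.aeval fun l => ρ • MvPolynomial.X l) = AlgHom.id K (MvPolynomial (Fin n) K)) Q
  exact MvPolynomial.algHom_ext fun l => by simp [smul_smul, hρ]

/-- the Tate algebra along the generic line `t ↦ w / t` -/
noncomputable def lT : T K n →ₐ[K] L1 K' Rad.out :=
  lineR _ (Γ.w' K') fun l => (Γ.norm_w' K' l).le

theorem lT_inj [IsAlgClosed K'] : Function.Injective (Γ.lT K') := by
  unfold lT lineR
  refine line_inj ?_
  simpa only [one_smul] using Γ.w'_indep K' 1 one_ne_zero

omit [IsUltrametricDist K₁] [CompleteSpace K₁] [IsScalarTower K K₁ K'] in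
theorem Gauss_coef [IsAlgClosed K'] (F : T K n) (m : ℤ) :
    coef (Γ.lT K' F) m = lc F.1 (Γ.w' K') (-1) m := by
  unfold lT lineR
  exact coef_line F m

theorem gn_lT [IsAlgClosed K'] (F : T K n) : gn (Pt1.one K' Rad.out) (Γ.lT K' F) = gN F := by
  have h1 : ∀ m : ℤ, ‖coef (Γ.lT K' F) m * (Pt1.one K' Rad.out).v ^ m‖ =
      ‖lc F.1 (Γ.w' K') (-1) m‖ := fun m => by
    rw [Γ.Gauss_coef, Pt1.v, Pt1.one_val, Units.val_one, one_zpow, mul_one]
  have h2 : ∀ d : ℕ, ‖lc F.1 (Γ.w' K') (-1) (-1 * d)‖ = gN (toT (hc d F.1)) := fun d => by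
    rw [lc_mul _ _ (by decide), ← Γ.Gauss_norm_t, t_toT,
      ← norm_algebraMap' K' (MvPolynomial.aeval Γ.w _),
      ← MvPolynomial.aeval_algebraMap_apply]
    rfl
  refine le_antisymm (gn_le _ _ fun m => ?_) ?_
  · rw [h1]
    by_cases h : ∃ d : ℕ, m = -1 * d
    · obtain ⟨d, rfl⟩ := h
      rw [h2]
      exact gN_hc_le F d
    · rw [lc_of_not _ _ fun d hd => h ⟨d, hd⟩, norm_zero]
      exact gN_nonneg F
  · obtain ⟨d, hd⟩ := exists_gN_hc F
    rw [← hd, ← h2, ← h1]
    exact le_gn _ _ _

theorem coef_lT_zero [IsAlgClosed K'] (F : T K n) :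
    coef (Γ.lT K' F) 0 = algebraMap K K' (constantCoeff F.1) := by
  have := lc_mul F.1 (Γ.w' K') (k := -1) (by decide) 0
  rw [hc_zero, MvPolynomial.aeval_C] at this
  rw [Γ.Gauss_coef, ← this]
  rfl

theorem coef_lT_pos [IsAlgClosed K'] (F : T K n) {m : ℤ} (hm : 0 < m) :
    coef (Γ.lT K' F) m = 0 := by
  rw [Γ.Gauss_coef]
  exact lc_of_not _ _ fun d hd => by omega

end GD

end Pool.Agent.Work.MP_e120ef_ag.H
end
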