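import Pool.Agent.Work.MP_e120ef_ag.H.Line
import Pool.Agent.Work.MP_e120ef_ag.Nev

attribute [-instance] Subalgebra.normedCommRing Subalgebra.seminormedCommRing
  Subalgebra.seminormedRing Subalgebra.normedRing
  Localization.subalgebra.instIsFractionRingSubtypeMemSubalgebra
attribute [local instance 2000] RingHomClass.toAddMonoidHomClass AddMonoidHomClass.toAddHomClass
  RingHom.instRingHomClass AlgHomClass.toRingHomClass IsDomain.to_noZeroDivisors
  IsDomain.toNontrivial NeZero.one RingHomClass.toMonoidHomClass MonoidHomClass.toMulHomClass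
  RingHomClass.toMonoidWithZeroHomClass AddMonoidHomClass.toZeroHomClass MonoidHomClass.toOneHomClass
attribute [-instance] instCharZeroOfIsSemireal AlgHom.instContinuousLinearMapClassOfAlgHomClass
  RingHomClass.toLinearMapClassRat RingHomClass.toLinearMapClassNNRat NumberField.to_charZero

-- merged part: Pool.Agent.Work.MP_e120ef_ag.H.Div
section
/-!
# Dividing out zeros

Plans.  `exists_div`: `b n = ∑' k, if n < k then a k * c ^ (k - n - 1) else 0 = - ∑' k, if k ≤ n then a k * c ^ (k - n - 1) else 0` (the difference is `c ^ (-n-1) f c = 0`),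
`b (n-1) - c * b n = a n`.  At a point `w`: if `‖c‖ ≤ ‖w‖` then `‖b n w ^ n‖ ≤ sup_{k > n} ‖a k w ^ k‖ / ‖w‖` (first form; use it for `n → +∞`) and for `n ≤ 0`
`‖b n w ^ n‖ ≤ sup_{k ≤ n} ‖a k c ^ k‖ / ‖c‖` (second form); symmetrically if `‖w‖ ≤ ‖c‖`.  `NonarchimedeanAddGroup.summable_of_tendsto_cofinite_zero`; `g w = ∑' b n w ^ n`; shift the index with `Equiv.addRight`.
`isTop_lin_mul`, `isBot_lin_mul`: `coef_lin_mul`, `gn_mul`, `gn_lin`, ultrametric inequality with different norms.  `bot_le_top`: if `n₂ < n₁` compare the two terms at both radii.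
`factor`: induction on `(top at w₂) - (bot at w₁)`, which drops by one at each division.
-/

open Filter Topology

namespace Pool.Agent.Work.MP_e120ef_ag.H

variable {K : Type} [NontriviallyNormedField K] [IsUltrametricDist K] [IsAlgClosed K]
  [CompleteSpace K] {P : Rad}

theorem Div_between {r x ε : ℝ} (hr : 0 < r) (hx : 0 ≤ x) {k n : ℤ}
    (h : (0 ≤ n ∧ n ≤ k) ∨ (k ≤ n ∧ n ≤ 0)) (h1 : x ≤ ε) (h2 : x * r ^ k ≤ ε) : x * r ^ n ≤ ε := by
  have h3 : r ^ n ≤ 1 ∨ r ^ n ≤ r ^ k := by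
    rcases le_total r 1 with h4 | h4 <;> rcases h with h | h
    · exact Or.inl (zpow_le_one₀ hr h4 h.1)
    · exact Or.inr (zpow_le_zpow_right_of_le_one₀ hr h4 h.1)
    · exact Or.inr (zpow_le_zpow_right₀ h4 h.2)
    · exact Or.inl (zpow_le_one_of_nonpos₀ h4 h.2)
  rcases h3 with h3 | h3
  · exact (mul_le_of_le_one_right hx h3).trans h1
  · exact (mul_le_mul_of_nonneg_left h3 hx).trans h2

omit [IsAlgClosed K] [CompleteSpace K] in
theorem Div_bound {u : ℤ → K} {ρ : K} (hρ : ρ ≠ 0) {ε : ℝ} (hε : 0 < ε) (p : ℤ → Prop)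
    [DecidablePred p] {n : ℤ} (h : ∀ k, p k → ((0 ≤ n ∧ n ≤ k) ∨ (k ≤ n ∧ n ≤ 0)) ∧
      ‖u k‖ ≤ ε ∧ ‖u k * ρ ^ k‖ ≤ ε) : ‖(∑' k, if p k then u k else 0) * ρ ^ n‖ ≤ ε := by
  rw [← tsum_mul_right]
  refine IsUltrametricDist.norm_tsum_le_of_forall_le_of_nonneg hε.le fun k => ?_
  split_ifs with hk
  · obtain ⟨h1, h2, h3⟩ := h k hk
    rw [norm_mul, norm_zpow] at h3 ⊢
    exact Div_between (norm_pos_iff.2 hρ) (norm_nonneg _) h1 h2 h3
  · rw [zero_mul, norm_zero]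
    exact hε.le

omit [IsAlgClosed K] in
theorem Div_tail {u : ℤ → K} (hu : HasSum u 0) : ∃ U : ℤ → K, (∀ n, U (n - 1) = u n + U n) ∧
    ∀ ρ : K, ρ ≠ 0 → Tendsto (fun k => u k * ρ ^ k) cofinite (𝓝 0) →
      Tendsto (fun n => U n * ρ ^ n) cofinite (𝓝 0) := by
  have h0 := hu.summable.tendsto_cofinite_zero
  have hs : ∀ (p : ℤ → Prop) [DecidablePred p], Summable fun k => if p k then u k else 0 :=
    fun p _ => (hu.summable.indicator {k | p k}).congr fun k => by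
      simp [Set.indicator_apply]
  refine ⟨fun n => ∑' k, if n < k then u k else 0, fun n => ?_, fun ρ hρ h1 => ?_⟩
  · rw [← tsum_ite_eq n u, ← ((hs (· = n)).tsum_add (hs _))]
    refine tsum_congr fun k => ?_
    split_ifs <;> first | omega | simp
  · have e : ∀ n, (∑' k, if n < k then u k else 0) = -∑' k, if k ≤ n then u k else 0 := fun n => by
      rw [eq_neg_iff_add_eq_zero, ← (hs _).tsum_add (hs _)]
      refine (tsum_congr fun k => ?_).trans hu.tsum_eq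
      split_ifs <;> first | omega | simp
    rw [Metric.nhds_basis_closedBall.tendsto_right_iff] at h0 h1 ⊢
    intro ε hε
    have h2 := (h0 ε hε).and (h1 ε hε)
    simp only [mem_closedBall_zero_iff, Int.cofinite_eq, eventually_sup] at h2 ⊢
    obtain ⟨N, hN⟩ := eventually_atBot.1 h2.1
    obtain ⟨M, hM⟩ := eventually_atTop.1 h2.2
    refine ⟨eventually_atBot.2 ⟨min N 0, fun n hn => ?_⟩,
      eventually_atTop.2 ⟨max M 0, fun n hn => ?_⟩⟩
    · rw [e, neg_mul, norm_neg]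
      exact Div_bound hρ hε _ fun k hk => ⟨by omega, hN k (by omega)⟩
    · exact Div_bound hρ hε _ fun k hk => ⟨by omega, hM k (by omega)⟩

omit [IsAlgClosed K] in
theorem exists_div {f : L1 K P} {c : Pt1 K P} (h : f.1 c = 0) : ∃ g, f = lin c.v * g := by
  have hc : c.v ≠ 0 := c.1.ne_zero
  obtain ⟨U, U1, U2⟩ := Div_tail (u := fun k => coef f k * c.v ^ k) (h ▸ hasSum_coef f c)
  have hs : ∀ t : Pt1 K P, Summable fun n : ℤ => U n * c.v ^ (-n - 1) * t.v ^ n := fun t => by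
    refine NonarchimedeanAddGroup.summable_of_tendsto_cofinite_zero ?_
    have h1 := (U2 (t.v / c.v) (div_ne_zero t.1.ne_zero hc) ((tendsto_coef f t).congr fun k => by
      rw [div_zpow, mul_assoc, mul_div_cancel₀ _ (zpow_ne_zero k hc)])).mul_const c.v⁻¹
    rw [zero_mul] at h1
    refine h1.congr fun n => ?_
    rw [zpow_sub_one₀ hc, zpow_neg, div_zpow]
    ring
  refine ⟨⟨fun t => ∑' n : ℤ, U n * c.v ^ (-n - 1) * t.v ^ n, _, fun t => (hs t).hasSum⟩,
    Subtype.ext (funext fun t => ?_)⟩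
  have ht : t.v ≠ 0 := t.1.ne_zero
  have h1 := ((Equiv.subRight (1 : ℤ)).hasSum_iff.2 ((hs t).hasSum.mul_left t.v)).sub
    ((hs t).hasSum.mul_left c.v)
  rw [← sub_mul] at h1
  have e : (fun n : ℤ => coef f n * t.v ^ n) = fun b =>
      ((fun i => t.v * (U i * c.v ^ (-i - 1) * t.v ^ i)) ∘ Equiv.subRight (1 : ℤ)) b -
        c.v * (U b * c.v ^ (-b - 1) * t.v ^ b) := funext fun n => by
    rw [Function.comp_apply, Equiv.subRight_apply, U1, show -(n - 1) - 1 = -n by ring,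
      zpow_sub_one₀ hc, zpow_sub_one₀ ht, zpow_neg]
    have := zpow_ne_zero n hc
    field_simp
    ring
  exact (e ▸ hasSum_coef f t).unique h1

theorem lin_ne_zero (c : K) : (lin c : L1 K P) ≠ 0 := by
  intro h
  have h1 := gn_lin (P := P) (Pt1.one K P) c
  rw [h, gn_zero] at h1
  exact absurd (h1 ▸ le_max_left _ _) (not_le.2 (norm_pos_iff.2 (Units.ne_zero _)))

omit [IsAlgClosed K] [CompleteSpace K] in
theorem Div_lt {a b : K} {M : ℝ} (ha : ‖a‖ < M) (hb : ‖b‖ < M) : ‖a - b‖ < M := by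
  rw [sub_eq_add_neg]
  exact (IsUltrametricDist.norm_add_le_max _ _).trans_lt (max_lt ha (by rwa [norm_neg]))

omit [IsAlgClosed K] [CompleteSpace K] in
theorem Div_eq_l {a b : K} {M : ℝ} (ha : ‖a‖ = M) (hb : ‖b‖ < M) : ‖a - b‖ = M := by
  rw [sub_eq_add_neg, IsUltrametricDist.norm_add_eq_max_of_norm_ne_norm
    (by rw [norm_neg, ha]; exact hb.ne'), norm_neg, ha, max_eq_left hb.le]

omit [IsAlgClosed K] [CompleteSpace K] in
theorem Div_eq_r {a b : K} {M : ℝ} (hb : ‖b‖ = M) (ha : ‖a‖ < M) : ‖a - b‖ = M := by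
  rw [norm_sub_rev]
  exact Div_eq_l hb ha

omit [IsAlgClosed K] in
theorem Div_gn_pos {g : L1 K P} (hg : g ≠ 0) (w : Pt1 K P) : 0 < gn w g :=
  (gn_nonneg g w).lt_of_ne' fun h => hg (gn_eq_zero_imp h)

theorem Div_term (c : K) (g : L1 K P) (w : Pt1 K P) (m : ℤ) : coef (lin c * g) m * w.v ^ m =
    w.v * (coef g (m - 1) * w.v ^ (m - 1)) - c * (coef g m * w.v ^ m) := by
  have hw : w.v ≠ 0 := w.1.ne_zero
  rw [coef_lin_mul, zpow_sub_one₀ hw]
  field_simp

theorem isTop_lin_mul {w : Pt1 K P} {g : L1 K P} (hg : g ≠ 0) {n : ℤ} (h : IsTop w g n) (c : K) :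
    IsTop w (lin c * g) (n + if ‖c‖ ≤ ‖w.v‖ then 1 else 0) := by
  have hw : 0 < ‖w.v‖ := norm_pos_iff.2 w.1.ne_zero
  have hG := Div_gn_pos hg w
  have h0 := fun m => norm_nonneg (coef g m * w.v ^ m)
  have h1 := le_gn g w
  rw [IsTop, gn_mul, gn_lin]
  simp only [Div_term]
  split_ifs with hc
  · rw [max_eq_left hc]
    refine ⟨Div_eq_l (by rw [norm_mul, add_sub_cancel_right, h.1]) ?_, fun m hm => Div_lt ?_ ?_⟩ <;>
      rw [norm_mul]
    · exact mul_lt_mul' hc (h.2 _ (by omega)) (h0 _) hw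
    · exact mul_lt_mul_of_pos_left (h.2 _ (by omega)) hw
    · exact mul_lt_mul' hc (h.2 _ (by omega)) (h0 _) hw
  · rw [not_le] at hc
    rw [max_eq_right hc.le, add_zero]
    refine ⟨Div_eq_r (by rw [norm_mul, h.1]) ?_, fun m hm => Div_lt ?_ ?_⟩ <;> rw [norm_mul]
    · exact (mul_le_mul_of_nonneg_left (h1 _) hw.le).trans_lt (mul_lt_mul_of_pos_right hc hG)
    · exact (mul_le_mul_of_nonneg_left (h1 _) hw.le).trans_lt (mul_lt_mul_of_pos_right hc hG)
    · exact mul_lt_mul_of_pos_left (h.2 _ hm) (hw.trans hc)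

theorem isBot_lin_mul {w : Pt1 K P} {g : L1 K P} (hg : g ≠ 0) {n : ℤ} (h : IsBot w g n) (c : K) :
    IsBot w (lin c * g) (n + if ‖c‖ < ‖w.v‖ then 1 else 0) := by
  have hw : 0 < ‖w.v‖ := norm_pos_iff.2 w.1.ne_zero
  have hG := Div_gn_pos hg w
  have h0 := fun m => norm_nonneg (coef g m * w.v ^ m)
  have h1 := le_gn g w
  rw [IsBot, gn_mul, gn_lin]
  simp only [Div_term]
  split_ifs with hc
  · rw [max_eq_left hc.le]
    refine ⟨Div_eq_l (by rw [norm_mul, add_sub_cancel_right, h.1]) ?_, fun m hm => Div_lt ?_ ?_⟩ <;>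
      rw [norm_mul]
    · exact (mul_le_mul_of_nonneg_left (h1 _) (norm_nonneg c)).trans_lt
        (mul_lt_mul_of_pos_right hc hG)
    · exact mul_lt_mul_of_pos_left (h.2 _ (by omega)) hw
    · exact (mul_le_mul_of_nonneg_left (h1 _) (norm_nonneg c)).trans_lt
        (mul_lt_mul_of_pos_right hc hG)
  · rw [not_lt] at hc
    rw [max_eq_right hc, add_zero]
    refine ⟨Div_eq_r (by rw [norm_mul, h.1]) ?_, fun m hm => Div_lt ?_ ?_⟩ <;> rw [norm_mul]
    · exact mul_lt_mul' hc (h.2 _ (by omega)) (h0 _) (hw.trans_le hc)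
    · exact mul_lt_mul' hc (h.2 _ (by omega)) (h0 _) (hw.trans_le hc)
    · exact mul_lt_mul_of_pos_left (h.2 _ hm) (hw.trans_le hc)

omit [IsAlgClosed K] in
theorem bot_le_top {w₁ w₂ : Pt1 K P} (h : ‖w₁.v‖ ≤ ‖w₂.v‖) {f : L1 K P} (hf : f ≠ 0) {n₁ n₂ : ℤ}
    (h₁ : IsBot w₁ f n₁) (h₂ : IsTop w₂ f n₂) : n₁ ≤ n₂ := by
  have _ := hf
  by_contra hn
  obtain ⟨d, rfl⟩ : ∃ d : ℕ, n₁ = n₂ + d := ⟨(n₁ - n₂).toNat, by omega⟩
  have p1 : 0 < ‖w₁.v‖ := norm_pos_iff.2 w₁.1.ne_zero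
  have p2 : 0 < ‖w₂.v‖ := p1.trans_le h
  have e1 := (h₁.2 n₂ (by omega)).trans_eq h₁.1.symm
  have e2 := (h₂.2 (n₂ + d) (by omega)).trans_eq h₂.1.symm
  rw [norm_mul, norm_mul, norm_zpow, norm_zpow, add_comm n₂] at e1 e2
  rw [zpow_add₀ p1.ne', ← mul_assoc, mul_lt_mul_iff_left₀ (zpow_pos p1 _), zpow_natCast] at e1
  rw [zpow_add₀ p2.ne', ← mul_assoc, mul_lt_mul_iff_left₀ (zpow_pos p2 _), zpow_natCast] at e2
  exact lt_irrefl _ ((e1.trans_le (mul_le_mul_of_nonneg_left (pow_le_pow_left₀ p1.le h d)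
    (norm_nonneg _))).trans e2)

theorem factor {f : L1 K P} (hf : f ≠ 0) (w₁ w₂ : Pt1 K P) :
    ∃ (s : Multiset (Pt1 K P)) (g : L1 K P), (∀ z ∈ s, ‖w₁.v‖ ≤ ‖z.v‖ ∧ ‖z.v‖ ≤ ‖w₂.v‖) ∧
      (∀ z : Pt1 K P, ‖w₁.v‖ ≤ ‖z.v‖ → ‖z.v‖ ≤ ‖w₂.v‖ → g.1 z ≠ 0) ∧
      f = (s.map fun z => (lin z.v : L1 K P)).prod * g := by
  obtain ⟨n₁, h₁⟩ := exists_isBot hf w₁
  obtain ⟨n₂, h₂⟩ := exists_isTop hf w₂
  induction hd : (n₂ - n₁).toNat using Nat.strong_induction_on generalizing f n₁ n₂ with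
  | _ d ih =>
    by_cases h : ∃ z : Pt1 K P, ‖w₁.v‖ ≤ ‖z.v‖ ∧ ‖z.v‖ ≤ ‖w₂.v‖ ∧ f.1 z = 0
    · obtain ⟨z, z1, z2, z3⟩ := h
      obtain ⟨g, rfl⟩ := exists_div z3
      have hg : g ≠ 0 := right_ne_zero_of_mul hf
      obtain ⟨m₁, k₁⟩ := exists_isBot hg w₁
      obtain ⟨m₂, k₂⟩ := exists_isTop hg w₂
      have e1 := h₁.unique (isBot_lin_mul hg k₁ z.v)
      have e2 := h₂.unique (isTop_lin_mul hg k₂ z.v)
      have e3 := bot_le_top (z1.trans z2) hg k₁ k₂
      rw [if_neg (not_lt.2 z1)] at e1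
      rw [if_pos z2] at e2
      obtain ⟨s, g', s1, s2, s3⟩ := ih _ (by omega) hg m₁ k₁ m₂ k₂ rfl
      refine ⟨z ::ₘ s, g', fun y hy => ?_, s2, ?_⟩
      · rcases Multiset.mem_cons.1 hy with rfl | hy
        · exact ⟨z1, z2⟩
        · exact s1 y hy
      · rw [Multiset.map_cons, Multiset.prod_cons, mul_assoc, ← s3]
    · exact ⟨0, f, by simp, fun z z1 z2 z3 => h ⟨z, z1, z2, z3⟩, by simp⟩

omit [IsAlgClosed K] in
theorem Div_eq {y z : Pt1 K P} (h : (lin y.v : L1 K P).1 z = 0) : z = y :=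
  Subtype.ext (Units.ext (sub_eq_zero.1 h))

theorem finite_zeros {f : L1 K P} (hf : f ≠ 0) (w₁ w₂ : Pt1 K P) :
    {z : Pt1 K P | ‖w₁.v‖ ≤ ‖z.v‖ ∧ ‖z.v‖ ≤ ‖w₂.v‖ ∧ f.1 z = 0}.Finite := by
  obtain ⟨s, g, -, h2, rfl⟩ := factor hf w₁ w₂
  refine s.finite_toSet.subset fun z hz => ?_
  have key : ∀ s : Multiset (Pt1 K P),
      ((s.map fun y => (lin y.v : L1 K P)).prod).1 z = 0 → z ∈ s := fun s => by
    induction s using Multiset.induction_on with
    | empty => exact fun h => absurd h one_ne_zero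
    | cons y s ih =>
      rw [Multiset.map_cons, Multiset.prod_cons, Multiset.mem_cons]
      exact fun h => (mul_eq_zero.1 h).imp Div_eq ih
  exact key s ((mul_eq_zero.1 hz.2.2).resolve_right (h2 z hz.1 hz.2.1))

theorem exists_order {f : L1 K P} (hf : f ≠ 0) (c : Pt1 K P) :
    ∃ (n : ℕ) (g : L1 K P), g.1 c ≠ 0 ∧ f = lin c.v ^ n * g := by
  obtain ⟨s, g, -, h2, rfl⟩ := factor hf c c
  clear hf
  induction s using Multiset.induction_on with
  | empty => exact ⟨0, g, h2 c le_rfl le_rfl, by simp⟩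
  | cons y s ih =>
    obtain ⟨n, g', k1, k2⟩ := ih
    rw [Multiset.map_cons, Multiset.prod_cons, mul_assoc, k2]
    rcases eq_or_ne c y with rfl | hy
    · exact ⟨n + 1, g', k1, by ring⟩
    · exact ⟨n, lin y.v * g', mul_ne_zero (fun h => hy (Div_eq h)) k1, by ring⟩

theorem Div_ord {c : Pt1 K P} {m n : ℕ} {g g' : L1 K P} (hg : g.1 c ≠ 0)
    (h : lin c.v ^ m * g = lin c.v ^ n * g') : n ≤ m := by
  by_contra hn
  obtain ⟨d, rfl⟩ : ∃ d, n = m + (d + 1) := ⟨n - m - 1, by omega⟩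
  rw [pow_add, mul_assoc, pow_succ', mul_assoc] at h
  refine hg ?_
  rw [mul_left_cancel₀ (pow_ne_zero m (lin_ne_zero c.v)) h]
  exact mul_eq_zero_of_left (sub_self c.v) _

theorem order_unique {c : Pt1 K P} {m n : ℕ} {g g' : L1 K P} (hg : g.1 c ≠ 0) (hg' : g'.1 c ≠ 0)
    (h : lin c.v ^ m * g = lin c.v ^ n * g') : m = n := by
  exact (Div_ord hg' h.symm).antisymm (Div_ord hg h)

end Pool.Agent.Work.MP_e120ef_ag.H
end

-- merged part: Pool.Agent.Work.MP_e120ef_ag.H.Zero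
section
/-!
# Existence of zeros at critical radii

Plans.  `exists_zero`.  Let `M = gn w f`, `d = n₂ - n₁ ≥ 1`.  For `0 < ε < M` let `p` be a truncation `∑ n ∈ Icc (-N) N, a n t ^ n` with `gn w (f - p) ≤ ε`; it has the same norm, top and bottom index.
`p * Zf ^ N` is a polynomial, which splits: `p * Zf ^ N = c • ∏ lin α` over a multiset of `α : K`; `isTop_lin_mul`, `isBot_lin_mul` (also with `α = 0`) show that exactly `d` roots have norm `‖w‖`;
for `z` on the circle `‖p z‖ = M * ∏ (‖z - α‖ / ‖w‖)` over these roots (`gn_mul`, `gn_lin`).  Hence (key step): for `z` on the circle with `‖f z‖ ≤ η`, `ε ≤ η < M`, there is `z'` on the circle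
with `‖f z'‖ ≤ ε` and `(‖z - z'‖ / ‖w‖) ^ d ≤ η / M`.  Iterate with `ε k = M / 2 ^ (k + 1)`; consecutive differences tend to `0`, so the sequence is Cauchy
(`NonarchimedeanAddGroup.cauchySeq_of_tendsto_sub_nhds_zero`); the limit is on the circle; `‖f z - f z'‖ ≤ M ‖z - z'‖ / ‖w‖` on the circle (`exists_div` applied to `f - f z'`, `gn_mul`, `gn_lin`).
`no_zero`.  By `exists_zero` top = bottom at every radius of the annulus.  Let `n` be the index at `w₁`.  Suppose the index at `w` is `n' ≠ n`, so `n < n'` (`bot_le_top`).  Among the finitely many `k > n` with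
`‖a n w ^ n‖ ≤ ‖a k w ^ k‖` choose `k` minimising `ρ k = (‖a n‖ / ‖a k‖) ^ (1 / (k - n))`; take `y` with `y ^ (k - n) = a n / a k` (`IsAlgClosed.exists_pow_nat_eq`); `‖w₁‖ < ‖y‖ ≤ ‖w‖`, and at `y` both `n` and `k` attain the norm.
-/

open Filter Topology

namespace Pool.Agent.Work.MP_e120ef_ag.H

variable {K : Type} [NontriviallyNormedField K] [IsUltrametricDist K] [IsAlgClosed K]
  [CompleteSpace K] {P : Rad}

/-- a finite Laurent sum -/
noncomputable def Zero_tr (a : ℤ → K) (S : Finset ℤ) : L1 K P :=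
  ⟨fun t => ∑ n ∈ S, a n * t.v ^ n, fun n => if n ∈ S then a n else 0, fun t => by
    have h := hasSum_sum_of_ne_finset_zero (L := SummationFilter.unconditional ℤ)
      (f := fun n : ℤ => (if n ∈ S then a n else 0) * t.v ^ n) (s := S) fun n hn => by simp [hn]
    rwa [Finset.sum_congr rfl fun n hn => by rw [if_pos hn]] at h⟩

theorem Zero_coef (a : ℤ → K) (S : Finset ℤ) (n : ℤ) :
    coef (Zero_tr a S : L1 K P) n = if n ∈ S then a n else 0 := by
  refine congrFun (coef_unique (a := fun n => if n ∈ S then a n else 0) fun t => ?_) n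
  have h := hasSum_sum_of_ne_finset_zero (L := SummationFilter.unconditional ℤ)
    (f := fun n : ℤ => (if n ∈ S then a n else 0) * t.v ^ n) (s := S) fun n hn => by simp [hn]
  rwa [Finset.sum_congr rfl fun n hn => by rw [if_pos hn]] at h

omit [IsAlgClosed K] in
theorem Zero_pos {f : L1 K P} (hf : f ≠ 0) (w : Pt1 K P) : 0 < gn w f :=
  (gn_nonneg f w).lt_of_ne fun h => hf (gn_eq_zero_imp h.symm)

omit [IsUltrametricDist K] [IsAlgClosed K] [CompleteSpace K] in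
theorem Zero_vpos (w : Pt1 K P) : 0 < ‖w.v‖ := norm_pos_iff.2 w.1.ne_zero

omit [IsUltrametricDist K] [IsAlgClosed K] [CompleteSpace K] in
theorem Zero_pt (w : Pt1 K P) {α : K} (h : ‖α‖ = ‖w.v‖) : ∃ z : Pt1 K P, z.v = α :=
  ⟨⟨Units.mk0 α (norm_pos_iff.1 (h ▸ Zero_vpos w)), by simpa only [Units.val_mk0, h] using w.2⟩, rfl⟩

/-- The lower bound away from the zeros. -/
def Zero_Lb (w : Pt1 K P) (f : L1 K P) : Prop :=
  f ≠ 0 ∧ ∃ (n : ℤ) (d : ℕ), IsBot w f n ∧ IsTop w f (n + d) ∧ ∀ z : Pt1 K P, ‖z.v‖ = ‖w.v‖ →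
    ∀ δ : ℝ, 0 ≤ δ → (∀ y : Pt1 K P, ‖y.v‖ = ‖w.v‖ → f.1 y = 0 → δ * ‖w.v‖ ≤ ‖z.v - y.v‖) →
      δ ^ d * gn w f ≤ ‖f.1 z‖

theorem Zero_mono (w : Pt1 K P) {c : K} (hc : c ≠ 0) (n : ℤ) :
    Zero_Lb w (Zero_tr (fun _ => c) {n}) := by
  have h0 : 0 < ‖c * w.v ^ n‖ := norm_pos_iff.2 (mul_ne_zero hc (zpow_ne_zero _ w.1.ne_zero))
  have h1 : ‖coef (Zero_tr (fun _ => c) {n} : L1 K P) n * w.v ^ n‖ = ‖c * w.v ^ n‖ := by
    rw [Zero_coef, if_pos (Finset.mem_singleton_self n)]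
  have h2 : ∀ m, m ≠ n → ‖coef (Zero_tr (fun _ => c) {n} : L1 K P) m * w.v ^ m‖ = 0 :=
    fun m hm => by rw [Zero_coef, if_neg (by simpa using hm), zero_mul, norm_zero]
  have h3 : gn w (Zero_tr (fun _ => c) {n}) = ‖c * w.v ^ n‖ := by
    refine le_antisymm (gn_le _ _ fun m => ?_) (h1 ▸ le_gn _ w n)
    by_cases e : m = n
    · rw [e, h1]
    · rw [h2 m e]
      exact h0.le
  refine ⟨fun e => ?_, n, 0, ⟨h1.trans h3.symm, fun m hm => ?_⟩,
    ⟨by rw [Nat.cast_zero, add_zero, h1, h3], fun m hm => ?_⟩, fun z hz δ _ _ => ?_⟩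
  · rw [e, gn_zero] at h3
    exact h0.ne h3
  · rwa [h2 m hm.ne, h3]
  · rwa [h2 m (by rintro rfl; simp at hm), h3]
  · rw [pow_zero, one_mul, h3]
    change _ ≤ ‖∑ m ∈ {n}, c * z.v ^ m‖
    rw [Finset.sum_singleton, norm_mul, norm_mul, norm_zpow, norm_zpow, hz]

theorem Zero_step {w : Pt1 K P} {g : L1 K P} (h : Zero_Lb w g) (α : K) :
    Zero_Lb w (lin α * g) := by
  obtain ⟨hg, n, d, hb, ht, H⟩ := h
  have hb' := isBot_lin_mul hg hb α
  have ht' := isTop_lin_mul hg ht α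
  have ev : ∀ z : Pt1 K P, (lin α * g).1 z = (z.v - α) * g.1 z := fun z => rfl
  refine ⟨mul_ne_zero (lin_ne_zero α) hg, ?_⟩
  by_cases e : ‖α‖ = ‖w.v‖
  · rw [if_neg e.not_lt] at hb'
    rw [if_pos e.le] at ht'
    refine ⟨n + 0, d + 1, hb', by convert ht' using 1; push_cast; ring, fun z hz δ h0 hδ => ?_⟩
    obtain ⟨y, rfl⟩ := Zero_pt w e
    have h1 := hδ y e (by rw [ev, sub_self, zero_mul])
    have h2 := H z hz δ h0 fun y' hy' e' => hδ y' hy' (by rw [ev, e', mul_zero])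
    rw [ev, norm_mul, gn_mul, gn_lin, e, max_self]
    calc δ ^ (d + 1) * (‖w.v‖ * gn w g) = δ * ‖w.v‖ * (δ ^ d * gn w g) := by ring
      _ ≤ _ := mul_le_mul h1 h2 (mul_nonneg (pow_nonneg h0 _) (gn_nonneg _ _)) (norm_nonneg _)
  · refine ⟨_, d, hb', ?_, fun z hz δ h0 hδ => ?_⟩
    · convert ht' using 1
      simp only [← lt_iff_le_and_ne.trans (and_iff_left e)]
      ring
    · have h2 := H z hz δ h0 fun y' hy' e' => hδ y' hy' (by rw [ev, e', mul_zero])
      have h1 : ‖z.v - α‖ = max ‖w.v‖ ‖α‖ := by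
        rw [sub_eq_add_neg, IsUltrametricDist.norm_add_eq_max_of_norm_ne_norm
          (by rw [norm_neg, hz]; exact Ne.symm e), norm_neg, hz]
      rw [ev, norm_mul, gn_mul, gn_lin, h1, mul_left_comm]
      exact mul_le_mul_of_nonneg_left h2 (h1 ▸ norm_nonneg _)

theorem Zero_trLb (w : Pt1 K P) {a : ℤ → K} {S : Finset ℤ} (h : (Zero_tr a S : L1 K P) ≠ 0) :
    Zero_Lb w (Zero_tr a S) := by
  obtain ⟨N, hN⟩ := S.bddBelow
  let Q : Polynomial K := ∑ n ∈ S, Polynomial.C (a n) * Polynomial.X ^ (n - N).toNat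
  have hQ : ∀ t : Pt1 K P, (Zero_tr a S : L1 K P).1 t = Q.eval t.v * t.v ^ N := fun t => by
    change ∑ n ∈ S, a n * t.v ^ n = _
    simp only [Q, Polynomial.eval_finsetSum, Finset.sum_mul]
    refine Finset.sum_congr rfl fun n hn => ?_
    rw [Polynomial.eval_mul, Polynomial.eval_C, Polynomial.eval_pow, Polynomial.eval_X,
      mul_assoc, ← zpow_natCast, ← zpow_add₀ t.1.ne_zero,
      Int.toNat_of_nonneg (sub_nonneg.2 (hN hn)), sub_add_cancel]
  have hc : Q.leadingCoeff ≠ 0 := fun e => h <| Subtype.ext <| funext fun t => by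
    rw [hQ, Polynomial.leadingCoeff_eq_zero.1 e, Polynomial.eval_zero, zero_mul]
    rfl
  have key : ∀ s : Multiset K, ∃ g : L1 K P, Zero_Lb w g ∧
      ∀ t : Pt1 K P, g.1 t = Q.leadingCoeff * (s.map fun α => t.v - α).prod * t.v ^ N := by
    intro s
    induction s using Multiset.induction_on with
    | empty =>
      refine ⟨_, Zero_mono w hc N, fun t => ?_⟩
      change ∑ m ∈ {N}, Q.leadingCoeff * t.v ^ m = _
      simp
    | cons α s ih =>
      obtain ⟨g, h1, h2⟩ := ih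
      refine ⟨_, Zero_step h1 α, fun t => ?_⟩
      change (t.v - α) * g.1 t = _
      rw [h2, Multiset.map_cons, Multiset.prod_cons]
      ring
  obtain ⟨g, h1, h2⟩ := key Q.roots
  have e : Zero_tr a S = g := Subtype.ext <| funext fun t => by
    rw [hQ, h2, ← (IsAlgClosed.splits Q).eval_eq_prod_roots]
  exact e ▸ h1

theorem Zero_key {f : L1 K P} (hf : f ≠ 0) {w : Pt1 K P} {n : ℤ} {d : ℕ} (h₁ : IsBot w f n)
    (h₂ : IsTop w f (n + d)) {δ ε : ℝ} (h0 : 0 ≤ δ) (e0 : 0 < ε) (e1 : ε < gn w f)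
    (e2 : ε < δ ^ d * gn w f) {z : Pt1 K P} (hz : ‖z.v‖ = ‖w.v‖)
    (hf' : ‖f.1 z‖ < δ ^ d * gn w f) :
    ∃ y : Pt1 K P, ‖y.v‖ = ‖w.v‖ ∧ ‖f.1 y‖ ≤ ε ∧ ‖z.v - y.v‖ < δ * ‖w.v‖ := by
  have hM := Zero_pos hf w
  have hS : {m : ℤ | ¬ ‖coef f m * w.v ^ m‖ < ε}.Finite :=
    (NormedAddGroup.tendsto_nhds_zero.1 (tendsto_coef f w)) ε e0
  set p : L1 K P := Zero_tr (coef f) hS.toFinset with hp
  have c1 : ∀ m, ‖coef f m * w.v ^ m‖ = gn w f → coef p m = coef f m := fun m hm => by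
    rw [hp, Zero_coef, if_pos (by simpa [← norm_mul, -norm_mul, hm] using e1.le)]
  have c2 : ∀ m, ‖coef p m * w.v ^ m‖ ≤ ‖coef f m * w.v ^ m‖ := fun m => by
    rw [hp, Zero_coef]
    split_ifs
    · exact le_rfl
    · rw [zero_mul, norm_zero]
      exact norm_nonneg _
  have c3 : gn w p = gn w f := le_antisymm (gn_le _ _ fun m => (c2 m).trans (le_gn f w m))
    (by rw [← h₁.1, ← c1 n h₁.1]; exact le_gn p w n)
  have c4 : gn w (f - p) ≤ ε := gn_le _ _ fun m => by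
    have e := coef_add p (f - p) m
    rw [add_sub_cancel, hp, Zero_coef, ← hp] at e
    split_ifs at e with hm
    · rw [left_eq_add.1 e, zero_mul, norm_zero]
      exact e0.le
    · rw [zero_add] at e
      rw [← e]
      exact (not_not.1 fun h => hm (hS.mem_toFinset.2 h)).le
  have c5 : ∀ y : Pt1 K P, ‖y.v‖ = ‖w.v‖ → ‖f.1 y - p.1 y‖ ≤ ε := fun y hy =>
    (norm_le_gn (f - p) hy).trans c4
  have p0 : p ≠ 0 := fun e => by
    rw [e, gn_zero] at c3
    exact hM.ne c3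
  obtain ⟨-, n', d', b', t', H⟩ := Zero_trLb w p0
  rw [← hp] at b' t' H
  have b : IsBot w p n := ⟨by rw [c1 n h₁.1, c3, h₁.1], fun m hm =>
    (c2 m).trans_lt (c3 ▸ h₁.2 m hm)⟩
  have t : IsTop w p (n + d) := ⟨by rw [c1 _ h₂.1, c3, h₂.1], fun m hm =>
    (c2 m).trans_lt (c3 ▸ h₂.2 m hm)⟩
  obtain rfl := b.unique b'
  obtain rfl : d = d' := by simpa using t.unique t'
  by_contra hc
  have h5 := H z hz δ h0 fun y hy e => not_lt.1 fun h => hc ⟨y, hy, by simpa [e] using c5 y hy, h⟩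
  have h6 : ‖p.1 z‖ ≤ max ‖f.1 z‖ ‖f.1 z - p.1 z‖ := by
    have := IsUltrametricDist.norm_add_le_max (f.1 z) (-(f.1 z - p.1 z))
    rwa [norm_neg, neg_sub, add_sub_cancel] at this
  rw [c3] at h5
  exact (h5.trans h6).not_gt (max_lt hf' ((c5 z hz).trans_lt e2))

theorem Zero_lip (f : L1 K P) {w z y : Pt1 K P} (hz : ‖z.v‖ = ‖w.v‖) (hy : ‖y.v‖ = ‖w.v‖) :
    ‖f.1 z - f.1 y‖ ≤ ‖z.v - y.v‖ * (gn w f / ‖w.v‖) := by
  obtain ⟨g, hg⟩ := exists_div (f := f + algebraMap K _ (-f.1 y)) (c := y) (add_neg_cancel _)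
  have h1 : gn w (f + algebraMap K _ (-f.1 y)) ≤ gn w f := (gn_add_le _ _ _).trans
    (max_le le_rfl (by rw [gn_algebraMap, norm_neg]; exact norm_le_gn f hy))
  rw [hg, gn_mul, gn_lin, hy, max_self] at h1
  have h2 : f.1 z + -f.1 y = (z.v - y.v) * g.1 z := congrArg (fun u : L1 K P => u.1 z) hg
  rw [sub_eq_add_neg, h2, norm_mul]
  exact mul_le_mul_of_nonneg_left ((norm_le_gn g hz).trans
    ((le_div_iff₀' (Zero_vpos w)).2 h1)) (norm_nonneg _)

theorem exists_zero {f : L1 K P} (hf : f ≠ 0) {w : Pt1 K P} {n₁ n₂ : ℤ} (h₁ : IsBot w f n₁)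
    (h₂ : IsTop w f n₂) (h : n₁ < n₂) : ∃ z : Pt1 K P, ‖z.v‖ = ‖w.v‖ ∧ f.1 z = 0 := by
  obtain ⟨d, rfl⟩ : ∃ d : ℕ, n₂ = n₁ + (d + 1 : ℕ) := ⟨(n₂ - n₁ - 1).toNat, by omega⟩
  have hM := Zero_pos hf w
  let A : ℕ → Pt1 K P → Prop := fun k z =>
    ‖z.v‖ = ‖w.v‖ ∧ ‖f.1 z‖ < (2 * (1 / 2) ^ k) ^ (d + 1) * gn w f
  have st : ∀ k z, A k z → ∃ y, A (k + 1) y ∧ ‖z.v - y.v‖ ≤ 2 * ‖w.v‖ * (1 / 2) ^ k := by
    intro k z hz
    have a0 : (0 : ℝ) < (1 / 2) ^ k := by positivity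
    have a1 : (2 * (1 / 2) ^ (k + 1) : ℝ) = (1 / 2) ^ k := by ring
    have a2 : ((1 / 2 : ℝ) ^ k) ^ (d + 1) ≤ 1 :=
      pow_le_one₀ a0.le (pow_le_one₀ (by norm_num) (by norm_num))
    have a3 : ((1 / 2 : ℝ) ^ k) ^ (d + 1) ≤ (2 * (1 / 2) ^ k) ^ (d + 1) :=
      pow_le_pow_left₀ a0.le (by linarith) _
    have a4 : 0 < ((1 / 2 : ℝ) ^ k) ^ (d + 1) * gn w f := by positivity
    obtain ⟨y, y1, y2, y3⟩ := Zero_key hf h₁ h₂ (δ := 2 * (1 / 2) ^ k)
      (ε := ((1 / 2) ^ k) ^ (d + 1) * gn w f / 2) (by positivity) (by positivity)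
      ((half_lt_self a4).trans_le (mul_le_of_le_one_left hM.le a2))
      ((half_lt_self a4).trans_le (mul_le_mul_of_nonneg_right a3 hM.le)) hz.1 hz.2
    exact ⟨y, ⟨y1, by rw [a1]; exact y2.trans_lt (half_lt_self a4)⟩,
      y3.le.trans_eq (by ring)⟩
  have s0 : A 0 w := ⟨rfl, (norm_le_gn f rfl).trans_lt
    (lt_mul_of_one_lt_left hM (one_lt_pow₀ (by norm_num) (by omega)))⟩
  choose! F hF using st
  let u : ℕ → Pt1 K P := fun k => Nat.rec w (fun k z => F k z) k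
  have hu : ∀ k, A k (u k) := fun k => by
    induction k with
    | zero => exact s0
    | succ k ih => exact (hF k _ ih).1
  have cs : CauchySeq fun k => (u k).v :=
    cauchySeq_of_le_geometric (1 / 2) (2 * ‖w.v‖) (by norm_num) fun k => by
      rw [dist_eq_norm]
      exact (hF k _ (hu k)).2
  obtain ⟨α, hα⟩ := cauchySeq_tendsto_of_complete cs
  have hn : ‖α‖ = ‖w.v‖ := tendsto_nhds_unique hα.norm (by simp [(hu _).1])
  obtain ⟨z, rfl⟩ := Zero_pt w hn
  refine ⟨z, hn, ?_⟩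
  have t1 : Tendsto (fun k => f.1 (u k)) atTop (𝓝 (f.1 z)) := by
    rw [tendsto_iff_norm_sub_tendsto_zero] at hα ⊢
    refine squeeze_zero (fun _ => norm_nonneg _) (fun k => Zero_lip f (hu k).1 hn) ?_
    simpa using hα.mul_const (gn w f / ‖w.v‖)
  have t2 : Tendsto (fun k => f.1 (u k)) atTop (𝓝 0) := by
    refine squeeze_zero_norm (fun k => (hu k).2.le) ?_
    have := (((tendsto_pow_atTop_nhds_zero_of_lt_one (r := (1 / 2 : ℝ)) (by norm_num)
      (by norm_num)).const_mul 2).pow (d + 1)).mul_const (gn w f)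
    simpa using this
  exact tendsto_nhds_unique t1 t2

theorem no_zero {g : L1 K P} {w₁ w₂ : Pt1 K P}
    (h : ∀ z : Pt1 K P, ‖w₁.v‖ ≤ ‖z.v‖ → ‖z.v‖ ≤ ‖w₂.v‖ → g.1 z ≠ 0) :
    ∃ n : ℤ, ∀ w : Pt1 K P, ‖w₁.v‖ ≤ ‖w.v‖ → ‖w.v‖ ≤ ‖w₂.v‖ → IsTop w g n := by
  by_cases h12 : ‖w₁.v‖ ≤ ‖w₂.v‖
  swap
  · exact ⟨0, fun w a b => (h12 (a.trans b)).elim⟩
  have hg : g ≠ 0 := fun e => h w₁ le_rfl h12 (by rw [e]; rfl)
  have tb : ∀ w : Pt1 K P, ‖w₁.v‖ ≤ ‖w.v‖ → ‖w.v‖ ≤ ‖w₂.v‖ → ∀ t, IsTop w g t →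
      IsBot w g t := fun w a b t ht => by
    obtain ⟨m, hm⟩ := exists_isBot hg w
    rcases (bot_le_top le_rfl hg hm ht).eq_or_lt with rfl | e
    · exact hm
    · obtain ⟨z, z1, z2⟩ := exists_zero hg hm ht e
      exact (h z (z1 ▸ a) (z1 ▸ b) z2).elim
  have nz : ∀ (w : Pt1 K P) t, IsTop w g t → coef g t ≠ 0 := fun w t ht e => by
    have := ht.1
    rw [e, zero_mul, norm_zero] at this
    exact (Zero_pos hg w).ne this
  obtain ⟨n, hn⟩ := exists_isTop hg w₁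
  have key : ∀ (D : ℕ) (w : Pt1 K P), ‖w₁.v‖ ≤ ‖w.v‖ → ‖w.v‖ ≤ ‖w₂.v‖ → ∀ t, IsTop w g t →
      t ≤ n + D → t = n := by
    intro D
    induction D with
    | zero =>
      intro w a b t ht e
      exact le_antisymm (by simpa using e) (bot_le_top a hg (tb w₁ le_rfl h12 n hn) ht)
    | succ D ih =>
      intro w a b t ht e
      by_cases e' : t ≤ n + D
      · exact ih w a b t ht e'
      obtain rfl : t = n + (D + 1 : ℕ) := by omega
      have t0 := nz w _ ht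
      obtain ⟨β, hβ⟩ := IsAlgClosed.exists_pow_nat_eq (coef g n / coef g (n + (D + 1 : ℕ)))
        D.succ_pos
      have β0 : β ≠ 0 := by
        rintro rfl
        rw [zero_pow D.succ_ne_zero] at hβ
        exact div_ne_zero (nz w₁ n hn) t0 hβ.symm
      have q1 : ∀ x : Pt1 K P, ‖coef g (n + (D + 1 : ℕ)) * x.v ^ (n + (D + 1 : ℕ))‖ =
          ‖coef g (n + (D + 1 : ℕ)) * x.v ^ n‖ * ‖x.v‖ ^ (D + 1) := fun x => by
        rw [zpow_add₀ x.1.ne_zero, zpow_natCast, ← mul_assoc, norm_mul, norm_pow]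
      have q2 : ∀ x : Pt1 K P, ‖coef g n * x.v ^ n‖ =
          ‖coef g (n + (D + 1 : ℕ)) * x.v ^ n‖ * ‖β‖ ^ (D + 1) := fun x => by
        rw [← norm_pow, ← norm_mul, hβ, mul_right_comm, mul_div_cancel₀ _ t0]
      have q3 : ∀ x : Pt1 K P, 0 < ‖coef g (n + (D + 1 : ℕ)) * x.v ^ n‖ := fun x =>
        norm_pos_iff.2 (mul_ne_zero t0 (zpow_ne_zero _ x.1.ne_zero))
      have a₀ : ‖w₁.v‖ ≤ ‖β‖ := by
        have := (le_gn g w₁ (n + (D + 1 : ℕ))).trans hn.1.ge
        rw [q1, q2] at this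
        exact le_of_pow_le_pow_left₀ D.succ_ne_zero (norm_nonneg _)
          (le_of_mul_le_mul_left this (q3 w₁))
      have b₀ : ‖β‖ ≤ ‖w.v‖ := by
        have := (le_gn g w n).trans ht.1.ge
        rw [q1, q2] at this
        exact le_of_pow_le_pow_left₀ D.succ_ne_zero (norm_nonneg _)
          (le_of_mul_le_mul_left this (q3 w))
      let y : Pt1 K P := ⟨Units.mk0 β β0, P.conv.out w₁.2 w.2 ⟨a₀, b₀⟩⟩
      have a' : ‖w₁.v‖ ≤ ‖y.v‖ := a₀
      have b' : ‖y.v‖ ≤ ‖w.v‖ := b₀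
      obtain ⟨s, hs⟩ := exists_isTop hg y
      have hs' := tb y a' (b'.trans b) s hs
      have q4 := (q1 y).trans (q2 y).symm
      rcases (bot_le_top b' hg hs' ht).eq_or_lt with rfl | e''
      · exact ((hs'.2 n (by omega)).ne (q4.symm.trans hs.1)).elim
      · obtain rfl := ih y a' (b'.trans b) s hs (by omega)
        exact ((hs.2 _ (by omega)).ne (q4.trans hs.1)).elim
  refine ⟨n, fun w a b => ?_⟩
  obtain ⟨t, ht⟩ := exists_isTop hg w
  exact key (t - n).toNat w a b t ht (by omega) ▸ ht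

end Pool.Agent.Work.MP_e120ef_ag.H
end

-- merged part: Pool.Agent.Work.MP_e120ef_ag.H.Jen
section
/-!
# Orders of zeros and the Jensen formula for Laurent series

Plans.  `ord₀_eq`: `order_unique`.  `jensen₀`: let `n` be the top index at `w₁`; given `w₂` apply `factor` on the annulus between the two radii, `no_zero` to the factor `g` (so `gn w g = ‖coef g n_g‖ * ‖w‖ ^ n_g` at both radii),
`isTop_lin_mul`, `IsTop.unique`, `gn_mul`, `gn_lin`; on the annulus `ord₀ (pk z) f` is the multiplicity of `pk z` in the multiset `s` (`ord₀_mul`, induction on `s`), outside the closed annulus the weight is `0`, so the `finsum` is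
`(s.map fun z => wt w₁ w₂ z.1).sum` (`Finset.sum_multiset_map_count`; or prove the whole formula by induction on `s`).  For `‖w₁‖ ≤ ‖w₂‖`: a zero `z` contributes `log (‖w₂‖ / ‖z‖)`, and `n = n_g + card {‖z‖ = ‖w₁‖}`.
For `‖w₂‖ ≤ ‖w₁‖`: it contributes `log (‖w₂‖ / ‖w₁‖) + log (‖z‖ / ‖w₂‖)`, and `n = n_g + card s`.
-/

open Filter Topology

namespace Pool.Agent.Work.MP_e120ef_ag.H

variable {K : Type} [NontriviallyNormedField K] [IsUltrametricDist K] [IsAlgClosed K]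
  [CompleteSpace K] {P : Rad}

open Classical in
/-- the order of vanishing -/
noncomputable def ord₀ (z : Pt1 K P) (f : L1 K P) : ℕ :=
  if h : f = 0 then 0 else (exists_order h z).choose

theorem ord₀_zero (z : Pt1 K P) : ord₀ z 0 = 0 := dif_pos rfl

theorem ord₀_spec {f : L1 K P} (hf : f ≠ 0) (z : Pt1 K P) :
    ∃ g : L1 K P, g.1 z ≠ 0 ∧ f = lin z.v ^ ord₀ z f * g := by
  have h : ord₀ z f = (exists_order hf z).choose := dif_neg hf
  rw [h]
  exact (exists_order hf z).choose_spec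

theorem ord₀_eq {f g : L1 K P} {z : Pt1 K P} {n : ℕ} (hg : g.1 z ≠ 0) (h : f = lin z.v ^ n * g) :
    ord₀ z f = n := by
  have hg0 : g ≠ 0 := by
    rintro rfl
    exact hg rfl
  have hf : f ≠ 0 := by
    rw [h]
    exact mul_ne_zero (pow_ne_zero _ (lin_ne_zero _)) hg0
  obtain ⟨g', hg', h'⟩ := ord₀_spec hf z
  exact order_unique hg' hg (h'.symm.trans h)

theorem ord₀_mul {f g : L1 K P} (hf : f ≠ 0) (hg : g ≠ 0) (z : Pt1 K P) :
    ord₀ z (f * g) = ord₀ z f + ord₀ z g := by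
  obtain ⟨f', hf', h1⟩ := ord₀_spec hf z
  obtain ⟨g', hg', h2⟩ := ord₀_spec hg z
  refine ord₀_eq (g := f' * g') (mul_ne_zero hf' hg') ?_
  generalize ord₀ z f = m at h1
  generalize ord₀ z g = n at h2
  rw [h1, h2]
  ring

theorem ord₀_eq_zero {f : L1 K P} (hf : f ≠ 0) (z : Pt1 K P) : ord₀ z f = 0 ↔ f.1 z ≠ 0 := by
  constructor
  · intro h
    obtain ⟨g, hg, h1⟩ := ord₀_spec hf z
    rw [h, pow_zero, one_mul] at h1
    rw [h1]
    exact hg
  · intro h
    exact ord₀_eq (g := f) h (by rw [pow_zero, one_mul])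

theorem ord₀_add {f g : L1 K P} (h : f + g ≠ 0) (hf : f ≠ 0) (hg : g ≠ 0) (z : Pt1 K P) :
    min (ord₀ z f) (ord₀ z g) ≤ ord₀ z (f + g) := by
  obtain ⟨f', -, h1⟩ := ord₀_spec hf z
  obtain ⟨g', -, h2⟩ := ord₀_spec hg z
  generalize ord₀ z f = m at h1
  generalize ord₀ z g = n at h2
  obtain ⟨a, ha⟩ := Nat.exists_eq_add_of_le (min_le_left m n)
  obtain ⟨b, hb⟩ := Nat.exists_eq_add_of_le (min_le_right m n)
  generalize min m n = k at ha hb
  subst ha
  have e : f + g = lin z.v ^ k * (lin z.v ^ a * f' + lin z.v ^ b * g') := by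
    rw [h1, h2, hb]
    ring
  have h0 : (lin z.v ^ a * f' + lin z.v ^ b * g' : L1 K P) ≠ 0 := by
    intro h0
    rw [h0, mul_zero] at e
    exact h e
  have h3 : ord₀ z (lin z.v ^ k : L1 K P) = k :=
    ord₀_eq (g := 1) one_ne_zero (by rw [mul_one])
  rw [e, ord₀_mul (pow_ne_zero _ (lin_ne_zero _)) h0, h3]
  exact Nat.le_add_right _ _

/-- the weight of `z` in the counting function -/
noncomputable abbrev wp (w₁ w₂ z : Pt1 K P) : ℝ := wt w₁.1 w₂.1 z.1

theorem fin₀ (f : L1 K P) (w₁ w₂ : Pt1 K P) :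
    {z : Pt1 K P | ‖w₁.v‖ ≤ ‖z.v‖ ∧ ‖z.v‖ ≤ ‖w₂.v‖ ∧ ord₀ z f ≠ 0}.Finite := by
  by_cases hf : f = 0
  · subst hf
    refine Set.Finite.subset Set.finite_empty ?_
    rintro z ⟨-, -, h⟩
    exact h (ord₀_zero _)
  · refine (finite_zeros hf w₁ w₂).subset ?_
    rintro z ⟨h1, h2, h3⟩
    refine ⟨h1, h2, ?_⟩
    by_contra h4
    exact h3 ((ord₀_eq_zero hf _).2 h4)

omit [IsUltrametricDist K] [IsAlgClosed K] [CompleteSpace K] in
theorem Jen_wt_ne {w₁ w₂ z : Kˣ} (h : wt w₁ w₂ z ≠ 0) :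
    (‖(w₁ : K)‖ ≤ ‖(z : K)‖ ∧ ‖(z : K)‖ ≤ ‖(w₂ : K)‖) ∨
      (‖(w₂ : K)‖ ≤ ‖(z : K)‖ ∧ ‖(z : K)‖ ≤ ‖(w₁ : K)‖) := by
  have hz : 0 < ‖(z : K)‖ := norm_pos_iff.2 z.ne_zero
  have h2 : 0 < ‖(w₂ : K)‖ := norm_pos_iff.2 w₂.ne_zero
  unfold wt at h
  split_ifs at h with h1
  · left
    refine ⟨h1.le, ?_⟩
    by_contra h3
    apply h
    rw [Real.posLog_eq_zero_iff, abs_of_nonneg (by positivity), div_le_one hz]
    exact (not_le.1 h3).le
  · right
    refine ⟨?_, not_lt.1 h1⟩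
    by_contra h3
    apply h
    rw [Real.posLog_eq_zero_iff, abs_of_nonneg (by positivity), div_le_one h2]
    exact (not_le.1 h3).le

theorem Jen_fin (f : L1 K P) (w₁ w₂ : Pt1 K P) :
    (Function.support fun z : Pt1 K P => (ord₀ z f : ℝ) * wp w₁ w₂ z).Finite := by
  refine Set.Finite.subset ((fin₀ f w₁ w₂).union (fin₀ f w₂ w₁)) ?_
  intro z hz
  have h1 : (ord₀ z f : ℝ) ≠ 0 := left_ne_zero_of_mul hz
  have h2 : wp w₁ w₂ z ≠ 0 := right_ne_zero_of_mul hz
  have h3 : ord₀ z f ≠ 0 := by exact_mod_cast h1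
  rcases Jen_wt_ne h2 with h | h
  · exact Or.inl ⟨h.1, h.2, h3⟩
  · exact Or.inr ⟨h.1, h.2, h3⟩

theorem Jen_sum_lin (c : Pt1 K P) (w₁ w₂ : Pt1 K P) :
    ∑ᶠ z, (ord₀ z (lin c.v : L1 K P) : ℝ) * wp w₁ w₂ z = wp w₁ w₂ c := by
  rw [finsum_eq_single _ c]
  · have h : ord₀ c (lin c.v : L1 K P) = 1 :=
      ord₀_eq (g := 1) one_ne_zero (by rw [pow_one, mul_one])
    rw [h, Nat.cast_one, one_mul]
  · intro z hz
    have h : ord₀ z (lin c.v : L1 K P) = 0 := by
      rw [ord₀_eq_zero (lin_ne_zero _), lin_apply, sub_ne_zero]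
      intro h
      exact hz (Subtype.ext (Units.ext h))
    rw [h, Nat.cast_zero, zero_mul]

omit [IsUltrametricDist K] [IsAlgClosed K] [CompleteSpace K] in
theorem Jen_log_lin (c w₁ w₂ : Kˣ) :
    Real.log (max ‖(w₂ : K)‖ ‖(c : K)‖) = Real.log (max ‖(w₁ : K)‖ ‖(c : K)‖) +
      ((if ‖(c : K)‖ ≤ ‖(w₁ : K)‖ then 1 else 0 : ℤ) : ℝ) * Real.log (‖(w₂ : K)‖ / ‖(w₁ : K)‖) +
        wt w₁ w₂ c := by
  have hc : 0 < ‖(c : K)‖ := norm_pos_iff.2 c.ne_zero
  have h1 : 0 < ‖(w₁ : K)‖ := norm_pos_iff.2 w₁.ne_zero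
  have h2 : 0 < ‖(w₂ : K)‖ := norm_pos_iff.2 w₂.ne_zero
  have key : ∀ a b : ℝ, 0 < a → 0 < b → Real.log (max a b) = Real.log a + Real.posLog (b / a) := by
    intro a b ha hb
    rcases le_total a b with h | h
    · rw [max_eq_right h, Real.posLog_eq_log, Real.log_div hb.ne' ha.ne']
      · ring
      · rw [abs_of_nonneg (by positivity), one_le_div ha]
        exact h
    · rw [max_eq_left h, (Real.posLog_eq_zero_iff _).2, add_zero]
      rw [abs_of_nonneg (by positivity), div_le_one ha]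
      exact h
  unfold wt
  by_cases h : ‖(c : K)‖ ≤ ‖(w₁ : K)‖
  · rw [if_pos h, if_neg (not_lt.2 h), max_eq_left h, key _ _ h2 hc, Real.log_div h2.ne' h1.ne']
    push_cast
    ring
  · rw [if_neg h, if_pos (not_le.1 h), max_eq_right (not_le.1 h).le, max_comm, key _ _ hc h2]
    push_cast
    ring

theorem Jen_gn_ne {f : L1 K P} (hf : f ≠ 0) (w : Pt1 K P) : gn w f ≠ 0 :=
  fun h => hf (gn_eq_zero_imp h)

theorem Jen_base {g : L1 K P} (hg : g ≠ 0) {w₁ w₂ : Pt1 K P} {n : ℤ} (h₁ : IsTop w₁ g n)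
    (h₂ : IsTop w₂ g n) (h : ∀ z : Pt1 K P, wp w₁ w₂ z ≠ 0 → g.1 z ≠ 0) :
    Real.log (gn w₂ g) = Real.log (gn w₁ g) +
      n * Real.log (‖w₂.v‖ / ‖w₁.v‖) + ∑ᶠ z, (ord₀ z g : ℝ) * wp w₁ w₂ z := by
  have h1 : 0 < ‖w₁.v‖ := norm_pos_iff.2 w₁.1.ne_zero
  have h2 : 0 < ‖w₂.v‖ := norm_pos_iff.2 w₂.1.ne_zero
  have hs : ∑ᶠ z, (ord₀ z g : ℝ) * wp w₁ w₂ z = 0 := by
    apply finsum_eq_zero_of_forall_eq_zero
    intro z
    by_cases hz : wp w₁ w₂ z = 0
    · rw [hz, mul_zero]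
    · rw [(ord₀_eq_zero hg _).2 (h z hz), Nat.cast_zero, zero_mul]
  have hc : ‖coef g n‖ ≠ 0 := by
    intro hc
    apply Jen_gn_ne hg w₁
    rw [← h₁.1, norm_mul, hc, zero_mul]
  rw [hs, add_zero, ← h₁.1, ← h₂.1, norm_mul, norm_mul, norm_zpow, norm_zpow,
    Real.log_mul hc (zpow_ne_zero _ h1.ne'), Real.log_mul hc (zpow_ne_zero _ h2.ne'),
    Real.log_zpow, Real.log_zpow, Real.log_div h2.ne' h1.ne']
  ring

theorem Jen_step {g : L1 K P} (hg : g ≠ 0) {w₁ w₂ : Pt1 K P} {n : ℤ} (c : Pt1 K P)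
    (h : Real.log (gn w₂ g) = Real.log (gn w₁ g) +
      n * Real.log (‖w₂.v‖ / ‖w₁.v‖) + ∑ᶠ z, (ord₀ z g : ℝ) * wp w₁ w₂ z) :
    Real.log (gn w₂ (lin c.v * g)) = Real.log (gn w₁ (lin c.v * g)) +
      ((n + if ‖c.v‖ ≤ ‖w₁.v‖ then 1 else 0 : ℤ) : ℝ) * Real.log (‖w₂.v‖ / ‖w₁.v‖) +
        ∑ᶠ z, (ord₀ z (lin c.v * g) : ℝ) * wp w₁ w₂ z := by
  have hl : (lin c.v : L1 K P) ≠ 0 := lin_ne_zero _
  have hs : ∑ᶠ z, (ord₀ z (lin c.v * g) : ℝ) * wp w₁ w₂ z =
      wp w₁ w₂ c + ∑ᶠ z, (ord₀ z g : ℝ) * wp w₁ w₂ z := by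
    rw [← Jen_sum_lin c w₁ w₂, ← finsum_add_distrib (Jen_fin _ w₁ w₂) (Jen_fin _ w₁ w₂)]
    refine finsum_congr fun z => ?_
    rw [ord₀_mul hl hg, Nat.cast_add, add_mul]
  have h3 := Jen_log_lin c.1 w₁.1 w₂.1
  rw [hs, gn_mul, gn_mul, Real.log_mul (Jen_gn_ne hl _) (Jen_gn_ne hg _),
    Real.log_mul (Jen_gn_ne hl _) (Jen_gn_ne hg _), gn_lin, gn_lin, h, Int.cast_add]
  simp only [Pt1.v, wp] at h3 ⊢
  rw [h3]
  ring

theorem Jen_ind {g : L1 K P} (hg : g ≠ 0) {w₁ w₂ : Pt1 K P} {n : ℤ} (h₁ : IsTop w₁ g n)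
    (h₂ : IsTop w₂ g n) (h : ∀ z : Pt1 K P, wp w₁ w₂ z ≠ 0 → g.1 z ≠ 0)
    (s : Multiset (Pt1 K P)) :
    (s.map fun z => (lin z.v : L1 K P)).prod * g ≠ 0 ∧
    ∃ m : ℤ, IsTop w₁ ((s.map fun z => (lin z.v : L1 K P)).prod * g) m ∧
      Real.log (gn w₂ ((s.map fun z => (lin z.v : L1 K P)).prod * g)) =
        Real.log (gn w₁ ((s.map fun z => (lin z.v : L1 K P)).prod * g)) +
        m * Real.log (‖w₂.v‖ / ‖w₁.v‖) +
          ∑ᶠ z, (ord₀ z ((s.map fun z => (lin z.v : L1 K P)).prod * g) : ℝ) * wp w₁ w₂ z := by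
  induction s using Multiset.induction_on with
  | empty =>
    rw [Multiset.map_zero, Multiset.prod_zero, one_mul]
    exact ⟨hg, n, h₁, Jen_base hg h₁ h₂ h⟩
  | cons c s ih =>
    obtain ⟨h0, m, hm, hJ⟩ := ih
    rw [Multiset.map_cons, Multiset.prod_cons, mul_assoc]
    exact ⟨mul_ne_zero (lin_ne_zero _) h0, _, isTop_lin_mul h0 hm c.v, Jen_step h0 c hJ⟩

theorem jensen_top {f : L1 K P} (hf : f ≠ 0) {w₁ : Pt1 K P} {n : ℤ} (hn : IsTop w₁ f n)
    (w₂ : Pt1 K P) : Real.log (gn w₂ f) = Real.log (gn w₁ f) +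
      n * Real.log (‖w₂.v‖ / ‖w₁.v‖) + ∑ᶠ z, (ord₀ z f : ℝ) * wp w₁ w₂ z := by
  have main : ∀ a b : Pt1 K P, ‖a.v‖ ≤ ‖w₁.v‖ → ‖a.v‖ ≤ ‖w₂.v‖ →
      ‖w₁.v‖ ≤ ‖b.v‖ → ‖w₂.v‖ ≤ ‖b.v‖ →
      Real.log (gn w₂ f) = Real.log (gn w₁ f) +
        n * Real.log (‖w₂.v‖ / ‖w₁.v‖) + ∑ᶠ z, (ord₀ z f : ℝ) * wp w₁ w₂ z := by
    intro a b ha1 ha2 hb1 hb2
    obtain ⟨s, g, -, hg, hfg⟩ := factor hf a b
    have hg0 : g ≠ 0 := by
      rintro rfl
      rw [mul_zero] at hfg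
      exact hf hfg
    obtain ⟨k, hk⟩ := no_zero hg
    have hz : ∀ z : Pt1 K P, wp w₁ w₂ z ≠ 0 → g.1 z ≠ 0 := by
      intro z hz
      rcases Jen_wt_ne hz with h | h
      · exact hg _ (ha1.trans h.1) (h.2.trans hb2)
      · exact hg _ (ha2.trans h.1) (h.2.trans hb1)
    obtain ⟨-, m, hm, hJ⟩ := Jen_ind hg0 (hk w₁ ha1 hb1) (hk w₂ ha2 hb2) hz s
    rw [← hfg] at hm hJ
    rw [hn.unique hm]
    exact hJ
  rcases le_total ‖w₁.v‖ ‖w₂.v‖ with h | h
  · exact main w₁ w₂ le_rfl h h le_rfl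
  · exact main w₂ w₁ h le_rfl le_rfl h

theorem jensen₀ {f : L1 K P} (hf : f ≠ 0) (w₁ : Pt1 K P) : ∃ n : ℤ, ∀ w₂ : Pt1 K P,
    Real.log (gn w₂ f) = Real.log (gn w₁ f) +
      n * Real.log (‖w₂.v‖ / ‖w₁.v‖) + ∑ᶠ z, (ord₀ z f : ℝ) * wp w₁ w₂ z :=
  (exists_isTop hf w₁).imp fun _ hn => jensen_top hf hn

end Pool.Agent.Work.MP_e120ef_ag.H
end

-- merged part: Pool.Agent.Work.MP_e120ef_ag.H.Nev
section
/-!
# Abstract value distribution data on a field of meromorphic functions on an annulus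

`nr w u` is the Gauss norm of `u` at the radius `‖w‖`, `ord z u` the order of `u` at `z`, `D = t d/dt`.
-/

namespace Pool.Agent.Work.MP_e120ef_ag.H

/-- the data -/
structure Nev (K : Type) [NontriviallyNormedField K] (P : Rad) (M : Type) [Field M] [Algebra K M] where
  nr : Pt1 K P → M → ℝ
  ord : Pt1 K P → M → ℤ
  D : Derivation K M M
  nr_nonneg : ∀ w u, 0 ≤ nr w u
  nr_eq_zero : ∀ w u, nr w u = 0 ↔ u = 0
  nr_mul : ∀ w u v, nr w (u * v) = nr w u * nr w v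
  nr_add : ∀ w u v, nr w (u + v) ≤ max (nr w u) (nr w v)
  nr_alg : ∀ w c, nr w (algebraMap K M c) = ‖c‖
  nr_D : ∀ w u, nr w (D u) ≤ nr w u
  ord_zero : ∀ z, ord z 0 = 0
  ord_mul : ∀ z u v, u ≠ 0 → v ≠ 0 → ord z (u * v) = ord z u + ord z v
  ord_add : ∀ z u v, u ≠ 0 → v ≠ 0 → u + v ≠ 0 → min (ord z u) (ord z v) ≤ ord z (u + v)
  ord_alg : ∀ z c, ord z (algebraMap K M c) = 0
  ord_val : ∀ z u, ord z u = 0 → ∃ c, u = algebraMap K M c ∨ 0 < ord z (u - algebraMap K M c)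
  ord_D : ∀ z u, ord z u ≠ 0 → D u ≠ 0 ∧ ord z (D u) = ord z u - 1
  fin : ∀ (u : M) (w₁ w₂ : Pt1 K P),
    {z : Pt1 K P | ‖w₁.v‖ ≤ ‖z.v‖ ∧ ‖z.v‖ ≤ ‖w₂.v‖ ∧ ord z u ≠ 0}.Finite
  jensen : ∀ u, u ≠ 0 → ∀ w₁ : Pt1 K P, ∃ n : ℤ, ∀ w₂ : Pt1 K P, Real.log (nr w₂ u) =
    Real.log (nr w₁ u) + n * Real.log (‖w₂.v‖ / ‖w₁.v‖) + ∑ᶠ z, (ord z u : ℝ) * wp w₁ w₂ z

end Pool.Agent.Work.MP_e120ef_ag.H
end

-- merged part: Pool.Agent.Work.MP_e120ef_ag.H.NevA
section
/-!
# Valuation rings of points; Liouville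
-/

open Filter Topology

namespace Pool.Agent.Work.MP_e120ef_ag.H

variable {K M : Type} [NontriviallyNormedField K] [Field M] [Algebra K M] {P : Rad}
  (N : Nev K P M)

theorem NevA_nr_one (w : Pt1 K P) : N.nr w 1 = 1 := by
  have := N.nr_alg w 1
  rwa [map_one, norm_one] at this

theorem NevA_nr_inv (w : Pt1 K P) (u : M) : N.nr w u⁻¹ = (N.nr w u)⁻¹ := by
  by_cases h : u = 0
  · rw [h, inv_zero, (N.nr_eq_zero w 0).2 rfl, inv_zero]
  · have h1 := N.nr_mul w u u⁻¹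
    rw [mul_inv_cancel₀ h, NevA_nr_one] at h1
    exact eq_inv_of_mul_eq_one_right h1.symm

theorem NevA_nr_neg (w : Pt1 K P) (u : M) : N.nr w (-u) = N.nr w u := by
  have h : -u = algebraMap K M (-1) * u := by simp
  rw [h, N.nr_mul, N.nr_alg]
  simp

theorem NevA_nr_sub (w : Pt1 K P) (u v : M) : N.nr w (u - v) ≤ max (N.nr w u) (N.nr w v) := by
  have := N.nr_add w u (-v)
  rwa [NevA_nr_neg, ← sub_eq_add_neg] at this

theorem NevA_nr_pos (w : Pt1 K P) {u : M} (h : u ≠ 0) : 0 < N.nr w u :=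
  lt_of_le_of_ne (N.nr_nonneg w u) fun h1 => h ((N.nr_eq_zero w u).1 h1.symm)

theorem NevA_ord_one (z : Pt1 K P) : N.ord z 1 = 0 := by
  have := N.ord_alg z 1
  rwa [map_one] at this

theorem NevA_ord_inv (z : Pt1 K P) (u : M) : N.ord z u⁻¹ = -N.ord z u := by
  by_cases h : u = 0
  · rw [h, inv_zero, N.ord_zero, neg_zero]
  · have h1 := N.ord_mul z u u⁻¹ h (inv_ne_zero h)
    rw [mul_inv_cancel₀ h, NevA_ord_one] at h1
    omega

theorem NevA_ord_neg (z : Pt1 K P) (u : M) : N.ord z (-u) = N.ord z u := by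
  by_cases h : u = 0
  · rw [h, neg_zero]
  · have h1 : -u = algebraMap K M (-1) * u := by simp
    rw [h1, N.ord_mul z _ u (by simp) h, N.ord_alg, zero_add]

theorem NevA_D_sub (u : M) (c : K) : N.D (u - algebraMap K M c) = N.D u := by
  rw [map_sub, Derivation.map_algebraMap, sub_zero]

theorem wt_nonneg (w₁ w₂ z : Kˣ) : 0 ≤ wt w₁ w₂ z := by
  unfold wt
  split_ifs <;> exact Real.posLog_nonneg

theorem Nev.wt_support (u : M) (w₁ w₂ : Pt1 K P) : {z | N.ord z u ≠ 0 ∧ wp w₁ w₂ z ≠ 0}.Finite := by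
  refine ((N.fin u w₁ w₂).union (N.fin u w₂ w₁)).subset ?_
  rintro z ⟨h1, h2⟩
  have hz : 0 < ‖z.v‖ := norm_pos_iff.2 z.1.ne_zero
  have hw : 0 < ‖w₂.v‖ := norm_pos_iff.2 w₂.1.ne_zero
  unfold wp wt at h2
  split_ifs at h2 with h
  · refine Or.inl ⟨h.le, ?_, h1⟩
    by_contra h3
    apply h2
    rw [Real.posLog_eq_zero_iff, abs_of_nonneg (by positivity), div_le_one hz]
    exact (not_le.1 h3).le
  · refine Or.inr ⟨?_, not_lt.1 h, h1⟩
    by_contra h3
    apply h2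
    rw [Real.posLog_eq_zero_iff, abs_of_nonneg (by positivity), div_le_one hw]
    exact (not_le.1 h3).le

/-- the functions regular at `z` -/
def Nev.regV (z : Pt1 K P) : ValuationSubring M where
  carrier := {u | 0 ≤ N.ord z u}
  mul_mem' := by
    intro u v hu hv
    simp only [Set.mem_ofPred_eq] at hu hv ⊢
    by_cases h1 : u = 0
    · rw [h1, zero_mul, N.ord_zero]
    by_cases h2 : v = 0
    · rw [h2, mul_zero, N.ord_zero]
    rw [N.ord_mul z u v h1 h2]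
    omega
  one_mem' := (NevA_ord_one N z).ge
  add_mem' := by
    intro u v hu hv
    simp only [Set.mem_ofPred_eq] at hu hv ⊢
    by_cases h1 : u = 0
    · rwa [h1, zero_add]
    by_cases h2 : v = 0
    · rwa [h2, add_zero]
    by_cases h3 : u + v = 0
    · rw [h3, N.ord_zero]
    exact (le_min hu hv).trans (N.ord_add z u v h1 h2 h3)
  zero_mem' := (N.ord_zero z).ge
  neg_mem' := by
    intro u hu
    simp only [Set.mem_ofPred_eq] at hu ⊢
    rwa [NevA_ord_neg]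
  mem_or_inv_mem' := by
    intro u
    simp only [Set.mem_ofPred_eq]
    rw [NevA_ord_inv]
    omega

theorem Nev.mem_regV {z : Pt1 K P} {u : M} : u ∈ N.regV z ↔ 0 ≤ N.ord z u := Iff.rfl

theorem Nev.regV_nonunits {z : Pt1 K P} {u : M} : u ∈ (N.regV z).nonunits ↔ u = 0 ∨ 0 < N.ord z u := by
  rw [ValuationSubring.mem_nonunits_iff_or, Nev.mem_regV, NevA_ord_inv]
  apply or_congr Iff.rfl
  omega

theorem Nev.regV_alg (z : Pt1 K P) (c : K) : algebraMap K M c ∈ N.regV z := by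
  exact (N.ord_alg z c).ge

theorem Nev.regV_D {z : Pt1 K P} {u : M} (h : u ∈ N.regV z) : N.D u ∈ N.regV z := by
  rw [Nev.mem_regV] at h ⊢
  by_cases h0 : N.ord z u = 0
  · obtain ⟨c, hc | hc⟩ := N.ord_val z u h0
    · rw [hc, Derivation.map_algebraMap, N.ord_zero]
    · have := (N.ord_D z _ hc.ne').2
      rw [NevA_D_sub] at this
      omega
  · have := (N.ord_D z u h0).2
    omega

theorem Nev.regV_val {z : Pt1 K P} {u : M} (h : u ∈ N.regV z) :
    ∃ c : K, u - algebraMap K M c ∈ (N.regV z).nonunits := by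
  rw [Nev.mem_regV] at h
  by_cases h0 : N.ord z u = 0
  · obtain ⟨c, hc | hc⟩ := N.ord_val z u h0
    · exact ⟨c, N.regV_nonunits.2 (Or.inl (sub_eq_zero.2 hc))⟩
    · exact ⟨c, N.regV_nonunits.2 (Or.inr hc)⟩
  · refine ⟨0, N.regV_nonunits.2 (Or.inr ?_)⟩
    rw [map_zero, sub_zero]
    omega

theorem Nev.ord_iter {z : Pt1 K P} {u : M} {j : ℕ} (h : (j : ℤ) < N.ord z u) :
    N.D^[j] u ∈ (N.regV z).nonunits := by
  induction j generalizing u with
  | zero => exact N.regV_nonunits.2 (Or.inr (by simpa using h))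
  | succ j ih =>
    rw [Function.iterate_succ_apply]
    apply ih
    have := (N.ord_D z u (by omega)).2
    omega

theorem Nev.ord_ge {z : Pt1 K P} {u : M} (hu : u ≠ 0) {n : ℕ}
    (h : ∀ j < n, N.D^[j] u ∈ (N.regV z).nonunits) (h0 : u ∈ N.regV z) : (n : ℤ) ≤ N.ord z u := by
  induction n generalizing u with
  | zero => exact h0
  | succ n ih =>
    have h1 := (N.regV_nonunits.1 (h 0 (Nat.succ_pos n))).resolve_left hu
    rw [Function.iterate_zero_apply] at h1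
    obtain ⟨h2, h3⟩ := N.ord_D z u h1.ne'
    have h4 := ih h2 (fun j hj => by
      rw [← Function.iterate_succ_apply]
      exact h _ (Nat.succ_lt_succ hj)) (N.regV_D h0)
    omega

theorem Nev.van_iter {z : Pt1 K P} {u : M} (h : ∀ j, N.D^[j] u ∈ (N.regV z).nonunits) : u = 0 := by
  by_contra hu
  have h1 := (N.regV_nonunits.1 (h 0)).resolve_left hu
  rw [Function.iterate_zero_apply] at h1
  have h2 := N.ord_ge hu (n := (N.ord z u).toNat + 1) (fun j _ => h j) h1.le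
  omega

theorem Nev.D_const {u : M} (h : N.D u = 0) : ∃ c : K, u = algebraMap K M c := by
  by_cases h0 : N.ord (Pt1.one K P) u = 0
  · obtain ⟨c, hc | hc⟩ := N.ord_val _ u h0
    · exact ⟨c, hc⟩
    · have := (N.ord_D _ _ hc.ne').1
      rw [NevA_D_sub] at this
      exact absurd h this
  · exact absurd h (N.ord_D _ u h0).1

theorem NevA_supp (u : M) (w₁ w₂ : Pt1 K P) :
    (Function.support fun z => (N.ord z u : ℝ) * wp w₁ w₂ z).Finite := by
  refine (N.wt_support u w₁ w₂).subset fun z hz => ?_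
  rw [Function.mem_support, mul_ne_zero_iff] at hz
  exact ⟨by exact_mod_cast hz.1, hz.2⟩

/-- the Gauss norm as an absolute value -/
def Nev.av (w : Pt1 K P) : AbsoluteValue M ℝ where
  toFun := N.nr w
  map_mul' := N.nr_mul w
  nonneg' := N.nr_nonneg w
  eq_zero' := N.nr_eq_zero w
  add_le' u v := (N.nr_add w u v).trans (max_le (le_add_of_nonneg_right (N.nr_nonneg w v))
    (le_add_of_nonneg_left (N.nr_nonneg w u)))

theorem Nev.av_apply (w : Pt1 K P) (u : M) : N.av w u = N.nr w u := rfl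

theorem Nev.av_na (w : Pt1 K P) : IsNonarchimedean (N.av w) := N.nr_add w

/-- `c` is the value of `u` at `z` -/
def Nev.Val (z : Pt1 K P) (u : M) (c : K) : Prop := u - algebraMap K M c ∈ (N.regV z).nonunits

end Pool.Agent.Work.MP_e120ef_ag.H
end

-- merged part: Pool.Agent.Work.MP_e120ef_ag.H.NevT
section
/-!
# The characteristic function

Plans.  All sums have finite support (`Nev.wt_support`); rewrite them as sums over one finite set (`finsum_eq_sum_of_support_subset`).  A convenient master lemma: if `posLog (nr w u) ≤ C + ∑ i ∈ s, k i * posLog (nr w (y i))`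
and `max (-ord z u) 0 ≤ ∑ i ∈ s, k i * max (-ord z (y i)) 0` for all `z`, then `T u w ≤ C + ∑ i ∈ s, k i * T (y i) w`.
`T_inv`: Jensen with `w₁ = 1`, `log x = posLog x - posLog x⁻¹` (`Real.posLog_sub_posLog_inv`), `ord = max ord 0 - max (-ord) 0`.
`T_poly`: `nr w (aeval y σ) ≤ C₀ * ∏ i, max 1 (nr w (y i)) ^ k` by induction over the support (each monomial satisfies the bound, ultrametric inequality); the set of `u` with `u = 0` or `-ord z u ≤ B` is closed under addition.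
`T_root`: if `nr w u > max 1 (nr w (a i))` for all `i` then `nr w (u ^ d)` is larger than the norm of every other term; same for `-ord z`.
-/

open Filter Topology

namespace Pool.Agent.Work.MP_e120ef_ag.H

variable {K M : Type} [NontriviallyNormedField K] [Field M] [Algebra K M] {P : Rad}
  (N : Nev K P M)

/-- the characteristic function -/
noncomputable def Nev.T (u : M) (w : Pt1 K P) : ℝ :=
  Real.posLog (N.nr w u) + ∑ᶠ z, ((max (-N.ord z u) 0 : ℤ) : ℝ) * wp (Pt1.one K P) w z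

/-- inequality up to a multiple of `1 + log ‖w‖` -/
def Le (f g : Pt1 K P → ℝ) : Prop :=
  ∃ C : ℝ, ∀ w : Pt1 K P, 1 ≤ ‖w.v‖ → f w ≤ g w + C * (1 + Real.log ‖w.v‖)

omit [Field M] [Algebra K M] in
theorem Le.of_le {f g : Pt1 K P → ℝ} (h : ∀ w : Pt1 K P, 1 ≤ ‖w.v‖ → f w ≤ g w) : Le f g := by
  exact ⟨0, fun w hw => by simpa using h w hw⟩

omit [Field M] [Algebra K M] in
theorem Le.trans {f g h : Pt1 K P → ℝ} (h₁ : Le f g) (h₂ : Le g h) : Le f h := by
  obtain ⟨C, hC⟩ := h₁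
  obtain ⟨D, hD⟩ := h₂
  exact ⟨C + D, fun w hw => by have := hC w hw; have := hD w hw; linarith⟩

omit [Field M] [Algebra K M] in
theorem Le.add {f g f' g' : Pt1 K P → ℝ} (h₁ : Le f g) (h₂ : Le f' g') :
    Le (fun w => f w + f' w) fun w => g w + g' w := by
  obtain ⟨C, hC⟩ := h₁
  obtain ⟨D, hD⟩ := h₂
  exact ⟨C + D, fun w hw => by have := hC w hw; have := hD w hw; linarith⟩

omit [Field M] [Algebra K M] in
theorem Le.mul {f g : Pt1 K P → ℝ} (h : Le f g) {c : ℝ} (hc : 0 ≤ c) :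
    Le (fun w => c * f w) fun w => c * g w := by
  obtain ⟨C, hC⟩ := h
  exact ⟨c * C, fun w hw => by have := mul_le_mul_of_nonneg_left (hC w hw) hc; linarith⟩

omit [Field M] [Algebra K M] in
theorem Le.sum {ι : Type} (s : Finset ι) {f g : ι → Pt1 K P → ℝ} (h : ∀ i ∈ s, Le (f i) (g i)) :
    Le (fun w => ∑ i ∈ s, f i w) fun w => ∑ i ∈ s, g i w := by
  classical
  induction s using Finset.induction_on with
  | empty => exact Le.of_le fun w _ => le_rfl
  | insert a s ha ih =>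
    simp only [Finset.sum_insert ha]
    exact (h a (Finset.mem_insert_self a s)).add
      (ih fun i hi => h i (Finset.mem_insert_of_mem hi))

omit [Field M] [Algebra K M] in
theorem Le.const (f : Pt1 K P → ℝ) (c : ℝ) : Le (fun w => c + f w) f := by
  refine ⟨|c|, fun w hw => ?_⟩
  have h1 := Real.log_nonneg hw
  have h2 := le_abs_self c
  have h3 := mul_nonneg (abs_nonneg c) h1
  linarith

/-- ultrametric absolute values -/
structure NevT_Abs (ν : M → ℝ) : Prop where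
  nonneg : ∀ u, 0 ≤ ν u
  eq_zero : ∀ u, ν u = 0 ↔ u = 0
  mul : ∀ u v, ν (u * v) = ν u * ν v
  add : ∀ u v, ν (u + v) ≤ max (ν u) (ν v)

namespace NevT_Abs

variable {ν : M → ℝ} (h : NevT_Abs ν)
include h

theorem zero : ν 0 = 0 := (h.eq_zero 0).2 rfl

theorem one : ν 1 = 1 := by
  have h1 := h.mul 1 1
  rw [one_mul] at h1
  exact mul_left_cancel₀ (fun h2 => one_ne_zero ((h.eq_zero 1).1 h2)) (h1.symm.trans (mul_one _).symm)

theorem neg (u : M) : ν (-u) = ν u := by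
  have h1 := h.mul (-1) (-1)
  rw [neg_mul_neg, one_mul, h.one] at h1
  have h2 : ν (-1) = 1 := by have := h.nonneg (-1); nlinarith
  rw [← neg_one_mul, h.mul, h2, one_mul]

theorem pow (u : M) (n : ℕ) : ν (u ^ n) = ν u ^ n := by
  induction n with
  | zero => simp [h.one]
  | succ n ih => rw [pow_succ, h.mul, ih, pow_succ]

theorem inv (u : M) : ν u⁻¹ = (ν u)⁻¹ := by
  by_cases hu : u = 0
  · simp [hu, h.zero]
  · exact eq_inv_of_mul_eq_one_left (by rw [← h.mul, inv_mul_cancel₀ hu, h.one])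

theorem sum_lt {ι : Type} (s : Finset ι) {f : ι → M} {B : ℝ} (hB : 0 < B)
    (hf : ∀ i ∈ s, ν (f i) < B) : ν (∑ i ∈ s, f i) < B :=
  Finset.sum_induction f (fun u => ν u < B) (fun u v hu hv => (h.add u v).trans_lt (max_lt hu hv))
    (h.zero ▸ hB) hf

theorem pl_mul (u v : M) :
    Real.posLog (ν (u * v)) ≤ Real.posLog (ν u) + Real.posLog (ν v) := by
  rw [h.mul]
  exact Real.posLog_mul

theorem pl_max (u v : M) :
    Real.posLog (ν (u + v)) ≤ max (Real.posLog (ν u)) (Real.posLog (ν v)) := by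
  rcases le_max_iff.1 (h.add u v) with h1 | h1
  · exact le_max_of_le_left (Real.posLog_le_posLog (h.nonneg _) h1)
  · exact le_max_of_le_right (Real.posLog_le_posLog (h.nonneg _) h1)

theorem pl_add (u v : M) :
    Real.posLog (ν (u + v)) ≤ Real.posLog (ν u) + Real.posLog (ν v) :=
  (h.pl_max u v).trans (max_le (le_add_of_nonneg_right Real.posLog_nonneg)
    (le_add_of_nonneg_left Real.posLog_nonneg))

theorem pl_prod {ι : Type} (s : Finset ι) (f : ι → M) :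
    Real.posLog (ν (∏ i ∈ s, f i)) ≤ ∑ i ∈ s, Real.posLog (ν (f i)) := by
  classical
  induction s using Finset.induction_on with
  | empty => simp [h.one]
  | insert a s ha ih =>
    rw [Finset.prod_insert ha, Finset.sum_insert ha]
    exact (h.pl_mul _ _).trans (add_le_add le_rfl ih)

theorem pl_poly {n k : ℕ} (y : Fin n → M) (σ : MvPolynomial (Fin n) K)
    (hσ : ∀ i, σ.degreeOf i ≤ k) {C : ℝ} (hC : 0 ≤ C)
    (hc : ∀ m ∈ σ.support, Real.posLog (ν (algebraMap K M (σ.coeff m))) ≤ C) :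
    Real.posLog (ν (MvPolynomial.aeval y σ)) ≤ C + k * ∑ i, Real.posLog (ν (y i)) := by
  rw [MvPolynomial.aeval_def, MvPolynomial.eval₂_eq']
  refine Finset.sum_induction _ (fun u => Real.posLog (ν u) ≤ C + k * ∑ i, Real.posLog (ν (y i)))
    (fun u v hu hv => (h.pl_max u v).trans (max_le hu hv)) ?_ fun m hm => ?_
  · rw [h.zero, Real.posLog_zero]
    exact add_nonneg hC (mul_nonneg k.cast_nonneg (Finset.sum_nonneg fun _ _ => Real.posLog_nonneg))
  · refine (h.pl_mul _ _).trans (add_le_add (hc m hm) ((h.pl_prod _ _).trans ?_))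
    rw [Finset.mul_sum]
    refine Finset.sum_le_sum fun i _ => ?_
    rw [h.pow, Real.posLog_pow]
    exact mul_le_mul_of_nonneg_right
      (Nat.cast_le.2 ((MvPolynomial.monomial_le_degreeOf i hm).trans (hσ i))) Real.posLog_nonneg

theorem pl_root {u : M} {d : ℕ} (a : ℕ → M)
    (hu : u ^ d + ∑ i ∈ Finset.range d, a i * u ^ i = 0) :
    Real.posLog (ν u) ≤ ∑ i ∈ Finset.range d, Real.posLog (ν (a i)) := by
  by_contra h1
  rw [not_le] at h1
  have h2 : 1 < ν u := by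
    by_contra h2
    rw [(Real.posLog_eq_zero_iff _).2 (by rw [abs_of_nonneg (h.nonneg u)]; exact not_lt.1 h2)] at h1
    exact h1.not_ge (Finset.sum_nonneg fun _ _ => Real.posLog_nonneg)
  have h3 : ν (∑ i ∈ Finset.range d, a i * u ^ i) < ν u ^ d := by
    refine h.sum_lt _ (pow_pos (one_pos.trans h2) d) fun i hi => ?_
    have h4 : ν (a i) < ν u := by
      by_contra h4
      exact h1.not_ge ((Real.posLog_le_posLog (h.nonneg u) (not_lt.1 h4)).trans
        (Finset.single_le_sum (f := fun i => Real.posLog (ν (a i)))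
          (fun _ _ => Real.posLog_nonneg) hi))
    rw [h.mul, h.pow]
    refine (mul_lt_mul_of_pos_right h4 (pow_pos (one_pos.trans h2) i)).trans_le ?_
    rw [← pow_succ']
    exact pow_le_pow_right₀ h2.le (Finset.mem_range.1 hi)
  rw [eq_neg_of_add_eq_zero_right hu, h.neg, h.pow] at h3
  exact h3.false

end NevT_Abs

theorem NevT_nr (w : Pt1 K P) : NevT_Abs (N.nr w) :=
  ⟨N.nr_nonneg w, N.nr_eq_zero w, N.nr_mul w, N.nr_add w⟩

open Classical in
/-- the absolute value attached to a point -/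
noncomputable def NevT_av (z : Pt1 K P) (u : M) : ℝ := if u = 0 then 0 else Real.exp (-N.ord z u)

theorem NevT_av_abs (z : Pt1 K P) : NevT_Abs (NevT_av N z) := by
  have h0 : ∀ u, 0 ≤ NevT_av N z u := fun u => by
    unfold NevT_av
    split_ifs
    exacts [le_rfl, (Real.exp_pos _).le]
  refine ⟨h0, fun u => by simp [NevT_av], fun u v => ?_, fun u v => ?_⟩
  · by_cases hu : u = 0
    · simp [NevT_av, hu]
    by_cases hv : v = 0
    · simp [NevT_av, hv]
    simp [NevT_av, hu, hv, N.ord_mul z u v hu hv, ← Real.exp_add, add_comm]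
  · by_cases hu : u = 0
    · rw [hu, zero_add]
      exact le_max_right _ _
    by_cases hv : v = 0
    · rw [hv, add_zero]
      exact le_max_left _ _
    by_cases huv : u + v = 0
    · rw [huv]
      exact le_max_of_le_left (by simpa [NevT_av] using h0 u)
    simp only [NevT_av, hu, hv, huv, if_false, le_max_iff, Real.exp_le_exp, neg_le_neg_iff,
      Int.cast_le]
    exact min_le_iff.1 (N.ord_add z u v hu hv huv)

theorem NevT_pl (z : Pt1 K P) (u : M) :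
    Real.posLog (NevT_av N z u) = ((max (-N.ord z u) 0 : ℤ) : ℝ) := by
  by_cases hu : u = 0
  · simp [NevT_av, hu, N.ord_zero]
  · simp [NevT_av, hu, Real.posLog_apply, max_comm]

theorem NevT_fin (u : M) (w₁ w₂ : Pt1 K P) (φ : ℤ → ℝ) (hφ : φ 0 = 0) :
    Function.HasFiniteSupport fun z => φ (N.ord z u) * wp w₁ w₂ z :=
  (N.wt_support u w₁ w₂).subset fun _ hz =>
    ⟨fun h => hz (by simp only [h, hφ, zero_mul]), right_ne_zero_of_mul hz⟩

theorem NevT_fin' (u : M) (w : Pt1 K P) :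
    Function.HasFiniteSupport fun z => ((max (-N.ord z u) 0 : ℤ) : ℝ) * wp (Pt1.one K P) w z :=
  NevT_fin N u (Pt1.one K P) w (fun n => ((max (-n) 0 : ℤ) : ℝ)) (by simp)

theorem NevT_master {ι : Type} (s : Finset ι) (y : ι → M) (u : M) (w : Pt1 K P) (C k : ℝ)
    (h1 : Real.posLog (N.nr w u) ≤ C + k * ∑ i ∈ s, Real.posLog (N.nr w (y i)))
    (h2 : ∀ z, Real.posLog (NevT_av N z u) ≤ 0 + k * ∑ i ∈ s, Real.posLog (NevT_av N z (y i))) :
    N.T u w ≤ C + k * ∑ i ∈ s, N.T (y i) w := by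
  simp only [NevT_pl, zero_add] at h2
  unfold Nev.T
  rw [Finset.sum_add_distrib, mul_add, ← add_assoc,
    ← finsum_sum_comm _ _ fun i _ => NevT_fin' N (y i) w, mul_finsum]
  refine add_le_add h1 (finsum_le_finsum' (NevT_fin' N u w) ?_ fun z => ?_)
  · refine ((s.finite_toSet.biUnion fun i _ => NevT_fin' N (y i) w)).subset fun z hz => ?_
    obtain ⟨i, hi, hz⟩ := Finset.exists_ne_zero_of_sum_ne_zero (right_ne_zero_of_mul hz)
    exact Set.mem_biUnion hi hz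
  · have h3 := mul_le_mul_of_nonneg_right (h2 z) (wt_nonneg (Pt1.one K P).1 w.1 z.1)
    rwa [mul_assoc, Finset.sum_mul] at h3

theorem Nev.T_nonneg (u : M) (w : Pt1 K P) : 0 ≤ N.T u w := by
  exact add_nonneg Real.posLog_nonneg (finsum_nonneg fun z =>
    mul_nonneg (Int.cast_nonneg (le_max_right _ _)) (wt_nonneg (Pt1.one K P).1 w.1 z.1))

theorem Nev.T_alg (c : K) (w : Pt1 K P) : N.T (algebraMap K M c) w = Real.posLog ‖c‖ := by
  simp [Nev.T, N.nr_alg, N.ord_alg]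

theorem Nev.T_mul (u v : M) (w : Pt1 K P) : N.T (u * v) w ≤ N.T u w + N.T v w := by
  simpa using NevT_master N Finset.univ ![u, v] (u * v) w 0 1
    (by simpa using (NevT_nr N w).pl_mul u v) fun z => by simpa using (NevT_av_abs N z).pl_mul u v

theorem Nev.T_add (u v : M) (w : Pt1 K P) : N.T (u + v) w ≤ N.T u w + N.T v w := by
  simpa using NevT_master N Finset.univ ![u, v] (u + v) w 0 1
    (by simpa using (NevT_nr N w).pl_add u v) fun z => by simpa using (NevT_av_abs N z).pl_add u v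

theorem Nev.T_inv (u : M) : Le (N.T u⁻¹) (N.T u) := by
  by_cases hu : u = 0
  · rw [hu, inv_zero]
    exact Le.of_le fun _ _ => le_rfl
  obtain ⟨n, hn⟩ := N.jensen u hu (Pt1.one K P)
  refine ⟨|Real.log (N.nr (Pt1.one K P) u)| + |(n : ℝ)|, fun w hw => ?_⟩
  have h1 := hn w
  have h2 : ∀ z, N.ord z u⁻¹ = -N.ord z u := fun z => by
    have h2 := N.ord_mul z u u⁻¹ hu (inv_ne_zero hu)
    rw [mul_inv_cancel₀ hu, ← map_one (algebraMap K M), N.ord_alg] at h2
    omega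
  have h3 : ∑ᶠ z, ((max (-N.ord z u⁻¹) 0 : ℤ) : ℝ) * wp (Pt1.one K P) w z =
      ∑ᶠ z, ((max (-N.ord z u) 0 : ℤ) : ℝ) * wp (Pt1.one K P) w z + ∑ᶠ z, (N.ord z u : ℝ) * wp (Pt1.one K P) w z := by
    rw [← finsum_add_distrib (NevT_fin' N u w) (NevT_fin N u (Pt1.one K P) w (fun n => (n : ℝ)) (by simp))]
    refine finsum_congr fun z => ?_
    rw [← add_mul, ← Int.cast_add, h2]
    congr 2
    omega
  have h4 := Real.posLog_sub_posLog_inv (x := N.nr w u)
  have h5 := Real.log_nonneg hw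
  have h6 := neg_abs_le (Real.log (N.nr (Pt1.one K P) u))
  have h7 := mul_le_mul_of_nonneg_right (neg_abs_le (n : ℝ)) h5
  have h8 := mul_nonneg (abs_nonneg (Real.log (N.nr (Pt1.one K P) u))) h5
  have h9 := abs_nonneg (n : ℝ)
  rw [show (Pt1.one K P).v = 1 from rfl, norm_one, div_one] at h1
  rw [Nev.T, Nev.T, h3, (NevT_nr N w).inv]
  linarith

theorem Nev.T_poly {n k : ℕ} (y : Fin n → M) (σ : MvPolynomial (Fin n) K)
    (hσ : ∀ i, σ.degreeOf i ≤ k) :
    Le (N.T (MvPolynomial.aeval y σ)) fun w => k * ∑ i, N.T (y i) w := by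
  refine (Le.of_le fun w _ => NevT_master N Finset.univ y _ w
    (∑ m ∈ σ.support, Real.posLog ‖σ.coeff m‖) k ?_ fun z => ?_).trans (Le.const _ _)
  · refine (NevT_nr N w).pl_poly y σ hσ (Finset.sum_nonneg fun _ _ => Real.posLog_nonneg)
      fun m hm => ?_
    rw [N.nr_alg]
    exact Finset.single_le_sum (f := fun m => Real.posLog ‖σ.coeff m‖)
      (fun _ _ => Real.posLog_nonneg) hm
  · exact (NevT_av_abs N z).pl_poly y σ hσ le_rfl fun m _ => by simp [NevT_pl, N.ord_alg]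

theorem Nev.T_root {u : M} {d : ℕ} (a : ℕ → M)
    (h : u ^ d + ∑ i ∈ Finset.range d, a i * u ^ i = 0) (w : Pt1 K P) :
    N.T u w ≤ ∑ i ∈ Finset.range d, N.T (a i) w := by
  simpa using NevT_master N (Finset.range d) a u w 0 1
    (by simpa using (NevT_nr N w).pl_root a h) fun z => by
      simpa using (NevT_av_abs N z).pl_root a h

end Pool.Agent.Work.MP_e120ef_ag.H
end

-- merged part: Pool.Agent.Work.MP_e120ef_ag.H.NevE
section
/-!
# Small functions and the end of the argument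

Plans (compare the file `NevE` one folder up, whose proofs can be copied).  The weight satisfies `wp 1 w z ≤ log ‖w‖` if `1 < ‖z‖` and `1 ≤ ‖w‖`, and `wp 1 w z = posLog (‖z‖ / ‖w‖) = 0` if `‖z‖ ≤ 1 ≤ ‖w‖` (`NevE_wp`).
`ctl_root`: divide by the leading coefficient, `T_root`.  `sm_of`: the pole sum is at most `(∑ z ∈ S, -ord z u) * log ‖w‖`.
`T_polyS`: `NevT_master` does not apply directly; bound `posLog (ν (eval₂ c y σ)) ≤ ∑ m ∈ σ.support, posLog (ν (c (coeff m σ))) + k * ∑ i, posLog (ν (y i))` for every `NevT_Abs ν` (as in `pl_poly`), and sum as in `NevT_master`.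
`endgame`: as before; the finitely many `z ∈ Ξ` contribute at most `(∑ z ∈ Ξ, max (-ord z h) 0) * log ‖w‖`.
-/

open Filter Topology

namespace Pool.Agent.Work.MP_e120ef_ag.H

variable {K M : Type} [NontriviallyNormedField K] [Field M] [Algebra K M] {P : Rad}
  (N : Nev K P M)

omit [Field M] [Algebra K M] in
theorem NevE_wp {w : Pt1 K P} (hw : 1 ≤ ‖w.v‖) (z : Pt1 K P) :
    wp (Pt1.one K P) w z ≤ Real.log ‖w.v‖ := by
  have h0 : 0 < ‖w.v‖ := one_pos.trans_le hw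
  unfold wp wt
  simp only [Pt1.one_val, Units.val_one, norm_one]
  split_ifs with h
  · rw [← Real.posLog_eq_log (by rwa [abs_of_pos h0])]
    exact Real.posLog_le_posLog (by positivity) (div_le_self h0.le h.le)
  · rw [(Real.posLog_eq_zero_iff _).2 (by
      rw [abs_of_nonneg (by positivity), div_le_one h0]
      exact (not_lt.1 h).trans hw)]
    exact Real.log_nonneg hw

theorem NevE_sum (u : M) (w : Pt1 K P) {S : Finset (Pt1 K P)}
    (hS : (N.wt_support u (Pt1.one K P) w).toFinset ⊆ S) :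
    ∑ᶠ z, ((max (-N.ord z u) 0 : ℤ) : ℝ) * wp (Pt1.one K P) w z =
      ∑ z ∈ S, ((max (-N.ord z u) 0 : ℤ) : ℝ) * wp (Pt1.one K P) w z := by
  refine finsum_eq_sum_of_support_subset _ fun z hz => hS ((Set.Finite.mem_toFinset _).2 ?_)
  refine ⟨fun h => hz ?_, fun h => hz ?_⟩ <;> simp [h]

theorem NevE_nonneg (u : M) (w z : Pt1 K P) :
    0 ≤ ((max (-N.ord z u) 0 : ℤ) : ℝ) * wp (Pt1.one K P) w z :=
  mul_nonneg (Int.cast_nonneg (le_max_right _ _)) (wt_nonneg _ _ _)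

theorem NevE_gen {κ : Type} [Fintype κ] {u : M} (y : κ → M) (c : κ → ℝ) (hc : ∀ i, 0 ≤ c i)
    {Ξ : Set (Pt1 K P)} (hΞ : Ξ.Finite) (hb : Le (fun w => Real.posLog (N.nr w u)) fun _ => 0)
    (hp : ∀ z ∉ Ξ, N.ord z u < 0 →
      ∃ i, ((max (-N.ord z u) 0 : ℤ) : ℝ) ≤ c i * ((max (-N.ord z (y i)) 0 : ℤ) : ℝ)) :
    Le (N.T u) fun w => ∑ i, c i * N.T (y i) w := by
  classical
  obtain ⟨C, hC⟩ := hb
  obtain ⟨F, rfl⟩ := hΞ.exists_finset_coe
  refine ⟨C + ∑ z ∈ F, ((max (-N.ord z u) 0 : ℤ) : ℝ), fun w hw => ?_⟩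
  obtain ⟨S, h0, h1, h2⟩ : ∃ S : Finset (Pt1 K P), F ⊆ S ∧
      (N.wt_support u (Pt1.one K P) w).toFinset ⊆ S ∧
      ∀ i, (N.wt_support (y i) (Pt1.one K P) w).toFinset ⊆ S :=
    ⟨(F ∪ _) ∪ Finset.univ.biUnion fun i => (N.wt_support (y i) (Pt1.one K P) w).toFinset,
      Finset.subset_union_left.trans Finset.subset_union_left,
      Finset.subset_union_right.trans Finset.subset_union_left,
      fun i => (Finset.subset_biUnion_of_mem
        (fun i => (N.wt_support (y i) (Pt1.one K P) w).toFinset) (Finset.mem_univ i)).trans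
        Finset.subset_union_right⟩
  have h3 : ∑ z ∈ S, ((max (-N.ord z u) 0 : ℤ) : ℝ) * wp (Pt1.one K P) w z ≤
      ∑ z ∈ S, ((if z ∈ F then ((max (-N.ord z u) 0 : ℤ) : ℝ) * Real.log ‖w.v‖ else 0) +
        ∑ i, c i * (((max (-N.ord z (y i)) 0 : ℤ) : ℝ) * wp (Pt1.one K P) w z)) := by
    refine Finset.sum_le_sum fun z _ => ?_
    have h4 : ∀ i ∈ Finset.univ,
        0 ≤ c i * (((max (-N.ord z (y i)) 0 : ℤ) : ℝ) * wp (Pt1.one K P) w z) :=
      fun i _ => mul_nonneg (hc i) (NevE_nonneg N _ w z)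
    split_ifs with hz
    · exact le_add_of_le_of_nonneg (mul_le_mul_of_nonneg_left (NevE_wp hw z)
        (Int.cast_nonneg (le_max_right _ _))) (Finset.sum_nonneg h4)
    rw [zero_add]
    by_cases h5 : N.ord z u < 0
    · obtain ⟨i, h6⟩ := hp z hz h5
      refine le_trans ?_ (Finset.single_le_sum h4 (Finset.mem_univ i))
      rw [← mul_assoc]
      exact mul_le_mul_of_nonneg_right h6 (wt_nonneg _ _ _)
    · rw [max_eq_right (by omega), Int.cast_zero, zero_mul]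
      exact Finset.sum_nonneg h4
  rw [Finset.sum_add_distrib, Finset.sum_ite_mem, Finset.inter_eq_right.2 h0, ← Finset.sum_mul,
    Finset.sum_comm, ← NevE_sum N u w h1] at h3
  have h4 : ∑ i, ∑ z ∈ S, c i * (((max (-N.ord z (y i)) 0 : ℤ) : ℝ) * wp (Pt1.one K P) w z) ≤
      ∑ i, c i * N.T (y i) w := Finset.sum_le_sum fun i _ => by
    rw [← Finset.mul_sum, ← NevE_sum N _ w (h2 i)]
    exact mul_le_mul_of_nonneg_left (le_add_of_nonneg_left Real.posLog_nonneg) (hc i)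
  have h5 : 0 ≤ ∑ z ∈ F, ((max (-N.ord z u) 0 : ℤ) : ℝ) :=
    Finset.sum_nonneg fun z _ => Int.cast_nonneg (le_max_right _ _)
  have h6 := hC w hw
  rw [Nev.T]
  linarith

theorem NevE_pl {ν : M → ℝ} (h : NevT_Abs ν) {C : Type} [CommRing C] (c : C →+* M) {n k : ℕ}
    (y : Fin n → M) (σ : MvPolynomial (Fin n) C) (hσ : ∀ i, σ.degreeOf i ≤ k) :
    Real.posLog (ν (σ.eval₂ c y)) ≤ ∑ m ∈ σ.support, Real.posLog (ν (c (σ.coeff m))) +
      k * ∑ i, Real.posLog (ν (y i)) := by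
  rw [MvPolynomial.eval₂_eq']
  refine Finset.sum_induction _ (fun u => Real.posLog (ν u) ≤
      ∑ m ∈ σ.support, Real.posLog (ν (c (σ.coeff m))) + k * ∑ i, Real.posLog (ν (y i)))
    (fun u v hu hv => (h.pl_max u v).trans (max_le hu hv)) ?_ fun m hm => ?_
  · rw [h.zero, Real.posLog_zero]
    exact add_nonneg (Finset.sum_nonneg fun _ _ => Real.posLog_nonneg)
      (mul_nonneg k.cast_nonneg (Finset.sum_nonneg fun _ _ => Real.posLog_nonneg))
  · refine (h.pl_mul _ _).trans (add_le_add (Finset.single_le_sum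
      (f := fun m => Real.posLog (ν (c (σ.coeff m)))) (fun _ _ => Real.posLog_nonneg) hm)
      ((h.pl_prod _ _).trans ?_))
    rw [Finset.mul_sum]
    refine Finset.sum_le_sum fun i _ => ?_
    rw [h.pow, Real.posLog_pow]
    exact mul_le_mul_of_nonneg_right
      (Nat.cast_le.2 ((MvPolynomial.monomial_le_degreeOf i hm).trans (hσ i))) Real.posLog_nonneg

/-- the functions whose characteristic is controlled by `𝒯` -/
def Nev.ctl (𝒯 : Pt1 K P → ℝ) (h : ∀ w, 0 ≤ 𝒯 w) : Subfield M where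
  carrier := {u | ∃ s : ℕ, Le (N.T u) fun w => s * 𝒯 w}
  mul_mem' := by
    rintro u v ⟨s, hs⟩ ⟨t, ht⟩
    exact ⟨s + t, (Le.of_le fun w _ => N.T_mul u v w).trans
      ((hs.add ht).trans (Le.of_le fun w _ => by rw [Nat.cast_add, add_mul]))⟩
  one_mem' := ⟨0, Le.of_le fun w _ => by rw [← map_one (algebraMap K M), N.T_alg]; simp⟩
  add_mem' := by
    rintro u v ⟨s, hs⟩ ⟨t, ht⟩
    exact ⟨s + t, (Le.of_le fun w _ => N.T_add u v w).trans
      ((hs.add ht).trans (Le.of_le fun w _ => by rw [Nat.cast_add, add_mul]))⟩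
  zero_mem' := ⟨0, Le.of_le fun w _ => by rw [← map_zero (algebraMap K M), N.T_alg]; simp⟩
  neg_mem' := by
    rintro u ⟨s, hs⟩
    refine ⟨s, (Le.of_le fun w _ => ?_).trans hs⟩
    have := N.T_mul (algebraMap K M (-1)) u w
    rw [N.T_alg] at this
    simpa using this
  inv_mem' := fun u ⟨s, hs⟩ => ⟨s, (N.T_inv u).trans hs⟩

/-- small functions -/
def Nev.Sm (u : M) : Prop := Le (N.T u) fun _ => 0

variable {N} {𝒯 : Pt1 K P → ℝ} {h𝒯 : ∀ w, 0 ≤ 𝒯 w} {u : M}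

theorem Nev.mem_ctl : u ∈ N.ctl 𝒯 h𝒯 ↔ ∃ s : ℕ, Le (N.T u) fun w => s * 𝒯 w := Iff.rfl

theorem Nev.Sm.ctl (h : N.Sm u) : u ∈ N.ctl 𝒯 h𝒯 := by
  exact ⟨0, Le.trans h (Le.of_le fun w _ => by simp)⟩

theorem Nev.sm_of_ctl (h : u ∈ N.ctl 𝒯 h𝒯) (h0 : Le 𝒯 fun _ => 0) : N.Sm u := by
  obtain ⟨s, hs⟩ := h
  exact hs.trans ((h0.mul s.cast_nonneg).trans (Le.of_le fun w _ => by simp))

theorem Nev.sm_iff : N.Sm u ↔ u ∈ N.ctl (fun _ => 0) fun _ => le_rfl :=
  ⟨fun h => h.ctl, fun h => Nev.sm_of_ctl h (Le.of_le fun _ _ => le_rfl)⟩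

theorem Nev.sm_alg (c : K) : N.Sm (algebraMap K M c) := by
  exact (Le.of_le fun w _ => by rw [N.T_alg, add_zero]).trans
    (Le.const (fun _ => 0) (Real.posLog ‖c‖))

theorem NevE_fin {ι : Type} (S : Finset ι) {y : ι → M} (h : ∀ i, y i ∈ N.ctl 𝒯 h𝒯) :
    ∃ s : ℕ, Le (fun w => ∑ i ∈ S, N.T (y i) w) fun w => s * 𝒯 w := by
  choose s hs using h
  exact ⟨∑ i ∈ S, s i, (Le.sum S fun i _ => hs i).trans
    (Le.of_le fun w _ => by rw [Nat.cast_sum, Finset.sum_mul])⟩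

theorem Nev.ctl_root {p : Polynomial M} (hp : p ≠ 0) (hc : ∀ i, p.coeff i ∈ N.ctl 𝒯 h𝒯)
    (h : p.eval u = 0) : u ∈ N.ctl 𝒯 h𝒯 := by
  have h0 : p.coeff p.natDegree ≠ 0 := Polynomial.leadingCoeff_ne_zero.2 hp
  obtain ⟨s, hs⟩ := NevE_fin (Finset.range p.natDegree)
    fun i => div_mem (hc i) (hc p.natDegree)
  refine ⟨s, (Le.of_le fun w _ => N.T_root _ ?_ w).trans hs⟩
  rw [Polynomial.eval_eq_sum_range, Finset.sum_range_succ] at h
  refine mul_left_cancel₀ h0 ?_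
  rw [mul_zero, ← h, mul_add, add_comm, Finset.mul_sum]
  exact congrArg₂ _ (Finset.sum_congr rfl fun i _ => by rw [← mul_assoc, mul_div_cancel₀ _ h0]) rfl

theorem Nev.ctl_fin {ι : Type} [Fintype ι] {y : ι → M} (h : ∀ i, y i ∈ N.ctl 𝒯 h𝒯) :
    ∃ s : ℕ, Le (fun w => ∑ i, N.T (y i) w) fun w => s * 𝒯 w := by
  exact NevE_fin _ h

theorem Nev.sm_of (h₁ : Le (fun w => Real.posLog (N.nr w u)) fun _ => 0)
    (h₂ : {z | N.ord z u < 0}.Finite) : N.Sm u := by
  exact (NevE_gen N (κ := Empty) (fun _ => 0) (fun _ => 0) (fun _ => le_rfl) h₂ h₁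
    fun z hz h => absurd h hz).trans (Le.of_le fun w _ => by simp)

theorem Nev.Sm.nr_le (h : N.Sm u) : ∃ C : ℝ, 0 ≤ C ∧ ∀ w : Pt1 K P, 1 ≤ ‖w.v‖ →
    N.nr w u ≤ Real.exp (C * (1 + Real.log ‖w.v‖)) := by
  obtain ⟨C, hC⟩ := h
  refine ⟨|C|, abs_nonneg C, fun w hw => (Real.le_exp_log _).trans (Real.exp_le_exp.2 ?_)⟩
  have h1 := hC w hw
  have h2 : Real.log (N.nr w u) ≤ N.T u w :=
    le_add_of_le_of_nonneg (le_max_right _ _) (finsum_nonneg (NevE_nonneg N u w))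
  have h3 := mul_le_mul_of_nonneg_right (le_abs_self C)
    (add_nonneg zero_le_one (Real.log_nonneg hw))
  linarith

theorem Nev.T_polyS {C : Type} [CommRing C] (c : C →+* M) (hc : ∀ a, N.Sm (c a)) {n k : ℕ}
    (y : Fin n → M) (σ : MvPolynomial (Fin n) C) (hσ : ∀ i, σ.degreeOf i ≤ k) :
    Le (N.T (σ.eval₂ c y)) fun w => k * ∑ i, N.T (y i) w := by
  have key : ∀ f : M → ℝ, ∑ i ∈ σ.support.disjSum (Finset.univ : Finset (Fin k × Fin n)),
      f (Sum.elim (fun m => c (σ.coeff m)) (fun p => y p.2) i) =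
      ∑ m ∈ σ.support, f (c (σ.coeff m)) + k * ∑ i, f (y i) := fun f => by
    simp [Finset.sum_disjSum, Fintype.sum_prod_type]
  refine (Le.of_le fun w _ => ?_).trans (((Le.sum σ.support fun m _ => hc (σ.coeff m)).add
    (Le.of_le (f := fun w => k * ∑ i, N.T (y i) w) fun w _ => le_rfl)).trans
      (Le.of_le fun w _ => by simp))
  have := NevT_master N (σ.support.disjSum (Finset.univ : Finset (Fin k × Fin n)))
    (Sum.elim (fun m => c (σ.coeff m)) fun p => y p.2) (σ.eval₂ c y) w 0 1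
    (by
      rw [key fun u => Real.posLog (N.nr w u), zero_add, one_mul]
      exact NevE_pl (NevT_nr N w) c y σ hσ)
    fun z => by
      rw [key fun u => Real.posLog (NevT_av N z u), zero_add, one_mul]
      exact NevE_pl (NevT_av_abs N z) c y σ hσ
  rwa [key fun u => N.T u w, zero_add, one_mul] at this

variable (N)

theorem Nev.endgame {ι κ : Type} [Fintype κ] (H : Finset ι) (h : ι → M) (σ : κ → M) (m k : κ → ℕ)
    (μ s : ℕ) {Ξ : Set (Pt1 K P)} (hΞ : Ξ.Finite)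
    (hb : ∀ a ∈ H, Le (fun w => Real.posLog (N.nr w (h a))) fun _ => 0)
    (hp : ∀ a ∈ H, ∀ z ∉ Ξ, N.ord z (h a) < 0 →
      -N.ord z (h a) ≤ μ ∧ ∃ i, (m i : ℤ) ≤ N.ord z (σ i))
    (hT : ∀ i, Le (N.T (σ i)) fun w => k i * (s * ∑ a ∈ H, N.T (h a) w))
    (hm0 : ∀ i, 0 < m i) (hm : ∀ i, 2 * s * μ * H.card * Fintype.card κ * k i ≤ m i) :
    Le (fun w => ∑ a ∈ H, N.T (h a) w) fun _ => 0 := by
  have h1 : ∀ a ∈ H, Le (N.T (h a))
      fun w => ∑ i, (μ / m i : ℝ) * (k i * (s * ∑ a ∈ H, N.T (h a) w)) := fun a ha => by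
    refine (NevE_gen N (fun i => (σ i)⁻¹) (fun i => μ / m i) (fun i => by positivity) hΞ (hb a ha)
      fun z hz h5 => ?_).trans (Le.sum Finset.univ fun i _ =>
        ((N.T_inv (σ i)).trans (hT i)).mul (by positivity))
    obtain ⟨h6, i, h7⟩ := hp a ha z hz h5
    have h8 : ((max (-N.ord z (h a)) 0 : ℤ) : ℝ) ≤ μ := by
      exact_mod_cast max_le h6 (Int.natCast_nonneg μ)
    have h9 : (m i : ℝ) ≤ ((max (-N.ord z (σ i)⁻¹) 0 : ℤ) : ℝ) := by
      rw [NevA_ord_inv, neg_neg]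
      exact_mod_cast h7.trans (le_max_left _ _)
    refine ⟨i, h8.trans (le_trans (le_of_eq ?_) (mul_le_mul_of_nonneg_left h9 (by positivity)))⟩
    rw [div_mul_cancel₀ _ (Nat.cast_ne_zero.2 (hm0 i).ne')]
  obtain ⟨C, hC⟩ := Le.sum H h1
  refine ⟨2 * C, fun w hw => ?_⟩
  have h2 := hC w hw
  have h3 : 0 ≤ ∑ a ∈ H, N.T (h a) w := Finset.sum_nonneg fun a _ => N.T_nonneg _ _
  beta_reduce at h2 ⊢
  generalize ∑ a ∈ H, N.T (h a) w = t at h2 h3 ⊢
  have h4 : ∀ i, (H.card : ℝ) * ((μ / m i : ℝ) * (k i * (s * t))) ≤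
      t / (2 * Fintype.card κ) := fun i => by
    have h5 : (0 : ℝ) < Fintype.card κ := Nat.cast_pos.2 (Fintype.card_pos_iff.2 ⟨i⟩)
    have h6 : (0 : ℝ) < m i := Nat.cast_pos.2 (hm0 i)
    have h7 : (2 * s * μ * H.card * Fintype.card κ * k i : ℝ) ≤ m i := by exact_mod_cast hm i
    rw [le_div_iff₀ (by positivity)]
    calc _ = (2 * s * μ * H.card * Fintype.card κ * k i : ℝ) / m i * t := by ring
      _ ≤ 1 * t := mul_le_mul_of_nonneg_right ((div_le_one h6).2 h7) h3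
      _ = t := one_mul t
  have h5 := Finset.sum_le_sum fun i (_ : i ∈ Finset.univ) => h4 i
  rw [← Finset.mul_sum, Finset.sum_const, nsmul_eq_mul, Finset.card_univ] at h5
  have h6 : (Fintype.card κ : ℝ) * (t / (2 * Fintype.card κ)) ≤ t / 2 := by
    rcases eq_or_ne (Fintype.card κ : ℝ) 0 with e | e
    · rw [e, zero_mul]
      positivity
    · exact le_of_eq (by field_simp)
  simp only [Finset.sum_const, nsmul_eq_mul] at h2
  linarith

/-- Compare `Nev.finite_poles` one folder up; the circle `‖z‖ = 1` carries finitely many poles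
by `Nev.fin`. -/
theorem Nev.Sm.finite {N : Nev K Rad.out M} {u : M} (h : N.Sm u) :
    {z | N.ord z u < 0}.Finite := by
  classical
  suffices hf : {z : Pt1 K Rad.out | 1 < ‖z.v‖ ∧ N.ord z u < 0}.Finite by
    refine (hf.union (N.fin u (Pt1.one K _) (Pt1.one K _))).subset fun z hz => ?_
    by_cases h1 : 1 < ‖z.v‖
    · exact Or.inl ⟨h1, hz⟩
    · refine Or.inr ?_
      simp only [Set.mem_ofPred_eq, Pt1.v, Pt1.one_val, Units.val_one, norm_one]
      exact ⟨z.2, not_lt.1 h1, ne_of_lt hz⟩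
  by_contra hi
  obtain ⟨C, hC⟩ := h
  obtain ⟨n, hn⟩ := exists_nat_ge (C + 1)
  obtain ⟨F, hF, hc⟩ := Set.Infinite.exists_subset_card_eq hi n
  obtain ⟨x, hx⟩ := NormedField.exists_lt_norm K (Real.exp |C + ∑ z ∈ F, Real.log ‖z.v‖|)
  have hx1 : 1 ≤ ‖x‖ := (Real.one_le_exp (abs_nonneg _)).trans hx.le
  have hx0 : x ≠ 0 := norm_pos_iff.1 (by linarith)
  have h1 := hC ⟨Units.mk0 x hx0, hx1⟩ hx1
  have h2 : ∑ z ∈ F, (Real.log ‖x‖ - Real.log ‖z.v‖) ≤ N.T u ⟨Units.mk0 x hx0, hx1⟩ := by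
    refine le_trans ?_ (le_add_of_nonneg_left Real.posLog_nonneg)
    rw [NevE_sum N u _ (Finset.subset_union_left (s₂ := F))]
    refine le_trans (Finset.sum_le_sum fun z hz => ?_) (Finset.sum_le_sum_of_subset_of_nonneg
      Finset.subset_union_right fun z _ _ => NevE_nonneg N u _ z)
    obtain ⟨h3, h4⟩ := hF hz
    have h5 : (1 : ℝ) ≤ ((max (-N.ord z u) 0 : ℤ) : ℝ) := by
      exact_mod_cast le_max_of_le_left (by omega)
    refine le_trans ?_ (le_mul_of_one_le_left (wt_nonneg _ _ _) h5)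
    rw [wp, wt, if_pos (by simpa using h3), ← Real.log_div (norm_ne_zero_iff.2 hx0) (by positivity)]
    exact le_max_right _ _
  rw [Finset.sum_sub_distrib, Finset.sum_const, hc, nsmul_eq_mul] at h2
  have h3 := (Real.lt_log_iff_exp_lt (by linarith)).2 hx
  have h4 := le_abs_self (C + ∑ z ∈ F, Real.log ‖z.v‖)
  have h5 := Real.log_nonneg hx1
  simp only [Pt1.v, Units.val_mk0] at h1
  nlinarith

end Pool.Agent.Work.MP_e120ef_ag.H
end

-- merged part: Pool.Agent.Work.MP_e120ef_ag.H.DerL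
section
/-!
# The derivation `t d/dt`

Plans.  `exists_D1`: `‖(n : K)‖ ≤ 1` (`IsUltrametricDist.norm_intCast_le_one`), so `n a n t ^ n` is summable; additivity and Leibniz by comparing coefficients (`coef_mul`, `N = n + (N - n)`;
an element is determined by its coefficients).  `cross_const1`: if `q ≠ 0` pick `t₀` with `q t₀ ≠ 0`, `e = p - (p t₀ / q t₀) • q` also satisfies `D1 e * q = e * D1 q`; if `e ≠ 0` write `e = lin t₀ ^ (n+1) * g` (`exists_order`),
cancel `lin t₀ ^ n` and evaluate at `t₀`.  `no_log`: for a root of unity `ζ` let `p' t = p (ζ t)`, `q' t = q (ζ t)` (coefficients `a n ζ ^ n`, so `D1` commutes with this substitution).  `r = p' q - p q'` satisfies `D1 r * (q q') = r * D1 (q q')`,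
so `r = l • (q q')` (`cross_const1`); at a point `t` with `q (ζ ^ j t) ≠ 0` for all `j` (`finite_zeros`, `exists_generic`; or apply `exists_attain` to the finitely many substituted functions) sum `W (ζ ^ (j+1) t) - W (ζ ^ j t) = l`, `W = p / q`, to get `n l = 0`.
So `p (ζ t₀) q t₀ = p t₀ q (ζ t₀)` for all roots of unity, with `‖t₀‖ = 1`, `q t₀ ≠ 0`: `e` as above has infinitely many zeros on the unit circle (`X ^ n - 1` has `n` distinct roots in characteristic `0`), so `e = 0`.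
-/

open Filter Topology

namespace Pool.Agent.Work.MP_e120ef_ag.H

variable {K : Type} [NontriviallyNormedField K] [IsUltrametricDist K] [IsAlgClosed K]
  [CompleteSpace K] {P : Rad}

omit [IsAlgClosed K] in
theorem DerL_ext {f g : L1 K P} (h : ∀ n, coef f n = coef g n) : f = g :=
  Subtype.ext (funext fun t => (hasSum_coef f t).unique (by simpa only [h] using hasSum_coef g t))

omit [IsAlgClosed K] [CompleteSpace K] in
theorem DerL_norm (n : ℤ) (a b : K) : ‖n * a * b‖ ≤ ‖a * b‖ := by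
  rw [mul_assoc, norm_mul]
  exact mul_le_of_le_one_left (norm_nonneg _) (IsUltrametricDist.norm_intCast_le_one K n)

theorem DerL_ex (f : L1 K P) : ∃ g : L1 K P, ∀ n, coef g n = n * coef f n := by
  have hs : ∀ t : Pt1 K P, Summable fun n : ℤ => n * coef f n * t.v ^ n := fun t =>
    NonarchimedeanAddGroup.summable_of_tendsto_cofinite_zero
      (squeeze_zero_norm (fun n => DerL_norm n _ _)
        (tendsto_zero_iff_norm_tendsto_zero.1 (tendsto_coef f t)))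
  refine ⟨⟨fun t => ∑' n : ℤ, n * coef f n * t.v ^ n, fun n => n * coef f n,
    fun t => (hs t).hasSum⟩, fun n => ?_⟩
  exact congrFun (coef_unique (a := fun n => n * coef f n) fun t => (hs t).hasSum) n

variable (K P) in
theorem exists_D1 : ∃ D : Derivation K (L1 K P) (L1 K P), ∀ f n, coef (D f) n = n * coef f n := by
  choose d hd using DerL_ex (K := K) (P := P)
  let L : L1 K P →ₗ[K] L1 K P :=
    { toFun := d
      map_add' := fun f g => DerL_ext fun n => by rw [coef_add, hd, hd, hd, coef_add, mul_add]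
      map_smul' := fun c f => DerL_ext fun n => by
        rw [RingHom.id_apply, coef_smul, hd, hd, coef_smul, mul_left_comm] }
  refine ⟨Derivation.mk' L fun f g => DerL_ext fun N => ?_, hd⟩
  change coef (d (f * g)) N = coef (f * d g + g * d f) N
  rw [mul_comm g, coef_add, hd, (coef_mul f g N).2, (coef_mul f (d g) N).2, (coef_mul (d f) g N).2,
    ← (coef_mul f (d g) N).1.tsum_add (coef_mul (d f) g N).1, ← tsum_mul_left]
  refine tsum_congr fun n => ?_
  rw [hd, hd]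
  push_cast
  ring

variable (K P) in
/-- the derivation `t d/dt` -/
noncomputable def D1 : Derivation K (L1 K P) (L1 K P) := (exists_D1 K P).choose

theorem coef_D1 (f : L1 K P) (n : ℤ) : coef (D1 K P f) n = n * coef f n :=
  (exists_D1 K P).choose_spec f n

theorem hasSum_D1 {f : L1 K P} {a : ℤ → K}
    (ha : ∀ t : Pt1 K P, HasSum (fun n => a n * t.v ^ n) (f.1 t)) (t : Pt1 K P) :
    HasSum (fun n : ℤ => n * a n * t.v ^ n) ((D1 K P f).1 t) := by
  simpa only [coef_D1, coef_unique ha] using hasSum_coef (D1 K P f) t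

theorem D1_lin (c : K) : D1 K P (lin c) = Zf K P := by
  rw [lin, map_sub, Derivation.map_algebraMap, sub_zero]
  refine DerL_ext fun n => ?_
  rw [coef_D1, coef_Zf]
  split_ifs with h <;> simp [h]

theorem gn_D1 (w : Pt1 K P) (f : L1 K P) : gn w (D1 K P f) ≤ gn w f := by
  refine gn_le _ _ fun n => ?_
  rw [coef_D1]
  exact (DerL_norm n _ _).trans (le_gn f w n)

variable [CharZero K]

theorem DerL_zero {e q : L1 K P} (h : D1 K P e * q = e * D1 K P q) {t : Pt1 K P}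
    (hq : q.1 t ≠ 0) (he : e.1 t = 0) : e = 0 := by
  by_contra h0
  obtain ⟨n, g, hg, rfl⟩ := exists_order h0 t
  rcases n with _ | m
  · exact hg (by simpa using he)
  have h1 : lin t.v ^ m * (((m + 1 : ℕ) : L1 K P) * Zf K P * g * q +
      lin t.v * (D1 K P g * q - g * D1 K P q)) = 0 := by
    rw [Derivation.leibniz, Derivation.leibniz_pow, D1_lin] at h
    simp only [smul_eq_mul, nsmul_eq_mul, Nat.add_sub_cancel] at h
    linear_combination h
  have h2 := (mul_eq_zero.1 h1).resolve_left (pow_ne_zero _ (lin_ne_zero _))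
  have h3 : ((m + 1 : ℕ) : K) * t.v * g.1 t * q.1 t +
      (t.v - t.v) * (D1 K P g * q - g * D1 K P q).1 t = 0 := congrArg (fun f : L1 K P => f.1 t) h2
  rw [sub_self, zero_mul, add_zero] at h3
  exact mul_ne_zero (mul_ne_zero (mul_ne_zero (Nat.cast_ne_zero.2 m.succ_ne_zero) t.1.ne_zero) hg)
    hq h3

omit [IsAlgClosed K] [CharZero K] in
theorem DerL_pt {q : L1 K P} (hq : q ≠ 0) : ∃ t, q.1 t ≠ 0 := by
  by_contra h
  exact hq (Subtype.ext (funext fun t => not_not.1 fun k => h ⟨t, k⟩))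

theorem cross_const1 {p q : L1 K P} (h : D1 K P p * q = p * D1 K P q) (t t' : Pt1 K P) :
    p.1 t * q.1 t' = p.1 t' * q.1 t := by
  by_cases hq : q = 0
  · simp [hq]
  obtain ⟨z, hz⟩ := DerL_pt hq
  have h1 : q.1 z • p - p.1 z • q = 0 := by
    refine DerL_zero (t := z) ?_ hz ?_
    · simp only [map_sub, Derivation.map_smul]
      simp only [Algebra.smul_def]
      linear_combination algebraMap K (L1 K P) (q.1 z) * h
    · change q.1 z * p.1 z - p.1 z * q.1 z = 0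
      ring
  have h2 : ∀ y, q.1 z * p.1 y - p.1 z * q.1 y = 0 := fun y =>
    congrArg (fun f : L1 K P => f.1 y) h1
  apply mul_left_cancel₀ hz
  linear_combination q.1 t' * h2 t - q.1 t * h2 t'

/-- rotation of a point -/
def DerL_mv (ζ : Kˣ) (h : ‖(ζ : K)‖ = 1) (t : Pt1 K P) : Pt1 K P :=
  ⟨ζ * t.1, by rw [Units.val_mul, norm_mul, h, one_mul]; exact t.2⟩

omit [IsAlgClosed K] [CharZero K] in
theorem DerL_rot (ζ : Kˣ) (h : ‖(ζ : K)‖ = 1) (f : L1 K P) (t : Pt1 K P) :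
    HasSum (fun n : ℤ => coef f n * (ζ : K) ^ n * t.v ^ n) (f.1 (DerL_mv ζ h t)) := by
  simpa only [DerL_mv, Pt1.v, Units.val_mul, mul_zpow, mul_assoc] using
    hasSum_coef f (DerL_mv ζ h t)

/-- the substitution of a rotation -/
noncomputable def DerL_sub (ζ : Kˣ) (h : ‖(ζ : K)‖ = 1) : L1 K P →ₐ[K] L1 K P where
  toFun f := ⟨fun t => f.1 (DerL_mv ζ h t), _, DerL_rot ζ h f⟩
  map_one' := rfl
  map_mul' _ _ := rfl
  map_zero' := rfl
  map_add' _ _ := rfl
  commutes' _ := rfl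

omit [CharZero K] in
theorem DerL_coef (ζ : Kˣ) (h : ‖(ζ : K)‖ = 1) (f : L1 K P) (n : ℤ) :
    coef (DerL_sub ζ h f) n = coef f n * (ζ : K) ^ n :=
  congrFun (coef_unique (f := DerL_sub ζ h f) (DerL_rot ζ h f)) n

omit [CharZero K] in
theorem DerL_iter (ζ : Kˣ) (h : ‖(ζ : K)‖ = 1) (f : L1 K P) (k : ℕ) (n : ℤ) :
    coef ((DerL_sub ζ h)^[k] f) n = coef f n * ((ζ : K) ^ k) ^ n := by
  induction k with
  | zero => simp
  | succ k ih => rw [Function.iterate_succ_apply', DerL_coef, ih, pow_succ, mul_zpow, mul_assoc]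

theorem DerL_add {F A : Type} [Field F] [CommRing A] [IsDomain A] [Algebra F A] (σ : A →ₐ[F] A)
    {p q : A} (hq : σ q ≠ 0) {l : F} (h : σ p * q - p * σ q = l • (q * σ q)) (k : ℕ) :
    σ^[k] p * q - p * σ^[k] q = (k * l) • (q * σ^[k] q) := by
  induction k with
  | zero => simp [mul_comm]
  | succ k ih =>
    have h1 := congrArg σ ih
    rw [map_sub, map_mul, map_mul, map_smul, map_mul] at h1
    rw [Function.iterate_succ_apply', Function.iterate_succ_apply']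
    apply mul_left_cancel₀ hq
    simp only [Algebra.smul_def, Nat.cast_succ, map_mul, map_add, map_one] at h h1 ⊢
    linear_combination q * h1 + σ (σ^[k] q) * h

theorem DerL_inv {p q : L1 K P} (hq : q ≠ 0) {c : K}
    (h : D1 K P p * q - p * D1 K P q = c • (q * q)) (ζ : Kˣ) (hζ : ‖(ζ : K)‖ = 1) {n : ℕ}
    (hn : n ≠ 0) (h1 : (ζ : K) ^ n = 1) : DerL_sub ζ hζ p * q = p * DerL_sub ζ hζ q := by
  set σ : L1 K P →ₐ[K] L1 K P := DerL_sub ζ hζ with hσ
  have hD : ∀ f, σ (D1 K P f) = D1 K P (σ f) := fun f => DerL_ext fun m => by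
    rw [hσ, DerL_coef, coef_D1, coef_D1, DerL_coef, mul_assoc]
  have hq' : σ q ≠ 0 := fun k => hq (DerL_ext fun m => by
    have := DerL_coef ζ hζ q m
    rw [← hσ, k, coef_zero] at this
    rw [coef_zero, (mul_eq_zero.1 this.symm).resolve_right (zpow_ne_zero _ ζ.ne_zero)])
  have h2 := congrArg σ h
  rw [map_sub, map_mul, map_mul, map_smul, map_mul, hD, hD] at h2
  have h3 : D1 K P (σ p * q - p * σ q) * (q * σ q) = (σ p * q - p * σ q) * D1 K P (q * σ q) := by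
    simp only [map_sub, Derivation.leibniz, smul_eq_mul, Algebra.smul_def] at h h2 ⊢
    linear_combination (q * q) * h2 - (σ q * σ q) * h
  obtain ⟨t, ht⟩ := DerL_pt (mul_ne_zero hq hq')
  have h4 : σ p * q - p * σ q = ((σ p * q - p * σ q).1 t / (q * σ q).1 t) • (q * σ q) := by
    refine Subtype.ext (funext fun z => ?_)
    change _ = _ / _ * (q * σ q).1 z
    rw [div_mul_eq_mul_div, eq_div_iff ht]
    exact cross_const1 h3 z t
  have h5 := DerL_add σ hq' h4 n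
  have h6 : ∀ f, σ^[n] f = f := fun f => DerL_ext fun m => by
    rw [hσ, DerL_iter, h1, one_zpow, mul_one]
  rw [h6, h6, mul_comm p q, sub_self, eq_comm, smul_eq_zero, mul_eq_zero] at h5
  rw [(h5.resolve_right (mul_ne_zero hq hq)).resolve_left (Nat.cast_ne_zero.2 hn), zero_smul] at h4
  exact sub_eq_zero.1 h4

theorem no_log {p q : L1 K P} (hq : q ≠ 0) {c : K}
    (h : D1 K P p * q - p * D1 K P q = c • (q * q)) : c = 0 := by
  obtain ⟨z, hz⟩ := DerL_pt hq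
  have hr : ∀ n : ℕ, ∃ ζ : Kˣ, IsPrimitiveRoot (ζ : K) (n + 1) := fun n => by
    obtain ⟨ζ, hζ⟩ := HasEnoughRootsOfUnity.exists_primitiveRoot K (n + 1)
    exact ⟨Units.mk0 ζ (hζ.ne_zero n.succ_ne_zero), hζ⟩
  choose ζ hζ using hr
  have hn : ∀ n, ‖(ζ n : K)‖ = 1 := fun n =>
    (pow_eq_one_iff_of_nonneg (norm_nonneg _) n.succ_ne_zero).1
      (by rw [← norm_pow, (hζ n).pow_eq_one, norm_one])
  have h1 : q.1 z • p - p.1 z • q = 0 := by
    by_contra h0
    refine Set.infinite_of_injective_forall_mem (f := fun n => DerL_mv (ζ n) (hn n) z) ?_ ?_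
      (finite_zeros h0 z z)
    · intro m n e
      have e1 : ζ m = ζ n := mul_right_cancel (congrArg Subtype.val e)
      exact Nat.succ_injective ((hζ m).unique (e1 ▸ hζ n))
    · intro n
      have e1 : ‖(DerL_mv (ζ n) (hn n) z).v‖ = ‖z.v‖ := by
        change ‖(ζ n : K) * z.v‖ = _
        rw [norm_mul, hn, one_mul]
      have e2 : p.1 (DerL_mv (ζ n) (hn n) z) * q.1 z = p.1 z * q.1 (DerL_mv (ζ n) (hn n) z) :=
        congrArg (fun f : L1 K P => f.1 z)
          (DerL_inv hq h (ζ n) (hn n) n.succ_ne_zero (hζ n).pow_eq_one)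
      refine ⟨e1.ge, e1.le, ?_⟩
      change q.1 z * p.1 (DerL_mv (ζ n) (hn n) z) - p.1 z * q.1 (DerL_mv (ζ n) (hn n) z) = 0
      linear_combination e2
  have h2 := congrArg (D1 K P) h1
  rw [map_sub, Derivation.map_smul, Derivation.map_smul, map_zero] at h2
  have h3 : (q.1 z * c) • (q * q) = 0 := by
    simp only [Algebra.smul_def, map_mul] at h h1 h2 ⊢
    linear_combination q * h2 - D1 K P q * h1 - algebraMap K (L1 K P) (q.1 z) * h
  exact (mul_eq_zero.1 ((smul_eq_zero.1 h3).resolve_right (mul_ne_zero hq hq))).resolve_left hz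

end Pool.Agent.Work.MP_e120ef_ag.H
end
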