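import Pool.Agent.Work.MP_e120ef_ag.H.DerL
import Pool.Agent.Work.MP_e120ef_ag.Der
import Pool.Agent.Work.MP_e120ef_ag.H.Gauss

attribute [-instance] Subalgebra.normedCommRing Subalgebra.seminormedCommRing
  Subalgebra.seminormedRing Subalgebra.normedRing
  Localization.subalgebra.instIsFractionRingSubtypeMemSubalgebra
attribute [local instance 2000] RingHomClass.toAddMonoidHomClass AddMonoidHomClass.toAddHomClass
  RingHom.instRingHomClass AlgHomClass.toRingHomClass IsDomain.to_noZeroDivisors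
  IsDomain.toNontrivial NeZero.one RingHomClass.toMonoidHomClass MonoidHomClass.toMulHomClass
  RingHomClass.toMonoidWithZeroHomClass AddMonoidHomClass.toZeroHomClass MonoidHomClass.toOneHomClass
attribute [-instance] instCharZeroOfIsSemireal AlgHom.instContinuousLinearMapClassOfAlgHomClass
  RingHomClass.toLinearMapClassRat RingHomClass.toLinearMapClassNNRat NumberField.to_charZero

/-!
# Meromorphic functions on an annulus carry the data `Nev`
-/

open Filter Topology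

namespace Pool.Agent.Work.MP_e120ef_ag.H

variable (K : Type) [NontriviallyNormedField K] [IsUltrametricDist K] [IsAlgClosed K]
  [CompleteSpace K] [CharZero K] {P : Rad}

section aux

variable {K}

omit [CharZero K]

variable {F : Type} [Field F] [Algebra K F] {i : L1 K P →+* F}

/-- `i` is an embedding in a fraction field -/
structure Mer_H (i : L1 K P →+* F) : Prop where
  ne : ∀ {q : L1 K P}, q ≠ 0 → i q ≠ 0
  rep : ∀ u : F, ∃ p q : L1 K P, q ≠ 0 ∧ u = i p / i q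
  alg : ∀ c : K, algebraMap K F c = i (algebraMap K (L1 K P) c) / i 1

theorem Mer_rep' (H : Mer_H i) {u : F} (hu : u ≠ 0) :
    ∃ p q : L1 K P, p ≠ 0 ∧ q ≠ 0 ∧ u = i p / i q := by
  obtain ⟨p, q, hq, e⟩ := H.rep u
  refine ⟨p, q, ?_, hq, e⟩
  rintro rfl
  rw [map_zero, zero_div] at e
  exact hu e

theorem Mer_rep2 (H : Mer_H i) (u v : F) :
    ∃ p p' q : L1 K P, q ≠ 0 ∧ u = i p / i q ∧ v = i p' / i q := by
  obtain ⟨p, q, hq, rfl⟩ := H.rep u
  obtain ⟨p', q', hq', rfl⟩ := H.rep v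
  refine ⟨p * q', q * p', q * q', mul_ne_zero hq hq', ?_, ?_⟩
  · rw [map_mul, map_mul, mul_div_mul_right _ _ (H.ne hq')]
  · rw [map_mul, map_mul, mul_div_mul_left _ _ (H.ne hq)]

theorem Mer_cross (H : Mer_H i) {p q p' q' : L1 K P} (hq : q ≠ 0) (hq' : q' ≠ 0)
    (h : i p / i q = i p' / i q') : p * q' = p' * q := by
  rw [div_eq_div_iff (H.ne hq) (H.ne hq'), ← map_mul, ← map_mul] at h
  by_contra k
  exact H.ne (sub_ne_zero.2 k) (by rw [RingHom.map_sub, h, sub_self])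

theorem Mer_mul (p q p' q' : L1 K P) :
    i p / i q * (i p' / i q') = i (p * p') / i (q * q') := by
  rw [map_mul, map_mul, div_mul_div_comm]

theorem Mer_gn_pos (w : Pt1 K P) {q : L1 K P} (hq : q ≠ 0) : 0 < gn w q :=
  (gn_nonneg q w).lt_of_ne' fun h => hq (gn_eq_zero_imp h)

theorem Mer_gn_sub (w : Pt1 K P) (f g : L1 K P) : gn w (f - g) ≤ max (gn w f) (gn w g) := by
  have e : gn w (-g) = gn w g := by
    rw [neg_eq_neg_one_mul g, ← map_one (algebraMap K (L1 K P)), ← map_neg, gn_mul, gn_algebraMap,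
      norm_neg, norm_one, one_mul]
  rw [sub_eq_add_neg, ← e]
  exact gn_add_le w f (-g)

theorem Mer_nr (H : Mer_H i) : ∃ nr : Pt1 K P → F → ℝ, ∀ w (p q : L1 K P), q ≠ 0 →
    nr w (i p / i q) = gn w p / gn w q := by
  choose a b hb e using H.rep
  refine ⟨fun w u => gn w (a u) / gn w (b u), fun w p q hq => ?_⟩
  have h := congrArg (gn w) (Mer_cross H hq (hb _) (e (i p / i q)))
  rw [gn_mul, gn_mul] at h
  exact (div_eq_div_iff (Mer_gn_pos _ (hb _)).ne' (Mer_gn_pos _ hq).ne').2 h.symm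

theorem Mer_ord (H : Mer_H i) : ∃ ord : Pt1 K P → F → ℤ, (∀ z, ord z 0 = 0) ∧
    ∀ z (p q : L1 K P), p ≠ 0 → q ≠ 0 →
      ord z (i p / i q) = (ord₀ z p : ℤ) - ord₀ z q := by
  classical
  choose a b hb e using H.rep
  refine ⟨fun z u => if u = 0 then 0 else (ord₀ z (a u) : ℤ) - ord₀ z (b u),
    fun z => if_pos rfl, fun z p q hp hq => ?_⟩
  have h := Mer_cross H hq (hb _) (e (i p / i q))
  have ha : a (i p / i q) ≠ 0 := fun k => by
    rw [k, zero_mul] at h
    exact mul_ne_zero hp (hb _) h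
  have h' := congrArg (ord₀ z) h
  rw [ord₀_mul hp (hb _), ord₀_mul ha hq] at h'
  simp only [if_neg (div_ne_zero (H.ne hp) (H.ne hq))]
  omega

omit [IsAlgClosed K] in
theorem Mer_val {g : L1 K P} {z : Pt1 K P} (h : g.1 z ≠ 0) : g ≠ 0 := by
  rintro rfl
  exact h rfl

theorem Mer_unit {g : L1 K P} {z : Pt1 K P} (h : g.1 z ≠ 0) : ord₀ z g = 0 :=
  (ord₀_eq_zero (Mer_val h) z).2 h

section
variable (H : Mer_H i) {ord : Pt1 K P → F → ℤ}
  (ho : ∀ z (p q : L1 K P), p ≠ 0 → q ≠ 0 →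
    ord z (i p / i q) = (ord₀ z p : ℤ) - ord₀ z q)
include H ho

theorem Mer_nf (z : Pt1 K P) {u : F} (hu : u ≠ 0) :
    ∃ g g' : L1 K P, g.1 z ≠ 0 ∧ g'.1 z ≠ 0 ∧
      u = i (lin z.v) ^ ord z u * (i g / i g') := by
  obtain ⟨p, q, hp, hq, rfl⟩ := Mer_rep' H hu
  obtain ⟨g, hg, e⟩ := ord₀_spec hp z
  obtain ⟨g', hg', e'⟩ := ord₀_spec hq z
  refine ⟨g, g', hg, hg', ?_⟩
  rw [ho z p q hp hq, zpow_sub₀ (H.ne (lin_ne_zero _)), zpow_natCast, zpow_natCast,
    ← map_pow, ← map_pow, Mer_mul, ← e, ← e']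

theorem Mer_of_nf (z : Pt1 K P) {g g' : L1 K P} (hg : g.1 z ≠ 0) (hg' : g'.1 z ≠ 0)
    (n : ℤ) : ord z (i (lin z.v) ^ n * (i g / i g')) = n := by
  obtain ⟨a, b, rfl⟩ : ∃ a b : ℕ, n = a - b := ⟨n.toNat, (-n).toNat, by omega⟩
  rw [zpow_sub₀ (H.ne (lin_ne_zero _)), zpow_natCast, zpow_natCast, ← map_pow, ← map_pow,
    Mer_mul, ho z _ _ (mul_ne_zero (pow_ne_zero _ (lin_ne_zero _)) (Mer_val hg))
      (mul_ne_zero (pow_ne_zero _ (lin_ne_zero _)) (Mer_val hg')), ord₀_eq hg rfl, ord₀_eq hg' rfl]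

end

theorem Mer_D (H : Mer_H i) {D : Derivation K F F}
    (hD : ∀ f, D (i f) = i (D1 K P f)) (p : L1 K P) {q : L1 K P} (hq : q ≠ 0) :
    D (i p / i q) = i (D1 K P p * q - p * D1 K P q) / i (q * q) := by
  have := H.ne hq
  rw [Derivation.leibniz_div, hD, hD, map_sub, map_mul, map_mul, map_mul, smul_eq_mul, smul_eq_mul,
    smul_eq_mul]
  field_simp

theorem Mer_fin (f : L1 K P) (w₁ w₂ : Pt1 K P) :
    (Function.support fun z => (ord₀ z f : ℝ) * wp w₁ w₂ z).Finite := Jen_fin f w₁ w₂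

end aux

variable {K} in
theorem Mer_main {F : Type} [Field F] [Algebra K F] {i : L1 K P →+* F} (H : Mer_H i)
    {D : Derivation K F F} (hD : ∀ f, D (i f) = i (D1 K P f)) :
    ∃ N : Nev K P F, (∀ f : L1 K P, N.D (i f) = i (D1 K P f)) ∧
      (∀ w (p q : L1 K P), q ≠ 0 → N.nr w (i p / i q) = gn w p / gn w q) ∧
      ∀ z (p q : L1 K P), p ≠ 0 → q ≠ 0 → N.ord z (i p / i q) = (ord₀ z p : ℤ) - ord₀ z q := by
  obtain ⟨nr, hn⟩ := Mer_nr H
  obtain ⟨ord, o0, ho⟩ := Mer_ord H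
  refine ⟨⟨nr, ord, D, fun w u => ?_, fun w u => ?_, fun w u v => ?_, fun w u v => ?_,
    fun w c => ?_, fun w u => ?_, o0, fun z u v hu hv => ?_, fun z u v hu hv huv => ?_,
    fun z c => ?_, fun z u h => ?_, fun z u h => ?_, fun u w₁ w₂ => ?_, fun u hu w₁ => ?_⟩,
    hD, hn, ho⟩
  · obtain ⟨p, q, hq, rfl⟩ := H.rep u
    rw [hn w p q hq]
    exact div_nonneg (gn_nonneg _ _) (gn_nonneg _ _)
  · obtain ⟨p, q, hq, rfl⟩ := H.rep u
    rw [hn w p q hq, div_eq_zero_iff, div_eq_zero_iff, or_iff_left (Mer_gn_pos _ hq).ne',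
      or_iff_left (H.ne hq)]
    refine ⟨fun h => by rw [gn_eq_zero_imp h, map_zero], fun h => ?_⟩
    by_contra k
    exact H.ne (fun e => k (by rw [e, gn_zero])) h
  · obtain ⟨p, q, hq, rfl⟩ := H.rep u
    obtain ⟨p', q', hq', rfl⟩ := H.rep v
    rw [Mer_mul, hn w p q hq, hn w p' q' hq', hn w _ _ (mul_ne_zero hq hq'), gn_mul, gn_mul,
      div_mul_div_comm]
  · obtain ⟨p, p', q, hq, rfl, rfl⟩ := Mer_rep2 H u v
    rw [← add_div, ← map_add, hn w _ _ hq, hn w _ _ hq, hn w _ _ hq,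
      max_div_div_right (gn_nonneg _ _)]
    exact div_le_div_of_nonneg_right (gn_add_le _ _ _) (gn_nonneg _ _)
  · rw [H.alg, hn w _ _ one_ne_zero, ← map_one (algebraMap K (L1 K P)), gn_algebraMap,
      gn_algebraMap, norm_one, div_one]
  · obtain ⟨p, q, hq, rfl⟩ := H.rep u
    have a := Mer_gn_pos w hq
    rw [Mer_D H hD p hq, hn w _ _ (mul_ne_zero hq hq), hn w _ _ hq, gn_mul,
      ← mul_div_mul_right (gn w p) _ a.ne']
    refine div_le_div_of_nonneg_right ((Mer_gn_sub _ _ _).trans (max_le ?_ ?_)) (by positivity)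
    · rw [gn_mul]
      exact mul_le_mul_of_nonneg_right (gn_D1 _ _) a.le
    · rw [gn_mul]
      exact mul_le_mul_of_nonneg_left (gn_D1 _ _) (gn_nonneg _ _)
  · obtain ⟨p, q, hp, hq, rfl⟩ := Mer_rep' H hu
    obtain ⟨p', q', hp', hq', rfl⟩ := Mer_rep' H hv
    rw [Mer_mul, ho z p q hp hq, ho z p' q' hp' hq',
      ho z _ _ (mul_ne_zero hp hp') (mul_ne_zero hq hq'), ord₀_mul hp hp', ord₀_mul hq hq']
    push_cast
    ring
  · obtain ⟨p, p', q, hq, rfl, rfl⟩ := Mer_rep2 H u v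
    rw [← add_div, ← map_add] at huv ⊢
    have a : ∀ f : L1 K P, i f / i q ≠ 0 → f ≠ 0 := by
      rintro f hf rfl
      exact hf (by rw [map_zero, zero_div])
    rw [ho z _ _ (a _ hu) hq, ho z _ _ (a _ hv) hq, ho z _ _ (a _ huv) hq]
    have := ord₀_add (a _ huv) (a _ hu) (a _ hv) z
    omega
  · by_cases hc : c = 0
    · rw [hc, map_zero, o0]
    · have a : (algebraMap K (L1 K P) c).1 z ≠ 0 := hc
      have b : (1 : L1 K P).1 z ≠ 0 := one_ne_zero (α := K)
      rw [H.alg, ho z _ _ (Mer_val a) one_ne_zero, Mer_unit a, Mer_unit b, sub_self]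
  · by_cases hu : u = 0
    · exact ⟨0, Or.inl (by rw [hu, map_zero])⟩
    obtain ⟨g, g', hg, hg', e⟩ := Mer_nf H ho z hu
    rw [h, zpow_zero, one_mul] at e
    refine ⟨g.1 z / g'.1 z, ?_⟩
    set c := g.1 z / g'.1 z with hc
    have e2 : u - algebraMap K _ c = i (g - algebraMap K _ c * g') / i g' := by
      have := H.ne (Mer_val hg')
      rw [e, H.alg, map_one, div_one, map_sub, map_mul]
      field_simp
    by_cases k : g - algebraMap K _ c * g' = 0
    · rw [k, map_zero, zero_div] at e2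
      exact Or.inl (sub_eq_zero.1 e2)
    · refine Or.inr ?_
      rw [e2, ho z _ _ k (Mer_val hg'), Mer_unit hg']
      have a : ord₀ z (g - algebraMap K _ c * g') ≠ 0 := fun k' =>
        (ord₀_eq_zero k _).1 k' (by
          change g.1 z - c * g'.1 z = 0
          rw [hc, div_mul_cancel₀ _ hg', sub_self])
      omega
  · have hu : u ≠ 0 := fun k => h (by rw [k, o0])
    obtain ⟨g, g', hg, hg', e⟩ := Mer_nf H ho z hu
    generalize ord z u = n at h e
    have hL : i (lin z.v : L1 K P) ≠ 0 := H.ne (lin_ne_zero _)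
    have he : ((n : L1 K P) * Zf K P * g * g' +
        lin z.v * (D1 K P g * g' - g * D1 K P g')).1 z ≠ 0 := by
      change (n : K) * z.v * g.1 z * g'.1 z + (z.v - z.v) * _ ≠ 0
      rw [sub_self, zero_mul, add_zero]
      exact mul_ne_zero (mul_ne_zero (mul_ne_zero (Int.cast_ne_zero.2 h) z.1.ne_zero) hg) hg'
    have hgg : (g' * g').1 z ≠ 0 := mul_ne_zero hg' hg'
    have e2 : D u = i (lin z.v) ^ (n - 1) * (i ((n : L1 K P) * Zf K P * g * g' +
        lin z.v * (D1 K P g * g' - g * D1 K P g')) / i (g' * g')) := by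
      have := H.ne (Mer_val hg')
      rw [e, Derivation.leibniz, Derivation.leibniz_zpow, Mer_D H hD g (Mer_val hg'), hD, D1_lin,
        zpow_sub_one₀ hL]
      simp only [smul_eq_mul, zsmul_eq_mul, map_add, map_mul, map_intCast]
      field_simp
      ring
    rw [e2]
    exact ⟨mul_ne_zero (zpow_ne_zero _ hL) (div_ne_zero (H.ne (Mer_val he))
      (H.ne (Mer_val hgg))), Mer_of_nf H ho z he hgg _⟩
  · by_cases hu : u = 0
    · exact Set.finite_empty.subset fun z hz => hz.2.2 (by rw [hu, o0])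
    obtain ⟨p, q, hp, hq, rfl⟩ := Mer_rep' H hu
    refine ((fin₀ p w₁ w₂).union (fin₀ q w₁ w₂)).subset fun z hz => ?_
    obtain ⟨h1, h2, h3⟩ := hz
    rw [ho z p q hp hq] at h3
    by_cases k : ord₀ z p = 0
    · exact Or.inr ⟨h1, h2, by omega⟩
    · exact Or.inl ⟨h1, h2, k⟩
  · obtain ⟨p, q, hp, hq, rfl⟩ := Mer_rep' H hu
    obtain ⟨n, h1⟩ := jensen₀ hp w₁
    obtain ⟨m, h2⟩ := jensen₀ hq w₁
    refine ⟨n - m, fun w₂ => ?_⟩
    have e : ∑ᶠ z, (ord z (i p / i q) : ℝ) * wp w₁ w₂ z =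
        ∑ᶠ z, (ord₀ z p : ℝ) * wp w₁ w₂ z - ∑ᶠ z, (ord₀ z q : ℝ) * wp w₁ w₂ z := by
      rw [← finsum_sub_distrib (Mer_fin p w₁ w₂) (Mer_fin q w₁ w₂)]
      refine finsum_congr fun z => ?_
      rw [ho z p q hp hq]
      push_cast
      ring
    rw [e, hn _ p q hq, hn _ p q hq, Real.log_div (Mer_gn_pos _ hp).ne' (Mer_gn_pos _ hq).ne',
      Real.log_div (Mer_gn_pos _ hp).ne' (Mer_gn_pos _ hq).ne', h1 w₂, h2 w₂]
    push_cast
    ring

variable {K} in
omit [CharZero K] in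
theorem Mer_frac (F : Type) [Field F] [Algebra K F] [Algebra (L1 K P) F]
    [IsScalarTower K (L1 K P) F] [IsFractionRing (L1 K P) F] :
    Mer_H (algebraMap (L1 K P) F) := by
  refine ⟨fun hq => (map_ne_zero_iff _ (IsFractionRing.injective _ _)).2 hq, fun u => ?_,
    fun c => ?_⟩
  · obtain ⟨p, q, hq, e⟩ := IsFractionRing.div_surjective (A := L1 K P) u
    exact ⟨p, q, nonZeroDivisors.ne_zero hq, e.symm⟩
  · rw [map_one, div_one]
    exact IsScalarTower.algebraMap_apply _ _ _ _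

variable (P)

/-- the meromorphic functions -/
abbrev MM : Type := Fr (L1 K P)

variable {K P} in
/-- an analytic function as a meromorphic function -/
noncomputable abbrev im (f : L1 K P) : MM K P := algebraMap (L1 K P) (MM K P) f

theorem exists_nev : ∃ N : Nev K P (MM K P), (∀ f : L1 K P, N.D (im f) = im (D1 K P f)) ∧
    (∀ w (p q : L1 K P), q ≠ 0 → N.nr w (im p / im q) = gn w p / gn w q) ∧
    ∀ z (p q : L1 K P), p ≠ 0 → q ≠ 0 → N.ord z (im p / im q) = (ord₀ z p : ℤ) - ord₀ z q := by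
  obtain ⟨D, hD⟩ := frac_ext (F := MM K P) (D1 K P)
  exact Mer_main (Mer_frac _) hD

/-- the data on the field of meromorphic functions -/
noncomputable def nev : Nev K P (MM K P) := (exists_nev K P).choose

variable {K P}

theorem nev_D (f : L1 K P) : (nev K P).D (im f) = im (D1 K P f) := (exists_nev K P).choose_spec.1 f

theorem nev_nr_div (w : Pt1 K P) (p : L1 K P) {q : L1 K P} (hq : q ≠ 0) :
    (nev K P).nr w (im p / im q) = gn w p / gn w q := (exists_nev K P).choose_spec.2.1 w p q hq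

theorem nev_ord_div (z : Pt1 K P) {p q : L1 K P} (hp : p ≠ 0) (hq : q ≠ 0) :
    (nev K P).ord z (im p / im q) = (ord₀ z p : ℤ) - ord₀ z q :=
  (exists_nev K P).choose_spec.2.2 z p q hp hq

theorem nev_nr (w : Pt1 K P) (p : L1 K P) : (nev K P).nr w (im p) = gn w p := by
  have h := nev_nr_div w p (one_ne_zero (α := L1 K P))
  rwa [show im (1 : L1 K P) = 1 from map_one _, div_one, ← map_one (algebraMap K (L1 K P)),
    gn_algebraMap, norm_one, div_one] at h

theorem nev_ord (z : Pt1 K P) {p : L1 K P} (hp : p ≠ 0) : (nev K P).ord z (im p) = ord₀ z p := by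
  have h := nev_ord_div z hp (one_ne_zero (α := L1 K P))
  rwa [show im (1 : L1 K P) = 1 from map_one _, div_one,
    Mer_unit (g := 1) (z := z) (one_ne_zero (α := K)), Nat.cast_zero, sub_zero] at h

omit [CharZero K] in
theorem im_ne {q : L1 K P} (hq : q ≠ 0) : im q ≠ 0 := (Mer_frac (MM K P)).ne hq

omit [CharZero K] in
theorem im_rep (u : MM K P) : ∃ p q : L1 K P, q ≠ 0 ∧ u = im p / im q := (Mer_frac (MM K P)).rep u

end Pool.Agent.Work.MP_e120ef_ag.H
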