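import Pool.Agent.Work.MP_e120ef_ag.Der
import Pool.Agent.Work.MP_e120ef_ag.Br.T7
import Pool.Agent.Work.MP_e120ef_ag.H.Line
import Pool.Agent.Work.MP_e120ef_ag.H.Gauss

attribute [-instance] Subalgebra.normedCommRing Subalgebra.seminormedCommRing
  Subalgebra.seminormedRing Subalgebra.normedRing
  Localization.subalgebra.instIsFractionRingSubtypeMemSubalgebra
attribute [local instance 2000] RingHomClass.toAddMonoidHomClass AddMonoidHomClass.toAddHomClass
  RingHom.instRingHomClass AlgHomClass.toRingHomClass IsDomain.to_noZeroDivisors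
  IsDomain.toNontrivial NeZero.one RingHomClass.toMonoidHomClass MonoidHomClass.toMulHomClass
  RingHomClass.toMonoidWithZeroHomClass AddMonoidHomClass.toZeroHomClass MonoidHomClass.toOneHomClass
attribute [-instance] instCharZeroOfIsSemireal AlgHom.instContinuousLinearMapClassOfAlgHomClass
  RingHomClass.toLinearMapClassRat RingHomClass.toLinearMapClassNNRat NumberField.to_charZero

-- merged part: Pool.Agent.Work.MP_e120ef_ag.H.Lift
section
/-!
# Lifting invariant vector fields to the closure of the graph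

Plans.  `stable_span`: a subspace of `M ^ g` stable under derivations (acting on coordinates) is spanned by vectors with constant coordinates.  Show that every `b ∈ W` lies in the span by strong induction on the size of the support: take a nonzero `b' ∈ W` of minimal support inside the support of `b`, scaled so that `b' i = 1` for some `i`;
the `D k ∘ b'` have smaller support, hence vanish, so `b'` is constant; subtract `b i • b'` from `b`.
`lift_frame`: let `W` be the set of `b : Fin g → M` such that some derivation `ρ` of `M` kills `J F` and has `ρ (j y) = ∑ i, b i * j (δ i y)`; it is a subspace, stable under the `D k`: use the commutator `⁅D k, ρ⁆` (`Derivation.commutator_apply`), `hJ`, `hj`, `comm`.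
For each `i` extend `j ∘ δ i` to a derivation `E` of `M` (`exists_der_ext j (δ i)` with an empty family); `E ∘ J = ∑ k, a k * J ∘ ξ k` by `span`; then `E - ∑ k, a k • D k` shows `Pi.single i 1 - ∑ k, a k • v k ∈ W`.  So `M ^ g` is spanned over `M` by the vectors with coordinates in `K` coming from `V = span (v k)` and `W₀ = {c | algebraMap ∘ c ∈ W}`.
If `V ⊔ W₀ ≠ ⊤` a nonzero linear form over `K` kills both (`Submodule.exists_le_ker_of_lt_top`), and its extension `b ↦ ∑ i, φ (single i 1) • b i` kills everything: contradiction.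
`der_along`: `d` vanishes on `Algebra.adjoin K (range t)`; for `x : F` take a nonzero polynomial over this ring of least degree vanishing at `x` and differentiate.
-/

namespace Pool.Agent.Work.MP_e120ef_ag.H

variable {K M : Type} [Field K] [Field M] [Algebra K M]

theorem Lift_min {g : ℕ} {κ : Type} (D : κ → Derivation K M M)
    (hconst : ∀ x, (∀ k, D k x = 0) → ∃ c : K, x = algebraMap K M c) (W : Submodule M (Fin g → M))
    (hW : ∀ b ∈ W, ∀ k, (fun i => D k (b i)) ∈ W) (n : ℕ) :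
    ∀ b ∈ W, b ≠ 0 → (Function.support b).ncard = n → ∃ b' ∈ W,
      (∃ c : Fin g → K, b' = fun i => algebraMap K M (c i)) ∧ (∃ i, b' i = 1) ∧
        Function.support b' ⊆ Function.support b := by
  induction n using Nat.strong_induction_on with
  | _ n ih =>
    intro b hb h0 hn
    obtain ⟨i, hi⟩ := Function.ne_iff.1 h0
    have hi' : b i ≠ 0 := hi
    have hb1 : (b i)⁻¹ • b ∈ W := W.smul_mem _ hb
    have h1 : ((b i)⁻¹ • b) i = 1 := by simp [hi']
    have hs : Function.support ((b i)⁻¹ • b) ⊆ Function.support b := fun l hl h => hl (by simp [h])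
    by_cases hc : ∀ k l, D k (((b i)⁻¹ • b) l) = 0
    · choose c hc' using fun l => hconst _ fun k => hc k l
      exact ⟨_, hb1, ⟨c, funext hc'⟩, ⟨i, h1⟩, hs⟩
    · push Not at hc
      obtain ⟨k, l, hl⟩ := hc
      have hs2 : Function.support (fun l => D k (((b i)⁻¹ • b) l)) ⊆ Function.support b :=
        fun l hl h => hl (by simp [h])
      have hlt : (Function.support fun l => D k (((b i)⁻¹ • b) l)).ncard < n := by
        rw [← hn]
        refine Set.ncard_lt_ncard ⟨hs2, fun h => h hi' ?_⟩ (Set.toFinite _)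
        show D k (((b i)⁻¹ • b) i) = 0
        rw [h1, Derivation.map_one_eq_zero]
      obtain ⟨b', h2, h3, h4, h5⟩ := ih _ hlt _ (hW _ hb1 k) (fun h => hl (congrFun h l)) rfl
      exact ⟨b', h2, h3, h4, h5.trans hs2⟩

theorem stable_span {g : ℕ} {κ : Type} (D : κ → Derivation K M M)
    (hconst : ∀ x, (∀ k, D k x = 0) → ∃ c : K, x = algebraMap K M c) (W : Submodule M (Fin g → M))
    (hW : ∀ b ∈ W, ∀ k, (fun i => D k (b i)) ∈ W) :
    W ≤ Submodule.span M {b | b ∈ W ∧ ∃ c : Fin g → K, b = fun i => algebraMap K M (c i)} := by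
  suffices h : ∀ n : ℕ, ∀ b ∈ W, (Function.support b).ncard = n → b ∈ Submodule.span M
      {b | b ∈ W ∧ ∃ c : Fin g → K, b = fun i => algebraMap K M (c i)} from
    fun b hb => h _ b hb rfl
  intro n
  induction n using Nat.strong_induction_on with
  | _ n ih =>
    intro b hb hn
    by_cases h0 : b = 0
    · rw [h0]
      exact Submodule.zero_mem _
    obtain ⟨b', h2, h3, ⟨i, h4⟩, h5⟩ := Lift_min D hconst W hW n b hb h0 hn
    have hi : i ∈ Function.support b := h5 (by simp [h4])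
    have hlt : (Function.support (b - b i • b')).ncard < n := by
      rw [← hn]
      refine Set.ncard_lt_ncard ⟨fun l hl h => hl ?_, fun h => h hi ?_⟩ (Set.toFinite _)
      · have : b' l = 0 := by
          by_contra h'
          exact h5 h' h
        simp [h, this]
      · simp [h4]
    have h6 := ih _ hlt _ (W.sub_mem hb (W.smul_mem _ h2)) rfl
    have h7 := Submodule.add_mem _ h6
      (Submodule.smul_mem _ (b i) (Submodule.subset_span (Set.mem_setOf.2 ⟨h2, h3⟩)))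
    rwa [sub_add_cancel] at h7

variable [CharZero K] {F F₀ : Type} [Field F] [Field F₀] [Algebra K F] [Algebra K F₀]

theorem lift_frame {g g' : ℕ} (J : F →ₐ[K] M) (j : F₀ →ₐ[K] M) (ξ : Fin g' → Derivation K F F)
    (δ : Fin g → Derivation K F₀ F₀) (D : Fin g' → Derivation K M M) (v : Fin g' → Fin g → K)
    (span : ∀ d : F →ₗ[K] M, (∀ a b, d (a * b) = J a * d b + J b * d a) →
      ∃ c : Fin g' → M, ∀ a, d a = ∑ k, c k * J (ξ k a))
    (comm : ∀ i k a, δ i (δ k a) = δ k (δ i a)) (hJ : ∀ k a, D k (J a) = J (ξ k a))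
    (hj : ∀ k y, D k (j y) = j (∑ i, v k i • δ i y))
    (hconst : ∀ x, (∀ k, D k x = 0) → ∃ c : K, x = algebraMap K M c) :
    ∃ (μ : Fin g → Fin g' → K) (ρ : Fin g → Derivation K M M), (∀ i a, ρ i (J a) = 0) ∧
      ∀ i y, j (δ i y) = ∑ k, μ i k • D k (j y) + ρ i (j y) := by
  classical
  have hs : ∀ (c : Fin g' → M) (x : M), (∑ k, c k • D k) x = ∑ k, c k * D k x := fun c x => by
    have := congrFun (map_sum Derivation.coeFnAddMonoidHom (fun k => c k • D k) Finset.univ) x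
    rw [Finset.sum_apply] at this
    exact this
  have hj' : ∀ k y, D k (j y) = ∑ i, algebraMap K M (v k i) * j (δ i y) := fun k y => by
    simp only [hj, map_sum, Algebra.smul_def, map_mul, AlgHom.commutes]
  let W : Submodule M (Fin g → M) :=
    { carrier := {b | ∃ ρ : Derivation K M M, (∀ a, ρ (J a) = 0) ∧
        ∀ y, ρ (j y) = ∑ i, b i * j (δ i y)}
      add_mem' := by
        rintro a b ⟨ρ, h1, h2⟩ ⟨σ, h3, h4⟩
        exact ⟨ρ + σ, fun x => by simp [h1, h3],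
          fun y => by simp [h2, h4, add_mul, Finset.sum_add_distrib]⟩
      zero_mem' := ⟨0, fun _ => rfl, fun y => by simp⟩
      smul_mem' := by
        rintro c b ⟨ρ, h1, h2⟩
        exact ⟨c • ρ, fun x => by simp [h1], fun y => by simp [h2, Finset.mul_sum, mul_assoc]⟩ }
  have hW : ∀ b ∈ W, ∀ k, (fun i => D k (b i)) ∈ W := by
    rintro b ⟨ρ, h1, h2⟩ k
    refine ⟨⁅D k, ρ⁆, fun a => ?_, fun y => ?_⟩
    · rw [Derivation.commutator_apply, h1, hJ, h1, map_zero, sub_zero]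
    · rw [Derivation.commutator_apply, h2, hj k y, h2, map_sum, ← Finset.sum_sub_distrib]
      refine Finset.sum_congr rfl fun i _ => ?_
      have : δ i (∑ l, v k l • δ l y) = ∑ l, v k l • δ l (δ i y) := by
        rw [map_sum]
        exact Finset.sum_congr rfl fun l _ => by rw [Derivation.map_smul, comm]
      rw [Derivation.leibniz, hj, this, smul_eq_mul, smul_eq_mul]
      ring
  have hE : ∀ i, ∃ c : Fin g' → M,
      (Pi.single i 1 - ∑ k, c k • fun l => algebraMap K M (v k l)) ∈ W := fun i => by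
    obtain ⟨E, hE, -⟩ := exists_der_ext j (δ i) (ι := Empty) Empty.elim (fun P hP => by
      obtain ⟨a, rfl⟩ := (MvPolynomial.isEmptyRingEquiv F₀ Empty).symm.surjective P
      rw [MvPolynomial.isEmptyRingEquiv_symm_apply, MvPolynomial.eval₂_C] at hP
      rw [MvPolynomial.isEmptyRingEquiv_symm_apply,
        (map_eq_zero (j : F₀ →+* M)).1 hP, map_zero]) Empty.elim
    obtain ⟨c, hc⟩ := span (E.toLinearMap.comp J.toLinearMap) fun a b => by simp
    refine ⟨c, E - ∑ k, c k • D k, fun a => ?_, fun y => ?_⟩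
    · have : E (J a) = ∑ k, c k * J (ξ k a) := hc a
      simp only [Derivation.sub_apply, hs, hJ, this, sub_self]
    · simp only [Derivation.sub_apply, hs, hj', hE, Pi.sub_apply, Finset.sum_apply, Pi.smul_apply,
        smul_eq_mul, sub_mul, Finset.sum_sub_distrib, Finset.mul_sum, Finset.sum_mul, mul_assoc]
      rw [Finset.sum_comm]
      simp [Pi.single_apply]
  let W₀ : Submodule K (Fin g → K) :=
    (W.restrictScalars K).comap ((Algebra.linearMap K M).compLeft (Fin g))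
  have htop : Submodule.span K (Set.range v) ⊔ W₀ = ⊤ := by
    by_contra hne
    obtain ⟨φ, hφ, hker⟩ := Submodule.exists_le_ker_of_lt_top _ (lt_top_iff_ne_top.2 hne)
    let Φ : (Fin g → M) →ₗ[M] M :=
      ∑ i, algebraMap K M (φ (Pi.single i 1)) • LinearMap.proj i
    have hΦ : ∀ c : Fin g → K, Φ (fun l => algebraMap K M (c l)) = algebraMap K M (φ c) := by
      intro c
      conv_rhs => rw [LinearMap.pi_apply_eq_sum_univ φ c]
      simp only [Φ, LinearMap.sum_apply, LinearMap.smul_apply, LinearMap.proj_apply, smul_eq_mul,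
        map_sum, map_mul]
      refine Finset.sum_congr rfl fun i _ => ?_
      rw [mul_comm]
      have : (Pi.single i 1 : Fin g → K) = fun l => if i = l then 1 else 0 :=
        funext fun l => by simp [Pi.single_apply, eq_comm]
      rw [this]
    have h1 : W ≤ LinearMap.ker Φ := by
      refine (stable_span D hconst W hW).trans (Submodule.span_le.2 ?_)
      rintro _ ⟨hb, c, rfl⟩
      have : φ c = 0 := hker (Submodule.mem_sup_right (show c ∈ W₀ from hb))
      show Φ _ = 0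
      rw [hΦ, this, map_zero]
    have h2 : ∀ k, Φ (fun l => algebraMap K M (v k l)) = 0 := fun k => by
      have : φ (v k) = 0 := hker (Submodule.mem_sup_left (Submodule.subset_span ⟨k, rfl⟩))
      rw [hΦ, this, map_zero]
    refine hφ (LinearMap.pi_ext' fun i => LinearMap.ext_ring ?_)
    obtain ⟨c, hc⟩ := hE i
    have h3 : Φ _ = 0 := h1 hc
    rw [map_sub, map_sum] at h3
    simp only [map_smul, h2, smul_zero, Finset.sum_const_zero, sub_zero] at h3
    have h4 : (Pi.single i 1 : Fin g → M) = fun l => algebraMap K M ((Pi.single i 1 : Fin g → K) l) :=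
      funext fun l => by by_cases h : l = i <;> simp [h]
    rw [h4, hΦ, map_eq_zero] at h3
    simpa using h3
  have hdec : ∀ i, ∃ (μ : Fin g' → K) (ρ : Derivation K M M), (∀ a, ρ (J a) = 0) ∧
      ∀ y, j (δ i y) = ∑ k, μ k • D k (j y) + ρ (j y) := fun i => by
    have : (Pi.single i 1 : Fin g → K) ∈ Submodule.span K (Set.range v) ⊔ W₀ :=
      htop ▸ Submodule.mem_top
    obtain ⟨a, ha, w, ⟨ρ, h1, h2⟩, haw⟩ := Submodule.mem_sup.1 this
    obtain ⟨μ, rfl⟩ := (Submodule.mem_span_range_iff_exists_fun K).1 ha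
    refine ⟨μ, ρ, h1, fun y => ?_⟩
    have h3 : j (δ i y) = ∑ l, algebraMap K M ((Pi.single i 1 : Fin g → K) l) * j (δ l y) := by
      simp [Pi.single_apply, apply_ite]
    rw [h3, ← haw, h2]
    simp only [hj', Pi.add_apply, Finset.sum_apply, Pi.smul_apply, smul_eq_mul, map_add, map_sum,
      map_mul, add_mul, Finset.sum_add_distrib, Finset.sum_mul, mul_assoc]
    simp only [Algebra.smul_def, Finset.mul_sum]
    rw [Finset.sum_comm]
    rfl
  choose μ ρ h1 h2 using hdec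
  exact ⟨μ, ρ, h1, h2⟩

theorem der_along {R : Type} [CommRing R] [IsDomain R] [Algebra K R] {ι : Type} {t : ι → F}
    (ht : IsTranscendenceBasis K t) (j : F →ₐ[K] R) (d : F →ₗ[K] R)
    (hd : ∀ a b, d (a * b) = j a * d b + j b * d a) (h : ∀ i, d (t i) = 0) (x : F) : d x = 0 := by
  let _ := j.toRingHom.toAlgebra
  have : IsScalarTower K F R := .of_algebraMap_eq fun a => (j.commutes a).symm
  let D : Derivation K F R := Derivation.mk' d fun a b => hd a b
  have := Der_basis_etale ht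
  have h0 : ∀ a : Algebra.adjoin K (Set.range t), D a = 0 := fun a =>
    Derivation.eqOn_adjoin (D2 := 0) (by rintro _ ⟨i, rfl⟩; exact h i) a.2
  let D' : Derivation (Algebra.adjoin K (Set.range t)) F R := Derivation.mk'
    { toFun := D
      map_add' := D.map_add
      map_smul' := fun s x => by
        show D ((s : F) * x) = (s : F) • D x
        rw [D.leibniz, h0, smul_zero, add_zero] } D.leibniz
  have h1 := D'.liftKaehlerDifferential_comp_D x
  rw [Subsingleton.elim (KaehlerDifferential.D (Algebra.adjoin K (Set.range t)) F x) 0,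
    map_zero] at h1
  exact h1.symm

end Pool.Agent.Work.MP_e120ef_ag.H
end

-- merged part: Pool.Agent.Work.MP_e120ef_ag.H.MI
section
/-!
# The field of meromorphic functions on a finite cover of affine space

Plans.  `exists_MI`: `M = AdjoinRoot` of the irreducible polynomial over `Fr (Ent K (Fin n))` (`Fact`, `AdjoinRoot.instField`); `J` from `ND.lift` (the `E (toE (X l))` are algebraically independent by `toE_inj`); `nf`: `AdjoinRoot.mk_surjective` and `IsLocalization.integerNormalization`; `dvd`: `AdjoinRoot.mk_eq_zero` and `Polynomial.map_dvd_map` for a monic polynomial.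
`lift`: for `x` choose `Q, β` from `nf` and put `κ x = Q.eval₂ e (j θ) / e β`; well defined by `dvd` (note `(m.map toE).eval₂ e (j θ) = j (m (z, θ)) = 0`).  For `κ ∘ J = j` use `frac`, `den`.  Alternatively build `M ≃ AdjoinRoot`.
`der_zero`: differentiate `m (J θ) = 0`: `κ (J (m' (θ))) * d (J θ) = 0` and `m' (θ) ≠ 0` by `bez`; then use `nf`.
`exists_pd`: with the algebra structure `E.toAlgebra`, extend `pdE` to `Fr (Ent ..)` (`frac_ext`) and then to `M` (`exists_der_ext` with the map `IsFractionRing.lift`, empty family).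
`pd_z`: `J (z i) = E (toE (X i))`.  `der_eq`: apply `der_zero` to the difference.
`pd_const`: write `E β * x = Q (J θ)`; `x` is algebraic over the subfield `Fr (Ent ..)`; differentiate its minimal polynomial: the coefficients are killed by all `pd l`, so they are constant (`cross_const`); hence `x` is algebraic over `K`, which is algebraically closed.
-/

open Polynomial

namespace Pool.Agent.Work.MP_e120ef_ag.H

section generic

variable {K A M L : Type} [Field K] [CommRing A] [IsDomain A] [Algebra K A] [Field M] [Algebra K M]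
  [Field L] [Algebra K L]

theorem MI_adj {p : A[X]} (hp : p.Monic) (h : Irreducible (p.map (algebraMap A (Fr A)))) :
    ∃ (M : Type) (_ : Field M) (_ : Algebra K M) (E : A →ₐ[K] M) (t : M), Function.Injective E ∧
      (∀ x : M, ∃ (Q : A[X]) (β : A), β ≠ 0 ∧ E β * x = Q.eval₂ E.toRingHom t) ∧
      (∀ Q : A[X], Q.eval₂ E.toRingHom t = 0 → p ∣ Q) ∧ p.eval₂ E.toRingHom t = 0 := by
  obtain ⟨q, hq⟩ : ∃ q, q = p.map (algebraMap A (Fr A)) := ⟨_, rfl⟩
  rw [← hq] at h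
  have := Fact.mk h
  have hinj : Function.Injective (algebraMap A (Fr A)) := IsFractionRing.injective A (Fr A)
  have key : ∀ Q : A[X], Q.eval₂ ((IsScalarTower.toAlgHom K (Fr A) (AdjoinRoot q)).comp
      (IsScalarTower.toAlgHom K A (Fr A))).toRingHom (AdjoinRoot.root q) =
      AdjoinRoot.mk q (Q.map (algebraMap A (Fr A))) := by
    intro Q
    rw [← AdjoinRoot.aeval_eq, aeval_def, eval₂_map]
    rfl
  refine ⟨AdjoinRoot q, inferInstance, inferInstance,
    (IsScalarTower.toAlgHom K (Fr A) (AdjoinRoot q)).comp (IsScalarTower.toAlgHom K A (Fr A)),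
    AdjoinRoot.root q, (algebraMap (Fr A) (AdjoinRoot q)).injective.comp hinj, fun x => ?_,
    fun Q hQ => ?_, ?_⟩
  · obtain ⟨r, rfl⟩ := AdjoinRoot.mk_surjective x
    obtain ⟨b, hb, e⟩ := IsLocalization.integerNormalization_spec (nonZeroDivisors A) r
    refine ⟨IsLocalization.integerNormalization (nonZeroDivisors A) r, b,
      nonZeroDivisors.ne_zero hb, ?_⟩
    rw [key, e, ← IsScalarTower.algebraMap_smul (Fr A) b r, ← C_mul', map_mul]
    rfl
  · rw [key, AdjoinRoot.mk_eq_zero, hq] at hQ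
    exact (map_dvd_map _ hinj hp).mp hQ
  · rw [key, ← hq, AdjoinRoot.mk_self]

omit [IsDomain A] in
theorem MI_lift {p : A[X]} (E : A →ₐ[K] M) (t : M)
    (nf : ∀ x : M, ∃ (Q : A[X]) (β : A), β ≠ 0 ∧ E β * x = Q.eval₂ E.toRingHom t)
    (dvd : ∀ Q : A[X], Q.eval₂ E.toRingHom t = 0 → p ∣ Q) (e : A →ₐ[K] L)
    (he : Function.Injective e) (s : L) (hs : p.eval₂ e.toRingHom s = 0) :
    ∃ κ : M →ₐ[K] L, ∀ x (Q : A[X]) β, E β * x = Q.eval₂ E.toRingHom t →
      e β * κ x = Q.eval₂ e.toRingHom s := by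
  choose Q β hβ hx using nf
  have hne : ∀ b, b ≠ 0 → e b ≠ 0 := fun b hb h => hb (he (h.trans (map_zero e).symm))
  obtain ⟨k, hk⟩ : ∃ k : M → L, k = fun x => (Q x).eval₂ e.toRingHom s / e (β x) := ⟨_, rfl⟩
  have key : ∀ x (Q' : A[X]) β', E β' * x = Q'.eval₂ E.toRingHom t →
      e β' * k x = Q'.eval₂ e.toRingHom s := by
    intro x Q' β' h
    have h1 : (C β' * Q x - C (β x) * Q').eval₂ E.toRingHom t = 0 := by
      rw [eval₂_sub, eval₂_mul, eval₂_mul, eval₂_C, eval₂_C, ← h, ← hx]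
      change E β' * _ - E (β x) * _ = 0
      ring
    obtain ⟨r, hr⟩ := dvd _ h1
    have h2 : (C β' * Q x - C (β x) * Q').eval₂ e.toRingHom s = 0 := by
      rw [hr, eval₂_mul, hs, zero_mul]
    rw [eval₂_sub, eval₂_mul, eval₂_mul, eval₂_C, eval₂_C] at h2
    change e β' * _ - e (β x) * _ = 0 at h2
    rw [hk]
    have := hne _ (hβ x)
    field_simp
    linear_combination h2
  have kE : ∀ a, k (E a) = e a := by
    intro a
    have := key (E a) (C a) 1 (by rw [map_one, one_mul, eval₂_C]; rfl)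
    rw [map_one, one_mul, eval₂_C] at this
    exact this
  refine ⟨{ toFun := k
            map_one' := by rw [← map_one E, kE, map_one]
            map_zero' := by rw [← map_zero E, kE, map_zero]
            map_mul' := fun x y => ?_
            map_add' := fun x y => ?_
            commutes' := fun c => by rw [← E.commutes, kE, e.commutes] }, key⟩
  · have h1 := key (x * y) (Q x * Q y) (β x * β y) (by
      rw [eval₂_mul, ← hx, ← hx, map_mul]; ring)
    rw [eval₂_mul, ← key x _ _ (hx x), ← key y _ _ (hx y), map_mul] at h1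
    refine mul_left_cancel₀ (mul_ne_zero (hne _ (hβ x)) (hne _ (hβ y))) ?_
    rw [h1]; ring
  · have h1 := key (x + y) (C (β y) * Q x + C (β x) * Q y) (β x * β y) (by
      rw [eval₂_add, eval₂_mul, eval₂_mul, eval₂_C, eval₂_C, ← hx, ← hx, map_mul]
      change _ = E (β y) * _ + E (β x) * _
      ring)
    rw [eval₂_add, eval₂_mul, eval₂_mul, eval₂_C, eval₂_C, ← key x _ _ (hx x),
      ← key y _ _ (hx y), map_mul] at h1
    change _ = e (β y) * _ + e (β x) * _ at h1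
    refine mul_left_cancel₀ (mul_ne_zero (hne _ (hβ x)) (hne _ (hβ y))) ?_
    rw [h1]; ring

omit [IsDomain A] [Algebra K A] in
theorem MI_der (E : A →+* M) (t : M) (κ : M →ₐ[K] L) (d : M →+ L)
    (hd : ∀ a b, d (a * b) = κ a * d b + κ b * d a) (h : ∀ a, d (E a) = 0) (Q : A[X]) :
    d (Q.eval₂ E t) = κ ((derivative Q).eval₂ E t) * d t := by
  induction Q using Polynomial.induction_on with
  | C a => rw [eval₂_C, h, derivative_C, eval₂_zero, map_zero, zero_mul]
  | add p q hp hq => rw [eval₂_add, map_add, hp, hq, map_add, eval₂_add, map_add, add_mul]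
  | monomial n a ih =>
    rw [pow_succ, ← mul_assoc, eval₂_mul, eval₂_X, hd, ih, derivative_mul (g := X), derivative_X,
      mul_one, eval₂_add, eval₂_mul _ _ (q := X), eval₂_X, map_add, map_mul κ]
    ring

omit [IsDomain A] in
theorem MI_const {ι : Type} (E : A →ₐ[K] M) (hE : Function.Injective E) (D : ι → Derivation K M M)
    (δ : ι → A → A) (hD : ∀ l a, D l (E a) = E (δ l a))
    (cross : ∀ a b : A, b ≠ 0 → (∀ l, δ l a * b = a * δ l b) → ∃ c : K, a = algebraMap K A c * b)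
    {x : M} (hx : ∀ l, D l x = 0) (alg : ∃ Q : A[X], Q ≠ 0 ∧ Q.eval₂ E.toRingHom x = 0) :
    IsAlgebraic K x := by
  classical
  have ex : ∃ N, ∃ Q : A[X], Q ≠ 0 ∧ Q.eval₂ E.toRingHom x = 0 ∧ Q.natDegree = N := by
    obtain ⟨Q, h1, h2⟩ := alg
    exact ⟨_, Q, h1, h2, rfl⟩
  obtain ⟨Q, hQ0, hQ, hN⟩ := Nat.find_spec ex
  have hmin : ∀ R : A[X], R.eval₂ E.toRingHom x = 0 → R.natDegree < Q.natDegree → R = 0 := by
    intro R h1 h2
    by_contra h3
    exact Nat.find_min ex (hN ▸ h2) ⟨R, h3, h1, rfl⟩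
  have hsum : ∑ i ∈ Finset.range (Q.natDegree + 1), E (Q.coeff i) * x ^ i = 0 := by
    rw [eval₂_eq_sum_range] at hQ
    exact hQ
  have hlc : Q.coeff Q.natDegree ≠ 0 := leadingCoeff_ne_zero.mpr hQ0
  have hc : ∀ i ∈ Finset.range (Q.natDegree + 1), ∀ l,
      δ l (Q.coeff i) * Q.coeff Q.natDegree = Q.coeff i * δ l (Q.coeff Q.natDegree) := by
    intro i hi l
    have h1 : ∑ i ∈ Finset.range (Q.natDegree + 1), E (δ l (Q.coeff i)) * x ^ i = 0 := by
      have := congrArg (D l) hsum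
      rw [map_sum, map_zero] at this
      rw [← this]
      refine Finset.sum_congr rfl fun i _ => ?_
      rw [Derivation.leibniz, Derivation.leibniz_pow, hx, hD]
      simp [mul_comm]
    obtain ⟨b, hb⟩ : ∃ b : ℕ → A, b = fun i =>
      δ l (Q.coeff i) * Q.coeff Q.natDegree - Q.coeff i * δ l (Q.coeff Q.natDegree) := ⟨_, rfl⟩
    have hbN : b Q.natDegree = 0 := by rw [hb]; ring
    have h2 : ∑ i ∈ Finset.range (Q.natDegree + 1), E (b i) * x ^ i = 0 := by
      have : ∀ i, E (b i) * x ^ i = E (Q.coeff Q.natDegree) * (E (δ l (Q.coeff i)) * x ^ i) -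
          E (δ l (Q.coeff Q.natDegree)) * (E (Q.coeff i) * x ^ i) := by
        intro i; rw [hb]; simp only [map_sub, map_mul]; ring
      simp only [this, Finset.sum_sub_distrib, ← Finset.mul_sum, h1, hsum, mul_zero, sub_zero]
    rw [Finset.sum_range_succ, hbN, map_zero, zero_mul, add_zero] at h2
    obtain ⟨R, hR⟩ : ∃ R : A[X], R = ∑ i ∈ Finset.range Q.natDegree, monomial i (b i) := ⟨_, rfl⟩
    have hRc : ∀ j, R.coeff j = if j ∈ Finset.range Q.natDegree then b j else 0 := by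
      intro j
      rw [hR, finsetSum_coeff]
      simp only [coeff_monomial]
      rw [Finset.sum_ite_eq']
    have hR0 : R = 0 := by
      by_contra h3
      refine h3 (hmin R ?_ ?_)
      · rw [hR, eval₂_finsetSum, ← h2]
        exact Finset.sum_congr rfl fun i _ => eval₂_monomial _ _
      · have h4 : R.coeff R.natDegree ≠ 0 := leadingCoeff_ne_zero.mpr h3
        rw [hRc] at h4
        by_contra h5
        exact h4 (if_neg (by simpa using h5))
    have hbi : b i = 0 := by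
      rcases Nat.lt_succ_iff_lt_or_eq.mp (Finset.mem_range.mp hi) with h | h
      · have := hRc i
        rw [hR0, coeff_zero, if_pos (Finset.mem_range.mpr h)] at this
        exact this.symm
      · rw [h, hbN]
    rw [hb] at hbi
    exact sub_eq_zero.mp hbi
  choose! c hcc using fun i hi => cross _ _ hlc (hc i hi)
  have hE0 : E (Q.coeff Q.natDegree) ≠ 0 := fun h => hlc (hE (h.trans (map_zero E).symm))
  refine ⟨∑ i ∈ Finset.range (Q.natDegree + 1), monomial i (c i), fun h0 => ?_, ?_⟩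
  · have h1 := congrArg (fun P : K[X] => P.coeff Q.natDegree) h0
    simp only [finsetSum_coeff, coeff_monomial, Finset.sum_ite_eq', Finset.self_mem_range_succ,
      if_true, coeff_zero] at h1
    have h2 := hcc _ (Finset.self_mem_range_succ _)
    rw [h1, map_zero, zero_mul] at h2
    exact hlc h2
  · refine mul_left_cancel₀ hE0 ?_
    rw [mul_zero, map_sum, Finset.mul_sum, ← hsum]
    refine Finset.sum_congr rfl fun i hi => ?_
    rw [aeval_monomial]
    conv_rhs => rw [hcc i hi, map_mul, E.commutes]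
    ring

theorem MI_alg {p : A[X]} (hp : p.Monic) (E : A →ₐ[K] M) (hE : Function.Injective E) (t : M)
    (ht : p.eval₂ E.toRingHom t = 0) {x : M} {Q : A[X]} {β : A} (hβ : β ≠ 0)
    (h : E β * x = Q.eval₂ E.toRingHom t) : ∃ R : A[X], R ≠ 0 ∧ R.eval₂ E.toRingHom x = 0 := by
  let := E.toRingHom.toAlgebra
  have h1 : IsIntegral A t := ⟨p, hp, ht⟩
  have h2 : IsIntegral A (aeval t Q) :=
    adjoin_le_integralClosure h1 (aeval_mem_adjoin_singleton A t)
  have h3 : IsAlgebraic A (algebraMap A M β * x) := by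
    have : algebraMap A M β * x = aeval t Q := h
    rw [this]; exact h2.isAlgebraic
  have h4 : algebraMap A M β ≠ 0 := fun h => hβ (hE (h.trans (map_zero E).symm))
  exact IsAlgebraic.of_mul (mem_nonZeroDivisors_of_ne_zero h4) (isAlgebraic_algebraMap β) h3

end generic

variable {K : Type} [NontriviallyNormedField K] [IsUltrametricDist K] {F : Type} [Field F]
  [Algebra K F] {B : Subalgebra K F} {n : ℕ} (𝒩 : ND B n)

/-- the equation of the cover, with entire coefficients -/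
noncomputable def ND.mE : (Ent K (Fin n))[X] :=
  𝒩.m.map (toE : MvPolynomial (Fin n) K →ₐ[K] Ent K (Fin n)).toRingHom

/-- The field generated by the entire functions on the base and the rational functions. -/
structure MI (M : Type) [Field M] [Algebra K M] where
  E : Ent K (Fin n) →ₐ[K] M
  J : F →ₐ[K] M
  inj : Function.Injective E
  compat : ∀ γ, E (toE γ) = J (MvPolynomial.aeval 𝒩.z γ)
  nf : ∀ x : M, ∃ (Q : (Ent K (Fin n))[X]) (β : Ent K (Fin n)), β ≠ 0 ∧
    E β * x = Q.eval₂ E.toRingHom (J 𝒩.θ)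
  dvd : ∀ Q : (Ent K (Fin n))[X], Q.eval₂ E.toRingHom (J 𝒩.θ) = 0 → 𝒩.mE ∣ Q

theorem MI_compat {L : Type} [Field L] [Algebra K L] (e : Ent K (Fin n) →ₐ[K] L) (j : F →ₐ[K] L)
    (h : ∀ l, e (toE (MvPolynomial.X l)) = j (𝒩.z l)) (γ : MvPolynomial (Fin n) K) :
    e (toE γ) = j (MvPolynomial.aeval 𝒩.z γ) := by
  have : e.comp toE = j.comp (MvPolynomial.aeval 𝒩.z) :=
    MvPolynomial.algHom_ext fun l => by
      rw [AlgHom.comp_apply, AlgHom.comp_apply, MvPolynomial.aeval_X, h]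
  exact DFunLike.congr_fun this γ

theorem MI_eval {L : Type} [Field L] [Algebra K L] (e : Ent K (Fin n) →ₐ[K] L) (j : F →ₐ[K] L)
    (h : ∀ l, e (toE (MvPolynomial.X l)) = j (𝒩.z l)) (Q : (MvPolynomial (Fin n) K)[X]) :
    (Q.map (toE : MvPolynomial (Fin n) K →ₐ[K] Ent K (Fin n)).toRingHom).eval₂ e.toRingHom
      (j 𝒩.θ) = j (Q.eval₂ (ND.ae 𝒩.z) 𝒩.θ) := by
  rw [eval₂_map]
  have h1 := hom_eval₂ Q (ND.ae 𝒩.z) j.toRingHom 𝒩.θ
  have h2 : j.toRingHom.comp (ND.ae 𝒩.z) = e.toRingHom.comp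
      (toE : MvPolynomial (Fin n) K →ₐ[K] Ent K (Fin n)).toRingHom :=
    RingHom.ext fun γ => (MI_compat 𝒩 e j h γ).symm
  rw [h2] at h1
  exact h1.symm

theorem MI_root {L : Type} [Field L] [Algebra K L] (e : Ent K (Fin n) →ₐ[K] L) (j : F →ₐ[K] L)
    (h : ∀ l, e (toE (MvPolynomial.X l)) = j (𝒩.z l)) :
    𝒩.mE.eval₂ e.toRingHom (j 𝒩.θ) = 0 := by
  rw [ND.mE, MI_eval 𝒩 e j h, 𝒩.root, map_zero]

theorem exists_MI
    (h : Irreducible (𝒩.mE.map (algebraMap (Ent K (Fin n)) (Fr (Ent K (Fin n)))))) :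
    ∃ (M : Type) (_ : Field M) (_ : Algebra K M), Nonempty (MI 𝒩 M) := by
  obtain ⟨M, _, _, E, t, hE, nf, dvd, ht⟩ := MI_adj (K := K) (𝒩.monic.map _) h
  have h1 : (MvPolynomial.aeval fun l => E (toE (MvPolynomial.X l)) :
      MvPolynomial (Fin n) K →ₐ[K] M) = E.comp toE :=
    MvPolynomial.algHom_ext fun l => by rw [MvPolynomial.aeval_X, AlgHom.comp_apply]
  have h2 : AlgebraicIndependent K fun l => E (toE (MvPolynomial.X l)) := by
    rw [algebraicIndependent_iff_injective_aeval, h1]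
    exact hE.comp toE_inj
  obtain ⟨J, hz, hθ⟩ := 𝒩.lift (ϑ := t) h2 (by
    rw [eval₂_map] at ht
    rw [ND.ae, h1]
    exact ht)
  exact ⟨M, inferInstance, inferInstance, ⟨⟨E, J, hE, MI_compat 𝒩 E J fun l => (hz l).symm,
    by rw [hθ]; exact nf, by rw [hθ]; exact dvd⟩⟩⟩

variable {𝒩} {M : Type} [Field M] [Algebra K M] (𝓜 : MI 𝒩 M)

namespace MI

theorem E_X (l : Fin n) : 𝓜.E (toE (MvPolynomial.X l)) = 𝓜.J (𝒩.z l) := by
  rw [𝓜.compat, MvPolynomial.aeval_X]

theorem lift {L : Type} [Field L] [Algebra K L] (e : Ent K (Fin n) →ₐ[K] L)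
    (he : Function.Injective e) (j : F →ₐ[K] L)
    (h : ∀ l, e (toE (MvPolynomial.X l)) = j (𝒩.z l)) :
    ∃ κ : M →ₐ[K] L, (∀ a, κ (𝓜.E a) = e a) ∧ ∀ x, κ (𝓜.J x) = j x := by
  obtain ⟨κ, hκ⟩ := MI_lift 𝓜.E (𝓜.J 𝒩.θ) 𝓜.nf 𝓜.dvd e he (j 𝒩.θ) (MI_root 𝒩 e j h)
  refine ⟨κ, fun a => ?_, fun x => ?_⟩
  · have := hκ (𝓜.E a) (C a) 1 (by rw [map_one, one_mul, eval₂_C]; rfl)
    rw [map_one, one_mul, eval₂_C] at this
    exact this
  · obtain ⟨γ, hγ, hb⟩ := 𝒩.frac x
    obtain ⟨Q, hQ⟩ := 𝒩.den _ hb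
    have h1 := hκ (𝓜.J x) (Q.map (toE : MvPolynomial (Fin n) K →ₐ[K] Ent K (Fin n)).toRingHom)
      (toE (𝒩.Δ * γ)) (by
        rw [MI_eval 𝒩 𝓜.E 𝓜.J 𝓜.E_X, ← hQ, 𝓜.compat, ← map_mul, map_mul _ 𝒩.Δ, mul_assoc])
    rw [MI_eval 𝒩 e j h, ← hQ, ← mul_assoc, ← map_mul, map_mul j, ← MI_compat 𝒩 e j h] at h1
    refine mul_left_cancel₀ (fun h0 => ?_) h1
    have h2 : toE (𝒩.Δ * γ) = (toE 0 : Ent K (Fin n)) := he (by rw [h0, map_zero, map_zero])
    exact mul_ne_zero 𝒩.Δ_ne hγ (toE_inj h2)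

theorem der_zero {L : Type} [Field L] [Algebra K L] (κ : M →ₐ[K] L) (d : M →+ L)
    (hd : ∀ a b, d (a * b) = κ a * d b + κ b * d a) (h : ∀ a, d (𝓜.E a) = 0) (x : M) :
    d x = 0 := by
  have h1 := MI_der 𝓜.E.toRingHom (𝓜.J 𝒩.θ) κ d hd h
  have h2 : d (𝓜.J 𝒩.θ) = 0 := by
    have h3 := h1 𝒩.mE
    rw [MI_root 𝒩 𝓜.E 𝓜.J 𝓜.E_X, map_zero, ND.mE, derivative_map,
      MI_eval 𝒩 𝓜.E 𝓜.J 𝓜.E_X] at h3
    refine (mul_eq_zero.mp h3.symm).resolve_left fun h4 => ?_
    have h5 : (derivative 𝒩.m).eval₂ (ND.ae 𝒩.z) 𝒩.θ = 0 :=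
      (map_eq_zero 𝓜.J).mp ((map_eq_zero κ).mp h4)
    obtain ⟨a, b, hab⟩ := 𝒩.bez
    have h6 := congrArg (eval₂ (ND.ae 𝒩.z) 𝒩.θ) hab
    rw [eval₂_add, eval₂_mul, eval₂_mul, h5, 𝒩.root, mul_zero, mul_zero, add_zero, eval₂_C] at h6
    exact 𝒩.Δ_ne (𝒩.tb.1.eq_zero_of_aeval_eq_zero _ h6.symm)
  obtain ⟨Q, β, hβ, e⟩ := 𝓜.nf x
  have h7 := h1 Q
  rw [← e, hd, h, h2, mul_zero, mul_zero, add_zero] at h7
  refine (mul_eq_zero.mp h7).resolve_left fun h8 => hβ (𝓜.inj ?_)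
  rw [(map_eq_zero κ).mp h8, map_zero]

variable [CharZero K]

theorem exists_pd (l : Fin n) : ∃ D : Derivation K M M, ∀ a, D (𝓜.E a) = 𝓜.E (pdE K l a) := by
  obtain ⟨δ, hδ⟩ := frac_ext (F := Fr (Ent K (Fin n))) (pdE K l)
  obtain ⟨π, hπ⟩ : ∃ π : Fr (Ent K (Fin n)) →ₐ[K] M, ∀ a, π (algebraMap _ _ a) = 𝓜.E a :=
    ⟨IsFractionRing.liftAlgHom 𝓜.inj, fun a => IsFractionRing.lift_algebraMap (g := 𝓜.E.toRingHom) 𝓜.inj a⟩
  obtain ⟨D, hD, -⟩ := exists_der_ext π δ (ι := Empty) (fun i => i.elim) (fun P hP => by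
    rw [P.eq_C_of_isEmpty] at hP ⊢
    rw [MvPolynomial.eval₂_C, map_eq_zero] at hP
    rw [hP, map_zero]) fun i => i.elim
  exact ⟨D, fun a => by rw [← hπ, hD, hδ, hπ]⟩

/-- the partial derivatives -/
noncomputable def pd (l : Fin n) : Derivation K M M := (𝓜.exists_pd l).choose

theorem pd_E (l : Fin n) (a : Ent K (Fin n)) : 𝓜.pd l (𝓜.E a) = 𝓜.E (pdE K l a) :=
  (𝓜.exists_pd l).choose_spec a

theorem pd_z (l i : Fin n) : 𝓜.pd l (𝓜.J (𝒩.z i)) = if i = l then 1 else 0 := by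
  rw [← 𝓜.E_X, pd_E, pdE_toE]
  split_ifs with h
  · rw [h, MvPolynomial.pderiv_X_self, map_one, map_one]
  · rw [MvPolynomial.pderiv_X_of_ne h, map_zero, map_zero]

/-- a derivation along `κ` which satisfies the chain rule on entire functions -/
theorem der_eq {L : Type} [Field L] [Algebra K L] (κ : M →ₐ[K] L) (d : Derivation K L L)
    (c : Fin n → L) (h : ∀ a, d (κ (𝓜.E a)) = ∑ l, c l * κ (𝓜.E (pdE K l a))) (x : M) :
    d (κ x) = ∑ l, c l * κ (𝓜.pd l x) := by
  refine sub_eq_zero.mp (𝓜.der_zero κ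
    (AddMonoidHom.mk' (fun y => d (κ y) - ∑ l, c l * κ (𝓜.pd l y)) fun a b => ?_)
    (fun a b => ?_) (fun a => ?_) x)
  · simp only [map_add, mul_add, Finset.sum_add_distrib]; ring
  · simp only [AddMonoidHom.mk'_apply, map_mul, Derivation.leibniz, smul_eq_mul, map_add, mul_add,
      Finset.sum_add_distrib, mul_sub, Finset.mul_sum, mul_left_comm (c _)]
    ring
  · simp only [AddMonoidHom.mk'_apply, pd_E, h, sub_self]

theorem pd_const [IsAlgClosed K] {x : M} (h : ∀ l, 𝓜.pd l x = 0) :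
    ∃ c : K, x = algebraMap K M c := by
  obtain ⟨Q, β, hβ, e⟩ := 𝓜.nf x
  have h1 : IsAlgebraic K x := MI_const 𝓜.E 𝓜.inj 𝓜.pd (fun l a => pdE K l a) 𝓜.pd_E
    (fun a b hb hab => by
      obtain ⟨c, hc⟩ := cross_const (a := a.1) (b := b.1) (fun h0 => hb (Subtype.ext h0))
        fun l => congrArg Subtype.val (hab l)
      exact ⟨c, Subtype.ext hc⟩) h
    (MI_alg (𝒩.monic.map _) 𝓜.E 𝓜.inj _ (MI_root 𝒩 𝓜.E 𝓜.J 𝓜.E_X) hβ e)
  obtain ⟨c, hc⟩ := minpoly.mem_range_of_degree_eq_one K x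
    (IsAlgClosed.degree_eq_one_of_irreducible K (minpoly.irreducible h1.isIntegral))
  exact ⟨c, hc.symm⟩

/-- the extension of a rational vector field -/
noncomputable def hat (ξ : Derivation K F F) : Derivation K M M :=
  ∑ l, 𝓜.J (ξ (𝒩.z l)) • 𝓜.pd l

theorem hat_apply (ξ : Derivation K F F) (x : M) :
    𝓜.hat ξ x = ∑ l, 𝓜.J (ξ (𝒩.z l)) * 𝓜.pd l x := by
  have := congrFun (map_sum (Derivation.coeFnAddMonoidHom (R := K) (A := M) (M := M))
    (fun l => 𝓜.J (ξ (𝒩.z l)) • 𝓜.pd l) Finset.univ) x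
  rw [Finset.sum_apply] at this
  exact this

/-- use `der_along` -/
theorem hat_J (ξ : Derivation K F F) (a : F) : 𝓜.hat ξ (𝓜.J a) = 𝓜.J (ξ a) := by
  refine sub_eq_zero.mp (der_along 𝒩.tb 𝓜.J
    ((𝓜.hat ξ).toLinearMap.comp 𝓜.J.toLinearMap - 𝓜.J.toLinearMap.comp ξ.toLinearMap)
    (fun a b => ?_) (fun i => ?_) a)
  · simp only [LinearMap.sub_apply, LinearMap.comp_apply, AlgHom.toLinearMap_apply,
      Derivation.coeFn_coe, map_mul, Derivation.leibniz, smul_eq_mul, map_add]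
    ring
  · simp only [LinearMap.sub_apply, LinearMap.comp_apply, AlgHom.toLinearMap_apply,
      Derivation.coeFn_coe, hat_apply, pd_z, mul_ite, mul_one, mul_zero, Finset.sum_ite_eq,
      Finset.mem_univ, if_true, sub_self]

/-- use `Der_dual` -/
theorem pd_hat {g : ℕ} (ξ : Fin g → Derivation K F F)
    (span : ∀ D : Derivation K F F, ∃ c : Fin g → F, ∀ a, D a = ∑ k, c k * ξ k a) :
    ∃ C : Fin n → Fin g → F, (∀ l i, ∑ k, C l k * ξ k (𝒩.z i) = if l = i then 1 else 0) ∧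
      ∀ l x, 𝓜.pd l x = ∑ k, 𝓜.J (C l k) * 𝓜.hat (ξ k) x := by
  obtain ⟨C, h1, -⟩ := Der_dual ξ span 𝒩.tb
  have h2 : ∀ l i, ∑ k, C l k * ξ k (𝒩.z i) = if l = i then 1 else 0 := fun l i => by
    have := congrFun (congrFun h1 l) i
    rw [Matrix.mul_apply, Matrix.one_apply] at this
    exact this
  refine ⟨C, h2, fun l x => ?_⟩
  simp only [hat_apply, Finset.mul_sum]
  rw [Finset.sum_comm]
  have h3 : ∀ i, ∑ k, 𝓜.J (C l k) * (𝓜.J (ξ k (𝒩.z i)) * 𝓜.pd i x) =
      if l = i then 𝓜.pd i x else 0 := fun i => by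
    simp only [← mul_assoc, ← map_mul, ← Finset.sum_mul, ← map_sum, h2]
    split_ifs <;> simp
  simp only [h3, Finset.sum_ite_eq, Finset.mem_univ, if_true]

end MI

end Pool.Agent.Work.MP_e120ef_ag.H
end

-- merged part: Pool.Agent.Work.MP_e120ef_ag.H.CP
section
/-!
# Vanishing on the whole variety

Plan.  Let `P = MvPolynomial (Fin n) K`, make `B` a finite `P`-module through `aeval z` (`gen`), and let `R` be a domain over `P`.  The element `g = ∑ k, E k ⊗ e k` of `R ⊗[P] B` is killed by `Δ` (hypothesis `h`: `Δ e k = Q k (θ)` and `∑ E k Q k` is divisible by `m`), and the claim is that its image under `ρ ⊗ j` vanishes.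
Universal argument: in `B' = MvPolynomial (Fin N) B` let `G = ∑ k, C (e k) * X k`; it is integral over the integrally closed domain `P' = MvPolynomial (Fin N) P`, let `μ ∈ P'[Y]` be its minimal polynomial (monic, `minpoly.isIntegrallyClosed_dvd`; `B'` is a domain and `P' → B'` is injective).
Let `A` be the matrix over `P'` of the multiplication by `Δ G = ∑ k, X k * Q k (θ)` on `AdjoinRoot (m.map _)` in the power basis, or more simply the norm `χ (Y) = resultant`/`charpoly` of this element; `χ` is monic, kills `Δ G`, so the minimal polynomial `μ.scaleRoots Δ` of `Δ G` divides `χ` in `P'[Y]`.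
Specialise `X k ↦ E k`: the element becomes `0` in `AdjoinRoot (m.map _)` over `R`, so `χ ↦ Y ^ s` (`Matrix.charpoly_map`, `Algebra.leftMulMatrix`), hence `μ.scaleRoots Δ ↦ Y ^ d` (monic divisor of `Y ^ s` over a domain), and as `Δ ≠ 0` in `R`, `μ ↦ Y ^ d`.  Finally apply `X k ↦ ρ (E k)`, `j` to `μ (G) = 0`: `(∑ ρ (E k) * j (e k)) ^ d = 0`.
Any other proof is welcome (e.g. by valuations: extend the prime `ker ρ` to a valuation ring of an algebraic closure of `Frac R`, and use the going-down/conjugacy of primes above `ker ρ ∩ P`).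
-/

open Polynomial

namespace Pool.Agent.Work.MP_e120ef_ag.H

variable {K F : Type} [Field K] [Field F] [Algebra K F] {B : Subalgebra K F} {n : ℕ} (𝒩 : ND B n)

theorem CP_char {P : Type} [CommRing P] {m : P[X]} (hm : m.Monic) (H : P[X]) :
    ∃ (χ : P[X]) (s : ℕ), m ∣ χ.comp H ∧ ∀ (R : Type) [CommRing R] (φ : P →+* R),
      m.map φ ∣ H.map φ → χ.map φ = X ^ s := by
  classical
  let b := (AdjoinRoot.powerBasis' hm).basis
  let L := Algebra.leftMulMatrix b
  let M := L (AdjoinRoot.root m)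
  have hL : ∀ p : P[X], L (AdjoinRoot.mk m p) = aeval M p := fun p => by
    rw [← AdjoinRoot.aeval_eq, ← Polynomial.aeval_algHom_apply]
  refine ⟨(aeval M H).charpoly, Fintype.card (Fin (AdjoinRoot.powerBasis' hm).dim), ?_,
    fun R _ φ h => ?_⟩
  · rw [← AdjoinRoot.mk_eq_zero]
    apply Algebra.leftMulMatrix_injective b
    rw [map_zero]
    change L _ = 0
    rw [hL, aeval_comp, Matrix.aeval_self_charpoly]
  · have h1 : ∀ p : P[X], (aeval M p).map φ = aeval (M.map φ) (p.map φ) := fun p =>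
      Polynomial.map_aeval_eq_aeval_map (ψ := φ.mapMatrix) (by
        ext x i j
        simp [Matrix.algebraMap_matrix_apply, apply_ite φ]) p M
    obtain ⟨q, hq⟩ := h
    rw [← Matrix.charpoly_map, h1, hq, map_mul, ← h1, ← hL, AdjoinRoot.mk_self, map_zero,
      Matrix.map_zero _ (map_zero φ), zero_mul, Matrix.charpoly_zero]

theorem CP_pow {R : Type} [CommRing R] [IsDomain R] {μ : R[X]} (hμ : μ.Monic) {c : R} (hc : c ≠ 0)
    {s : ℕ} (h : μ ∣ C c * X ^ s) : ∃ i : ℕ, μ = X ^ i := by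
  obtain ⟨q, hq⟩ := h
  obtain ⟨i, j, a, b, -, h1, h2, -⟩ := mul_eq_mul_prime_pow Polynomial.prime_X hq.symm
  have h3 : a.natDegree = 0 := by
    have := Polynomial.natDegree_le_of_dvd ⟨b, h1⟩ (C_ne_zero.2 hc)
    simpa using this
  have h4 : a.Monic := Monic.of_mul_monic_right (monic_X_pow i) (h2 ▸ hμ)
  exact ⟨i, by rw [h2, (h4.natDegree_eq_zero).1 h3, one_mul]⟩

theorem CP_min {P S : Type} [CommRing P] [IsDomain P] [IsIntegrallyClosed P] [CommRing S] [IsDomain S]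
    (f : P →+* S) (hf : Function.Injective f) {ι : Type} [Fintype ι] (a : ι → S) (x : ι → P)
    (ha : ∀ k, f.IsIntegralElem (a k)) : ∃ μ : P[X], μ.Monic ∧ μ.eval₂ f (∑ k, f (x k) * a k) = 0 ∧
      ∀ p : P[X], p.eval₂ f (∑ k, f (x k) * a k) = 0 → μ ∣ p := by
  let := f.toAlgebra
  have : FaithfulSMul P S := (faithfulSMul_iff_algebraMap_injective P S).2 hf
  have hG : IsIntegral P (∑ k, f (x k) * a k) :=
    IsIntegral.sum _ fun k _ => IsIntegral.mul isIntegral_algebraMap (ha k)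
  exact ⟨minpoly P _, minpoly.monic hG, minpoly.aeval P _,
    fun p hp => minpoly.isIntegrallyClosed_dvd hG hp⟩

theorem ND.vanish {R : Type} [CommRing R] [IsDomain R] [Algebra K R] {ζ : Fin n → R}
    (hζ : MvPolynomial.aeval ζ 𝒩.Δ ≠ 0) (E : Fin 𝒩.N → R)
    (Q : Fin 𝒩.N → (MvPolynomial (Fin n) K)[X])
    (hQ : ∀ k, MvPolynomial.aeval 𝒩.z 𝒩.Δ * 𝒩.e k = (Q k).eval₂ (ND.ae 𝒩.z) 𝒩.θ)
    (h : 𝒩.m.map (ND.ae ζ) ∣ ∑ k, C (E k) * (Q k).map (ND.ae ζ))
    (ρ : R →ₐ[K] K) (j : B →ₐ[K] K) (hj : ∀ l, ρ (ζ l) = 𝒩.zv j l) :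
    ∑ k, ρ (E k) * j ⟨𝒩.e k, 𝒩.e_mem k⟩ = 0 := by
  let ι : MvPolynomial (Fin n) K →+* B := (ND.ae 𝒩.z).codRestrict B 𝒩.ae_mem
  have hι : ∀ (p : (MvPolynomial (Fin n) K)[X]) (b : B),
      ((p.eval₂ ι b : B) : F) = p.eval₂ (ND.ae 𝒩.z) b := fun p b =>
    Polynomial.hom_eval₂ p ι B.val.toRingHom b
  have hinj : Function.Injective ι := fun a b hab => 𝒩.tb.1 (congrArg Subtype.val hab)
  let f := MvPolynomial.map (σ := Fin 𝒩.N) ι
  have hf : ∀ (p : (MvPolynomial (Fin n) K)[X]) (b : B),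
      (p.map MvPolynomial.C).eval₂ f (MvPolynomial.C b) = MvPolynomial.C (p.eval₂ ι b) := fun p b => by
    rw [Polynomial.eval₂_map, Polynomial.hom_eval₂]
    congr 1
    exact RingHom.ext fun a => MvPolynomial.map_C ι a
  let e : Fin 𝒩.N → B := fun k => ⟨𝒩.e k, 𝒩.e_mem k⟩
  let θ : B := ⟨𝒩.θ, 𝒩.θ_mem⟩
  obtain ⟨μ, hμ1, hμ2, hμ3⟩ := CP_min f (MvPolynomial.map_injective ι hinj)
    (fun k => MvPolynomial.C (e k)) MvPolynomial.X fun k => by
      obtain ⟨q, hq1, hq2⟩ := 𝒩.integral (e k)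
      refine ⟨q.map MvPolynomial.C, hq1.map _, ?_⟩
      rw [hf, show q.eval₂ ι (e k) = 0 from Subtype.ext ((hι _ _).trans hq2), map_zero]
  obtain ⟨χ, s, hχ1, hχ2⟩ := CP_char (𝒩.monic.map (MvPolynomial.C (σ := Fin 𝒩.N)))
    (∑ k, C (MvPolynomial.X k) * (Q k).map MvPolynomial.C)
  have h1 : (∑ k, C (MvPolynomial.X k) * (Q k).map MvPolynomial.C).eval₂ f (MvPolynomial.C θ) =
      f (MvPolynomial.C 𝒩.Δ) * ∑ k, f (MvPolynomial.X k) * MvPolynomial.C (e k) := by
    rw [Polynomial.eval₂_finsetSum, Finset.mul_sum]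
    refine Finset.sum_congr rfl fun k _ => ?_
    rw [Polynomial.eval₂_mul, Polynomial.eval₂_C, hf,
      show (Q k).eval₂ ι θ = ι 𝒩.Δ * e k from Subtype.ext ((hι _ _).trans (hQ k).symm), map_mul,
      MvPolynomial.map_C]
    ring
  have h2 : μ ∣ χ.comp (C (MvPolynomial.C 𝒩.Δ) * X) := by
    apply hμ3
    obtain ⟨q, hq⟩ := hχ1
    rw [Polynomial.eval₂_comp, Polynomial.eval₂_mul, Polynomial.eval₂_C, Polynomial.eval₂_X, ← h1,
      ← Polynomial.eval₂_comp, hq, Polynomial.eval₂_mul, hf,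
      show 𝒩.m.eval₂ ι θ = 0 from Subtype.ext ((hι _ _).trans 𝒩.root), map_zero, zero_mul]
  let φ : MvPolynomial (Fin 𝒩.N) (MvPolynomial (Fin n) K) →+* R := MvPolynomial.eval₂Hom (ND.ae ζ) E
  have hφ : φ.comp MvPolynomial.C = ND.ae ζ := RingHom.ext fun a => MvPolynomial.eval₂Hom_C _ _ a
  have h3 := hχ2 R φ (by
    rw [Polynomial.map_map, hφ, Polynomial.map_sum]
    convert h using 2 with k
    rw [Polynomial.map_mul, Polynomial.map_C, Polynomial.map_map, hφ, MvPolynomial.eval₂Hom_X'])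
  have h4 := Polynomial.map_dvd φ h2
  rw [Polynomial.map_comp, h3, Polynomial.map_mul, Polynomial.map_C, Polynomial.map_X, X_pow_comp,
    mul_pow, ← C_pow, MvPolynomial.eval₂Hom_C] at h4
  obtain ⟨i, hi⟩ := CP_pow (hμ1.map φ) (pow_ne_zero s hζ) h4
  let Ψ : MvPolynomial (Fin 𝒩.N) B →+* K := MvPolynomial.eval₂Hom j.toRingHom fun k => ρ (E k)
  have hΨ : Ψ.comp f = ρ.toRingHom.comp φ := by
    refine MvPolynomial.ringHom_ext (fun a => ?_) fun k => ?_
    · simp only [RingHom.comp_apply, f, Ψ, φ, MvPolynomial.map_C, MvPolynomial.eval₂Hom_C]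
      refine (𝒩.map_ae j a).trans ?_
      rw [show 𝒩.zv j = fun l => ρ (ζ l) from funext fun l => (hj l).symm]
      exact (MvPolynomial.comp_aeval_apply ζ ρ a).symm
    · simp only [RingHom.comp_apply, f, Ψ, φ, MvPolynomial.map_X, MvPolynomial.eval₂Hom_X']
      rfl
  have h5 := congrArg Ψ hμ2
  rw [Polynomial.hom_eval₂, hΨ, ← Polynomial.eval₂_map, hi, Polynomial.eval₂_X_pow, map_zero] at h5
  have h6 := eq_zero_of_pow_eq_zero h5
  rw [map_sum] at h6
  rw [← h6]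
  refine Finset.sum_congr rfl fun k _ => ?_
  simp only [map_mul, f, Ψ, MvPolynomial.map_X, MvPolynomial.eval₂Hom_X', MvPolynomial.eval₂Hom_C]
  rfl

end Pool.Agent.Work.MP_e120ef_ag.H
end

-- merged part: Pool.Agent.Work.MP_e120ef_ag.H.Val
section
/-!
# Values of meromorphic functions at points

Plans.  `Val.unique`: cross-multiply; `β' Q - β Q'` vanishes at `J θ`, so it is divisible by `mE` (`dvd`), which vanishes at the point (`root_v`, `evE_toE`, `eval₂_map`).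
`eq_zero_of_val`: write `E β * x = Q (J θ)` and replace `Q` by `Q %ₘ mE`, of degree `< s`.  For `z₀` with `evE z₀ (γ β Δ) ≠ 0` the polynomial `Q.map (evE z₀)` vanishes at the `s` distinct roots of `m (z₀, Y)` (`ND.point`, `ND.separable`, `Val.unique`; `K` is algebraically closed), so it is zero.  Thus `γ β Δ * Q.coeff i` vanishes at all points: `ent_ext`.
`exists_rep`: take `E k` from `exists_str`, `x = ∑ k, E (E k) * J (e k)`; `Val.add`, `Val.mul`, `val_E`, `val_J`; for `κ` use `j = κ ∘ J ∘ B.val`; the last part is `ND.vanish` with `R = Ent K (Fin n)`, `ζ l = toE (X l)`, `ρ = evE (zv e)` (`dvd`).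
`exists_phi`: for `y` with data `s, a, b` let `xa, xb` be as in `exists_rep`; `xb ≠ 0`.  Call `x` good for `y` if the conclusion holds; `xa / xb` is good (take `β` from `exists_val xb⁻¹` and `γ = β * toE Δ`; `Val.unique` for `xb * xb⁻¹ = 1` shows `evE .. b ≠ 0`).  A good `x` is unique (`eq_zero_of_val`, `uniq`), and goodness is compatible with sums, products and constants.
`phi_rep`: `eq_zero_of_val` applied to `(φ y * xb - xa) * xb`.
-/

open Polynomial

namespace Pool.Agent.Work.MP_e120ef_ag.H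

variable {K : Type} [NontriviallyNormedField K] [IsUltrametricDist K] [CompleteSpace K] {F : Type}
  [Field F] [Algebra K F] {B : Subalgebra K F} {n : ℕ} {𝒩 : ND B n} {M : Type} [Field M]
  [Algebra K M] (𝓜 : MI 𝒩 M)

theorem Val_comp (z : Fin n → K) : (evE z : Ent K (Fin n) →ₐ[K] K).toRingHom.comp
    (toE : MvPolynomial (Fin n) K →ₐ[K] Ent K (Fin n)).toRingHom = ND.ae z :=
  RingHom.ext fun P => evE_toE P

theorem Val_root (e : B →ₐ[K] K) :
    𝒩.mE.eval₂ (evE (𝒩.zv e) : Ent K (Fin n) →ₐ[K] K).toRingHom (𝒩.θv e) = 0 := by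
  rw [ND.mE, eval₂_map, Val_comp]
  exact 𝒩.root_v e

omit [CompleteSpace K] in
theorem Val_ne : (toE 𝒩.Δ : Ent K (Fin n)) ≠ 0 := fun h =>
  𝒩.Δ_ne (toE_inj (h.trans (map_zero _).symm))

omit [CompleteSpace K] in
theorem Val_J (Q : (MvPolynomial (Fin n) K)[X]) :
    (Q.map (toE : MvPolynomial (Fin n) K →ₐ[K] Ent K (Fin n)).toRingHom).eval₂ 𝓜.E.toRingHom
      (𝓜.J 𝒩.θ) = 𝓜.J (Q.eval₂ (ND.ae 𝒩.z) 𝒩.θ) := by
  rw [eval₂_map]
  refine Eq.trans ?_ (hom_eval₂ Q (ND.ae 𝒩.z) 𝓜.J.toRingHom 𝒩.θ).symm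
  congr 1
  exact RingHom.ext fun P => 𝓜.compat P

namespace MI

/-- `x` has the value `c` at the point `e` -/
def Val (e : B →ₐ[K] K) (x : M) (c : K) : Prop :=
  ∃ (Q : (Ent K (Fin n))[X]) (β : Ent K (Fin n)), evE (𝒩.zv e) β ≠ 0 ∧
    𝓜.E β * x = Q.eval₂ 𝓜.E.toRingHom (𝓜.J 𝒩.θ) ∧
    evE (𝒩.zv e) β * c = Q.eval₂ (evE (𝒩.zv e) : Ent K (Fin n) →ₐ[K] K).toRingHom (𝒩.θv e)

variable {𝓜} {e : B →ₐ[K] K} {x y : M} {c d : K}

theorem Val.add (hx : 𝓜.Val e x c) (hy : 𝓜.Val e y d) : 𝓜.Val e (x + y) (c + d) := by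
  obtain ⟨Q, β, h0, h1, h2⟩ := hx
  obtain ⟨Q', β', k0, k1, k2⟩ := hy
  refine ⟨C β' * Q + C β * Q', β * β', by rw [map_mul]; exact mul_ne_zero h0 k0, ?_, ?_⟩
  · rw [eval₂_add, eval₂_mul, eval₂_mul, eval₂_C, eval₂_C, ← h1, ← k1, map_mul]
    simp only [AlgHom.toRingHom_eq_coe, RingHom.coe_coe]
    ring
  · rw [eval₂_add, eval₂_mul, eval₂_mul, eval₂_C, eval₂_C, ← h2, ← k2, map_mul]
    simp only [AlgHom.toRingHom_eq_coe, RingHom.coe_coe]
    ring

theorem Val.mul (hx : 𝓜.Val e x c) (hy : 𝓜.Val e y d) : 𝓜.Val e (x * y) (c * d) := by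
  obtain ⟨Q, β, h0, h1, h2⟩ := hx
  obtain ⟨Q', β', k0, k1, k2⟩ := hy
  refine ⟨Q * Q', β * β', by rw [map_mul]; exact mul_ne_zero h0 k0, ?_, ?_⟩
  · rw [eval₂_mul, ← h1, ← k1, map_mul]
    ring
  · rw [eval₂_mul, ← h2, ← k2, map_mul]
    ring

theorem Val.sub (hx : 𝓜.Val e x c) (hy : 𝓜.Val e y d) : 𝓜.Val e (x - y) (c - d) := by
  refine (sub_eq_add_neg x y).symm ▸ (sub_eq_add_neg c d).symm ▸ hx.add ?_
  obtain ⟨Q, β, h0, h1, h2⟩ := hy
  exact ⟨-Q, β, h0, by rw [eval₂_neg, ← h1, mul_neg], by rw [eval₂_neg, ← h2, mul_neg]⟩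

theorem Val.unique (hx : 𝓜.Val e x c) (hy : 𝓜.Val e x d) : c = d := by
  obtain ⟨Q, β, h0, h1, h2⟩ := hx
  obtain ⟨Q', β', k0, k1, k2⟩ := hy
  obtain ⟨R, hR⟩ := 𝓜.dvd (C β' * Q - C β * Q') (by
    rw [eval₂_sub, eval₂_mul, eval₂_mul, eval₂_C, eval₂_C, ← h1, ← k1]
    simp only [AlgHom.toRingHom_eq_coe, RingHom.coe_coe]
    ring)
  have h3 := congrArg (eval₂ (evE (𝒩.zv e) : Ent K (Fin n) →ₐ[K] K).toRingHom (𝒩.θv e)) hR
  rw [eval₂_sub, eval₂_mul, eval₂_mul, eval₂_mul, eval₂_C, eval₂_C, ← h2, ← k2, Val_root,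
    zero_mul] at h3
  simp only [AlgHom.toRingHom_eq_coe, RingHom.coe_coe] at h3
  refine mul_left_cancel₀ (mul_ne_zero h0 k0) ?_
  linear_combination h3

variable (𝓜)

theorem val_E (e : B →ₐ[K] K) (a : Ent K (Fin n)) : 𝓜.Val e (𝓜.E a) (evE (𝒩.zv e) a) := by
  refine ⟨C a, 1, by rw [map_one]; exact one_ne_zero, ?_, ?_⟩
  · rw [eval₂_C, map_one, one_mul]
    rfl
  · rw [eval₂_C, map_one, one_mul]
    rfl

theorem val_alg (e : B →ₐ[K] K) (c : K) : 𝓜.Val e (algebraMap K M c) c := by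
  have h := 𝓜.val_E e (algebraMap K _ c)
  rwa [AlgHom.commutes, AlgHom.commutes] at h

theorem val_J (he : MvPolynomial.aeval (𝒩.zv e) 𝒩.Δ ≠ 0) (b : B) : 𝓜.Val e (𝓜.J b) (e b) := by
  obtain ⟨Q, hQ⟩ := 𝒩.den b b.2
  refine ⟨Q.map (toE : MvPolynomial (Fin n) K →ₐ[K] Ent K (Fin n)).toRingHom, toE 𝒩.Δ,
    by rwa [evE_toE], ?_, ?_⟩
  · rw [Val_J, 𝓜.compat, ← map_mul, hQ]
  · rw [eval₂_map, Val_comp, evE_toE]
    exact 𝒩.map_den e hQ

theorem Val_sum {ι : Type} (S : Finset ι) (f : ι → M) (g : ι → K)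
    (h : ∀ k, 𝓜.Val e (f k) (g k)) : 𝓜.Val e (∑ k ∈ S, f k) (∑ k ∈ S, g k) := by
  classical
  induction S using Finset.induction_on with
  | empty => simpa using 𝓜.val_alg e 0
  | insert a S ha ih =>
    rw [Finset.sum_insert ha, Finset.sum_insert ha]
    exact (h a).add ih

theorem exists_val (x : M) : ∃ β : Ent K (Fin n), β ≠ 0 ∧
    ∀ e : B →ₐ[K] K, evE (𝒩.zv e) β ≠ 0 → ∃ c, 𝓜.Val e x c := by
  obtain ⟨Q, β, h0, h1⟩ := 𝓜.nf x
  exact ⟨β, h0, fun e he => ⟨_, Q, β, he, h1, mul_div_cancel₀ _ he⟩⟩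

/-- `x` is the entire function `a (s)` -/
structure Rep {r : ℕ} (s : Fin r → B) (a : Ent K (Fin r)) (x : M) : Prop where
  val : ∀ e : B →ₐ[K] K, MvPolynomial.aeval (𝒩.zv e) 𝒩.Δ ≠ 0 →
    𝓜.Val e x (evE (fun i => e (s i)) a)
  map : ∀ (L : Type) [NontriviallyNormedField L] [IsUltrametricDist L] [CompleteSpace L]
    [NormedAlgebra K L] (κ : M →ₐ[K] L),
    (∀ b, κ (𝓜.E b) = evE (fun l => κ (𝓜.J (𝒩.z l))) b) → κ x = evE (fun i => κ (𝓜.J (s i))) a
  zero : x = 0 → ∀ e : B →ₐ[K] K, evE (fun i => e (s i)) a = 0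

theorem exists_rep {r : ℕ} (s : Fin r → B) (a : Ent K (Fin r)) : ∃ x, 𝓜.Rep s a x := by
  obtain ⟨E, hE⟩ := exists_str 𝒩 s a
  refine ⟨∑ k, 𝓜.E (E k) * 𝓜.J (𝒩.e k), fun e he => ?_, fun L _ _ _ _ κ hκ => ?_,
    fun h0 e => ?_⟩
  · rw [hE K e]
    exact 𝓜.Val_sum _ _ _ fun k => (𝓜.val_E e (E k)).mul (𝓜.val_J he ⟨𝒩.e k, 𝒩.e_mem k⟩)
  · refine Eq.trans ?_ (hE L (κ.comp (𝓜.J.comp B.val))).symm
    rw [map_sum]
    refine Finset.sum_congr rfl fun k _ => ?_
    rw [map_mul, hκ]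
    rfl
  · choose Q hQ using fun k => 𝒩.den (𝒩.e k) (𝒩.e_mem k)
    have h1 : (ND.ae fun l => (toE (MvPolynomial.X l) : Ent K (Fin n))) =
        (toE : MvPolynomial (Fin n) K →ₐ[K] Ent K (Fin n)).toRingHom :=
      congrArg AlgHom.toRingHom (MvPolynomial.algHom_ext fun l => MvPolynomial.aeval_X _ _)
    rw [hE K e]
    refine 𝒩.vanish (ζ := fun l => (toE (MvPolynomial.X l) : Ent K (Fin n))) ?_ E Q hQ ?_
      (evE (𝒩.zv e)) e fun l => ?_
    · have h2 : MvPolynomial.aeval (fun l => (toE (MvPolynomial.X l) : Ent K (Fin n))) 𝒩.Δ =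
          toE 𝒩.Δ := RingHom.congr_fun h1 𝒩.Δ
      rw [h2]
      exact Val_ne
    · rw [h1]
      refine 𝓜.dvd _ ?_
      rw [eval₂_finsetSum, ← mul_zero (𝓜.J (MvPolynomial.aeval 𝒩.z 𝒩.Δ)), ← h0, Finset.mul_sum]
      refine Finset.sum_congr rfl fun k _ => ?_
      rw [eval₂_mul, eval₂_C, Val_J, ← hQ, map_mul]
      simp only [AlgHom.toRingHom_eq_coe, RingHom.coe_coe]
      ring
    · rw [evE_toE, MvPolynomial.aeval_X]

variable [IsAlgClosed K]

theorem eq_zero_of_val {γ : Ent K (Fin n)} (hγ : γ ≠ 0)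
    (h : ∀ e : B →ₐ[K] K, evE (𝒩.zv e) γ ≠ 0 → 𝓜.Val e x 0) : x = 0 := by
  classical
  obtain ⟨Q, β, h0, h1⟩ := 𝓜.nf x
  have hm : 𝒩.mE.Monic := 𝒩.monic.map _
  have hd : 𝒩.mE.natDegree = 𝒩.m.natDegree := 𝒩.monic.natDegree_map _
  have hr : 𝒩.mE.eval₂ 𝓜.E.toRingHom (𝓜.J 𝒩.θ) = 0 := by
    rw [ND.mE, Val_J, 𝒩.root, map_zero]
  rw [← eval₂_modByMonic_eq_self_of_root hr] at h1
  have hlt : (Q %ₘ 𝒩.mE).natDegree < 𝒩.m.natDegree := by
    rw [← hd]
    refine natDegree_modByMonic_lt Q hm fun h2 => ?_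
    have := 𝒩.deg_pos
    rw [← hd, h2, natDegree_one] at this
    exact lt_irrefl _ this
  generalize Q %ₘ 𝒩.mE = R at h1 hlt
  have hR : R = 0 := by
    ext1 i
    refine (mul_eq_zero.1 (ent_ext (F := γ * β * toE 𝒩.Δ * R.coeff i) fun z => ?_)).resolve_left
      (mul_ne_zero (mul_ne_zero hγ h0) Val_ne)
    rw [map_mul]
    refine mul_eq_zero.2 (or_iff_not_imp_left.2 fun hz => ?_)
    rw [map_mul, map_mul, evE_toE, mul_eq_zero, mul_eq_zero, not_or, not_or] at hz
    have h3 : R.map (evE z : Ent K (Fin n) →ₐ[K] K).toRingHom = 0 := by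
      refine eq_zero_of_natDegree_lt_card_of_eval_eq_zero' _ (𝒩.m.map (ND.ae z)).roots.toFinset
        (fun t ht => ?_) ?_
      · have h4 := isRoot_of_mem_roots (Multiset.mem_toFinset.1 ht)
        rw [IsRoot, eval_map] at h4
        obtain ⟨e, rfl, rfl⟩ := 𝒩.point hz.2 h4
        have h5 : 𝓜.Val e x _ := ⟨R, β, hz.1.2, h1, mul_div_cancel₀ _ hz.1.2⟩
        rw [eval_map]
        exact (div_eq_zero_iff.1 (h5.unique (h e hz.1.1))).resolve_right hz.1.2
      · rw [Multiset.toFinset_card_of_nodup (nodup_roots (𝒩.separable hz.2)),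
          IsAlgClosed.card_roots_eq_natDegree, 𝒩.monic.natDegree_map]
        exact natDegree_map_le.trans_lt hlt
    have h6 := congrArg (fun p => coeff p i) h3
    simpa using h6
  rw [hR, eval₂_zero] at h1
  exact (mul_eq_zero.1 h1).resolve_left ((map_ne_zero_iff _ 𝓜.inj).2 h0)

theorem exists_point {γ : Ent K (Fin n)} (hγ : γ ≠ 0) :
    ∃ e : B →ₐ[K] K, evE (𝒩.zv e) γ ≠ 0 := by
  obtain ⟨z, hz⟩ := ent_exists hγ
  obtain ⟨e, he⟩ := 𝒩.lying z
  exact ⟨e, he ▸ hz⟩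

variable {Y : Type} [Field Y] [Algebra K Y]

/-- the values of `φ y` are given by the relation `HV` outside an analytic hypersurface -/
def IsPhi (HV : (B →ₐ[K] K) → Y → K → Prop) (φ : Y →ₐ[K] M) : Prop :=
  ∀ y, ∃ γ : Ent K (Fin n), γ ≠ 0 ∧ ∀ e : B →ₐ[K] K, evE (𝒩.zv e) γ ≠ 0 →
    ∃ c, 𝓜.Val e (φ y) c ∧ HV e y c

theorem exists_phi (HV : (B →ₐ[K] K) → Y → K → Prop)
    (add : ∀ e y y' c c', HV e y c → HV e y' c' → HV e (y + y') (c + c'))
    (mul : ∀ e y y' c c', HV e y c → HV e y' c' → HV e (y * y') (c * c'))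
    (alg : ∀ e c, HV e (algebraMap K Y c) c) (uniq : ∀ e y c c', HV e y c → HV e y c' → c = c')
    (h : ∀ y, ∃ (r : ℕ) (s : Fin r → B) (a b : Ent K (Fin r)),
      (∃ e : B →ₐ[K] K, evE (fun i => e (s i)) b ≠ 0) ∧
      ∀ e : B →ₐ[K] K, evE (fun i => e (s i)) b ≠ 0 →
        HV e y (evE (fun i => e (s i)) a / evE (fun i => e (s i)) b)) :
    ∃ φ : Y →ₐ[K] M, 𝓜.IsPhi HV φ := by
  let G : Y → M → Prop := fun y x => ∃ γ : Ent K (Fin n), γ ≠ 0 ∧
    ∀ e : B →ₐ[K] K, evE (𝒩.zv e) γ ≠ 0 → ∃ c, 𝓜.Val e x c ∧ HV e y c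
  have ex : ∀ y, ∃ x, G y x := by
    intro y
    obtain ⟨r, s, a, b, ⟨e0, he0⟩, hab⟩ := h y
    obtain ⟨xa, ha⟩ := 𝓜.exists_rep s a
    obtain ⟨xb, hb⟩ := 𝓜.exists_rep s b
    have h0 : xb ≠ 0 := fun k => he0 (hb.zero k e0)
    obtain ⟨β, hβ, hv⟩ := 𝓜.exists_val xb⁻¹
    refine ⟨xa * xb⁻¹, β * toE 𝒩.Δ, mul_ne_zero hβ Val_ne, fun e he => ?_⟩
    rw [map_mul, evE_toE, mul_ne_zero_iff] at he
    obtain ⟨c, hc⟩ := hv e he.1
    have h1 := (hb.val e he.2).mul hc
    have h2 := 𝓜.val_alg e 1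
    rw [map_one] at h2
    rw [mul_inv_cancel₀ h0] at h1
    have h3 := h1.unique h2
    refine ⟨_, (ha.val e he.2).mul hc, ?_⟩
    rw [eq_inv_of_mul_eq_one_right h3, ← div_eq_mul_inv]
    exact hab e (left_ne_zero_of_mul_eq_one h3)
  have two : ∀ {y y' x x'}, G y x → G y' x' → ∃ γ : Ent K (Fin n), γ ≠ 0 ∧
      ∀ e : B →ₐ[K] K, evE (𝒩.zv e) γ ≠ 0 →
        ∃ c c', 𝓜.Val e x c ∧ HV e y c ∧ 𝓜.Val e x' c' ∧ HV e y' c' := by
    rintro y y' x x' ⟨γ, h1, h2⟩ ⟨γ', k1, k2⟩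
    refine ⟨γ * γ', mul_ne_zero h1 k1, fun e he => ?_⟩
    rw [map_mul, mul_ne_zero_iff] at he
    obtain ⟨c, h3, h4⟩ := h2 e he.1
    obtain ⟨c', k3, k4⟩ := k2 e he.2
    exact ⟨c, c', h3, h4, k3, k4⟩
  have un : ∀ {y x x'}, G y x → G y x' → x = x' := by
    intro y x x' h1 h2
    obtain ⟨γ, h3, h4⟩ := two h1 h2
    refine sub_eq_zero.1 (𝓜.eq_zero_of_val h3 fun e he => ?_)
    obtain ⟨c, c', a1, a2, a3, a4⟩ := h4 e he
    have := a1.sub a3
    rwa [uniq e y c c' a2 a4, sub_self] at this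
  have al : ∀ c : K, G (algebraMap K Y c) (algebraMap K M c) := fun c =>
    ⟨1, one_ne_zero, fun e _ => ⟨c, 𝓜.val_alg e c, alg e c⟩⟩
  choose φ hφ using ex
  have cm : ∀ c : K, φ (algebraMap K Y c) = algebraMap K M c := fun c => un (hφ _) (al c)
  refine ⟨⟨⟨⟨⟨φ, ?_⟩, fun y y' => ?_⟩, ?_, fun y y' => ?_⟩, cm⟩, hφ⟩
  · simpa using cm 1
  · obtain ⟨γ, h3, h4⟩ := two (hφ y) (hφ y')
    refine un (hφ _) ⟨γ, h3, fun e he => ?_⟩
    obtain ⟨c, c', a1, a2, a3, a4⟩ := h4 e he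
    exact ⟨_, a1.mul a3, mul _ _ _ _ _ a2 a4⟩
  · simpa using cm 0
  · obtain ⟨γ, h3, h4⟩ := two (hφ y) (hφ y')
    refine un (hφ _) ⟨γ, h3, fun e he => ?_⟩
    obtain ⟨c, c', a1, a2, a3, a4⟩ := h4 e he
    exact ⟨_, a1.add a3, add _ _ _ _ _ a2 a4⟩

theorem phi_rep {HV : (B →ₐ[K] K) → Y → K → Prop} {φ : Y →ₐ[K] M} (hφ : 𝓜.IsPhi HV φ)
    (uniq : ∀ e y c c', HV e y c → HV e y c' → c = c') {y : Y} {r : ℕ} {s : Fin r → B}
    {a b : Ent K (Fin r)} (h : ∀ e : B →ₐ[K] K, evE (fun i => e (s i)) b ≠ 0 →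
      HV e y (evE (fun i => e (s i)) a / evE (fun i => e (s i)) b)) {xa xb : M}
    (ha : 𝓜.Rep s a xa) (hb : 𝓜.Rep s b xb) (h0 : xb ≠ 0) : φ y * xb = xa := by
  obtain ⟨γ, h1, h2⟩ := hφ y
  refine sub_eq_zero.1 ((mul_eq_zero.1 (𝓜.eq_zero_of_val (x := (φ y * xb - xa) * xb)
    (mul_ne_zero h1 (Val_ne (𝒩 := 𝒩))) fun e he => ?_)).resolve_right h0)
  rw [map_mul, evE_toE, mul_ne_zero_iff] at he
  obtain ⟨c, h3, h4⟩ := h2 e he.1
  have h5 := ((h3.mul (hb.val e he.2)).sub (ha.val e he.2)).mul (hb.val e he.2)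
  by_cases k : evE (fun i => e (s i)) b = 0
  · rwa [k, mul_zero] at h5
  · rwa [uniq e y _ _ h4 (h e k), div_mul_cancel₀ _ k, sub_self, zero_mul] at h5

end MI

end Pool.Agent.Work.MP_e120ef_ag.H
end
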