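import Pool.Agent.Work.MP_e120ef_ag.H.DerL
import Pool.Agent.Work.MP_e120ef_ag.H.Mer
import Pool.Agent.Work.MP_e120ef_ag.H.Val

attribute [-instance] Subalgebra.normedCommRing Subalgebra.seminormedCommRing
  Subalgebra.seminormedRing Subalgebra.normedRing
  Localization.subalgebra.instIsFractionRingSubtypeMemSubalgebra
attribute [local instance 2000] RingHomClass.toAddMonoidHomClass AddMonoidHomClass.toAddHomClass
  RingHom.instRingHomClass AlgHomClass.toRingHomClass IsDomain.to_noZeroDivisors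
  IsDomain.toNontrivial NeZero.one RingHomClass.toMonoidHomClass MonoidHomClass.toMulHomClass
  RingHomClass.toMonoidWithZeroHomClass AddMonoidHomClass.toZeroHomClass MonoidHomClass.toOneHomClass
attribute [-instance] instCharZeroOfIsSemireal AlgHom.instContinuousLinearMapClassOfAlgHomClass
  RingHomClass.toLinearMapClassRat RingHomClass.toLinearMapClassNNRat NumberField.to_charZero

-- merged part: Pool.Agent.Work.MP_e120ef_ag.H.Rat
section
/-!
# Small quotients of entire functions are rational; the maximum principle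

Plans.  `sm_Zf`: `nr w (im Zf) = ‖w‖` (`gn_lin` with `c = 0`), and `im f` has no poles (`nev_ord`); `sm_of`.
`rat_one`: let `b₁` be the top index of `b` at the radius `1` (`exists_isTop`), `C` the constant of `Sm`, and `N > b₁ + C`.  Linear algebra (`2 N + 2` unknowns, `2 N + 1` equations; `coef_mul`, or `coef_lin_mul`, `coef_smul`, `coef_add`) gives polynomials `p, q` of degree `≤ N`, not both zero, such that `γ = q a - p b` has `coef γ m = 0` for `m ≤ 2 N`.
Suppose `γ ≠ 0`, with top index `n₁ ≥ 2 N + 1` at the radius `1`.  Put `x = im a / im b`, `y = im γ / im b = im q * x - im p`.  By `jensen_top` for `γ` and for `b`: `log (nr w y) = const + (n₁ - b₁) log ‖w‖ + ∑ᶠ z, ord z y * wp 1 w z`, where `ord z y ≥ -max (-ord z x) 0`; and `log (nr w y) ≤ const + N log ‖w‖ + posLog (nr w x)`.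
So `(n₁ - b₁ - N) log ‖w‖ ≤ const + T x w ≤ const + C log ‖w‖` for all `‖w‖ ≥ 1`: contradiction.  If `q = 0` then `p b = 0`, so `p = 0` (`aeval Zf` is injective: coefficients).
`max_out`: we may assume `coef a 0 ≠ 0`.  For `‖w‖` large `gn w a = ‖coef a 0‖` and `gn w b = ‖coef b 0‖`.  By `Nev.jensen`, `f (w) = log (nr w x) = f (1) + n s + g (w)`, `s = log ‖w‖`, `g (w) = ∑ᶠ z, ord z x * wp 1 w z` with `ord z x ≥ 0`; termwise `wp 1 w z / s` is nondecreasing in `s` (it is `(s - log ‖z‖)⁺ / s`).  For two large radii `s₁ < s₂`, `Δ = f (∞) - f (1)` satisfies `Δ / s₁ ≤ Δ / s₂`, hence `Δ ≤ 0`.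
-/

open Filter Topology Polynomial

namespace Pool.Agent.Work.MP_e120ef_ag.H

variable {K : Type} [NontriviallyNormedField K] [IsUltrametricDist K] [IsAlgClosed K]
  [CompleteSpace K] [CharZero K]

theorem im_regV {P : Rad} (f : L1 K P) (z : Pt1 K P) : im f ∈ (nev K P).regV z := by
  by_cases hf : f = 0
  · rw [hf, show im (0 : L1 K P) = 0 from map_zero _]
    exact zero_mem _
  · rw [Nev.mem_regV, nev_ord z hf]
    exact Int.natCast_nonneg _

omit [IsAlgClosed K] [CharZero K] in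
theorem Rat_lin {P : Rad} : (lin 0 : L1 K P) = Zf K P := by
  rw [lin, map_zero, sub_zero]

theorem Rat_nr_Zf {P : Rad} (w : Pt1 K P) : (nev K P).nr w (im (Zf K P)) = ‖w.v‖ := by
  rw [nev_nr, ← Rat_lin, gn_lin, norm_zero, max_eq_left (norm_nonneg _)]

theorem sm_Zf : (nev K Rad.out).Sm (im (Zf K Rad.out)) := by
  refine Nev.sm_of ⟨1, fun w hw => ?_⟩ (Set.finite_empty.subset fun z hz => ?_)
  · beta_reduce
    rw [Rat_nr_Zf, Real.posLog_eq_log (by rwa [abs_norm])]
    linarith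
  · exact absurd (Nev.mem_regV _ |>.1 (im_regV (Zf K Rad.out) z)) (not_le.2 hz)

omit [CharZero K] in
theorem Rat_coef_pow {P : Rad} (i : ℕ) (g : L1 K P) (n : ℤ) :
    coef (Zf K P ^ i * g) n = coef g (n - i) := by
  induction i generalizing n with
  | zero => simp
  | succ i ih =>
    rw [pow_succ', mul_assoc, ← Rat_lin, coef_lin_mul, Rat_lin, ih, zero_mul, sub_zero]
    congr 1
    push_cast
    ring

/-- a coefficient as a linear form -/
noncomputable def Rat_cf {P : Rad} (n : ℤ) : L1 K P →ₗ[K] K where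
  toFun f := coef f n
  map_add' f g := coef_add f g n
  map_smul' c f := coef_smul c f n

omit [CharZero K] in
theorem Rat_coef {P : Rad} (q : K[X]) (g : L1 K P) (n : ℤ) :
    coef (aeval (Zf K P) q * g) n = ∑ i ∈ q.support, q.coeff i * coef g (n - i) := by
  rw [aeval_eq_sum_range, Finset.sum_mul]
  have h := map_sum (Rat_cf (K := K) (P := P) n) (fun i => (q.coeff i • Zf K P ^ i) * g)
    (Finset.range (q.natDegree + 1))
  refine h.trans (Eq.symm ?_)
  refine (Finset.sum_subset supp_subset_range_natDegree_succ fun i _ hi => ?_).trans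
    (Finset.sum_congr rfl fun i _ => ?_)
  · rw [notMem_support_iff.1 hi, zero_mul]
  · rw [smul_mul_assoc, map_smul, smul_eq_mul]
    exact congrArg _ (Rat_coef_pow i g n).symm

omit [CharZero K] in
theorem Rat_inj {P : Rad} {p : K[X]} (h : aeval (Zf K P) p = 0) : p = 0 := by
  ext n
  have h1 := Rat_coef p (1 : L1 K P) n
  rw [h, zero_mul, coef_zero, ← map_one (algebraMap K (L1 K P))] at h1
  simp only [coef_algebraMap, sub_eq_zero, Nat.cast_inj, mul_ite, mul_one, mul_zero,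
    Finset.sum_ite_eq] at h1
  by_contra h2
  rw [if_pos (mem_support_iff.2 h2)] at h1
  exact h2 h1.symm

omit [CharZero K] in
theorem Rat_pade {P : Rad} {a b : L1 K P} (ha' : ∀ m < 0, coef a m = 0)
    (hb' : ∀ m < 0, coef b m = 0) (N : ℕ) : ∃ p q : K[X], p.natDegree ≤ N ∧ q.natDegree ≤ N ∧
      (p ≠ 0 ∨ q ≠ 0) ∧ ∀ m : ℤ, m ≤ 2 * N →
        coef (aeval (Zf K P) q * a - aeval (Zf K P) p * b) m = 0 := by
  let ψ : L1 K P → degreeLT K (N + 1) →ₗ[K] L1 K P := fun g =>
    (LinearMap.mulRight K g).comp ((aeval (Zf K P)).toLinearMap.comp (degreeLT K (N + 1)).subtype)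
  let Φ : (degreeLT K (N + 1) × degreeLT K (N + 1)) →ₗ[K] (Fin (2 * N + 1) → K) :=
    LinearMap.pi fun m => (Rat_cf ((m : ℕ) : ℤ)).comp
      ((ψ a).comp (LinearMap.snd _ _ _) - (ψ b).comp (LinearMap.fst _ _ _))
  have hfin : Module.Finite K (degreeLT K (N + 1)) :=
    Module.Finite.equiv (degreeLTEquiv K (N + 1)).symm
  have hr : Module.finrank K (degreeLT K (N + 1)) = N + 1 := by
    rw [(degreeLTEquiv K (N + 1)).finrank_eq, Module.finrank_fin_fun]
  have hker : LinearMap.ker Φ ≠ ⊥ := by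
    refine LinearMap.ker_ne_bot_of_finrank_lt ?_
    rw [Module.finrank_prod, hr, Module.finrank_fin_fun]
    omega
  obtain ⟨⟨p, q⟩, hpq, h0⟩ := Submodule.exists_mem_ne_zero_of_ne_bot hker
  have hd : ∀ r : degreeLT K (N + 1), (r : K[X]).natDegree ≤ N := fun r =>
    natDegree_le_iff_degree_le.2 (Order.le_of_lt_succ (by
      have := mem_degreeLT.1 r.2
      exact_mod_cast this))
  refine ⟨p, q, hd p, hd q, ?_, fun m hm => ?_⟩
  · by_contra h
    rw [not_or, not_not, not_not] at h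
    exact h0 (Prod.ext (Subtype.ext h.1) (Subtype.ext h.2))
  · rcases lt_or_ge m 0 with h | h
    · have h1 := map_sub (Rat_cf (K := K) (P := P) m) (aeval (Zf K P) q.1 * a)
        (aeval (Zf K P) p.1 * b)
      have h2 : ∀ (r : K[X]) (g : L1 K P), (∀ m < 0, coef g m = 0) →
          Rat_cf m (aeval (Zf K P) r * g) = 0 := fun r g hg =>
        (Rat_coef r g m).trans (Finset.sum_eq_zero fun i _ => by
          rw [hg _ (by omega), mul_zero])
      rw [h2 _ _ ha', h2 _ _ hb', sub_zero] at h1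
      exact h1
    · obtain ⟨k, rfl⟩ := Int.eq_ofNat_of_zero_le h
      exact congrFun (LinearMap.mem_ker.1 hpq) ⟨k, by omega⟩

theorem Rat_pl {P : Rad} {q : K[X]} {N : ℕ} (hq : q.natDegree ≤ N) : ∃ A : ℝ, 0 ≤ A ∧
    ∀ w : Pt1 K P, 1 ≤ ‖w.v‖ →
      Real.posLog ((nev K P).nr w (im (aeval (Zf K P) q))) ≤ A + N * Real.log ‖w.v‖ := by
  refine ⟨Real.posLog (∑ i ∈ Finset.range (N + 1), ‖q.coeff i‖), Real.posLog_nonneg,
    fun w hw => ?_⟩
  have h1 : (nev K P).nr w (im (aeval (Zf K P) q)) ≤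
      (∑ i ∈ Finset.range (N + 1), ‖q.coeff i‖) * ‖w.v‖ ^ N := by
    rw [aeval_eq_sum_range' (Nat.lt_succ_of_le hq), im, map_sum, ← Nev.av_apply, Finset.sum_mul]
    refine (AbsoluteValue.sum_le _ _ _).trans (Finset.sum_le_sum fun i hi => ?_)
    rw [Algebra.smul_def, map_mul, map_pow, map_mul, map_pow, Nev.av_apply, Nev.av_apply,
      Rat_nr_Zf, nev_nr, gn_algebraMap]
    exact mul_le_mul_of_nonneg_left
      (pow_le_pow_right₀ hw (Nat.lt_succ_iff.1 (Finset.mem_range.1 hi))) (norm_nonneg _)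
  refine (Real.posLog_le_posLog ((nev K P).nr_nonneg _ _) h1).trans (Real.posLog_mul.trans ?_)
  rw [Real.posLog_pow, Real.posLog_eq_log (x := ‖w.v‖) (by rwa [abs_norm])]

omit [IsUltrametricDist K] [IsAlgClosed K] [CompleteSpace K] [CharZero K] in
theorem Rat_big (B : ℝ) : ∃ w : Pt1 K Rad.out, 1 ≤ ‖w.v‖ ∧ B < ‖w.v‖ := by
  obtain ⟨x, hx⟩ := NormedField.exists_lt_norm K (max 1 B)
  have h1 : 1 < ‖x‖ := (le_max_left _ _).trans_lt hx
  have h0 : x ≠ 0 := norm_pos_iff.1 (one_pos.trans h1)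
  exact ⟨⟨Units.mk0 x h0, h1.le⟩, h1.le, (le_max_right _ _).trans_lt hx⟩

theorem rat_one {a b : L1 K Rad.out} (hb : b ≠ 0) (ha' : ∀ m < 0, coef a m = 0)
    (hb' : ∀ m < 0, coef b m = 0) (h : (nev K Rad.out).Sm (im a / im b)) :
    ∃ p q : K[X], q ≠ 0 ∧ aeval (Zf K Rad.out) q * a = aeval (Zf K Rad.out) p * b := by
  obtain ⟨C, hC⟩ := h
  obtain ⟨b₁, hb₁⟩ := exists_isTop hb (Pt1.one K Rad.out)
  obtain ⟨N, hN⟩ := exists_nat_gt ((b₁ : ℝ) + C)
  obtain ⟨p, q, hp, hq, hpq, hγ⟩ := Rat_pade ha' hb' N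
  suffices h0 : aeval (Zf K Rad.out) q * a - aeval (Zf K Rad.out) p * b = 0 by
    rw [sub_eq_zero] at h0
    refine ⟨p, q, fun hq0 => ?_, h0⟩
    rw [hq0, map_zero, zero_mul] at h0
    exact hpq.elim (fun h => h (Rat_inj ((mul_eq_zero.1 h0.symm).resolve_right hb)))
      fun h => h hq0
  by_contra h0
  obtain ⟨Ap, hAp, hp'⟩ := Rat_pl (P := Rad.out) hp
  obtain ⟨Aq, hAq, hq'⟩ := Rat_pl (P := Rad.out) hq
  generalize aeval (Zf K Rad.out) q = Q at *
  generalize aeval (Zf K Rad.out) p = R at *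
  have hy : im (Q * a - R * b) / im b = im Q * (im a / im b) + -im R := by
    have := im_ne hb
    simp only [im, map_sub, map_mul] at *
    field_simp
    ring
  generalize Q * a - R * b = γ at *
  obtain ⟨n₁, hn₁⟩ := exists_isTop h0 (Pt1.one K Rad.out)
  have hn : 2 * (N : ℤ) < n₁ := by
    by_contra hc
    have h1 := hn₁.1
    rw [hγ _ (not_lt.1 hc), zero_mul, norm_zero] at h1
    exact Jen_gn_ne h0 _ h1.symm
  have hn' : 2 * (N : ℝ) + 1 ≤ n₁ := by exact_mod_cast hn
  have hz : ∀ z, (ord₀ z b : ℝ) ≤ ord₀ z γ +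
      ((max (-(nev K Rad.out).ord z (im a / im b)) 0 : ℤ) : ℝ) := fun z => by
    have H := NevT_av_abs (nev K Rad.out) z
    have h1 : ∀ f : L1 K Rad.out, Real.posLog (NevT_av (nev K Rad.out) z (im f)) = 0 := fun f => by
      have := (Nev.mem_regV _).1 (im_regV f z)
      rw [NevT_pl, max_eq_right (by omega), Int.cast_zero]
    have h2 := H.pl_add (im Q * (im a / im b)) (-im R)
    have h3 := H.pl_mul (im Q) (im a / im b)
    rw [← hy, H.neg, h1, NevT_pl, nev_ord_div z h0 hb] at h2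
    rw [h1, NevT_pl, NevT_pl] at h3
    have h4 : ((-((ord₀ z γ : ℤ) - ord₀ z b) : ℤ) : ℝ) ≤
        ((max (-((ord₀ z γ : ℤ) - ord₀ z b)) 0 : ℤ) : ℝ) := Int.cast_le.2 (le_max_left _ _)
    rw [Int.cast_neg, Int.cast_sub, Int.cast_natCast, Int.cast_natCast] at h4
    rw [NevT_pl] at h2
    linarith
  obtain ⟨w, hw, hB⟩ := Rat_big (K := K) (Real.exp (Ap + Aq + C -
    (Real.log (gn (Pt1.one K Rad.out) γ) - Real.log (gn (Pt1.one K Rad.out) b))))
  have hB' := (Real.lt_log_iff_exp_lt (one_pos.trans_le hw)).2 hB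
  have hs : 0 ≤ Real.log ‖w.v‖ := Real.log_nonneg hw
  have j1 := jensen_top h0 hn₁ w
  have j2 := jensen_top hb hb₁ w
  have e1 : ‖(Pt1.one K Rad.out).v‖ = 1 := norm_one
  rw [e1, div_one] at j1 j2
  have hS : ∑ᶠ z, (ord₀ z b : ℝ) * wp (Pt1.one K Rad.out) w z ≤
      ∑ᶠ z, (ord₀ z γ : ℝ) * wp (Pt1.one K Rad.out) w z +
      ∑ᶠ z, ((max (-(nev K Rad.out).ord z (im a / im b)) 0 : ℤ) : ℝ) *
        wp (Pt1.one K Rad.out) w z := by
    have f1 := Jen_fin b (Pt1.one K Rad.out) w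
    have f2 := Jen_fin γ (Pt1.one K Rad.out) w
    have f3 := NevT_fin' (nev K Rad.out) (im a / im b) w
    rw [← finsum_add_distrib f2 f3]
    refine finsum_le_finsum' f1 (Function.HasFiniteSupport.add f2 f3) fun z => ?_
    rw [← add_mul]
    exact mul_le_mul_of_nonneg_right (hz z) (wt_nonneg _ _ _)
  have H := NevT_nr (nev K Rad.out) w
  have h2 := H.pl_max (im Q * (im a / im b)) (-im R)
  have h3 := H.pl_mul (im Q) (im a / im b)
  rw [← hy, H.neg, nev_nr_div w γ hb] at h2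
  have h4 : Real.log (gn w γ / gn w b) ≤ Real.posLog (gn w γ / gn w b) := le_max_right _ _
  rw [Real.log_div (Jen_gn_ne h0 w) (Jen_gn_ne hb w)] at h4
  have h5 := hp' w hw
  have h6 := hq' w hw
  have h7 := hC w hw
  have h8 : 0 ≤ Real.posLog ((nev K Rad.out).nr w (im a / im b)) := Real.posLog_nonneg
  have h9 : Real.posLog (gn w γ / gn w b) ≤ Ap + Aq + N * Real.log ‖w.v‖ +
      Real.posLog ((nev K Rad.out).nr w (im a / im b)) := h2.trans (max_le (by linarith) (by linarith))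
  rw [Nev.T] at h7
  have h10 : 1 * Real.log ‖w.v‖ ≤ ((n₁ : ℝ) - b₁ - N - C) * Real.log ‖w.v‖ :=
    mul_le_mul_of_nonneg_right (by linarith) hs
  linarith

omit [IsAlgClosed K] [CharZero K] in
theorem Rat_gn {a : L1 K Rad.out} (ha : ∀ m > 0, coef a m = 0) (h0 : coef a 0 ≠ 0)
    {w : Pt1 K Rad.out} (hw : 1 ≤ ‖w.v‖) (hB : gn (Pt1.one K Rad.out) a / ‖coef a 0‖ ≤ ‖w.v‖) :
    gn w a = ‖coef a 0‖ := by
  refine le_antisymm (gn_le _ _ fun n => ?_) (by simpa using le_gn a w 0)
  rcases lt_trichotomy n 0 with h | h | h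
  · have h1 : ‖coef a n‖ ≤ gn (Pt1.one K Rad.out) a := by
      simpa [Pt1.v] using le_gn a (Pt1.one K Rad.out) n
    have h2 : ‖w.v‖ ^ n ≤ ‖w.v‖ ^ (-1 : ℤ) := zpow_le_zpow_right₀ hw (by omega)
    have hw0 : 0 < ‖w.v‖ := one_pos.trans_le hw
    rw [div_le_iff₀ (norm_pos_iff.2 h0)] at hB
    rw [norm_mul, norm_zpow]
    refine (mul_le_mul h1 h2 (zpow_nonneg hw0.le _) (gn_nonneg _ _)).trans ?_
    rw [zpow_neg_one, ← div_eq_mul_inv, div_le_iff₀ hw0, mul_comm]
    exact hB
  · simp [h]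
  · simp [ha n h]

omit [IsUltrametricDist K] [IsAlgClosed K] [CompleteSpace K] [CharZero K] in
theorem Rat_wp {w w' : Pt1 K Rad.out} (hw : 1 ≤ ‖w.v‖) (h : ‖w'.v‖ = ‖w.v‖ * ‖w.v‖)
    (z : Pt1 K Rad.out) : 2 * wp (Pt1.one K Rad.out) w z ≤ wp (Pt1.one K Rad.out) w' z := by
  have hw0 : 0 < ‖w.v‖ := one_pos.trans_le hw
  have hz : 0 < ‖z.v‖ := Zero_vpos z
  have e1 : ‖((Pt1.one K Rad.out).1 : K)‖ = 1 := norm_one
  simp only [wp, wt, e1]
  split_ifs with h1
  · show 2 * max 0 (Real.log (‖w.v‖ / ‖z.v‖)) ≤ max 0 (Real.log (‖w'.v‖ / ‖z.v‖))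
    have h2 : 0 < Real.log ‖z.v‖ := Real.log_pos h1
    rw [h, Real.log_div hw0.ne' hz.ne', Real.log_div (mul_pos hw0 hw0).ne' hz.ne',
      Real.log_mul hw0.ne' hw0.ne', mul_max_of_nonneg _ _ zero_le_two]
    exact max_le_max (by rw [mul_zero]) (by linarith)
  · have : Real.posLog (‖z.v‖ / ‖w.v‖) = 0 := by
      rw [Real.posLog_eq_zero_iff, abs_of_pos (div_pos hz hw0), div_le_one hw0]
      exact (not_lt.1 h1).trans hw
    rw [this, mul_zero]
    exact Real.posLog_nonneg

theorem max_out {a b : L1 K Rad.out} (ha : ∀ m > 0, coef a m = 0) (hb : ∀ m > 0, coef b m = 0)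
    (h0 : coef b 0 ≠ 0) (h : ∀ z, im a / im b ∈ (nev K Rad.out).regV z) :
    ‖coef a 0 / coef b 0‖ ≤ gn (Pt1.one K Rad.out) a / gn (Pt1.one K Rad.out) b := by
  by_cases ha0 : coef a 0 = 0
  · rw [ha0, zero_div, norm_zero]
    exact div_nonneg (gn_nonneg _ _) (gn_nonneg _ _)
  have hane : a ≠ 0 := fun e => ha0 (by rw [e, coef_zero])
  have hbne : b ≠ 0 := fun e => h0 (by rw [e, coef_zero])
  have hx : im a / im b ≠ 0 := div_ne_zero (im_ne hane) (im_ne hbne)
  obtain ⟨n, hn⟩ := (nev K Rad.out).jensen _ hx (Pt1.one K Rad.out)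
  obtain ⟨w, hw, hB⟩ := Rat_big (K := K) (max (gn (Pt1.one K Rad.out) a / ‖coef a 0‖)
    (gn (Pt1.one K Rad.out) b / ‖coef b 0‖))
  have hw0 : 0 < ‖w.v‖ := one_pos.trans_le hw
  have hww : ‖w.v‖ ≤ ‖w.v‖ * ‖w.v‖ := le_mul_of_one_le_right hw0.le hw
  obtain ⟨w', hw'⟩ : ∃ w' : Pt1 K Rad.out, ‖w'.v‖ = ‖w.v‖ * ‖w.v‖ :=
    ⟨⟨w.1 * w.1, by
      show 1 ≤ ‖((w.1 * w.1 : Kˣ) : K)‖
      rw [Units.val_mul, norm_mul]
      exact hw.trans hww⟩, norm_mul _ _⟩
  have hB1 := (le_max_left _ _).trans hB.le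
  have hB2 := (le_max_right _ _).trans hB.le
  have j1 := hn w
  have j2 := hn w'
  have e1 : ‖(Pt1.one K Rad.out).v‖ = 1 := norm_one
  rw [e1, div_one, nev_nr_div _ _ hbne, nev_nr_div _ _ hbne] at j1 j2
  rw [Rat_gn ha ha0 hw hB1, Rat_gn hb h0 hw hB2] at j1
  rw [Rat_gn ha ha0 (hw' ▸ hw.trans hww) (hw' ▸ hB1.trans hww),
    Rat_gn hb h0 (hw' ▸ hw.trans hww) (hw' ▸ hB2.trans hww), hw',
    Real.log_mul hw0.ne' hw0.ne'] at j2
  have hS : 2 * ∑ᶠ z, ((nev K Rad.out).ord z (im a / im b) : ℝ) * wp (Pt1.one K Rad.out) w z ≤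
      ∑ᶠ z, ((nev K Rad.out).ord z (im a / im b) : ℝ) * wp (Pt1.one K Rad.out) w' z := by
    have f1 := NevA_supp (nev K Rad.out) (im a / im b) (Pt1.one K Rad.out) w
    have f2 := NevA_supp (nev K Rad.out) (im a / im b) (Pt1.one K Rad.out) w'
    rw [two_mul, ← finsum_add_distrib f1 f1]
    refine finsum_le_finsum' (Function.HasFiniteSupport.add f1 f1) f2 fun z => ?_
    rw [← mul_add, ← two_mul]
    exact mul_le_mul_of_nonneg_left (Rat_wp hw hw' z)
      (Int.cast_nonneg ((Nev.mem_regV _).1 (h z)))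
  rw [norm_div]
  refine (Real.log_le_log_iff (div_pos (norm_pos_iff.2 ha0) (norm_pos_iff.2 h0))
    (div_pos (Zero_pos hane _) (Zero_pos hbne _))).1 ?_
  linarith

end Pool.Agent.Work.MP_e120ef_ag.H
end

-- merged part: Pool.Agent.Work.MP_e120ef_ag.H.RatG
section
/-!
# Quotients of entire functions which are small on a generic line are rational

Plans.  `rat_gen`: `rat_one` (the coefficients `lc` vanish at negative indices) gives `p, q` over `L`.  Comparing coefficients, `∑ i, q i * A (m - i) = ∑ i, p i * B (m - i)` for all `m`, where `A m`, `B m` are the images of polynomials `A₀ m, B₀ m` (`hc d a` if `m = e d`, else `0`) under the injective map `aeval ζ`.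
View `L` as a vector space over the fraction field `k` of `MvPolynomial (Fin n) K` (`IsFractionRing.lift`), and apply a `k`-linear form which is nonzero on some `q i` (`Module.exists_dual_forall_apply_eq_zero`, `LinearMap.exists_extend`, or a basis coordinate); clear denominators (`IsLocalization.exist_integer_multiples_of_finset`).  So there are polynomials `q₀ i, p₀ i`, some `q₀ i ≠ 0`, with the same identities.
Evaluate at `z : Fin n → K`: `(∑ q₀ i (z) Zf ^ i) * lineE z a = (∑ p₀ i (z) Zf ^ i) * lineE z b` in `L1 K Rad.out` (`DerL_ext`).  Choose `t : Pt1 K Rad.out` with `Q₁ = ∑ i, t ^ i • q₀ i ≠ 0` (a nonzero polynomial has finitely many roots), so `Q₁ (z) a (t ^ e z) = P₁ (z) b (t ^ e z)` for all `z`; substitute `z ↦ t⁻¹ ^ e z` (`MvPolynomial.aeval`/`bind₁`) and use `ent_ext`.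
`RatG_sm`: `lineE_toE`, `sm_Zf`, `sm_alg`, `sm_iff` (a subfield).
`irr_E`: let `k` be the fraction field of the polynomial ring, `𝔈 = Fr (Ent K (Fin n))`, `ι : 𝔈 → MM L Rad.out` the lift of `im ∘ lineE ζ` (`line_inj`).  Every element of `𝔈` algebraic over `k` is small along the line (`ctl_root`), hence in the image of `k` by `rat_gen`.  A monic factor of `m` over `𝔈` has coefficients integral over `k`
(`integralClosure.mem_lifts_of_monic_of_dvd_map`, `Polynomial.isIntegral_coeff_of_dvd`), so it comes from `k`; conclude with `𝒩.irr` (`Polynomial.Monic.irreducible_iff_natDegree`, `IsIntegrallyClosedIn`, `Monic.irreducible_iff_irreducible_map..`).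
-/

open Polynomial

namespace Pool.Agent.Work.MP_e120ef_ag.H

/-- linear relations descend along an injective map to a field -/
theorem RatG_desc {R L ι : Type} [CommRing R] [IsDomain R] [Field L] [Fintype ι] (φ : R →+* L)
    (hφ : Function.Injective φ) (x : ι → L) {i₀ : ι} (hx : x i₀ ≠ 0) :
    ∃ y : ι → R, y i₀ ≠ 0 ∧ ∀ A : ι → R, ∑ i, x i * φ (A i) = 0 → ∑ i, y i * A i = 0 := by
  let ψ : FractionRing R →+* L := IsFractionRing.lift hφ
  let _ : Algebra (FractionRing R) L := ψ.toAlgebra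
  obtain ⟨f, hf⟩ := Module.Projective.exists_dual_ne_zero (FractionRing R) hx
  obtain ⟨b, hb⟩ := IsLocalization.exist_integer_multiples_of_finite (nonZeroDivisors R)
    fun i => f (x i)
  choose y hy using hb
  refine ⟨y, fun h => ?_, fun A hA => IsFractionRing.injective R (FractionRing R) ?_⟩
  · have h1 := hy i₀
    rw [h, map_zero, Algebra.smul_def, eq_comm, mul_eq_zero] at h1
    exact h1.elim (IsFractionRing.to_map_ne_zero_of_mem_nonZeroDivisors b.2) hf
  · have h1 : ∀ i, x i * φ (A i) = algebraMap R (FractionRing R) (A i) • x i := fun i => by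
      rw [Algebra.smul_def, mul_comm]
      exact congrArg (· * x i) (IsFractionRing.lift_algebraMap hφ (A i)).symm
    have h2 := congrArg f hA
    simp only [h1, map_sum, map_smul, map_zero, smul_eq_mul] at h2
    simp only [map_sum, map_mul, hy, map_zero, Algebra.smul_def, mul_assoc]
    rw [← Finset.mul_sum, Finset.sum_congr rfl fun i _ => mul_comm (f (x i)) _, h2, mul_zero]

/-- irreducibility is kept if integral elements are fractions -/
theorem RatG_irr {R F : Type} [CommRing R] [IsDomain R] [Field F] (φ : R →+* F)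
    (hφ : Function.Injective φ)
    (h : ∀ (x : F) (Q : R[X]), Q.Monic → Q.eval₂ φ x = 0 → ∃ p q : R, q ≠ 0 ∧ φ q * x = φ p)
    {m : R[X]} (hm : m.Monic) (hi : Irreducible (m.map (algebraMap R (FractionRing R)))) :
    Irreducible (m.map φ) := by
  let ψ : FractionRing R →+* F := IsFractionRing.lift hφ
  have hψ : ∀ r, ψ (algebraMap R _ r) = φ r := IsFractionRing.lift_algebraMap hφ
  have e : m.map φ = (m.map (algebraMap R (FractionRing R))).map ψ := by
    rw [Polynomial.map_map]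
    exact congrArg m.map (RingHom.ext fun r => (hψ r).symm)
  let _ : Algebra R F := φ.toAlgebra
  have key : ∀ g : F[X], g.Monic → g ∣ m.map φ →
      ∃ g' : (FractionRing R)[X], g'.map ψ = g ∧ g'.natDegree = g.natDegree ∧ g'.Monic := by
    intro g hg hd
    refine lifts_and_natDegree_eq_and_monic ((lifts_iff_coeff_lifts _).2 fun i => ?_) hg
    obtain ⟨Q, hQ, h0⟩ := isIntegral_coeff_of_dvd m g hm hg hd i
    obtain ⟨p, q, hq, h1⟩ := h _ Q hQ h0
    refine ⟨algebraMap R _ p / algebraMap R _ q, ?_⟩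
    rw [map_div₀, hψ, hψ, ← h1, mul_div_cancel_left₀ _ ((map_ne_zero_iff φ hφ).2 hq)]
  obtain ⟨h1, h2⟩ := (hm.map _).irreducible_iff_natDegree.1 hi
  refine (hm.map φ).irreducible_iff_natDegree.2 ⟨fun h3 => h1 ?_, fun f g hf hg h3 => ?_⟩
  · refine Polynomial.map_injective ψ ψ.injective ?_
    rw [← e, h3, Polynomial.map_one]
  · obtain ⟨f', f1, f2, f3⟩ := key f hf ⟨g, h3.symm⟩
    obtain ⟨g', g1, g2, g3⟩ := key g hg ⟨f, h3.symm.trans (mul_comm _ _)⟩
    rw [← f2, ← g2]
    refine h2 f' g' f3 g3 (Polynomial.map_injective ψ ψ.injective ?_)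
    rw [Polynomial.map_mul, f1, g1, h3, e]

section coef

variable {K : Type} [NontriviallyNormedField K] [IsUltrametricDist K] [CompleteSpace K]
  [IsAlgClosed K] {P : Rad}

theorem RatG_pow (i : ℕ) (f : L1 K P) (m : ℤ) : coef (Zf K P ^ i * f) m = coef f (m - i) := by
  induction i generalizing m with
  | zero => simp
  | succ i ih =>
    have h := coef_lin_mul (0 : K) (Zf K P ^ i * f) m
    rw [lin, map_zero, sub_zero, zero_mul, sub_zero, ih] at h
    rw [pow_succ', mul_assoc, h]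
    congr 1
    push_cast
    ring

theorem RatG_coef (N : ℕ) (c : Fin N → K) (f : L1 K P) (m : ℤ) :
    coef ((∑ i, c i • Zf K P ^ (i : ℕ)) * f) m = ∑ i, c i * coef f (m - (i : ℕ)) := by
  let φ : L1 K P →+ K := ⟨⟨fun g => coef g m, coef_zero m⟩, fun g h => coef_add g h m⟩
  rw [Finset.sum_mul]
  refine (map_sum φ _ _).trans (Finset.sum_congr rfl fun i _ => ?_)
  change coef _ m = _
  rw [smul_mul_assoc, coef_smul, RatG_pow]

omit [IsAlgClosed K] in
theorem RatG_val (N : ℕ) (c : Fin N → K) (t : Pt1 K P) :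
    (∑ i, c i • Zf K P ^ (i : ℕ)).1 t = ∑ i, c i * t.v ^ (i : ℕ) := by
  let φ : L1 K P →ₐ[K] K := (Pi.evalAlgHom K (fun _ => K) t).comp (L1 K P).val
  refine (map_sum φ _ _).trans (Finset.sum_congr rfl fun i _ => ?_)
  rw [map_smul, map_pow]
  rfl

end coef

open Classical in
/-- the polynomial behind the coefficients along a line -/
noncomputable def RatG_A {K σ : Type} [CommRing K] [Fintype σ] (F : MvPowerSeries σ K)
    (k m : ℤ) : MvPolynomial σ K := if h : ∃ d : ℕ, m = k * d then hc h.choose F else 0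

theorem RatG_lc {K L σ : Type} [NontriviallyNormedField K] [NontriviallyNormedField L]
    [NormedAlgebra K L] [Fintype σ] (F : MvPowerSeries σ K) (ζ : σ → L) (k m : ℤ) :
    lc F ζ k m = MvPolynomial.aeval ζ (RatG_A F k m) := by
  unfold lc RatG_A
  split_ifs
  · rfl
  · rw [map_zero]

variable {K L : Type} [NontriviallyNormedField K] [IsUltrametricDist K] [CompleteSpace K]
  [IsAlgClosed K] [CharZero K] [NontriviallyNormedField L] [IsUltrametricDist L] [CompleteSpace L]
  [IsAlgClosed L] [CharZero L] [NormedAlgebra K L] {n : ℕ} {ζ : Fin n → L}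

theorem RatG_sm (ζ : Fin n → L) {e : ℕ} (he : 0 < e) (γ : MvPolynomial (Fin n) K) :
    (nev L Rad.out).Sm (im (lineE Rad.out ζ he (toE γ))) := by
  rw [lineE_toE, Nev.sm_iff]
  have hc : ∀ x : L, im (algebraMap L (L1 L Rad.out) x) ∈
      (nev L Rad.out).ctl (fun _ => 0) fun _ => le_rfl := fun x => Nev.sm_iff.1 (Nev.sm_alg x)
  induction γ using MvPolynomial.induction_on with
  | C c =>
    rw [MvPolynomial.aeval_C, IsScalarTower.algebraMap_apply K L (L1 L Rad.out)]
    exact hc _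
  | add p q hp hq =>
    rw [map_add, im, map_add]
    exact add_mem hp hq
  | mul_X p i hp =>
    rw [map_mul, MvPolynomial.aeval_X, im, map_mul, map_mul, map_pow]
    exact mul_mem hp (mul_mem (hc _) (pow_mem (Nev.sm_iff.1 (sm_Zf (K := L))) _))

theorem rat_gen (hζ : AlgebraicIndependent K ζ) {e : ℕ} (he : 0 < e) {a b : Ent K (Fin n)}
    (hb : b ≠ 0)
    (h : (nev L Rad.out).Sm (im (lineE Rad.out ζ he a) / im (lineE Rad.out ζ he b))) :
    ∃ p q : MvPolynomial (Fin n) K, q ≠ 0 ∧ toE q * a = toE p * b := by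
  have hneg : ∀ (F : Ent K (Fin n)), ∀ m < 0, coef (lineE Rad.out ζ he F) m = 0 := fun F m hm => by
    rw [lineE, coef_line]
    refine lc_of_not _ _ fun d hd => ?_
    have : (0 : ℤ) ≤ e * d := by positivity
    omega
  obtain ⟨p, q, hq, hpq⟩ := rat_one ((map_ne_zero_iff _ (line_inj hζ)).2 hb) (hneg a) (hneg b) h
  obtain ⟨N, hN1, hN2⟩ : ∃ N, p.natDegree < N ∧ q.natDegree < N :=
    ⟨p.natDegree + q.natDegree + 1, by omega, by omega⟩
  rw [aeval_eq_sum_range' hN1, aeval_eq_sum_range' hN2, Finset.sum_range, Finset.sum_range] at hpq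
  obtain ⟨y, hy, hy'⟩ := RatG_desc (MvPolynomial.aeval ζ : MvPolynomial (Fin n) K →ₐ[K] L).toRingHom
    hζ (Sum.elim (fun i : Fin N => q.coeff i) fun i : Fin N => p.coeff i)
    (i₀ := Sum.inl ⟨_, hN2⟩) (mt leadingCoeff_eq_zero.1 hq)
  have h1 : ∀ m : ℤ, ∑ i : Fin N, y (Sum.inl i) * RatG_A a.1 e (m - (i : ℕ)) =
      ∑ i : Fin N, y (Sum.inr i) * RatG_A b.1 e (m - (i : ℕ)) := fun m => by
    have k1 := congrArg (fun f => coef f m) hpq
    simp only [RatG_coef, lineE, coef_line, RatG_lc] at k1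
    have k2 := hy' (Sum.elim (fun i : Fin N => RatG_A a.1 e (m - (i : ℕ)))
      fun i : Fin N => -RatG_A b.1 e (m - (i : ℕ))) (by
        simp only [Fintype.sum_sum_type, Sum.elim_inl, Sum.elim_inr, map_neg, mul_neg,
          Finset.sum_neg_distrib]
        exact add_neg_eq_zero.2 k1)
    simpa only [Fintype.sum_sum_type, Sum.elim_inl, Sum.elim_inr, mul_neg,
      Finset.sum_neg_distrib, add_neg_eq_zero] using k2
  have h2 : ∀ (z : Fin n → K) (t : Pt1 K Rad.out),
      (∑ i : Fin N, MvPolynomial.aeval z (y (Sum.inl i)) * t.v ^ (i : ℕ)) *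
          evE (fun s => z s * t.v ^ (e : ℤ)) a =
        (∑ i : Fin N, MvPolynomial.aeval z (y (Sum.inr i)) * t.v ^ (i : ℕ)) *
          evE (fun s => z s * t.v ^ (e : ℤ)) b := fun z t => by
    have k1 : (∑ i : Fin N, MvPolynomial.aeval z (y (Sum.inl i)) • Zf K Rad.out ^ (i : ℕ)) *
        lineE Rad.out z he a =
        (∑ i : Fin N, MvPolynomial.aeval z (y (Sum.inr i)) • Zf K Rad.out ^ (i : ℕ)) *
          lineE Rad.out z he b := DerL_ext fun m => by
      have k2 := congrArg (MvPolynomial.aeval z) (h1 m)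
      simpa only [RatG_coef, lineE, coef_line, RatG_lc, map_sum, map_mul] using k2
    rw [← RatG_val, ← RatG_val]
    exact congrFun (congrArg Subtype.val k1) t
  obtain ⟨z₀, hz₀⟩ : ∃ z₀ : Fin n → K, MvPolynomial.aeval z₀ (y (Sum.inl ⟨_, hN2⟩)) ≠ 0 := by
    by_contra k
    push Not at k
    exact hy (MvPolynomial.funext fun z => (k z).trans (map_zero _).symm)
  obtain ⟨t, ht⟩ := DerL_pt (q := ∑ i : Fin N,
      MvPolynomial.aeval z₀ (y (Sum.inl i)) • Zf K Rad.out ^ (i : ℕ)) fun k => by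
    have k1 := RatG_coef (P := Rad.out) N (fun i => MvPolynomial.aeval z₀ (y (Sum.inl i))) 1
      q.natDegree
    rw [k, zero_mul, coef_zero, ← map_one (algebraMap K (L1 K Rad.out)),
      Finset.sum_eq_single ⟨_, hN2⟩ (fun i _ hi => by
        rw [coef_algebraMap, if_neg, mul_zero]
        exact fun k2 => hi (Fin.ext (by simp only; omega))) (by simp), coef_algebraMap,
      if_pos (sub_self _), mul_one] at k1
    exact hz₀ k1.symm
  rw [RatG_val] at ht
  have ht0 : t.v ^ (e : ℤ) ≠ 0 := zpow_ne_zero _ t.1.ne_zero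
  let S : (Fin N → MvPolynomial (Fin n) K) → MvPolynomial (Fin n) K := fun u =>
    ∑ i, MvPolynomial.aeval (fun s => MvPolynomial.X s * MvPolynomial.C (t.v ^ (e : ℤ))⁻¹) (u i) *
      MvPolynomial.C (t.v ^ (i : ℕ))
  have hS : ∀ u (w : Fin n → K), MvPolynomial.aeval w (S u) =
      ∑ i, MvPolynomial.aeval (fun s => w s * (t.v ^ (e : ℤ))⁻¹) (u i) * t.v ^ (i : ℕ) := by
    intro u w
    simp only [S, map_sum, map_mul, MvPolynomial.aeval_C, Algebra.algebraMap_self, RingHom.id_apply]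
    refine Finset.sum_congr rfl fun i _ => ?_
    rw [← AlgHom.comp_apply, MvPolynomial.comp_aeval]
    simp only [map_mul, MvPolynomial.aeval_X, MvPolynomial.aeval_C, Algebra.algebraMap_self,
      RingHom.id_apply]
  refine ⟨S fun i => y (Sum.inr i), S fun i => y (Sum.inl i), fun k => ?_,
    sub_eq_zero.1 (ent_ext fun w => ?_)⟩
  · have k1 := hS (fun i => y (Sum.inl i)) fun s => z₀ s * t.v ^ (e : ℤ)
    rw [k, map_zero] at k1
    simp only [mul_inv_cancel_right₀ ht0] at k1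
    exact ht k1.symm
  · have k1 := h2 (fun s => w s * (t.v ^ (e : ℤ))⁻¹) t
    simp only [inv_mul_cancel_right₀ ht0] at k1
    rw [map_sub, map_mul, map_mul, evE_toE, evE_toE, hS, hS, sub_eq_zero]
    exact k1

theorem irr_E (hζ : AlgebraicIndependent K ζ) {F : Type} [Field F] [Algebra K F]
    {B : Subalgebra K F} (𝒩 : ND B n) :
    Irreducible (𝒩.mE.map (algebraMap (Ent K (Fin n)) (Fr (Ent K (Fin n))))) := by
  rw [ND.mE, Polynomial.map_map]
  refine RatG_irr _ (fun u v huv =>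
    toE_inj (IsFractionRing.injective (Ent K (Fin n)) (Fr (Ent K (Fin n))) huv))
    (fun x Q hQ h0 => ?_) 𝒩.monic 𝒩.irr
  have hl : Function.Injective
      (lineE Rad.out ζ one_pos : Ent K (Fin n) →ₐ[K] L1 L Rad.out) := by
    unfold lineE
    exact line_inj hζ
  have hj : Function.Injective ((algebraMap (L1 L Rad.out) (MM L Rad.out)).comp
      (lineE Rad.out ζ one_pos : Ent K (Fin n) →ₐ[K] L1 L Rad.out).toRingHom) :=
    fun u v huv => hl (IsFractionRing.injective (L1 L Rad.out) (MM L Rad.out) huv)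
  let ι : Fr (Ent K (Fin n)) →+* MM L Rad.out := IsFractionRing.lift hj
  have hι : ∀ a, ι (algebraMap (Ent K (Fin n)) _ a) = im (lineE Rad.out ζ one_pos a) :=
    IsFractionRing.lift_algebraMap hj
  obtain ⟨a, b, hb, rfl⟩ := IsFractionRing.div_surjective (A := Ent K (Fin n)) x
  have hb' : b ≠ 0 := nonZeroDivisors.ne_zero hb
  have h1 := congrArg ι h0
  rw [hom_eval₂, map_zero, eval₂_eq_eval_map, map_div₀, hι, hι] at h1
  obtain ⟨p, q, hq, e⟩ := rat_gen hζ one_pos hb' (Nev.sm_iff.2 (Nev.ctl_root (by exact (hQ.map _).ne_zero)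
    (fun i => by
      rw [coeff_map]
      exact (hι (toE (Q.coeff i))).symm ▸ Nev.sm_iff.1 (RatG_sm ζ one_pos (Q.coeff i))) h1))
  refine ⟨p, q, hq, ?_⟩
  change algebraMap (Ent K (Fin n)) _ (toE q) * _ = algebraMap (Ent K (Fin n)) _ (toE p)
  rw [← mul_div_assoc, ← map_mul, e, map_mul, mul_div_cancel_right₀ _
    ((map_ne_zero_iff _ (IsFractionRing.injective (Ent K (Fin n)) _)).2 hb')]

end Pool.Agent.Work.MP_e120ef_ag.H
end
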