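import Mathlib
import Pool.Agent.Work.MP_e120ef_ag.H.Line

attribute [-instance] Subalgebra.normedCommRing Subalgebra.seminormedCommRing
  Subalgebra.seminormedRing Subalgebra.normedRing
  Localization.subalgebra.instIsFractionRingSubtypeMemSubalgebra
attribute [local instance 2000] RingHomClass.toAddMonoidHomClass AddMonoidHomClass.toAddHomClass
  RingHom.instRingHomClass AlgHomClass.toRingHomClass IsDomain.to_noZeroDivisors
  IsDomain.toNontrivial NeZero.one RingHomClass.toMonoidHomClass MonoidHomClass.toMulHomClass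
  RingHomClass.toMonoidWithZeroHomClass AddMonoidHomClass.toZeroHomClass MonoidHomClass.toOneHomClass
attribute [-instance] instCharZeroOfIsSemireal AlgHom.instContinuousLinearMapClassOfAlgHomClass
  RingHomClass.toLinearMapClassRat RingHomClass.toLinearMapClassNNRat NumberField.to_charZero

-- merged part: Pool.Agent.Work.MP_e120ef_ag.H.Pu1
section
/-!
# The theorem of Newton and Puiseux

Plans.  `puiseux_root`: strong induction on the degree `n`, for all monic `μ`.  Shift `Y ↦ Y - a / n` (`Polynomial.comp`, `taylor`) to kill the coefficient of `Y ^ (n - 1)`.  If `μ = Y ^ n` take the root `0`.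
Otherwise let `e = n !` and `p = min (order (μ.coeff (n - i)) * e / i)` over the `i ≥ 1` with a nonzero coefficient; then `expand e (μ.coeff (n - i)) = X ^ (p i) * b i` (`X_pow_dvd_iff`, `order_expand`) and `ν = Y ^ n + ∑ b i Y ^ (n - i)` is monic, with `(μ.map (expand e)).eval (X ^ p * y) = X ^ (p n) * ν.eval y` (`Polynomial.scaleRoots`).
The reduction of `ν` modulo `X` is not `Y ^ n` and has no term `Y ^ (n - 1)`, so it has a root `c` of multiplicity `k`, `0 < k < n`.  Shift by `c` and apply `Pu1_factor`; apply the induction hypothesis to the factor (`expand_mul`).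
`Pu1_factor`: `PowerSeries.exists_isWeierstrassFactorization` over the complete local ring `F⟦X⟧` gives `ν = f * h` with `f` distinguished of degree `k`; divide the polynomial `ν` by the monic `f` (`modByMonic`) and use the uniqueness of Weierstrass division
(`IsWeierstrassDivisorAt.eq_of_mul_add_eq_mul_add`, `IsDistinguishedAt.isWeierstrassDivisorAt`) to see that the remainder is zero.
`puiseux_split`: induction on the degree, dividing by `Y - C η` (`mul_divByMonic_eq_iff_isRoot`), `Fin.cons`.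
-/

open Polynomial

namespace Pool.Agent.Work.MP_e120ef_ag.H

variable {F : Type} [Field F]

theorem Pu1_factor (ν : (PowerSeries F)[X]) (hν : ν.Monic) {k : ℕ}
    (hk : (ν.map (PowerSeries.constantCoeff (R := F))).rootMultiplicity 0 = k) :
    ∃ f : (PowerSeries F)[X], f.Monic ∧ f.natDegree = k ∧ f ∣ ν := by
  have hc : IsAdicComplete (IsLocalRing.maximalIdeal (PowerSeries F)) (PowerSeries F) := by
    rw [PowerSeries.maximalIdeal_eq_span_X]
    infer_instance
  have hres : ∀ a : PowerSeries F,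
      IsLocalRing.residue (PowerSeries F) a = 0 ↔ PowerSeries.constantCoeff a = 0 := by
    intro a
    rw [IsLocalRing.residue_eq_zero_iff, IsLocalRing.mem_maximalIdeal, mem_nonunits_iff,
      PowerSeries.isUnit_iff_constantCoeff, isUnit_iff_ne_zero, not_not]
  have hb : ν.map (PowerSeries.constantCoeff (R := F)) ≠ 0 := (hν.map _).ne_zero
  rw [rootMultiplicity_eq_natTrailingDegree'] at hk
  have hord : ((ν : PowerSeries (PowerSeries F)).map
      (IsLocalRing.residue (PowerSeries F))).order = k := by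
    rw [PowerSeries.order_eq_nat]
    constructor
    · rw [PowerSeries.coeff_map, Polynomial.coeff_coe, Ne, hres, ← coeff_map, ← hk]
      exact coeff_natTrailingDegree_ne_zero.2 hb
    · intro i hi
      rw [PowerSeries.coeff_map, Polynomial.coeff_coe, hres, ← coeff_map]
      exact coeff_eq_zero_of_lt_natTrailingDegree (by rwa [hk])
  have hg : (ν : PowerSeries (PowerSeries F)).map (IsLocalRing.residue (PowerSeries F)) ≠ 0 := by
    intro h
    rw [h, PowerSeries.order_zero] at hord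
    exact ENat.top_ne_natCast _ hord
  obtain ⟨f, h, H⟩ := PowerSeries.exists_isWeierstrassFactorization hg
  have hf := H.isDistinguishedAt.monic
  have hI : IsLocalRing.maximalIdeal (PowerSeries F) ≠ ⊤ := Ideal.IsMaximal.ne_top inferInstance
  refine ⟨f, hf, ?_, ?_⟩
  · rw [H.natDegree_eq_toNat_order_map, hord]
    rfl
  · have h1 : (f.natDegree : ℕ∞) = _ := H.isDistinguishedAt.coe_natDegree_eq_order_map
      (f : PowerSeries (PowerSeries F)) 1
      (by rwa [PowerSeries.constantCoeff_one, ← Ideal.ne_top_iff_one]) (by simp)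
    have h2 : (ν %ₘ f).degree < (((f : PowerSeries (PowerSeries F)).map
        (Ideal.Quotient.mk (IsLocalRing.maximalIdeal (PowerSeries F)))).order.toNat : ℕ) := by
      rw [← h1, ENat.toNat_natCast, ← degree_eq_natDegree hf.ne_zero]
      exact degree_modByMonic_lt ν hf
    have h3 := (H.isDistinguishedAt.isWeierstrassDivisorAt hI).eq_of_mul_add_eq_mul_add
      (q := ((ν /ₘ f : (PowerSeries F)[X]) : PowerSeries (PowerSeries F))) (q' := h)
      (r := ν %ₘ f) (r' := 0) h2 (by rw [degree_zero]; exact WithBot.bot_lt_coe _) (by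
        rw [Polynomial.coe_zero, add_zero, ← H.eq_mul, ← Polynomial.coe_mul, ← Polynomial.coe_add,
          add_comm, modByMonic_add_div])
    exact (modByMonic_eq_zero_iff_dvd hf).1 h3.2

/-- a root after a ramified substitution -/
def Pu1_Has (μ : (PowerSeries F)[X]) : Prop :=
  ∃ (e : ℕ) (he : e ≠ 0) (η : PowerSeries F),
    (μ.map (PowerSeries.expand (R := F) e he : PowerSeries F →+* PowerSeries F)).IsRoot η

theorem Pu1_shift {μ : (PowerSeries F)[X]} (c : PowerSeries F) (h : Pu1_Has (taylor c μ)) :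
    Pu1_Has μ := by
  obtain ⟨e, he, η, h⟩ := h
  rw [map_taylor, IsRoot.def, taylor_eval] at h
  exact ⟨e, he, _, h⟩

theorem Pu1_dvd {f μ : (PowerSeries F)[X]} (hd : f ∣ μ) (h : Pu1_Has f) : Pu1_Has μ := by
  obtain ⟨e, he, η, h⟩ := h
  exact ⟨e, he, η, h.dvd (Polynomial.map_dvd _ hd)⟩

theorem Pu1_map_mul (μ : (PowerSeries F)[X]) {p q : ℕ} (hp : p ≠ 0) (hq : q ≠ 0) :
    μ.map (PowerSeries.expand (R := F) (p * q) (p.mul_ne_zero hp hq) :
        PowerSeries F →+* PowerSeries F)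
      = (μ.map (PowerSeries.expand (R := F) q hq : PowerSeries F →+* PowerSeries F)).map
        (PowerSeries.expand (R := F) p hp : PowerSeries F →+* PowerSeries F) := by
  ext1 i
  simp only [coeff_map, RingHom.coe_coe]
  exact PowerSeries.expand_mul p hp q hq _

theorem Pu1_expand {μ : (PowerSeries F)[X]} {q : ℕ} (hq : q ≠ 0)
    (h : Pu1_Has (μ.map (PowerSeries.expand (R := F) q hq : PowerSeries F →+* PowerSeries F))) :
    Pu1_Has μ := by
  obtain ⟨e, he, η, h⟩ := h
  exact ⟨e * q, e.mul_ne_zero he hq, η, by rwa [Pu1_map_mul μ he hq]⟩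

theorem Pu1_scale {ν : (PowerSeries F)[X]} (s : PowerSeries F) (h : Pu1_Has ν) :
    Pu1_Has (ν.scaleRoots s) := by
  obtain ⟨e, he, η, h⟩ := h
  rw [IsRoot.def, eval_map] at h
  have h' := scaleRoots_eval₂_eq_zero (s := s) _ h
  rw [← eval_map] at h'
  exact ⟨e, he, _, h'⟩

theorem Pu1_taylor_coeff {R : Type} [CommRing R] {μ : R[X]} (hμ : μ.Monic) {m : ℕ}
    (hm : μ.natDegree = m + 1) (r : R) :
    (taylor r μ).coeff m = μ.coeff m + ((m : R) + 1) * r := by
  have h1 : (hasseDeriv m μ).natDegree < 2 := by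
    have := natDegree_hasseDeriv_le μ m
    omega
  have h2 : μ.coeff (1 + m) = 1 := by
    rw [add_comm, ← hm]
    exact hμ.coeff_natDegree
  rw [taylor_coeff, eval_eq_sum_range' h1]
  simp only [Finset.sum_range_succ, Finset.range_zero, Finset.sum_empty, hasseDeriv_coeff, h2,
    zero_add, Nat.choose_self, Nat.cast_one, one_mul, pow_zero, mul_one, pow_one]
  rw [add_comm 1 m, Nat.choose_succ_self_right]
  push_cast
  ring

theorem Pu1_newton {μ : (PowerSeries F)[X]} (hμ : μ.Monic) {j₁ : ℕ} (h1 : j₁ < μ.natDegree)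
    (h2 : μ.coeff j₁ ≠ 0) :
    ∃ (e : ℕ) (he : e ≠ 0) (s : PowerSeries F) (ν : (PowerSeries F)[X]), s ≠ 0 ∧ ν.Monic ∧
      ν.natDegree = μ.natDegree ∧
      ν.scaleRoots s = μ.map (PowerSeries.expand (R := F) e he : PowerSeries F →+* PowerSeries F) ∧
      ∃ j < μ.natDegree, PowerSeries.constantCoeff (ν.coeff j) ≠ 0 := by
  classical
  set n := μ.natDegree with hn
  let o : ℕ → ℕ := fun j => (μ.coeff j).order.toNat
  have ho : ∀ j, μ.coeff j ≠ 0 → (μ.coeff j).order = o j := fun j hj =>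
    (ENat.natCast_toNat (PowerSeries.order_finite_iff_ne_zero.2 hj).ne).symm
  obtain ⟨j, hj, hmin⟩ := Finset.exists_min_image
    ((Finset.range n).filter fun j => μ.coeff j ≠ 0) (fun j => (o j : ℚ) / ((n - j : ℕ) : ℚ))
    ⟨j₁, Finset.mem_filter.2 ⟨Finset.mem_range.2 h1, h2⟩⟩
  obtain ⟨hjn, hj0⟩ := Finset.mem_filter.1 hj
  rw [Finset.mem_range] at hjn
  have he : n - j ≠ 0 := by omega
  let φ := PowerSeries.expand (R := F) (n - j) he
  have hφ : ∀ i, μ.coeff i ≠ 0 → (φ (μ.coeff i)).order = (((n - j) * o i : ℕ) : ℕ∞) := by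
    intro i hi
    simp only [φ]
    rw [PowerSeries.order_expand, ho i hi, nsmul_eq_mul]
    push_cast
    rfl
  have hdv : ∀ i, ∃ b, φ (μ.coeff i) = b * (PowerSeries.X ^ o j) ^ (n - i) := by
    intro i
    by_cases hi : μ.coeff i = 0
    · exact ⟨0, by rw [hi, map_zero, zero_mul]⟩
    by_cases hin : i < n
    swap
    · exact ⟨_, by rw [Nat.sub_eq_zero_of_le (not_lt.1 hin), pow_zero, mul_one]⟩
    have a1 := hmin i (Finset.mem_filter.2 ⟨Finset.mem_range.2 hin, hi⟩)
    have p1 : (0 : ℚ) < ((n - j : ℕ) : ℚ) := by exact_mod_cast Nat.pos_of_ne_zero he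
    have p2 : (0 : ℚ) < ((n - i : ℕ) : ℚ) := by exact_mod_cast Nat.sub_pos_of_lt hin
    rw [div_le_div_iff₀ p1 p2] at a1
    have a2 : o j * (n - i) ≤ (n - j) * o i := by
      rw [mul_comm (n - j)]
      exact_mod_cast a1
    have a3 : (PowerSeries.X : PowerSeries F) ^ (o j * (n - i)) ∣ φ (μ.coeff i) := by
      rw [PowerSeries.X_pow_dvd_iff]
      intro m hm
      apply PowerSeries.coeff_of_lt_order
      rw [hφ i hi]
      exact_mod_cast hm.trans_le a2
    obtain ⟨b, hb⟩ := a3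
    exact ⟨b, by rw [hb, pow_mul, mul_comm]⟩
  choose b hb using hdv
  let ν : (PowerSeries F)[X] := ∑ i ∈ Finset.range (n + 1), monomial i (b i)
  have hν : ∀ i, ν.coeff i = if i ≤ n then b i else 0 := by
    intro i
    simp only [ν, finsetSum_coeff, coeff_monomial, Finset.sum_ite_eq', Finset.mem_range,
      Nat.lt_succ_iff]
  have hbn : b n = 1 := by
    have := hb n
    rw [Nat.sub_self, pow_zero, mul_one, hn, hμ.coeff_natDegree, map_one] at this
    exact this.symm
  have hle : ν.natDegree ≤ n := by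
    rw [natDegree_le_iff_coeff_eq_zero]
    intro i hi
    rw [hν, if_neg (not_le.2 hi)]
  have hcn : ν.coeff n = 1 := by rw [hν, if_pos le_rfl, hbn]
  have hdeg : ν.natDegree = n :=
    natDegree_eq_of_le_of_coeff_ne_zero hle (by rw [hcn]; exact one_ne_zero)
  refine ⟨n - j, he, PowerSeries.X ^ o j, ν, pow_ne_zero _ PowerSeries.X_ne_zero,
    monic_of_natDegree_le_of_coeff_eq_one n hle hcn, hdeg, ?_, j, hjn, ?_⟩
  · ext1 i
    rw [coeff_scaleRoots, hdeg, coeff_map, hν]
    split_ifs with h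
    · exact (hb i).symm
    · rw [coeff_eq_zero_of_natDegree_lt (not_le.1 h), map_zero, zero_mul]
  · rw [hν, if_pos hjn.le]
    have a1 := (PowerSeries.order_eq_nat.1 (hφ j hj0)).1
    rw [hb j, ← pow_mul, mul_comm (n - j)] at a1
    have a2 := PowerSeries.coeff_mul_X_pow (b j) (o j * (n - j)) 0
    rw [zero_add] at a2
    rw [a2] at a1
    simpa using a1

variable [IsAlgClosed F] [CharZero F]

theorem Pu1_mult {ν : F[X]} (hν : ν.Monic) {m : ℕ} (hm : ν.natDegree = m + 1)
    (h0 : ν.coeff m = 0) {j : ℕ} (hj : j < m + 1) (h1 : ν.coeff j ≠ 0) :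
    ∃ c, 0 < ν.rootMultiplicity c ∧ ν.rootMultiplicity c < m + 1 := by
  obtain ⟨c, hc⟩ := IsAlgClosed.exists_root ν (by
    rw [degree_eq_natDegree hν.ne_zero, hm]
    exact_mod_cast Nat.succ_ne_zero m)
  refine ⟨c, (rootMultiplicity_pos hν.ne_zero).2 hc, ?_⟩
  by_contra hge
  have hd : (X - C c) ^ (m + 1) ∣ ν :=
    (pow_dvd_pow _ (not_lt.1 hge)).trans (pow_rootMultiplicity_dvd ν c)
  have he : ν = (X - C c) ^ (m + 1) :=
    eq_of_monic_of_dvd_of_natDegree_le ((monic_X_sub_C c).pow _) hν hd (by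
      rw [hm, (monic_X_sub_C c).natDegree_pow, natDegree_X_sub_C, mul_one])
  have h2 : ν.nextCoeff = 0 := by
    rw [nextCoeff_of_natDegree_pos (by omega), hm]
    exact h0
  rw [he, (monic_X_sub_C c).nextCoeff_pow, nextCoeff_X_sub_C, nsmul_eq_mul] at h2
  have h3 : c = 0 := by
    rcases mul_eq_zero.1 h2 with h | h
    · exact absurd h (by exact_mod_cast Nat.succ_ne_zero m)
    · exact neg_eq_zero.1 h
  apply h1
  rw [he, h3, C_0, sub_zero, coeff_X_pow, if_neg hj.ne]

theorem Pu1_root (n : ℕ) : ∀ μ : (PowerSeries F)[X], μ.Monic → μ.natDegree = n → 0 < n →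
    Pu1_Has μ := by
  induction n using Nat.strong_induction_on with
  | _ n ih =>
  intro μ₀ hμ₀ hn₀ hpos
  obtain ⟨m, rfl⟩ : ∃ m, n = m + 1 := ⟨n - 1, by omega⟩
  let r : PowerSeries F := -(PowerSeries.C ((m : F) + 1)⁻¹ * μ₀.coeff m)
  refine Pu1_shift r ?_
  set μ := taylor r μ₀ with hμdef
  have hn : μ.natDegree = m + 1 := by rw [hμdef, natDegree_taylor, hn₀]
  have hμ : μ.Monic := by
    rw [Monic, hμdef, leadingCoeff_taylor]
    exact hμ₀
  have h0 : μ.coeff m = 0 := by
    have hm : ((m : F) + 1) ≠ 0 := by exact_mod_cast Nat.succ_ne_zero m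
    have : ((m : PowerSeries F) + 1) * PowerSeries.C ((m : F) + 1)⁻¹ = 1 := by
      rw [← map_natCast (PowerSeries.C (R := F)) m, ← map_one (PowerSeries.C (R := F)), ← map_add,
        ← map_mul, mul_inv_cancel₀ hm]
    rw [hμdef, Pu1_taylor_coeff hμ₀ hn₀]
    simp only [r]
    rw [mul_neg, ← mul_assoc, this, one_mul, add_neg_cancel]
  by_cases hz : μ.coeff 0 = 0
  · refine ⟨1, one_ne_zero, 0, ?_⟩
    rw [IsRoot.def, ← coeff_zero_eq_eval_zero, coeff_map, hz, map_zero]
  obtain ⟨e, he, s, ν, hs, hν, hνd, hsc, j, hj, hjc⟩ := Pu1_newton hμ (j₁ := 0) (by omega) hz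
  refine Pu1_expand he ?_
  rw [← hsc]
  refine Pu1_scale s ?_
  rw [hn] at hνd hj
  have hν0 : ν.coeff m = 0 := by
    have := congrArg (fun P => coeff P m) hsc
    simp only [coeff_scaleRoots, coeff_map, h0, map_zero] at this
    exact (mul_eq_zero.1 this).resolve_right (pow_ne_zero _ hs)
  obtain ⟨c, c1, c2⟩ := Pu1_mult (hν.map (PowerSeries.constantCoeff (R := F)))
    (by rw [hν.natDegree_map, hνd]) (by rw [coeff_map, hν0, map_zero]) hj (by rwa [coeff_map])
  refine Pu1_shift (PowerSeries.C c) ?_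
  have hν' : (taylor (PowerSeries.C c) ν).Monic := by
    rw [Monic, leadingCoeff_taylor]
    exact hν
  obtain ⟨f, f1, f2, f3⟩ := Pu1_factor _ hν'
    (k := (ν.map (PowerSeries.constantCoeff (R := F))).rootMultiplicity c) (by
      rw [map_taylor, PowerSeries.constantCoeff_C, taylor_apply,
        ← rootMultiplicity_eq_rootMultiplicity])
  exact Pu1_dvd f3 (ih _ c2 f f1 f2 c1)

theorem puiseux_root (μ : (PowerSeries F)[X]) (hμ : μ.Monic) (hd : 0 < μ.natDegree) :
    ∃ (e : ℕ) (he : e ≠ 0) (η : PowerSeries F),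
      (μ.map (PowerSeries.expand (R := F) e he : PowerSeries F →+* PowerSeries F)).IsRoot η :=
  Pu1_root _ μ hμ rfl hd

theorem Pu1_split (n : ℕ) : ∀ μ : (PowerSeries F)[X], μ.Monic → μ.natDegree = n →
    ∃ (e : ℕ) (he : e ≠ 0) (η : Fin n → PowerSeries F),
      μ.map (PowerSeries.expand (R := F) e he : PowerSeries F →+* PowerSeries F) =
        ∏ j, (X - C (η j)) := by
  induction n with
  | zero =>
    intro μ hμ hn
    refine ⟨1, one_ne_zero, Fin.elim0, ?_⟩
    rw [hμ.natDegree_eq_zero.1 hn]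
    simp
  | succ n ih =>
    intro μ hμ hn
    obtain ⟨e, he, η₀, h⟩ := puiseux_root μ hμ (by omega)
    set μ₁ := μ.map (PowerSeries.expand (R := F) e he : PowerSeries F →+* PowerSeries F) with h₁
    have hm₁ : μ₁.Monic := hμ.map _
    have hd₁ : μ₁.natDegree = n + 1 := by rw [h₁, hμ.natDegree_map, hn]
    have hf := mul_divByMonic_eq_iff_isRoot.2 h
    have hm₂ : (μ₁ /ₘ (X - C η₀)).Monic :=
      (monic_X_sub_C η₀).of_mul_monic_left (by rw [hf]; exact hm₁)
    have hd₂ : (μ₁ /ₘ (X - C η₀)).natDegree = n := by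
      rw [natDegree_divByMonic _ (monic_X_sub_C η₀), hd₁, natDegree_X_sub_C]
      rfl
    obtain ⟨e', he', η, h'⟩ := ih _ hm₂ hd₂
    refine ⟨e' * e, e'.mul_ne_zero he' he,
      Fin.cons (PowerSeries.expand (R := F) e' he' η₀) η, ?_⟩
    rw [Pu1_map_mul μ he' he, ← h₁, ← hf, Polynomial.map_mul, h', Fin.prod_univ_succ]
    simp

theorem puiseux_split (μ : (PowerSeries F)[X]) (hμ : μ.Monic) :
    ∃ (e : ℕ) (he : e ≠ 0) (η : Fin μ.natDegree → PowerSeries F),
      μ.map (PowerSeries.expand (R := F) e he : PowerSeries F →+* PowerSeries F) =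
        ∏ j, (X - C (η j)) :=
  Pu1_split _ μ hμ rfl

end Pool.Agent.Work.MP_e120ef_ag.H
end

-- merged part: Pool.Agent.Work.MP_e120ef_ag.H.Pu2
section
/-!
# Algebraic power series converge, and have coefficients in a finite extension

Plans.  `Pu2_fix`: strong induction.  If `coeff k ζ ∈ L` and `‖coeff k ζ‖ ≤ C B ^ k` for `k ≤ n`, then `coeff k (ζ ^ j) ∈ L` and `‖coeff k (ζ ^ j)‖ ≤ C ^ j B ^ k` for `k ≤ n` (`coeff_mul`, ultrametric bound for finite sums);
take `C ≥ 1` bounding `‖c‖` and all coefficients of `H`, and `B = C ^ (natDegree H)`.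
`puiseux_conv`: let `ν` be the order of `μ' (η)`, `a = trunc (ν + 1) η`, `η = a + X ^ (ν + 1) ζ`, `L = K₁ (coeff i η : i ≤ ν)` (`IntermediateField.finiteDimensional_adjoin`).  Expand `μ (a + Y) = ∑ i, q i * Y ^ i` (`Polynomial.taylor`, `hasseDeriv`; the `q i` are polynomials over `L`), `q 1 = μ' (a) = X ^ ν κ` with `κ (0) ≠ 0` since `μ' (a) ≡ μ' (η)` modulo `X ^ (ν + 1)`.
Then `0 = q 0 + X ^ (2 ν + 1) κ ζ + ∑ i ≥ 2, q i X ^ (i (ν + 1)) ζ ^ i`, so `X ^ (2 ν + 1) ∣ q 0`; divide, and solve for `ζ`: `ζ = C c + X * H (ζ)`.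
-/

open Polynomial

namespace Pool.Agent.Work.MP_e120ef_ag.H

variable {K₁ K' : Type} [Field K₁] [NontriviallyNormedField K'] [IsUltrametricDist K']
  [Algebra K₁ K']

variable (K₁ K') in
/-- polynomials over `K₁` as power series over `K'` -/
noncomputable def pps : K₁[X] →+* PowerSeries K' :=
  Polynomial.coeToPowerSeries.ringHom.comp (mapRingHom (algebraMap K₁ K'))

/-- coefficients up to `n` lie in `L` and are bounded geometrically -/
def Pu2_Good (L : IntermediateField K₁ K') (C B : ℝ) (n : ℕ) (f : PowerSeries K') : Prop :=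
  ∀ k ≤ n, PowerSeries.coeff k f ∈ L ∧ ‖PowerSeries.coeff k f‖ ≤ C * B ^ k

theorem Pu2_mul {L : IntermediateField K₁ K'} {C D B : ℝ} {n : ℕ} {f g : PowerSeries K'}
    (hC : 0 ≤ C) (hD : 0 ≤ D) (hB : 0 ≤ B) (hf : Pu2_Good L C B n f) (hg : Pu2_Good L D B n g) :
    Pu2_Good L (C * D) B n (f * g) := by
  intro k hk
  rw [PowerSeries.coeff_mul]
  refine ⟨L.sum_mem fun p hp => ?_, ?_⟩
  · have := Finset.HasAntidiagonal.mem_antidiagonal.mp hp
    exact L.mul_mem (hf _ (by omega)).1 (hg _ (by omega)).1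
  · refine IsUltrametricDist.norm_sum_le_of_forall_le_of_nonneg (by positivity) fun p hp => ?_
    have h := Finset.HasAntidiagonal.mem_antidiagonal.mp hp
    rw [norm_mul, ← h, pow_add]
    calc _ ≤ (C * B ^ p.1) * (D * B ^ p.2) :=
          mul_le_mul (hf _ (by omega)).2 (hg _ (by omega)).2 (norm_nonneg _) (by positivity)
      _ = _ := by ring

theorem Pu2_pow {L : IntermediateField K₁ K'} {C B : ℝ} {n : ℕ} {f : PowerSeries K'}
    (hC : 0 ≤ C) (hB : 0 ≤ B) (hf : Pu2_Good L C B n f) (j : ℕ) :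
    Pu2_Good L (C ^ j) B n (f ^ j) := by
  induction j with
  | zero =>
    intro k _
    rw [pow_zero, pow_zero, PowerSeries.coeff_one]
    split_ifs with h
    · subst h
      exact ⟨L.one_mem, by simp⟩
    · exact ⟨L.zero_mem, by rw [norm_zero]; positivity⟩
  | succ j ih =>
    rw [pow_succ, pow_succ]
    exact Pu2_mul (by positivity) hC hB ih hf

omit [IsUltrametricDist K'] in
theorem Pu2_coeff (p : K₁[X]) (k : ℕ) :
    PowerSeries.coeff k (pps K₁ K' p) = algebraMap K₁ K' (p.coeff k) := by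
  simp [pps]

omit [IsUltrametricDist K'] in
theorem Pu2_X : pps K₁ K' X = PowerSeries.X := by
  simp [pps]

omit [IsUltrametricDist K'] in
theorem Pu2_C (a : K₁) : pps K₁ K' (C a) = PowerSeries.C (algebraMap K₁ K' a) := by
  simp [pps]

omit [IsUltrametricDist K'] in
theorem Pu2_bdd (L : IntermediateField K₁ K') (H : L[X][X]) (c : L) :
    ∃ C : ℝ, 1 ≤ C ∧ ‖(c : K')‖ ≤ C ∧ ∀ j i, ‖(((H.coeff j).coeff i : L) : K')‖ ≤ C := by
  have h1 : ∀ p : L[X], ∃ C : ℝ, 0 ≤ C ∧ ∀ i, ‖((p.coeff i : L) : K')‖ ≤ C := by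
    intro p
    refine ⟨∑ i ∈ p.support, ‖((p.coeff i : L) : K')‖, Finset.sum_nonneg fun _ _ => norm_nonneg _,
      fun i => ?_⟩
    by_cases hi : i ∈ p.support
    · exact Finset.single_le_sum (f := fun i => ‖((p.coeff i : L) : K')‖)
        (fun _ _ => norm_nonneg _) hi
    · rw [Polynomial.notMem_support_iff.mp hi]
      simpa using Finset.sum_nonneg fun _ _ => norm_nonneg _
  choose F hF0 hF using h1
  have hS : 0 ≤ ∑ j ∈ H.support, F (H.coeff j) := Finset.sum_nonneg fun _ _ => hF0 _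
  refine ⟨1 + ‖(c : K')‖ + ∑ j ∈ H.support, F (H.coeff j), ?_, ?_, fun j i => ?_⟩
  · have := norm_nonneg (c : K')
    linarith
  · linarith
  · have := norm_nonneg (c : K')
    by_cases hj : j ∈ H.support
    · have h2 := Finset.single_le_sum (f := fun j => F (H.coeff j)) (fun _ _ => hF0 _) hj
      have h3 := hF (H.coeff j) i
      linarith
    · rw [Polynomial.notMem_support_iff.mp hj]
      simp only [coeff_zero, ZeroMemClass.coe_zero, norm_zero]
      linarith

theorem Pu2_fix (L : IntermediateField K₁ K') (H : L[X][X]) (c : L) (ζ : PowerSeries K')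
    (h : ζ = PowerSeries.C (c : K') + PowerSeries.X * H.eval₂ (pps L K') ζ) :
    (∀ n, PowerSeries.coeff n ζ ∈ L) ∧
      ∃ C B : ℝ, 0 ≤ C ∧ 1 ≤ B ∧ ∀ n, ‖PowerSeries.coeff n ζ‖ ≤ C * B ^ n := by
  obtain ⟨C, hC1, hc, hH⟩ := Pu2_bdd L H c
  have hC0 : 0 ≤ C := by linarith
  have hB1 : 1 ≤ C ^ H.natDegree := one_le_pow₀ hC1
  have hB0 : 0 ≤ C ^ H.natDegree := by positivity
  have key : ∀ n, Pu2_Good L C (C ^ H.natDegree) n ζ := by
    intro n
    induction n with
    | zero =>
      intro k hk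
      obtain rfl : k = 0 := by omega
      have : PowerSeries.coeff 0 ζ = (c : K') := by
        rw [h]; simp
      rw [this]
      exact ⟨c.2, by simpa using hc⟩
    | succ n ih =>
      intro k hk
      rcases Nat.lt_or_ge k (n + 1) with hlt | hge
      · exact ih k (by omega)
      obtain rfl : k = n + 1 := by omega
      have e : PowerSeries.coeff (n + 1) ζ = ∑ j ∈ Finset.range (H.natDegree + 1),
          PowerSeries.coeff n (pps L K' (H.coeff j) * ζ ^ j) := by
        conv_lhs => rw [h]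
        rw [map_add, PowerSeries.coeff_succ_X_mul, PowerSeries.coeff_C, if_neg (by omega), zero_add,
          Polynomial.eval₂_eq_sum_range, map_sum]
      have hterm : ∀ j, Pu2_Good L (C * C ^ j) (C ^ H.natDegree) n
          (pps L K' (H.coeff j) * ζ ^ j) := by
        intro j
        refine Pu2_mul hC0 (by positivity) hB0 ?_ (Pu2_pow hC0 hB0 ih j)
        intro i _
        rw [Pu2_coeff]
        refine ⟨((H.coeff j).coeff i).2, (hH j i).trans ?_⟩
        exact le_mul_of_one_le_right hC0 (one_le_pow₀ hB1)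
      rw [e]
      refine ⟨L.sum_mem fun j _ => (hterm j n le_rfl).1, ?_⟩
      refine IsUltrametricDist.norm_sum_le_of_forall_le_of_nonneg (by positivity) fun j hj => ?_
      refine (hterm j n le_rfl).2.trans ?_
      have hj' : j ≤ H.natDegree := by
        have := Finset.mem_range.mp hj
        omega
      have h1 : C ^ j ≤ C ^ H.natDegree := pow_le_pow_right₀ hC1 hj'
      calc C * C ^ j * (C ^ H.natDegree) ^ n ≤ C * C ^ H.natDegree * (C ^ H.natDegree) ^ n := by
            gcongr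
        _ = _ := by ring
  exact ⟨fun n => (key n n le_rfl).1, C, C ^ H.natDegree, hC0, hB1, fun n => (key n n le_rfl).2⟩

omit [IsUltrametricDist K'] in
theorem Pu2_dvd (p : K₁[X]) (m : ℕ) (h : ∀ i < m, PowerSeries.coeff i (pps K₁ K' p) = 0) :
    X ^ m ∣ p := by
  rw [Polynomial.X_pow_dvd_iff]
  intro i hi
  have := h i hi
  rw [Pu2_coeff] at this
  exact (map_eq_zero_iff _ (algebraMap K₁ K').injective).mp this

omit [IsUltrametricDist K'] in
theorem Pu2_map (L : IntermediateField K₁ K') (μ : K₁[X][X]) (y : PowerSeries K') :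
    (μ.map (mapRingHom (algebraMap K₁ L))).eval₂ (pps L K') y = μ.eval₂ (pps K₁ K') y := by
  rw [Polynomial.eval₂_map]
  congr 1
  ext p k
  · simp [pps]
  · simp [pps]

/-- the key step over a field containing the first coefficients -/
theorem Pu2_step (L : IntermediateField K₁ K') (μ : L[X][X]) (a : L[X]) (ν : ℕ)
    (ζ : PowerSeries K')
    (h0 : μ.eval₂ (pps L K') (pps L K' a + PowerSeries.X ^ (ν + 1) * ζ) = 0)
    (hlt : ∀ i < ν, PowerSeries.coeff i ((derivative μ).eval₂ (pps L K')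
      (pps L K' a + PowerSeries.X ^ (ν + 1) * ζ)) = 0)
    (hν : PowerSeries.coeff ν ((derivative μ).eval₂ (pps L K')
      (pps L K' a + PowerSeries.X ^ (ν + 1) * ζ)) ≠ 0) :
    (∀ n, PowerSeries.coeff n ζ ∈ L) ∧
      ∃ C B : ℝ, 0 ≤ C ∧ 1 ≤ B ∧ ∀ n, ‖PowerSeries.coeff n ζ‖ ≤ C * B ^ n := by
  set Q := taylor a μ with hQ
  set R := Q.divX.divX with hR
  have hQe : Q = C (Q.coeff 0) + X * (C (Q.coeff 1) + X * R) := by
    have e1 := Polynomial.X_mul_divX_add Q
    have e2 := Polynomial.X_mul_divX_add Q.divX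
    rw [Polynomial.coeff_divX, zero_add] at e2
    rw [hR, add_comm (C (Q.coeff 1)), e2, add_comm, e1]
  have hq1 : Q.coeff 1 = (derivative μ).eval a := by
    rw [hQ, Polynomial.taylor_coeff_one]
  have hcong : ∀ i ≤ ν, PowerSeries.coeff i (pps L K' (Q.coeff 1)) =
      PowerSeries.coeff i ((derivative μ).eval₂ (pps L K')
        (pps L K' a + PowerSeries.X ^ (ν + 1) * ζ)) := by
    intro i hi
    have hd : (PowerSeries.X : PowerSeries K') ^ (ν + 1) ∣ (derivative μ).eval₂ (pps L K')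
        (pps L K' a + PowerSeries.X ^ (ν + 1) * ζ) - pps L K' (Q.coeff 1) := by
      rw [hq1, ← Polynomial.eval₂_at_apply, Polynomial.eval₂_eq_eval_map,
        Polynomial.eval₂_eq_eval_map]
      refine Dvd.dvd.trans ?_ (Polynomial.sub_dvd_eval_sub _ _ _)
      rw [add_sub_cancel_left]
      exact Dvd.intro _ rfl
    have := PowerSeries.X_pow_dvd_iff.mp hd i (by omega)
    rw [map_sub, sub_eq_zero] at this
    exact this.symm
  obtain ⟨κ, hκ⟩ : X ^ ν ∣ Q.coeff 1 :=
    Pu2_dvd (K' := K') _ _ fun i hi => by rw [hcong i hi.le]; exact hlt i hi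
  have hκ0 : κ.coeff 0 ≠ 0 := by
    intro hz
    apply hν
    rw [← hcong ν le_rfl, Pu2_coeff, hκ]
    have := Polynomial.coeff_X_pow_mul κ ν 0
    rw [zero_add] at this
    rw [this, hz, map_zero]
  have hQ0 : Q.eval₂ (pps L K') (PowerSeries.X ^ (ν + 1) * ζ) = 0 := by
    rw [hQ, Polynomial.taylor_apply, Polynomial.eval₂_comp, Polynomial.eval₂_add,
      Polynomial.eval₂_X, Polynomial.eval₂_C, add_comm]
    exact h0
  set ρ := R.eval₂ (pps L K') (PowerSeries.X ^ (ν + 1) * ζ) with hρ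
  have hE : pps L K' (Q.coeff 0) + PowerSeries.X ^ (2 * ν + 1) *
      (pps L K' κ * ζ + PowerSeries.X * (ζ ^ 2 * ρ)) = 0 := by
    rw [hQe] at hQ0
    simp only [Polynomial.eval₂_add, Polynomial.eval₂_mul, Polynomial.eval₂_C,
      Polynomial.eval₂_X] at hQ0
    rw [hκ, map_mul, map_pow, Pu2_X, ← hρ] at hQ0
    rw [← hQ0]
    ring
  obtain ⟨r, hr⟩ : X ^ (2 * ν + 1) ∣ Q.coeff 0 := by
    refine Pu2_dvd (K' := K') _ _ ?_
    rw [← PowerSeries.X_pow_dvd_iff, eq_neg_of_add_eq_zero_left hE]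
    exact (Dvd.intro _ rfl).neg_right
  have hE2 : pps L K' r + (pps L K' κ * ζ + PowerSeries.X * (ζ ^ 2 * ρ)) = 0 := by
    rw [hr, map_mul, map_pow, Pu2_X, ← mul_add] at hE
    exact (mul_eq_zero.mp hE).resolve_left (pow_ne_zero _ PowerSeries.X_ne_zero)
  have er : pps L K' r = PowerSeries.X * pps L K' r.divX +
      PowerSeries.C (algebraMap L K' (r.coeff 0)) := by
    conv_lhs => rw [← Polynomial.X_mul_divX_add r]
    rw [map_add, map_mul, Pu2_X, Pu2_C]
  have ek : pps L K' κ = PowerSeries.X * pps L K' κ.divX +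
      PowerSeries.C (algebraMap L K' (κ.coeff 0)) := by
    conv_lhs => rw [← Polynomial.X_mul_divX_add κ]
    rw [map_add, map_mul, Pu2_X, Pu2_C]
  refine Pu2_fix L (C (C (-(κ.coeff 0)⁻¹)) * (C r.divX + C κ.divX * X +
    X ^ 2 * R.comp (C (X ^ (ν + 1)) * X))) (-(κ.coeff 0)⁻¹ * r.coeff 0) ζ ?_
  have hinv : PowerSeries.C (algebraMap L K' (κ.coeff 0)⁻¹) *
      PowerSeries.C (algebraMap L K' (κ.coeff 0)) = (1 : PowerSeries K') := by
    rw [← map_mul, ← map_mul, inv_mul_cancel₀ hκ0, map_one, map_one]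
  have hc : PowerSeries.C (((-(κ.coeff 0)⁻¹ * r.coeff 0 : L)) : K') =
      -PowerSeries.C (algebraMap L K' (κ.coeff 0)⁻¹) *
        PowerSeries.C (algebraMap L K' (r.coeff 0)) := by
    rw [← map_neg, ← map_neg, ← map_mul, ← map_mul]
    rfl
  rw [hc]
  simp only [Polynomial.eval₂_add, Polynomial.eval₂_mul, Polynomial.eval₂_C,
    Polynomial.eval₂_X, Polynomial.eval₂_comp, Polynomial.eval₂_pow]
  rw [Pu2_C, map_pow, Pu2_X, ← hρ, map_neg, map_neg]
  rw [er, ek] at hE2
  linear_combination (PowerSeries.C (algebraMap L K' (κ.coeff 0)⁻¹)) * hE2 - ζ * hinv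

theorem puiseux_conv (μ : K₁[X][X]) (η : PowerSeries K')
    (halg : ∀ n, IsAlgebraic K₁ (PowerSeries.coeff n η)) (h0 : μ.eval₂ (pps K₁ K') η = 0)
    (h1 : (derivative μ).eval₂ (pps K₁ K') η ≠ 0) :
    ∃ L : IntermediateField K₁ K', FiniteDimensional K₁ L ∧ (∀ n, PowerSeries.coeff n η ∈ L) ∧
      ∃ C B : ℝ, 0 ≤ C ∧ 1 ≤ B ∧ ∀ n, ‖PowerSeries.coeff n η‖ ≤ C * B ^ n := by
  set ν := ((derivative μ).eval₂ (pps K₁ K') η).order.toNat with hνd
  let S : Set K' := (fun i => PowerSeries.coeff i η) '' Set.Iic ν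
  have hSf : S.Finite := (Set.finite_Iic ν).image _
  haveI : Finite S := hSf
  let L : IntermediateField K₁ K' := IntermediateField.adjoin K₁ S
  have hfd : FiniteDimensional K₁ L := by
    refine IntermediateField.finiteDimensional_adjoin fun x hx => ?_
    obtain ⟨i, -, rfl⟩ := hx
    exact (halg i).isIntegral
  have hmem : ∀ i ≤ ν, PowerSeries.coeff i η ∈ L := fun i hi =>
    IntermediateField.subset_adjoin K₁ S ⟨i, hi, rfl⟩
  let a : L[X] := ∑ i ∈ Finset.range (ν + 1),
    monomial i (if hi : i ≤ ν then (⟨PowerSeries.coeff i η, hmem i hi⟩ : L) else 0)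
  have ha : ∀ i, PowerSeries.coeff i (pps L K' a) =
      if i ≤ ν then PowerSeries.coeff i η else 0 := by
    intro i
    rw [Pu2_coeff]
    simp only [a, Polynomial.finset_sum_coeff, Polynomial.coeff_monomial]
    rw [Finset.sum_ite_eq' (Finset.range (ν + 1)) i]
    by_cases hi : i ≤ ν
    · rw [if_pos (Finset.mem_range.mpr (by omega)), dif_pos hi, if_pos hi]
      rfl
    · rw [if_neg (fun h => hi (by have := Finset.mem_range.mp h; omega)), if_neg hi, map_zero]
  let ζ : PowerSeries K' := PowerSeries.mk fun n => PowerSeries.coeff (n + (ν + 1)) η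
  have hη : η = pps L K' a + PowerSeries.X ^ (ν + 1) * ζ := by
    ext i
    rw [map_add, ha, PowerSeries.coeff_X_pow_mul']
    by_cases hi : i ≤ ν
    · rw [if_pos hi, if_neg (by omega), add_zero]
    · rw [if_neg hi, if_pos (by omega), zero_add, PowerSeries.coeff_mk]
      congr 2
      omega
  have hder : (derivative (μ.map (mapRingHom (algebraMap K₁ L)))).eval₂ (pps L K')
      (pps L K' a + PowerSeries.X ^ (ν + 1) * ζ) = (derivative μ).eval₂ (pps K₁ K') η := by
    rw [Polynomial.derivative_map, Pu2_map, ← hη]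
  obtain ⟨hz, C, B, hC, hB, hb⟩ := Pu2_step L (μ.map (mapRingHom (algebraMap K₁ L))) a ν ζ
    (by rw [Pu2_map, ← hη]; exact h0)
    (fun i hi => by
      rw [hder]
      exact PowerSeries.coeff_of_lt_order_toNat i hi)
    (by
      rw [hder]
      exact PowerSeries.coeff_order h1)
  have hS0 : 0 ≤ ∑ i ∈ Finset.range (ν + 1), ‖PowerSeries.coeff i η‖ :=
    Finset.sum_nonneg fun _ _ => norm_nonneg _
  refine ⟨L, hfd, fun n => ?_, C + ∑ i ∈ Finset.range (ν + 1), ‖PowerSeries.coeff i η‖, B,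
    by linarith, hB, fun n => ?_⟩
  · by_cases hn : n ≤ ν
    · exact hmem n hn
    · have := hz (n - (ν + 1))
      rw [PowerSeries.coeff_mk, Nat.sub_add_cancel (by omega)] at this
      exact this
  · have hBn : 1 ≤ B ^ n := one_le_pow₀ hB
    by_cases hn : n ≤ ν
    · have h2 := Finset.single_le_sum (f := fun i => ‖PowerSeries.coeff i η‖)
        (fun _ _ => norm_nonneg _) (Finset.mem_range.mpr (show n < ν + 1 by omega))
      calc _ ≤ C + ∑ i ∈ Finset.range (ν + 1), ‖PowerSeries.coeff i η‖ := by linarith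
        _ ≤ _ := le_mul_of_one_le_right (by linarith) hBn
    · have := hb (n - (ν + 1))
      rw [PowerSeries.coeff_mk, Nat.sub_add_cancel (by omega)] at this
      have h3 : B ^ (n - (ν + 1)) ≤ B ^ n := pow_le_pow_right₀ hB (by omega)
      calc _ ≤ C * B ^ (n - (ν + 1)) := this
        _ ≤ C * B ^ n := by gcongr
        _ ≤ _ := by
          have : 0 ≤ B ^ n := by linarith
          gcongr
          linarith

end Pool.Agent.Work.MP_e120ef_ag.H
end

-- merged part: Pool.Agent.Work.MP_e120ef_ag.H.Pu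
section
/-!
# Convergent Puiseux expansions at infinity

Plan.  Let `s = μ.natDegree` and `N` bound the degrees of the coefficients of `μ`.  With `U = 1 / X`, the polynomial `ν = ∑ i, X ^ (N (s - i)) (μ.coeff i) (1 / X) Y ^ i` over `K₁[X]` is monic (`Polynomial.reflect`), and `ν (X ^ N Y) = X ^ (N s) μ (1 / X, Y)`.
Apply `puiseux_split` over the algebraically closed field `algebraicClosure K₁ K'`, map the roots to `K'⟦X⟧`: `ν (X ^ e, Y) = ∏ (Y - η j)`.  The roots are simple (map the identity `a μ + b μ' = C Δ` to a field containing `K'⟦X⟧`, e.g. `LaurentSeries K'` or a fraction field, with `U ↦ X⁻¹ ^ e`), so `puiseux_conv` applies to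
`ν.map (expand K₁ e)`; take `L` the supremum of the fields, `ε : K` nonzero with `B ‖ε‖ < 1` for all `j`, and `c = ‖ε‖`; then `η j ∈ Res K' (fun _ : Unit => c)` (a `PowerSeries` is a `MvPowerSeries Unit`).  Let `ℓ = lineR _ (fun _ => algebraMap K K' ε) _`, an algebra map with `ℓ X * Zf = ε`.  Put `ρ = ε⁻¹ ^ e`, so that
`(ρ Zf ^ e) * (ℓ X) ^ e = 1`, and `θ j = (ρ Zf ^ e) ^ N * ℓ (η j)`.  The coefficients of `ℓ (η j)` are given by `coef_line`, `lc_mul`, `lc_of_not`; multiplication by `Zf` shifts them (`coef_lin_mul` with `c = 0`).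
-/

open Polynomial

namespace Pool.Agent.Work.MP_e120ef_ag.H

variable (K : Type) {K₁ K' : Type} [NontriviallyNormedField K] [Field K₁]
  [NontriviallyNormedField K'] [IsUltrametricDist K'] [CompleteSpace K'] [IsAlgClosed K']
  [CharZero K'] [Algebra K K₁] [Algebra K₁ K'] [NormedAlgebra K K'] [IsScalarTower K K₁ K']

theorem Pu_prod {A ι : Type} [CommRing A] [IsDomain A] (s : Finset ι) (η : ι → A) (r : A) :
    (∏ j ∈ s, (X - C (η j))).scaleRoots r = ∏ j ∈ s, (X - C (r * η j)) := by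
  classical
  induction s using Finset.induction_on with
  | empty => simp
  | insert a s ha ih =>
    rw [Finset.prod_insert ha, Finset.prod_insert ha, mul_scaleRoots_of_noZeroDivisors, ih,
      X_sub_C_scaleRoots, mul_comm (η a)]

theorem Pu_refl {A : Type} [CommRing A] (ι : K₁ →+* A) {u x : A} (h : u * x = 1) {n : ℕ}
    {f : K₁[X]} (hf : f.natDegree ≤ n) : eval₂ ι x (reflect n f) * u ^ n = eval₂ ι u f :=
  letI : Invertible u := ⟨x, (mul_comm _ _).trans h, h⟩
  eval₂_reflect_mul_pow ι u n f hf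

theorem Pu_rev (μ : K₁[X][X]) (hμ : μ.Monic) : ∃ (N : ℕ) (ν : K₁[X][X]), ν.Monic ∧
    ν.natDegree = μ.natDegree ∧ ∀ (A : Type) [CommRing A] [IsDomain A] (ι : K₁ →+* A) (u x : A),
      u * x = 1 → ∀ η : Fin μ.natDegree → A, ν.map (eval₂RingHom ι x) = ∏ j, (X - C (η j)) →
        μ.map (eval₂RingHom ι u) = ∏ j, (X - C (u ^ N * η j)) := by
  obtain ⟨N, hN⟩ : ∃ N, ∀ i, (μ.coeff i).natDegree ≤ N * (μ.natDegree - i) := by
    refine ⟨(Finset.range μ.natDegree).sup fun i => (μ.coeff i).natDegree, fun i => ?_⟩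
    rcases lt_trichotomy i μ.natDegree with h | rfl | h
    · exact (Finset.le_sup (f := fun i => (μ.coeff i).natDegree) (Finset.mem_range.2 h)).trans
        (Nat.le_mul_of_pos_right _ (Nat.sub_pos_of_lt h))
    · simp [hμ.coeff_natDegree]
    · simp [coeff_eq_zero_of_natDegree_lt h]
  obtain ⟨ν, hν⟩ : ∃ ν : K₁[X][X], ∀ i, ν.coeff i = reflect (N * (μ.natDegree - i)) (μ.coeff i) := by
    refine ⟨μ.sum fun i a => monomial i (reflect (N * (μ.natDegree - i)) a), fun i => ?_⟩
    simp only [sum_def, finsetSum_coeff, coeff_monomial, Finset.sum_ite_eq']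
    split_ifs with h
    · rfl
    · rw [notMem_support_iff.1 h, reflect_zero]
  have h1 : ν.natDegree ≤ μ.natDegree := natDegree_le_iff_coeff_eq_zero.2 fun i hi => by
    rw [hν, coeff_eq_zero_of_natDegree_lt hi, reflect_zero]
  have h2 : ν.coeff μ.natDegree = 1 := by simp [hν, hμ.coeff_natDegree]
  have h3 := monic_of_natDegree_le_of_coeff_eq_one _ h1 h2
  have h4 := natDegree_eq_of_le_of_coeff_ne_zero h1 (h2 ▸ one_ne_zero)
  refine ⟨N, ν, h3, h4, fun A _ _ ι u x h η hη => ?_⟩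
  rw [← Pu_prod, ← hη]
  ext i
  rw [coeff_scaleRoots, h3.natDegree_map, h4, coeff_map, coeff_map, hν, ← pow_mul]
  exact (Pu_refl ι h (hN i)).symm

omit [IsUltrametricDist K'] [CompleteSpace K'] in
theorem Pu_split (ν : K₁[X][X]) (hν : ν.Monic) {s : ℕ} (hs : ν.natDegree = s) :
    ∃ (e : ℕ) (_ : e ≠ 0) (η : Fin s → PowerSeries K'),
      (∀ j n, IsAlgebraic K₁ (PowerSeries.coeff n (η j))) ∧
      ν.map (eval₂RingHom (PowerSeries.C.comp (algebraMap K₁ K')) (PowerSeries.X ^ e)) =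
        ∏ j, (X - C (η j)) := by
  have : IsAlgClosed (algebraicClosure K₁ K') := IsAlgClosure.isAlgClosed K₁
  have h := puiseux_split (ν.map (eval₂RingHom
    (PowerSeries.C.comp (algebraMap K₁ (algebraicClosure K₁ K'))) PowerSeries.X)) (hν.map _)
  rw [hν.natDegree_map, hs] at h
  obtain ⟨e, he, η, h⟩ := h
  refine ⟨e, he, fun j => PowerSeries.map (algebraMap _ K') (η j), fun j n => ?_, ?_⟩
  · rw [PowerSeries.coeff_map]
    exact mem_algebraicClosure_iff.1 (Subtype.prop _)
  · have h1 := congrArg (Polynomial.map (PowerSeries.map (algebraMap _ K'))) h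
    rw [Polynomial.map_map, Polynomial.map_map, Polynomial.map_prod] at h1
    simp only [Polynomial.map_sub, map_X, map_C] at h1
    rw [← h1]
    congr 1
    refine ringHom_ext (fun a => ?_) ?_
    · simp [PowerSeries.expand_C]
    · simp [PowerSeries.expand_X]

omit [IsUltrametricDist K'] [CompleteSpace K'] [IsAlgClosed K'] [CharZero K'] in
theorem Pu_pps (e : ℕ) : (pps K₁ K').comp (expand K₁ e : K₁[X] →+* K₁[X]) =
    eval₂RingHom (PowerSeries.C.comp (algebraMap K₁ K')) (PowerSeries.X ^ e) :=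
  ringHom_ext (fun a => by simp [pps]) (by simp [pps])

omit [IsUltrametricDist K'] [CompleteSpace K'] [IsAlgClosed K'] [CharZero K'] in
theorem Pu_inj {e : ℕ} (he : e ≠ 0) : Function.Injective
    (eval₂RingHom (PowerSeries.C.comp (algebraMap K₁ K')) (PowerSeries.X ^ e)) := by
  rw [← Pu_pps]
  exact ((coe_injective K').comp (map_injective _ (algebraMap K₁ K').injective)).comp
    (expand_injective (Nat.pos_of_ne_zero he))

theorem Pu_simple {A : Type} [CommRing A] [IsDomain A] {ι : K₁ →+* A} {x : A}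
    (hx : Function.Injective (eval₂RingHom ι x)) {μ ν a b : K₁[X][X]} {Δ : K₁[X]} (hΔ : Δ ≠ 0)
    (hab : a * μ + b * derivative μ = C Δ) {s N : ℕ}
    (H : ∀ (A : Type) [CommRing A] [IsDomain A] (ι : K₁ →+* A) (u x : A),
      u * x = 1 → ∀ η : Fin s → A, ν.map (eval₂RingHom ι x) = ∏ j, (X - C (η j)) →
        μ.map (eval₂RingHom ι u) = ∏ j, (X - C (u ^ N * η j)))
    {η : Fin s → A} (h : ν.map (eval₂RingHom ι x) = ∏ j, (X - C (η j))) (j : Fin s) :
    ν.eval₂ (eval₂RingHom ι x) (η j) = 0 ∧ (derivative ν).eval₂ (eval₂RingHom ι x) (η j) ≠ 0 := by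
  have h0 : ν.eval₂ (eval₂RingHom ι x) (η j) = 0 := by
    rw [← eval_map, h, eval_prod]
    exact Finset.prod_eq_zero (Finset.mem_univ j) (by simp)
  refine ⟨h0, fun h1 => ?_⟩
  obtain ⟨Ω, _, φ, hφ⟩ : ∃ (Ω : Type) (_ : Field Ω) (φ : A →+* Ω), Function.Injective φ :=
    ⟨FractionRing A, inferInstance, algebraMap _ _, IsFractionRing.injective _ _⟩
  have e : φ.comp (eval₂RingHom ι x) = eval₂RingHom (φ.comp ι) (φ x) :=
    RingHom.ext fun p => hom_eval₂ p ι φ x
  have hi : ∀ p : K₁[X], p ≠ 0 → eval₂ (φ.comp ι) (φ x) p ≠ 0 := fun p hp k =>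
    hp (hx (hφ (by rw [map_zero, map_zero, ← k]; exact hom_eval₂ p ι φ x)))
  have hu : (φ x)⁻¹ * φ x = 1 := inv_mul_cancel₀ (by simpa using hi X X_ne_zero)
  have h2 : ν.map (eval₂RingHom (φ.comp ι) (φ x)) = ∏ j, (X - C (φ (η j))) := by
    rw [← e, ← Polynomial.map_map, h, Polynomial.map_prod]
    simp only [Polynomial.map_sub, map_X, map_C]
  have h3 := H Ω (φ.comp ι) _ _ hu _ h2
  have h4 : eval₂RingHom (φ.comp ι) (φ x)⁻¹ Δ ≠ 0 := fun k =>
    hi _ (mt reflect_eq_zero_iff.1 hΔ) ((mul_eq_zero.1 ((Pu_refl _ hu le_rfl).trans k)).resolve_right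
      (pow_ne_zero _ (left_ne_zero_of_mul_eq_one hu)))
  have h5 : (μ.map (eval₂RingHom (φ.comp ι) (φ x)⁻¹)).Separable := by
    have h6 := congrArg (fun p => C (eval₂RingHom (φ.comp ι) (φ x)⁻¹ Δ)⁻¹ *
      Polynomial.map (eval₂RingHom (φ.comp ι) (φ x)⁻¹) p) hab
    simp only [Polynomial.map_add, Polynomial.map_mul, map_C, ← derivative_map] at h6
    rw [← C_mul, inv_mul_cancel₀ h4, C_1, mul_add, ← mul_assoc, ← mul_assoc] at h6
    exact ⟨_, _, h6⟩
  rw [h3] at h5
  have h6 : (ν.map (eval₂RingHom (φ.comp ι) (φ x))).Separable :=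
    h2 ▸ separable_prod_X_sub_C_iff.2 fun i j k => h5.injective_of_prod_X_sub_C (congrArg _ k)
  refine h6.eval₂_derivative_ne_zero (RingHom.id Ω) (x := φ (η j)) ?_ ?_
  · rw [eval₂_map, RingHom.id_comp, ← e, ← hom_eval₂, h0, map_zero]
  · rw [derivative_map, eval₂_map, RingHom.id_comp, ← e, ← hom_eval₂, h1, map_zero]

omit [IsAlgClosed K'] [CharZero K'] [CompleteSpace K'] in
theorem Pu_res {η : PowerSeries K'} {A B c : ℝ} (hB : 1 ≤ B) (hc : 0 ≤ c) (h1 : B * c < 1)
    (h : ∀ n, ‖PowerSeries.coeff n η‖ ≤ A * B ^ n) : η ∈ Res K' fun _ : Unit => c := by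
  refine (PowerSeries.isRestricted_iff' c η).2 (squeeze_zero (fun n => by positivity) (fun n => ?_)
    (by simpa using (tendsto_pow_atTop_nhds_zero_of_lt_one (by positivity) h1).const_mul A))
  rw [mul_pow, ← mul_assoc]
  exact mul_le_mul_of_nonneg_right (h n) (pow_nonneg hc n)

omit [CharZero K'] in
theorem Pu_coef (L : IntermediateField K₁ K') {c : ℝ} {ζ : K'} (hζ : ζ ∈ L) (h : ‖ζ‖ ≤ c)
    (F : Res K' fun _ : Unit => c) (hF : ∀ n, PowerSeries.coeff n F.1 ∈ L) (m : ℤ) :
    coef (lineR (fun _ => c) (fun _ => ζ) (fun _ => h) F) m ∈ L := by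
  rw [lineR, coef_line, lc]
  split_ifs with hm
  · rw [hc, map_sum]
    refine sum_mem fun I _ => ?_
    rw [MvPolynomial.aeval_monomial, ← PowerSeries.coeff_def rfl]
    exact mul_mem (hF _) (prod_mem fun _ _ => pow_mem hζ _)
  · exact zero_mem _

omit [CharZero K'] in
theorem Pu_mul (L : IntermediateField K₁ K') (ρ : K) (e N : ℕ) {f : L1 K' Rad.out}
    (hf : ∀ m, coef f m ∈ L) (m : ℤ) :
    coef ((algebraMap K (L1 K' Rad.out) ρ * Zf K' Rad.out ^ e) ^ N * f) m ∈ L := by
  have h1 : ∀ m, coef (Zf K' Rad.out ^ (e * N) * f) m ∈ L := by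
    induction e * N with
    | zero => simpa using hf
    | succ n ih =>
      intro m
      have h := coef_lin_mul (0 : K') (Zf K' Rad.out ^ n * f) m
      rw [lin, map_zero, sub_zero, zero_mul, sub_zero] at h
      rw [pow_succ', mul_assoc, h]
      exact ih _
  rw [mul_pow, ← pow_mul, mul_assoc, ← map_pow, IsScalarTower.algebraMap_apply K K', ← Algebra.smul_def,
    coef_smul, IsScalarTower.algebraMap_apply K K₁ K']
  exact mul_mem (L.algebraMap_mem _) (h1 m)

theorem puiseux (μ : K₁[X][X]) (hμ : μ.Monic) {a b : K₁[X][X]} {Δ : K₁[X]} (hΔ : Δ ≠ 0)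
    (hab : a * μ + b * derivative μ = C Δ) :
    ∃ (e : ℕ) (_ : 0 < e) (ρ : K) (_ : ρ ≠ 0) (L : IntermediateField K₁ K')
      (_ : FiniteDimensional K₁ L) (θ : Fin μ.natDegree → L1 K' Rad.out),
      (∀ j m, coef (θ j) m ∈ L) ∧
      μ.map (aeval (algebraMap K (L1 K' Rad.out) ρ * Zf K' Rad.out ^ e) :
        K₁[X] →ₐ[K₁] L1 K' Rad.out).toRingHom = ∏ j, (X - C (θ j)) := by
  obtain ⟨N, ν, hν, hs, H⟩ := Pu_rev μ hμ
  obtain ⟨e, he, η, halg, hη⟩ := Pu_split (K' := K') ν hν hs
  have hsim := Pu_simple (Pu_inj (K₁ := K₁) (K' := K') he) hΔ hab H hη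
  rw [← Pu_pps] at hsim
  have hconv := fun j => puiseux_conv (ν.map (expand K₁ e : K₁[X] →+* K₁[X])) (η j) (halg j)
    (by rw [eval₂_map]; exact (hsim j).1) (by rw [derivative_map, eval₂_map]; exact (hsim j).2)
  choose L hL hLη A B hA hB hAB using hconv
  have hB0 : ∀ j, 0 ≤ B j := fun j => zero_le_one.trans (hB j)
  have hS : 0 < ∑ j, B j + 1 := add_pos_of_nonneg_of_pos (Finset.sum_nonneg fun j _ => hB0 j) one_pos
  obtain ⟨ε, hε0, hε⟩ := NormedField.exists_norm_lt K (inv_pos.2 hS)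
  have hres : ∀ j, η j ∈ Res K' fun _ : Unit => ‖ε‖ := fun j => Pu_res (hB j) hε0.le
    ((mul_le_mul_of_nonneg_right ((Finset.single_le_sum (fun j _ => hB0 j) (Finset.mem_univ j)).trans
      (le_add_of_nonneg_right zero_le_one)) hε0.le).trans_lt
        ((lt_inv_mul_iff₀ hS).1 (by rwa [mul_one]))) (hAB j)
  have hε1 : ε ≠ 0 := norm_pos_iff.1 hε0
  set ℓ := lineR (fun _ : Unit => ‖ε‖) (fun _ => algebraMap K K' ε)
    (fun _ => (norm_algebraMap' K' ε).le) (K := K') with hℓ
  let x : Res K' fun _ : Unit => ‖ε‖ := ⟨PowerSeries.X, PowerSeries.isRestricted_monomial _ 1 1⟩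
  have hx : Zf K' Rad.out * ℓ x = algebraMap K _ ε := by
    refine Subtype.ext (funext fun t => ?_)
    have h1 : (ℓ x).1 t = algebraMap K K' ε * t.v ^ (-1 : ℤ) := by
      have h2 := ev_coe (z := fun _ : Unit => algebraMap K K' ε * t.v ^ (-1 : ℤ))
        (MvPolynomial.X () : MvPolynomial Unit K')
      rw [MvPolynomial.coe_X, MvPolynomial.aeval_X] at h2
      exact h2
    change t.v * (ℓ x).1 t = algebraMap K K' ε
    rw [h1, zpow_neg_one, mul_left_comm, mul_inv_cancel₀ t.1.ne_zero, mul_one]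
  have hu : algebraMap K (L1 K' Rad.out) (ε⁻¹ ^ e) * Zf K' Rad.out ^ e * ℓ x ^ e = 1 := by
    rw [mul_assoc, ← mul_pow, hx, ← map_pow, ← map_mul, ← mul_pow, inv_mul_cancel₀ hε1, one_pow,
      map_one]
  have h1 : ν.map (eval₂RingHom (algebraMap K₁ (Res K' fun _ : Unit => ‖ε‖)) (x ^ e)) =
      ∏ j, (X - C ⟨η j, hres j⟩) := by
    refine map_injective (Res K' fun _ : Unit => ‖ε‖).val.toRingHom Subtype.val_injective ?_
    rw [Polynomial.map_map, Polynomial.map_prod]
    simp only [Polynomial.map_sub, map_X, map_C]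
    refine Eq.trans ?_ hη
    congr 1
    refine ringHom_ext (fun a => ?_) ?_
    · rw [RingHom.comp_apply, coe_eval₂RingHom, coe_eval₂RingHom, eval₂_C, eval₂_C]
      exact MvPowerSeries.algebraMap_apply
    · rw [RingHom.comp_apply, coe_eval₂RingHom, coe_eval₂RingHom, eval₂_X, eval₂_X, map_pow]
      rfl
  have h2 : ν.map (eval₂RingHom (algebraMap K₁ (L1 K' Rad.out)) (ℓ x ^ e)) =
      ∏ j, (X - C (ℓ ⟨η j, hres j⟩)) := by
    have h3 := congrArg (Polynomial.map (ℓ.restrictScalars K₁).toRingHom) h1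
    rw [Polynomial.map_map, Polynomial.map_prod] at h3
    simp only [Polynomial.map_sub, map_X, map_C] at h3
    refine Eq.trans ?_ h3
    congr 1
    exact ringHom_ext (fun a => by simp) (by simp)
  exact ⟨e, Nat.pos_of_ne_zero he, ε⁻¹ ^ e, pow_ne_zero _ (inv_ne_zero hε1), ⨆ j, L j,
    inferInstance, _, fun j => Pu_mul K _ _ e N (Pu_coef _
      (IsScalarTower.algebraMap_apply K K₁ K' ε ▸ IntermediateField.algebraMap_mem _ _) _ _
      fun n => le_iSup L j (hLη j n)), H _ _ _ _ hu _ h2⟩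

end Pool.Agent.Work.MP_e120ef_ag.H
end
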