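import Pool.Agent.Work.MP_e120ef_ag.C.BMI
import Pool.Agent.Work.MP_e120ef_ag.C.Dsc2
import Pool.Agent.Work.MP_e120ef_ag.Bad
import Pool.Agent.Work.MP_e120ef_ag.Ctl

attribute [-instance] Subalgebra.normedCommRing Subalgebra.seminormedCommRing
  Subalgebra.seminormedRing Subalgebra.normedRing
  Localization.subalgebra.instIsFractionRingSubtypeMemSubalgebra
attribute [local instance 2000] RingHomClass.toAddMonoidHomClass AddMonoidHomClass.toAddHomClass
  RingHom.instRingHomClass AlgHomClass.toRingHomClass IsDomain.to_noZeroDivisors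
  IsDomain.toNontrivial NeZero.one RingHomClass.toMonoidHomClass MonoidHomClass.toMulHomClass
  RingHomClass.toMonoidWithZeroHomClass AddMonoidHomClass.toZeroHomClass MonoidHomClass.toOneHomClass
attribute [-instance] instCharZeroOfIsSemireal AlgHom.instContinuousLinearMapClassOfAlgHomClass
  RingHomClass.toLinearMapClassRat RingHomClass.toLinearMapClassNNRat NumberField.to_charZero

-- merged part: Pool.Agent.Work.MP_e120ef_ag.H.HC
section
/-!
# The maximum principle on a polydisc; bounded functions on the group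

Plans.  `exists_lhat`: `IsFractionRing.liftAlgHom` (or `IsFractionRing.lift`) with `lT_inj`, `im_ne`.
`lhat_pdF`: as in `Arc_mk` (`Arc.lean`): let `δ` extend `Γ.d l` to `K'` (`exists_der_ext`), `𝒟` from `exists_DC` with `L = ⊥`.  The coefficients of `lT F` are `aeval w' (hc d F)` at `-d` (`Gauss_coef`, `lc_mul`, `lc_of_not`); `Arc_chain`, `d_w`, `pderiv_hc` give `lT (pdT l F) = Zf * g` with `coef g m = δ (coef (lT F) m)` (`DC_ex` with `fin_der`, `Rat_coef_pow`, `DerL_ext`).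
So `ℓ (pdF l x) = im Zf * 𝒟 (ℓ x)` for `x = imT F`, and for quotients (`FT_rep`, Leibniz for `imT b * x = imT a`); all `ℓ x` are in `QL`; `im_regV`.
`lhat_preV`: `tl_apply`, `im_regV`, `regV_alg`.  `max_disc`: `exists_GD`, `exists_Kp`, `max_out` for `lT a`, `lT b` (`coef_lT_zero`, `coef_lT_pos`, `gn_lT`, `norm_algebraMap'`).
`hc_const`: `ubp` for the maps `κ` of the chosen charts at all closed points (`κ_hat`, `tl_bound`) bounds `‖τ (j r)‖` (`κ_J`) by `C`.  For `const_of_bdd` let `HasVal p r c`; take `b` from `aff_frac`, `β`, `α` from `reg` for `b`, `b * r`; `HasVal.isU`, `HasVal.mul`, `HasVal.unique` give `constantCoeff α = constantCoeff β * c`; `j r = imT α / imT β`, `max_disc`, `norm_τ`.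
`Chart.tl_eq`: apply the injective map `τ`; `τ_tl`, `κ_φ`, `κ_J`, `κ_hat`.
-/

open CategoryTheory AlgebraicGeometry MvPowerSeries

namespace Pool.Agent.Work.MP_e120ef_ag.H

variable {K : Type} [NontriviallyNormedField K] [IsUltrametricDist K] [CharZero K] {n g : ℕ}
  {K₁ : Type} [NontriviallyNormedField K₁] [IsUltrametricDist K₁] [CompleteSpace K₁]
  [NormedAlgebra K K₁] (Γ : GD K n K₁)

section line

variable (K' : Type) [NontriviallyNormedField K'] [IsUltrametricDist K'] [CompleteSpace K']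
  [IsAlgClosed K'] [CharZero K'] [NormedAlgebra K K'] [NormedAlgebra K₁ K'] [IsScalarTower K K₁ K']

theorem exists_lhat : ∃ ℓ : FT K n →ₐ[K] MM K' Rad.out, ∀ F, ℓ (imT F) = im (Γ.lT K' F) := by
  have hj : Function.Injective
      ((IsScalarTower.toAlgHom K (L1 K' Rad.out) (MM K' Rad.out)).comp (Γ.lT K')) :=
    (IsFractionRing.injective (L1 K' Rad.out) _).comp (Γ.lT_inj K')
  refine ⟨IsFractionRing.liftAlgHom (K := FT K n) hj, fun F => ?_⟩
  rw [IsFractionRing.liftAlgHom_apply, IsFractionRing.lift_algebraMap]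
  rfl

theorem HC_lc (F : T K n) (m : ℤ) : ∃ Q : MvPolynomial (Fin n) K,
    coef (Γ.lT K' F) m = MvPolynomial.aeval (Γ.w' K') Q ∧
      ∀ l, coef (Γ.lT K' (pdT K l F)) (m + 1) =
        MvPolynomial.aeval (Γ.w' K') (MvPolynomial.pderiv l Q) := by
  simp only [Γ.Gauss_coef, pdT_val]
  by_cases h : ∃ d : ℕ, m = -1 * d
  · obtain ⟨d, rfl⟩ := h
    refine ⟨hc d F.1, lc_mul _ _ (by decide) d, fun l => ?_⟩
    cases d with
    | zero =>
      rw [hc_zero, MvPolynomial.pderiv_C, map_zero]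
      exact lc_of_not _ _ fun d h => by omega
    | succ d =>
      rw [pderiv_hc, show -1 * ((d + 1 : ℕ) : ℤ) + 1 = -1 * (d : ℤ) by omega,
        lc_mul _ _ (by decide)]
  · refine ⟨0, (lc_of_not _ _ fun d hd => h ⟨d, hd⟩).trans (map_zero _).symm, fun l => ?_⟩
    rw [map_zero, map_zero]
    exact lc_of_not _ _ fun d hd => h ⟨d + 1, by omega⟩

theorem HC_mem (L : IntermediateField K₁ K') (F : T K n) (m : ℤ) : coef (Γ.lT K' F) m ∈ L := by
  obtain ⟨Q, h1, -⟩ := HC_lc Γ K' F m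
  have h2 : MvPolynomial.aeval (Γ.w' K') Q = algebraMap K₁ K' (MvPolynomial.aeval Γ.w Q) :=
    MvPolynomial.aeval_algebraMap_apply K' Γ.w Q
  rw [h1, h2]
  exact L.algebraMap_mem _

variable {K'} {ℓ : FT K n →ₐ[K] MM K' Rad.out} (hℓ : ∀ F, ℓ (imT F) = im (Γ.lT K' F))
include hℓ

theorem lhat_pdF (l : Fin n) (z : Pt1 K' Rad.out) {x : FT K n}
    (hx : ℓ x ∈ (nev K' Rad.out).regV z) : ℓ (pdF K l x) ∈ (nev K' Rad.out).regV z := by
  obtain ⟨δ, hδ, -⟩ := exists_der_ext (IsScalarTower.toAlgHom K K₁ K') (Γ.d l) (ι := Empty)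
    (fun i => i.elim) (fun Q hQ => by
      rw [Q.eq_C_of_isEmpty] at hQ ⊢
      rw [MvPolynomial.eval₂_C, _root_.map_eq_zero] at hQ
      rw [hQ, map_zero]) fun i => i.elim
  have hd : ∀ x, ‖Γ.d l x‖ ≤ 1 * ‖x‖ := by simpa using Γ.d_le l
  obtain ⟨𝒟, C, -, h1, -, h3⟩ :=
    exists_DC Rad.out (⊥ : IntermediateField K₁ K') (Γ.d l) hd δ hδ
  obtain ⟨-, C', -, hC'⟩ := fin_der (Γ.d l) hd δ hδ (⊥ : IntermediateField K₁ K')
  have key : ∀ F : T K n,
      im (Γ.lT K' (pdT K l F)) = im (Zf K' Rad.out) * 𝒟 (im (Γ.lT K' F)) := by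
    intro F
    obtain ⟨u, hu⟩ := DC_ex hC' (HC_mem Γ K' ⊥ F)
    rw [h1 _ u (HC_mem Γ K' ⊥ F) hu, ← map_mul]
    refine congrArg im (DerL_ext fun m => ?_)
    obtain ⟨Q, k1, k2⟩ := HC_lc Γ K' F (m - 1)
    have k3 := Rat_coef_pow 1 u m
    rw [pow_one, Nat.cast_one] at k3
    have k4 := k2 l
    rw [sub_add_cancel] at k4
    rw [k3, hu, k1, k4, Arc_chain δ _ l 1 fun i => ?_, one_mul]
    rw [show δ (Γ.w' K' i) = _ from hδ (Γ.w i), GD.d_w]
    split_ifs <;> simp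
  obtain ⟨a, b, -, rfl⟩ := FT_rep x
  have hQ : ℓ (imT a / imT b) ∈ QL K Rad.out (⊥ : IntermediateField K₁ K') := by
    rw [map_div₀, hℓ, hℓ]
    exact div_mem (im_mem_QL (HC_mem Γ K' ⊥ a)) (im_mem_QL (HC_mem Γ K' ⊥ b))
  have e : ℓ (pdF K l (imT a / imT b)) = im (Zf K' Rad.out) * 𝒟 (ℓ (imT a / imT b)) := by
    rw [map_div₀ ℓ, hℓ, hℓ, Derivation.leibniz_div, Derivation.leibniz_div, pdF_im, pdF_im]
    simp only [smul_eq_mul, map_mul, map_sub, map_pow, map_inv₀, hℓ, key]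
    ring
  rw [e]
  exact mul_mem (im_regV _ z) (h3 _ hQ z hx)

theorem lhat_preV (N : Fin g → Fin n → T K n) (z : Pt1 K' Rad.out) :
    PreV K (fun k x => tl N k x) (((nev K' Rad.out).regV z).comap ℓ.toRingHom) := by
  refine ⟨fun c => ?_, fun k x hx => ?_⟩
  · change ℓ (algebraMap K _ c) ∈ (nev K' Rad.out).regV z
    rw [AlgHom.commutes, IsScalarTower.algebraMap_apply K K']
    exact Nev.regV_alg _ z _
  · change ℓ (tl N k x) ∈ (nev K' Rad.out).regV z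
    rw [tl_apply, map_sum]
    refine sum_mem fun l _ => ?_
    rw [map_mul, hℓ]
    exact mul_mem (im_regV _ z) (lhat_pdF Γ hℓ l z hx)

end line

theorem max_disc (N : Fin g → Fin n → T K n) {a b : T K n} (hb : constantCoeff b.1 ≠ 0)
    (h : ∀ 𝒪, PreV K (fun k x => tl N k x) 𝒪 → imT a / imT b ∈ 𝒪) :
    ‖constantCoeff a.1 / constantCoeff b.1‖ ≤ gN a / gN b := by
  obtain ⟨K₁, _, _, _, _, ⟨Γ⟩⟩ := exists_GD K n
  obtain ⟨K', _, _, _, _, _, _, _, _⟩ := exists_Kp K K₁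
  obtain ⟨ℓ, hℓ⟩ := exists_lhat Γ K'
  have h1 := max_out (a := Γ.lT K' a) (b := Γ.lT K' b) (fun m hm => Γ.coef_lT_pos K' a hm)
    (fun m hm => Γ.coef_lT_pos K' b hm) (by
      rw [Γ.coef_lT_zero]
      exact (map_ne_zero _).2 hb) fun z => by
      have h2 : ℓ (imT a / imT b) ∈ (nev K' Rad.out).regV z := h _ (lhat_preV Γ hℓ N z)
      rwa [map_div₀, hℓ, hℓ] at h2
  rwa [Γ.coef_lT_zero, Γ.coef_lT_zero, Γ.gn_lT, Γ.gn_lT, ← map_div₀, norm_algebraMap'] at h1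

variable [CompleteSpace K] [IsAlgClosed K] {G X : Sch K} [GrpObj G]
  [IsIntegral G.left] [IsIntegral X.left] [LocallyOfFiniteType G.hom] {U : G.left.Opens}
  {𝒩 : ND (B G U) n} {M : Type} [Field M] [Algebra K M] {𝓜 : MI 𝒩 M} {φ : Fn X →ₐ[K] M}
  {ξ : Fin g → Dr G} {N : Fin g → Fin n → T K n} {Γ}

theorem Chart.tl_eq {q : G.left} (c : Chart Γ 𝓜 φ ξ N q) {ι : Type} [Fintype ι] {k : Fin g}
    {y : Fn X} {r : ι → Fn G} {y' : ι → Fn X}
    (h : 𝓜.hat (ξ k) (φ y) = ∑ i, 𝓜.J (r i) * φ (y' i)) :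
    tl N k (c.χ y) = ∑ i, c.j (r i) * c.χ (y' i) := by
  refine Γ.τ.toRingHom.injective ?_
  change Γ.τ _ = Γ.τ _
  rw [τ_tl, ← c.κ_φ, ← c.κ_hat, h, map_sum, map_sum]
  exact Finset.sum_congr rfl fun i _ => by rw [map_mul, map_mul, c.κ_J, c.κ_φ]

theorem Chart.j_eq {q : G.left} (c : Chart Γ 𝓜 φ ξ N q) {y : Fn X} {r : Fn G}
    (h : φ y = 𝓜.J r) : c.χ y = c.j r := by
  refine Γ.τ.toRingHom.injective ?_
  change Γ.τ _ = Γ.τ _
  rw [← c.κ_φ, h, c.κ_J]

theorem hc_const (hq : ∀ q, IsClosed ({q} : Set G.left) → Nonempty (Chart Γ 𝓜 φ ξ N q)) {r : Fn G}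
    (h₁ : ∀ 𝒪, InvV K (fun k x => 𝓜.hat (ξ k) x) 𝒪 → 𝓜.J r ∈ 𝒪)
    (h₂ : ∀ q (c : Chart Γ 𝓜 φ ξ N q) 𝒪, PreV K (fun k x => tl N k x) 𝒪 → c.j r ∈ 𝒪) :
    ∃ c : K, r = algebraMap K (Fn G) c := by
  let ch : ∀ q : {q : G.left // IsClosed ({q} : Set G.left)}, Chart Γ 𝓜 φ ξ N q.1 :=
    fun q => (hq q.1 q.2).some
  obtain ⟨C, hC⟩ := ubp (fun q => (ch q).κ) (d := fun k x => 𝓜.hat (ξ k) x) (fun k => by
    obtain ⟨C, h0, hC⟩ := tl_bound Γ N k
    exact ⟨C, h0, fun q x => by rw [(ch q).κ_hat]; exact hC _⟩) h₁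
  refine const_of_bdd (C := C) fun p c hp hv => ?_
  obtain ⟨u, hu⟩ : ∃ u : Chart Γ 𝓜 φ ξ N p, ‖u.κ (𝓜.J r)‖ ≤ C := ⟨ch ⟨p, hp⟩, hC ⟨p, hp⟩⟩
  obtain ⟨b, hb, hU, hbr⟩ := aff_frac u.aff u.mem hv.mem
  obtain ⟨β, h1, h2⟩ := u.reg b hb
  obtain ⟨α, h3, h4⟩ := u.reg _ hbr
  have h5 : constantCoeff β.1 ≠ 0 := h2.isU.1 hU
  have h6 : imT β ≠ 0 := fun h => h5 (by
    rw [imT_inj (h.trans (map_zero (algebraMap (T K n) (FT K n))).symm)]
    exact map_zero _)
  have h7 : u.j r = imT α / imT β := by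
    rw [eq_div_iff h6, ← h1, ← h3, map_mul, mul_comm]
  have h8 : c = constantCoeff α.1 / constantCoeff β.1 := by
    rw [eq_div_iff h5, h4.unique (h2.mul hv), mul_comm]
  rw [h8]
  refine (max_disc N h5 fun 𝒪 h𝒪 => h7 ▸ h₂ p u 𝒪 h𝒪).trans ?_
  rwa [u.κ_J, h7, map_div₀, norm_div, Γ.norm_τ, Γ.norm_τ] at hu

end Pool.Agent.Work.MP_e120ef_ag.H
end

-- merged part: Pool.Agent.Work.MP_e120ef_ag.H.Den
section
-- merged part: Pool.Agent.Work.MP_e120ef_ag.H.Tan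
section
/-!
# Tangent vectors at arbitrary points of a smooth variety

Plans.  `Tan_ess`: `O X x` is a localisation of `B X U` (`aff_isLocalization`, `aff_finiteType`; `Algebra.EssFiniteType.of_isLocalization`, `comp`).
`dual_basis`: `Ω = Ω[O X c⁄K]` is finite (`KaehlerDifferential.finite`) and projective (`O_smooth`); it is generated by finitely many `D b i` (`KaehlerDifferential.span_range_derivation`, `Submodule.mem_span_finite_of_mem_span`/`exists_finite_card_le..`); split the surjection `(Fin r → O X c) → Ω` (`Module.projective_lifting_property`), the coordinates of the section composed with the universal derivation are derivations of `O X c`, extend them by `frac_ext`.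
A map `d` as in the statement is a derivation for the module structure through `ρ` (`ρ.toAlgebra`, `Derivation.liftKaehlerDifferential`).
`mem_sq`: let `R = O X c`, `S = R ⧸ m ^ 2`; the residue field is formally smooth over `K` (`Algebra.FormallySmooth.of_perfectField`, `Tan_ess`), so there is a `K`-algebra section `σ` of `S → R ⧸ m` (`FormallySmooth.lift`/`exists_lift`); `d r = mk r - σ (residue r)` satisfies Leibniz along `mk`; `dual_basis` gives `mk a = d a = ∑ mk (D i a) * d (b i) = 0`.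
`frame_reg`: `IsFrame.span` for the identity, `IsFrame.unit`, `solve_mem`.
`two_fields`: if all the minors are in `mp A y 1`: either all `δ i a` (`a ∈ mp A y 1`) are in `mp A y 1`, then put `a₁ = 0`; or some `δ i₁ a₁` is a unit, and `a - (δ i₁ a / δ i₁ a₁) * a₁` is in `mp A y 2` by `mem_sq`.  Nakayama (`Submodule.le_of_le_smul_of_le_jacobson_bot`) gives `maximalIdeal = span {a₁}`.  For `d` as in `Cod2` take `0 ≠ e ∈ mp A d 1 ∩ O A y` (`exists_ne_zero`, `spec_frac`); `a₁ ∉ mp A d 1` (`spec_of_le`, `Specializes.antisymm`), so `e` is divisible by all powers of `a₁`; Krull (`Ideal.iInf_pow_eq_bot_of_isLocalRing`).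
-/

open CategoryTheory AlgebraicGeometry

namespace Pool.Agent.Work.MP_e120ef_ag.H

/-- a dual basis for the differentials -/
theorem Tan_dual (K R : Type) [Field K] [CommRing R] [Algebra K R] [Algebra.FormallySmooth K R]
    [Algebra.EssFiniteType K R] : ∃ (r : ℕ) (D : Fin r → Derivation K R R) (b : Fin r → R),
      ∀ (S : Type) [CommRing S] [Algebra K S] (ρ : R →ₐ[K] S) (d : R →ₗ[K] S),
        (∀ a a', d (a * a') = ρ a * d a' + ρ a' * d a) →
        ∀ a : R, d a = ∑ i, ρ (D i a) * d (b i) := by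
  have h1 : (Submodule.span R (Set.range (KaehlerDifferential.D K R))).FG := by
    rw [KaehlerDifferential.span_range_derivation]
    exact Module.Finite.fg_top
  obtain ⟨s, hs, e⟩ := (Submodule.fg_span_iff_fg_span_finset_subset _).1 h1
  rw [KaehlerDifferential.span_range_derivation] at e
  choose b hb using fun i : Fin s.card => hs (s.equivFin.symm i).2
  have h2 : Function.Surjective
      (Fintype.linearCombination R fun i => KaehlerDifferential.D K R (b i)) := by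
    rw [← LinearMap.range_eq_top, Fintype.range_linearCombination, eq_top_iff, e]
    refine Submodule.span_mono fun ω hω => ⟨s.equivFin ⟨ω, hω⟩, ?_⟩
    simp only [hb, Equiv.symm_apply_apply]
  obtain ⟨h, hh⟩ := Module.projective_lifting_property _ LinearMap.id h2
  refine ⟨s.card, fun i => (LinearMap.proj i ∘ₗ h).compDer (KaehlerDifferential.D K R), b,
    fun S _ _ ρ d hd a => ?_⟩
  let _ : Algebra R S := ρ.toRingHom.toAlgebra
  have : IsScalarTower K R S := .of_algebraMap_eq fun c => (ρ.commutes c).symm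
  let d' : Derivation K R S := Derivation.mk' d hd
  have h3 := congrArg d'.liftKaehlerDifferential
    (LinearMap.congr_fun hh (KaehlerDifferential.D K R a))
  rw [LinearMap.comp_apply, Fintype.linearCombination_apply, map_sum, LinearMap.id_apply,
    Derivation.liftKaehlerDifferential_comp_D] at h3
  refine h3.symm.trans (Finset.sum_congr rfl fun i _ => ?_)
  rw [map_smul, Derivation.liftKaehlerDifferential_comp_D]
  rfl

open IsLocalRing in
/-- the differential with values in the cotangent space -/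
theorem Tan_cot (K R : Type) [Field K] [CharZero K] [CommRing R] [IsLocalRing R] [Algebra K R]
    [Algebra.EssFiniteType K R] : ∃ d : R →ₗ[K] R ⧸ maximalIdeal R ^ 2,
      (∀ a a', d (a * a') = Ideal.Quotient.mkₐ K _ a * d a' + Ideal.Quotient.mkₐ K _ a' * d a) ∧
      (∀ a ∈ maximalIdeal R, d a = Ideal.Quotient.mkₐ K _ a) ∧
      ∀ a ∈ maximalIdeal R, ∀ b, Ideal.Quotient.mkₐ K _ a * d b = 0 := by
  let _ : Field (R ⧸ maximalIdeal R) := Ideal.Quotient.field _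
  have : Algebra.EssFiniteType K (R ⧸ maximalIdeal R) :=
    .of_surjective (Ideal.Quotient.mkₐ K _) (Ideal.Quotient.mkₐ_surjective K _)
  have : Algebra.FormallySmooth K (R ⧸ maximalIdeal R) := .of_perfectField
  let g : (R ⧸ maximalIdeal R ^ 2) →ₐ[K] R ⧸ maximalIdeal R :=
    Ideal.Quotient.factorₐ K (Ideal.pow_le_self two_ne_zero)
  have hg : ∀ a, g (Ideal.Quotient.mkₐ K _ a) = Ideal.Quotient.mkₐ K _ a := fun _ => rfl
  have h0 : ∀ u v, g u = 0 → g v = 0 → u * v = 0 := by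
    intro u v hu hv
    obtain ⟨u, rfl⟩ := Ideal.Quotient.mkₐ_surjective K _ u
    obtain ⟨v, rfl⟩ := Ideal.Quotient.mkₐ_surjective K _ v
    rw [← map_mul]
    refine Ideal.Quotient.eq_zero_iff_mem.2 ?_
    rw [sq]
    exact Ideal.mul_mem_mul (Ideal.Quotient.eq_zero_iff_mem.1 hu)
      (Ideal.Quotient.eq_zero_iff_mem.1 hv)
  have hs : Function.Surjective g := fun u => by
    obtain ⟨u, rfl⟩ := Ideal.Quotient.mkₐ_surjective K _ u
    exact ⟨_, hg u⟩
  have hn : IsNilpotent (RingHom.ker g) :=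
    ⟨2, (sq _).trans (eq_bot_iff.2 (Ideal.mul_le.2 fun u hu v hv => h0 u v hu hv))⟩
  obtain ⟨σ, hσ⟩ : ∃ σ : (R ⧸ maximalIdeal R) →ₐ[K] R ⧸ maximalIdeal R ^ 2, ∀ u, g (σ u) = u :=
    ⟨_, Algebra.FormallySmooth.liftOfSurjective_apply (AlgHom.id K _) g hs hn⟩
  have hd : ∀ a, g (Ideal.Quotient.mkₐ K _ a - σ (Ideal.Quotient.mkₐ K _ a)) = 0 := fun a => by
    rw [map_sub, hg, hσ, sub_self]
  refine ⟨(Ideal.Quotient.mkₐ K _).toLinearMap - (σ.comp (Ideal.Quotient.mkₐ K _)).toLinearMap,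
    fun a a' => ?_, fun a ha => ?_, fun a ha b => h0 _ _ ?_ (hd b)⟩
  · have := h0 _ _ (hd a) (hd a')
    simp only [LinearMap.sub_apply, AlgHom.toLinearMap_apply, AlgHom.comp_apply, map_mul]
    linear_combination -this
  · have : Ideal.Quotient.mkₐ K (maximalIdeal R) a = 0 := Ideal.Quotient.eq_zero_iff_mem.2 ha
    simp only [LinearMap.sub_apply, AlgHom.toLinearMap_apply, AlgHom.comp_apply, this, map_zero,
      sub_zero]
  · exact (hg a).trans (Ideal.Quotient.eq_zero_iff_mem.2 ha)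

variable {K : Type} [Field K] {X : Sch K} [IsIntegral X.left] {M : Type} [Field M] [Algebra K M]

/-- `c` is the centre of the valuation ring `𝒪` for the embedding `χ` -/
structure Cf (χ : Fn X →ₐ[K] M) (𝒪 : ValuationSubring M) (c : X.left) : Prop where
  mem : ∀ h ∈ O X c, χ h ∈ 𝒪
  non : ∀ h ∈ O X c, χ h ∈ 𝒪.nonunits ↔ h ∈ mp X c 1

theorem Cf.map {A : Sch K} [IsIntegral A.left] {α : X ⟶ A} (hα : Dom α) {χ : Fn X →ₐ[K] M}
    {𝒪 : ValuationSubring M} {c : X.left} (h : Cf χ 𝒪 c) :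
    Cf (χ.comp (pbF hα)) 𝒪 (α.left c) :=
  ⟨fun _ ha => h.mem _ (pb_mem_O ha), fun _ ha => (h.non _ (pb_mem_O ha)).trans (pb_mem_mp_one ha)⟩

variable [IsProper X.hom]

/-- use `exists_ctr` with the slice at the generic point (`O_gp`, `mem_mp_gp`) -/
theorem exists_cf (χ : Fn X →ₐ[K] M) (𝒪 : ValuationSubring M)
    (hK : ∀ k : K, algebraMap K M k ∈ 𝒪) : ∃ c, Cf χ 𝒪 c := by
  obtain ⟨c, h⟩ := exists_ctr (⟨gp X, χ, fun a _ b _ => map_add χ a b, fun a _ b _ => map_mul χ a b,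
    χ.commutes, fun a _ => (map_eq_zero χ).trans mem_mp_gp.symm⟩ : Sl X M) 𝒪 hK
  exact ⟨c, h.mem, h.non⟩

theorem Tan_ess (x : X.left) : Algebra.EssFiniteType K (O X x) := by
  obtain ⟨U, hU, hx, -⟩ := exists_aff (W := ⊤) (x := x) trivial
  let := (Subalgebra.inclusion (B_le_O hx)).toRingHom.toAlgebra
  have := aff_isLocalization hU hx
  have := aff_finiteType hU (gp_mem hx)
  have : IsScalarTower K (B X U) (O X x) := .of_algebraMap_eq fun _ => rfl
  have : Algebra.EssFiniteType (B X U) (O X x) := .of_isLocalization _ (pr hx).primeCompl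
  exact .comp K (B X U) (O X x)

section smooth

variable [Smooth X.hom]

theorem dual_basis (c : X.left) : ∃ (r : ℕ) (D : Fin r → Dr X) (H : ∀ i, RegAt (D i) c)
    (b : Fin r → O X c), ∀ (S : Type) [CommRing S] [Algebra K S] (ρ : O X c →ₐ[K] S)
      (d : O X c →ₗ[K] S), (∀ a a', d (a * a') = ρ a * d a' + ρ a' * d a) →
      ∀ a : O X c, d a = ∑ i, ρ ⟨D i a, H i a a.2⟩ * d (b i) := by
  have := O_smooth c
  have := Tan_ess c
  obtain ⟨r, D₀, b, h⟩ := Tan_dual K (O X c)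
  choose D hD using fun i => frac_ext (F := Fn X) (D₀ i)
  have e : ∀ i (a : O X c), D i a = D₀ i a := hD
  refine ⟨r, D, fun i a ha => (e i ⟨a, ha⟩).symm ▸ (D₀ i ⟨a, ha⟩).2, b, fun S _ _ ρ d hd a => ?_⟩
  rw [h S ρ d hd a]
  exact Finset.sum_congr rfl fun i _ => congrArg (fun u => ρ u * d (b i)) (Subtype.ext (e i a).symm)

theorem tan_val {χ : Fn X →ₐ[K] M} {𝒪 : ValuationSubring M} {c : X.left} (h : Cf χ 𝒪 c)
    (d : Derivation K M M) (hd : ∀ x ∈ 𝒪, d x ∈ 𝒪) {a : Fn X} (ha : a ∈ O X c)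
    (H : ∀ D : Dr X, RegAt D c → D a ∈ mp X c 1) : d (χ a) ∈ 𝒪.nonunits := by
  obtain ⟨r, D, hD, b, h1⟩ := dual_basis c
  have h2 := h1 M (χ.comp (O X c).val) (d.toLinearMap ∘ₗ (χ.comp (O X c).val).toLinearMap)
    (fun u v => by
      simp only [LinearMap.comp_apply, AlgHom.toLinearMap_apply, map_mul,
        Derivation.coeFn_coe, Derivation.leibniz, smul_eq_mul]) ⟨a, ha⟩
  have h3 : d (χ a) = ∑ i, χ (D i a) * d (χ (b i)) := h2
  rw [h3]
  refine sum_mem fun i _ => ?_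
  have k1 := 𝒪.mem_nonunits_iff.1 ((h.non _ (hD i a ha)).2 (H _ (hD i)))
  have k2 := (𝒪.valuation_le_one_iff _).2 (hd _ (h.mem _ (b i).2))
  rw [𝒪.mem_nonunits_iff, map_mul]
  exact (mul_le_of_le_one_right' k2).trans_lt k1

theorem mem_sq [CharZero K] {c : X.left} {a : Fn X} (ha : a ∈ mp X c 1)
    (H : ∀ D : Dr X, RegAt D c → D a ∈ mp X c 1) : a ∈ mp X c 2 := by
  have := Tan_ess c
  obtain ⟨r, D, hD, b, h1⟩ := dual_basis c
  obtain ⟨d, d1, d2, d3⟩ := Tan_cot K (O X c)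
  have hm : ∀ u : O X c, (u : Fn X) ∈ mp X c 1 → u ∈ IsLocalRing.maximalIdeal (O X c) :=
    fun u hu => by simpa using (coe_mem_mp u).1 hu
  have h2 := h1 _ _ d d1 ⟨a, mem_O_of_mp ha⟩
  rw [d2 _ (hm _ ha), Finset.sum_eq_zero fun i _ => d3 _ (hm _ (H _ (hD i))) _] at h2
  exact (coe_mem_mp ⟨a, mem_O_of_mp ha⟩).2 (Ideal.Quotient.eq_zero_iff_mem.1 h2)

end smooth

variable {A : Sch K} [GrpObj A] [IsProper A.hom] [GeometricallyIntegral A.hom] {g : ℕ}
  {δ : Fin g → Dr A}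

theorem frame_reg (hδ : IsFrame δ) {y : A.left} {D : Dr A} (hD : RegAt D y) :
    ∃ c : Fin g → Fn A, (∀ i, c i ∈ O A y) ∧ ∀ a, D a = ∑ i, c i * δ i a := by
  obtain ⟨c, hc⟩ := hδ.span (Fn A) (AlgHom.id K _) D.toLinearMap fun a b => by
    simp only [Derivation.coeFn_coe, Derivation.leibniz, smul_eq_mul, AlgHom.id_apply]
  obtain ⟨b, hb, hu⟩ := hδ.unit y
  refine ⟨c, solve_mem (O A y).toSubring (fun k l => δ k (b l)) (fun k l => hδ.mem k y _ (hb l))
    hu.ne_zero hu.inv.1 fun l => ?_, hc⟩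
  have : D (b l) = ∑ k, c k * δ k (b l) := hc (b l)
  rw [← this]
  exact hD _ (hb l)

theorem two_fields [CharZero K] (hδ : IsFrame δ) {y : A.left} (hy : Cod2 y) :
    ∃ a₁ ∈ mp A y 1, ∃ a₂ ∈ mp A y 1, ∃ i₁ i₂,
      IsU A y (δ i₁ a₁ * δ i₂ a₂ - δ i₂ a₁ * δ i₁ a₂) := by
  have := av_smooth A
  by_contra hcon
  have hR : ∀ i, ∀ a ∈ mp A y 1, δ i a ∈ O A y := fun i a ha => hδ.mem i y a (mem_O_of_mp ha)
  have hmin : ∀ a₁ ∈ mp A y 1, ∀ a₂ ∈ mp A y 1, ∀ i₁ i₂,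
      δ i₁ a₁ * δ i₂ a₂ - δ i₂ a₁ * δ i₁ a₂ ∈ mp A y 1 := fun a₁ h₁ a₂ h₂ i₁ i₂ => by
    by_contra k
    exact hcon ⟨a₁, h₁, a₂, h₂, i₁, i₂, sub_mem (mul_mem (hR _ _ h₁) (hR _ _ h₂))
      (mul_mem (hR _ _ h₁) (hR _ _ h₂)), k⟩
  have key : ∀ a ∈ mp A y 1, (∀ i, δ i a ∈ mp A y 1) → a ∈ mp A y 2 := fun a ha h =>
    mem_sq ha fun D hD => by
      obtain ⟨c, hc, e⟩ := frame_reg hδ hD
      rw [e]
      exact sum_mem fun i _ => O_mul_mem_mp (hc i) (h i)
  obtain ⟨a₁, h₁, H⟩ : ∃ a₁ ∈ mp A y 1, ∀ a ∈ mp A y 1, ∃ u ∈ O A y, a - u * a₁ ∈ mp A y 2 := by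
    by_cases h : ∀ a ∈ mp A y 1, ∀ i, δ i a ∈ mp A y 1
    · exact ⟨0, zero_mem _, fun a ha => ⟨0, zero_mem _, by simpa using key a ha (h a ha)⟩⟩
    push Not at h
    obtain ⟨a₁, h₁, i₁, hv⟩ := h
    have hU : IsU A y (δ i₁ a₁) := ⟨hR _ _ h₁, hv⟩
    refine ⟨a₁, h₁, fun a ha => ?_⟩
    have hu : δ i₁ a * (δ i₁ a₁)⁻¹ ∈ O A y := mul_mem (hR _ _ ha) hU.inv.1
    refine ⟨_, hu, key _ (sub_mem ha (O_mul_mem_mp hu h₁)) fun i => ?_⟩
    rw [map_sub, Derivation.leibniz, smul_eq_mul, smul_eq_mul, ← sub_sub, mul_comm a₁]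
    refine sub_mem (hU.mul_mem_mp_iff.1 ?_) (O_mul_mem_mp (hδ.mem i y _ hu) h₁)
    convert hmin a₁ h₁ a ha i₁ i using 1
    have := hU.ne_zero
    field_simp
  have hN : IsLocalRing.maximalIdeal (O A y) ≤ Ideal.span {(⟨a₁, mem_O_of_mp h₁⟩ : O A y)} := by
    refine Submodule.le_of_le_smul_of_le_jacobson_bot (IsNoetherian.noetherian _)
      (IsLocalRing.maximalIdeal_le_jacobson ⊥) fun a ha => ?_
    obtain ⟨u, hu, h⟩ := H a ((coe_mem_mp a).2 (by rwa [pow_one]))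
    refine Submodule.mem_sup.2 ⟨⟨u, hu⟩ * ⟨a₁, mem_O_of_mp h₁⟩,
      Ideal.mul_mem_left _ _ (Ideal.mem_span_singleton_self _),
      a - ⟨u, hu⟩ * ⟨a₁, mem_O_of_mp h₁⟩, ?_, add_sub_cancel _ _⟩
    rw [smul_eq_mul, ← sq]
    exact (coe_mem_mp _).1 h
  have hdiv : ∀ a ∈ mp A y 1, ∃ u ∈ O A y, u * a₁ = a := fun a ha => by
    obtain ⟨u, hu⟩ := Ideal.mem_span_singleton'.1 (hN (by
      simpa using (coe_mem_mp ⟨a, mem_O_of_mp ha⟩).1 ha : (⟨a, mem_O_of_mp ha⟩ : O A y) ∈ _))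
    exact ⟨u, u.2, congrArg Subtype.val hu⟩
  obtain ⟨d, hd1, hd2, hd⟩ := hy
  have hn : a₁ ∉ mp A d 1 := fun k => hd2 (hd.antisymm (spec_of_le specializes_rfl hd
    fun a _ ha => by
      obtain ⟨u, hu, rfl⟩ := hdiv a ha
      exact O_mul_mem_mp (O_le_of_spec hd hu) k)).eq
  have hall : ∀ n : ℕ, ∀ e ∈ O A y, e ∈ mp A d 1 → e ∈ mp A y n := fun n => by
    induction n with
    | zero => exact fun e he _ => mem_mp_zero.2 he
    | succ n ih =>
      intro e he h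
      obtain ⟨u, hu, rfl⟩ := hdiv e (mem_mp_of_spec hd he h)
      exact mul_mem_mp (ih u hu ((mem_mp_or (O_le_of_spec hd hu)
        (O_le_of_spec hd (mem_O_of_mp h₁)) h).resolve_right hn)) h₁
  obtain ⟨e, he, he0⟩ := exists_ne_zero hd1
  obtain ⟨s, -, hs1, hs2⟩ := spec_frac hd (mem_O_of_mp he)
  have h5 : (⟨s * e, hs2⟩ : O A y) ∈ ⨅ n : ℕ, IsLocalRing.maximalIdeal (O A y) ^ n :=
    Ideal.mem_iInf.2 fun n => (coe_mem_mp _).1 (hall n _ hs2 (O_mul_mem_mp hs1.1 he))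
  rw [Ideal.iInf_pow_eq_bot_of_isLocalRing _ (IsLocalRing.maximalIdeal.isMaximal _).ne_top,
    Ideal.mem_bot] at h5
  exact mul_ne_zero hs1.ne_zero he0 (congrArg Subtype.val h5)

end Pool.Agent.Work.MP_e120ef_ag.H
end

-- merged part: Pool.Agent.Work.MP_e120ef_ag.C.TV
section
/-!
# Sections of the line bundle, evaluated in a valuation ring

Plans.  `TV_det`: if all `Δ f` vanish the sum is zero (use any `f`; the index type is nonempty or the sum is empty: then treat `m = 0` through the hypothesis `h0`).  Otherwise pick `f₀` with `𝒪.valuation (Δ f₀)` maximal (`Finite.exists_max`); `Δ f = t f * Δ f₀` with `t f ∈ 𝒪`, so the sum is `(∑ U f * t f) * Δ f₀`.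
`tv`: make `χ` an `AlgHom`, take the centre `c` (`exists_cf`) and `dual_basis c`; apply it to `S = N`, `ρ = χ` restricted to `O Y c` and `a ↦ d l (χ a)`.  The identity `d l (χ a) = ∑ i, χ (D i a) * d l (χ (b i))` extends from `O Y c` to `Fn Y`
(every element is a quotient of elements of `O Y c`, `spec_frac` in `PtL.lean` for the generic point, or `aff_frac_field` in `Aff.lean`; Leibniz on both sides).  Multilinearity in the columns (`Matrix.det_apply'`, `Finset.prod_univ_sum`, or `Matrix.detRowAlternating` and `MultilinearMap.map_sum`) gives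
`det (d l (χ (s i))) = ∑ f : Fin p → Fin r, (∏ l, d l (χ (b (f l)))) * χ (det (D (f l) (s i)))`.  By `Pluri`, `h * det (D (f l) (s i)) ^ m ∈ O Y c`, also for the family of zero derivations and so `h0` holds; `Cf.mem`; `TV_det`.
-/

open CategoryTheory AlgebraicGeometry

namespace Pool.Agent.Work.MP_e120ef_ag.H.CS

variable (k : Type) [Field k] {Y : Type} [Field Y] [Algebra k Y] {p : ℕ}

/-- `h (ds₁ ∧ ... ∧ ds_p) ^ m` is integral for every valuation ring -/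
def TVp (s : Fin p → Y) (m : ℕ) (h : Y) : Prop :=
  ∀ (N : Type) [Field N] [Algebra k N] (χ : Y →+* N) (𝒪 : ValuationSubring N)
    (d : Fin p → Derivation k N N), (∀ c, χ (algebraMap k Y c) = algebraMap k N c) →
    (∀ c, algebraMap k N c ∈ 𝒪) → (∀ l y, χ y ∈ 𝒪 → d l (χ y) ∈ 𝒪) →
    χ h * (Matrix.of fun i l => d l (χ (s i))).det ^ m ∈ 𝒪

theorem TV_det {N ι : Type} [Field N] [Fintype ι] (𝒪 : ValuationSubring N) {U Δ : ι → N} {h : N}
    {m : ℕ} (hU : ∀ f, U f ∈ 𝒪) (hΔ : ∀ f, h * Δ f ^ m ∈ 𝒪) (h0 : IsEmpty ι → h * 0 ^ m ∈ 𝒪) :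
    h * (∑ f, U f * Δ f) ^ m ∈ 𝒪 := by
  rcases isEmpty_or_nonempty ι with hι | hι
  · simpa using h0 hι
  obtain ⟨f₀, hf₀⟩ := Finite.exists_max fun f => 𝒪.valuation (Δ f)
  have ht : ∀ f, ∃ t ∈ 𝒪, Δ f = t * Δ f₀ := by
    intro f
    by_cases h1 : Δ f₀ = 0
    · have h2 := hf₀ f
      simp only [h1, map_zero, le_zero_iff, map_eq_zero] at h2
      exact ⟨0, zero_mem _, by rw [h2, zero_mul]⟩
    · refine ⟨Δ f / Δ f₀, ?_, (div_mul_cancel₀ _ h1).symm⟩
      rw [← 𝒪.valuation_le_one_iff, map_div₀]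
      exact div_le_one_of_le₀ (hf₀ f) zero_le
  choose t ht1 ht2 using ht
  have e : ∑ f, U f * Δ f = (∑ f, U f * t f) * Δ f₀ := by
    rw [Finset.sum_mul]
    exact Finset.sum_congr rfl fun f _ => by rw [mul_assoc, ← ht2]
  rw [e, mul_pow, mul_left_comm]
  exact mul_mem (pow_mem (sum_mem fun f _ => mul_mem (hU f) (ht1 f)) m) (hΔ f₀)

/-- multilinear expansion of a determinant -/
theorem TV_cb {N : Type} [CommRing N] {r : ℕ} (A : Fin p → Fin r → N) (B : Fin r → Fin p → N) :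
    (Matrix.of fun i l => ∑ j, A i j * B j l).det =
      ∑ f : Fin p → Fin r, (∏ l, B (f l) l) * (Matrix.of fun i l => A i (f l)).det := by
  simp only [Matrix.det_apply', Matrix.of_apply, Finset.prod_univ_sum, Finset.mul_sum,
    Fintype.piFinset_univ]
  rw [Finset.sum_comm]
  refine Finset.sum_congr rfl fun f _ => Finset.sum_congr rfl fun σ _ => ?_
  rw [Finset.prod_mul_distrib]
  ring

/-- the expansion of a derivation extends to quotients -/
theorem TV_div {F N : Type} [Field F] [Field N] [Algebra k F] [Algebra k N] (χ : F →+* N)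
    (d : Derivation k N N) {r : ℕ} (D : Fin r → Derivation k F F) (w : Fin r → N) {u v : F}
    (hu : d (χ u) = ∑ i, χ (D i u) * w i) (hv : d (χ v) = ∑ i, χ (D i v) * w i) :
    d (χ (u / v)) = ∑ i, χ (D i (u / v)) * w i := by
  rw [map_div₀, Derivation.leibniz_div, hu, hv]
  simp only [Derivation.leibniz_div, smul_eq_mul, map_mul, map_sub, map_pow, map_inv₀,
    Finset.mul_sum, ← Finset.sum_sub_distrib]
  exact Finset.sum_congr rfl fun i _ => by ring

theorem tv {Y : Sch k} [IsIntegral Y.left] [IsProper Y.hom] [Smooth Y.hom] {s : Fin p → Fn Y}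
    {m : ℕ} {h : Fn Y} (hh : h ∈ Pluri (O Y) s m) : TVp k s m h := by
  intro N _ _ χ 𝒪 d hχ hK hd
  let χ' : Fn Y →ₐ[k] N := { χ with commutes' := hχ }
  obtain ⟨c, hc⟩ := exists_cf χ' 𝒪 hK
  have hm : ∀ a ∈ O Y c, χ a ∈ 𝒪 := hc.mem
  obtain ⟨r, D, hD, b, h1⟩ := dual_basis c
  have h2 : ∀ l (a : O Y c), d l (χ a) = ∑ i, χ (D i a) * d l (χ (b i)) := fun l a =>
    h1 N (χ'.comp (O Y c).val) ((d l).toLinearMap ∘ₗ (χ'.comp (O Y c).val).toLinearMap)
      (fun u v => by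
        simp only [LinearMap.comp_apply, AlgHom.toLinearMap_apply, map_mul,
          Derivation.coeFn_coe, Derivation.leibniz, smul_eq_mul]) a
  have h3 : ∀ l (a : Fn Y), d l (χ a) = ∑ i, χ (D i a) * d l (χ (b i)) := by
    intro l a
    obtain ⟨u, v, -, rfl⟩ := IsFractionRing.div_surjective (A := O Y c) a
    exact TV_div k χ (d l) D _ (h2 l u) (h2 l v)
  have h4 : (Matrix.of fun i l => d l (χ (s i))).det = ∑ f : Fin p → Fin r,
      (∏ l, d l (χ (b (f l)))) * χ (Matrix.of fun i l => D (f l) (s i)).det := by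
    have e : (Matrix.of fun i l => d l (χ (s i))) =
        Matrix.of fun i l => ∑ j, χ (D j (s i)) * d l (χ (b j)) := by
      ext i l
      exact h3 l (s i)
    rw [e, TV_cb (fun i j => χ (D j (s i))) fun j l => d l (χ (b j))]
    refine Finset.sum_congr rfl fun f _ => ?_
    rw [RingHom.map_det]
    rfl
  rw [h4]
  refine TV_det 𝒪 (fun f => prod_mem fun l _ => hd l _ (hm _ (b (f l)).2)) (fun f => ?_) fun he => ?_
  · rw [← map_pow, ← map_mul]
    exact hm _ (hh c (fun l => D (f l)) fun l => hD (f l))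
  · have hp : Nonempty (Fin p) := by
      by_contra hp
      exact he.false fun l => absurd ⟨l⟩ hp
    have h5 := hm _ (hh c (fun _ => 0) fun _ _ _ => zero_mem _)
    have e : (Matrix.of fun (i : Fin p) (_ : Fin p) => (0 : Derivation k (Fn Y) (Fn Y)) (s i)) =
        0 := by
      ext i l
      rfl
    rwa [e, Matrix.det_zero, map_mul, map_pow, map_zero] at h5

end Pool.Agent.Work.MP_e120ef_ag.H.CS
end

-- merged part: Pool.Agent.Work.MP_e120ef_ag.H.BadV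
section
/-!
# Valuation rings preserved by vector fields, and the poles of good functions

Plans (`π = pbF hα`; `Smooth A.hom` is `av_smooth`).  `solve`: centre `y` from `exists_cf`, `b` from `IsFrame.unit y`, then `solve_mem` for `𝒪.toSubring` (as in `stepA` of `Main.lean`).
`inv_gp`: apply `hden`; `Cf.non` twice and `InvV.non`.  `inv_all`: `exists_cf`, `inv_gp`, `O_gp`.  `inv_mem`: centre `c` on `X`, `Cf.map`, `inv_gp`; `Bad_kill_all` for an affine `U` containing `gp A` (`exists_aff`) gives `a ≠ 0` with `π a * h ∈ O X c`, and `χ (π a⁻¹) ∈ 𝒪`.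
`badV`: as `Bad_one`, `bad` in `Bad.lean`: for each polar divisor `d` (`pol_finite`) use `polar`; in the second case, with `y = α d`, the set `C = {x | y ⤳ x ∧ ∀ k, ∀ a ∈ O A x, a ∈ mp A y 1 → v k a ∈ mp A x 1}` is closed (`Bad_closed`; intersect also with the closure of `y`), `y ∉ C` by `hden`, take `S` from `fin_max`.
Given `c`, `h ∉ O X c` (`Cf.mem`), `hartogs`; `α c ∈ C` by `tan_val` (`RegAt.of_spec`, `RegAt.mp_two`, `mem_mp_of_spec`) and `Cf.map`, `Cf.non`.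
`cod2_spec`: `Specializes.antisymm`.  `BadV_det`: one of `a₁ / a₂`, `a₂ / a₁` is in `𝒪` (or `a₁ = 0`); if `a₂ = b * a₁` the determinant is `a₁ * (D₁ a₁ * D₂ b - D₂ a₁ * D₁ b)`.
`nopole`: otherwise `badV`, `cod2_spec`, `two_fields` at `α c`, `BadV_det` for `D i = ∑ k, μ i k • d k`.
-/

open CategoryTheory AlgebraicGeometry

namespace Pool.Agent.Work.MP_e120ef_ag.H

variable {K : Type} [Field K] {X A : Sch K} {M : Type} [Field M] [Algebra K M] {κ : Type}

/-- only the generic point is invariant -/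
def Den [IsIntegral A.left] (v : κ → Dr A) : Prop :=
  ∀ y, (∀ k, ∀ a ∈ mp A y 1, v k a ∈ mp A y 1) → y = gp A

theorem cod2_spec [IsIntegral X.left] {z y : X.left} (hz : Cod2 z) (h : z ⤳ y) : Cod2 y := by
  obtain ⟨d, h1, h2, h3⟩ := hz
  refine ⟨d, h1, fun e => h2 ?_, h3.trans h⟩
  subst e
  exact (h3.antisymm h).eq

theorem BadV_mul (𝒪 : ValuationSubring M) {a b : M} (ha : a ∈ 𝒪.nonunits) (hb : b ∈ 𝒪) :
    a * b ∈ 𝒪.nonunits := by
  rw [𝒪.mem_nonunits_iff] at ha ⊢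
  rw [map_mul]
  exact (mul_le_of_le_one_right' ((𝒪.valuation_le_one_iff _).2 hb)).trans_lt ha

theorem BadV_det (𝒪 : ValuationSubring M) (D₁ D₂ : Derivation K M M) (h₁ : ∀ x ∈ 𝒪, D₁ x ∈ 𝒪)
    (h₂ : ∀ x ∈ 𝒪, D₂ x ∈ 𝒪) {a₁ a₂ : M} (ha₁ : a₁ ∈ 𝒪.nonunits) (ha₂ : a₂ ∈ 𝒪.nonunits) :
    D₁ a₁ * D₂ a₂ - D₂ a₁ * D₁ a₂ ∈ 𝒪.nonunits := by
  have key : ∀ (D₁ D₂ : Derivation K M M), (∀ x ∈ 𝒪, D₁ x ∈ 𝒪) → (∀ x ∈ 𝒪, D₂ x ∈ 𝒪) →
      ∀ a ∈ 𝒪.nonunits, ∀ b ∈ 𝒪, D₁ a * D₂ (b * a) - D₂ a * D₁ (b * a) ∈ 𝒪.nonunits := by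
    intro D₁ D₂ h₁ h₂ a ha b hb
    have ha' : a ∈ 𝒪 := 𝒪.nonunits_subset ha
    have e : D₁ a * D₂ (b * a) - D₂ a * D₁ (b * a) = a * (D₁ a * D₂ b - D₂ a * D₁ b) := by
      simp only [Derivation.leibniz, smul_eq_mul]
      ring
    rw [e]
    exact BadV_mul 𝒪 ha (sub_mem (mul_mem (h₁ _ ha') (h₂ _ hb)) (mul_mem (h₂ _ ha') (h₁ _ hb)))
  by_cases h0 : a₁ = 0
  · rw [h0, map_zero, map_zero, zero_mul, zero_mul, sub_zero]
    exact zero_mem _
  by_cases h0' : a₂ = 0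
  · rw [h0', map_zero, map_zero, mul_zero, mul_zero, sub_zero]
    exact zero_mem _
  rcases 𝒪.mem_or_inv_mem (a₂ / a₁) with h | h
  · have := key D₁ D₂ h₁ h₂ a₁ ha₁ _ h
    rwa [div_mul_cancel₀ _ h0] at this
  · have := key D₂ D₁ h₂ h₁ a₂ ha₂ _ h
    rw [inv_div, div_mul_cancel₀ _ h0'] at this
    rwa [mul_comm (D₁ a₁), mul_comm (D₂ a₁)]

variable [GrpObj A] [IsProper A.hom] [GeometricallyIntegral A.hom] {g : ℕ} {δ : Fin g → Dr A}
  {v : κ → Dr A}

theorem solve (hδ : IsFrame δ) (j : Fn A →ₐ[K] M) {𝒪 : ValuationSubring M}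
    (hK : ∀ c : K, algebraMap K M c ∈ 𝒪) {d : M → M} (hd : ∀ x ∈ 𝒪, d x ∈ 𝒪) {c : Fin g → M}
    (hc : ∀ y, d (j y) = ∑ i, c i * j (δ i y)) (i : Fin g) : c i ∈ 𝒪 := by
  obtain ⟨y, hy⟩ := exists_cf j 𝒪 hK
  obtain ⟨b, hb, hu⟩ := hδ.unit y
  have e : (Matrix.of fun k l => j (δ k (b l))).det = j (Matrix.of fun k l => δ k (b l)).det :=
    (j.map_det _).symm
  exact solve_mem 𝒪.toSubring (fun k l => j (δ k (b l)))
    (fun k l => hy.mem _ (hδ.mem k _ _ (hb l)))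
    (by rw [e]; exact (_root_.map_ne_zero j).2 hu.ne_zero)
    (by rw [e, ← map_inv₀]; exact hy.mem _ hu.inv.1) (fun l => by
      rw [← hc]
      exact hd _ (hy.mem _ (hb l))) i

theorem inv_gp (hv : ∀ k x, RegAt (v k) x) (hden : Den v) {j : Fn A →ₐ[K] M} {d : κ → M → M}
    {𝒪 : ValuationSubring M} (h𝒪 : InvV K d 𝒪) (hd : ∀ k y, d k (j y) = j (v k y)) {y : A.left}
    (hy : Cf j 𝒪 y) : y = gp A := by
  refine hden y fun k a ha => (hy.non _ (hv k y a (mem_O_of_mp ha))).1 ?_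
  rw [← hd]
  exact h𝒪.non k _ ((hy.non a (mem_O_of_mp ha)).2 ha)

theorem inv_all (hv : ∀ k x, RegAt (v k) x) (hden : Den v) {j : Fn A →ₐ[K] M} {d : κ → M → M}
    {𝒪 : ValuationSubring M} (h𝒪 : InvV K d 𝒪) (hd : ∀ k y, d k (j y) = j (v k y)) (y : Fn A) :
    j y ∈ 𝒪 := by
  obtain ⟨x, hx⟩ := exists_cf j 𝒪 h𝒪.alg
  refine hx.mem y ?_
  rw [inv_gp hv hden h𝒪 hd hx, O_gp]
  trivial

variable [CharZero K] [IsIntegral X.left] [IsProper X.hom] [Smooth X.hom] {α : X ⟶ A} {h : Fn X}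

theorem inv_mem (hα : Dom α) (hδ : IsFrame δ) (hh : Good α δ h) (hv : ∀ k x, RegAt (v k) x)
    (hden : Den v) {χ : Fn X →ₐ[K] M} {d : κ → M → M} {𝒪 : ValuationSubring M} (h𝒪 : InvV K d 𝒪)
    (hd : ∀ k y, d k (χ (pb α y)) = χ (pb α (v k y))) : χ h ∈ 𝒪 := by
  have := av_smooth A
  obtain ⟨c, hc⟩ := exists_cf χ 𝒪 h𝒪.alg
  have h1 : α.left c = gp A := inv_gp (j := χ.comp (pbF hα)) hv hden h𝒪 (by exact hd) (hc.map hα)
  obtain ⟨U, hU, hx, -⟩ := exists_aff (W := ⊤) (x := gp A) trivial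
  obtain ⟨a, -, h0, ha⟩ := Bad_kill_all hα hδ.mem hh hU
  have h2 := hc.mem _ (ha c (h1 ▸ hx))
  have h3 := inv_all (j := χ.comp (pbF hα)) hv hden h𝒪 (by exact hd) a⁻¹
  have h4 : χ (pbF hα a) ≠ 0 := (_root_.map_ne_zero (χ.comp (pbF hα))).2 h0
  have h5 := mul_mem h3 h2
  rwa [map_inv₀, map_mul, AlgHom.comp_apply, ← pbF_apply hα, inv_mul_cancel_left₀ h4] at h5

theorem badV (hα : Dom α) (hδ : IsFrame δ) (hh : Good α δ h) (hv : ∀ k x, RegAt (v k) x)
    (hden : Den v) : ∃ 𝒵 : Set A.left, 𝒵.Finite ∧ (∀ z ∈ 𝒵, Cod2 z) ∧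
      ∀ (M : Type) [Field M] [Algebra K M] (χ : Fn X →ₐ[K] M) (d : κ → Derivation K M M)
        (𝒪 : ValuationSubring M) (c : X.left), Cf χ 𝒪 c → (∀ k, ∀ x ∈ 𝒪, d k x ∈ 𝒪) →
        (∀ k y, d k (χ (pb α y)) = χ (pb α (v k y))) → χ h ∉ 𝒪 → ∃ z ∈ 𝒵, z ⤳ α.left c := by
  have := av_smooth A
  have hf := (pol_finite h).to_subtype
  have one : ∀ p : X.left, IsDiv p → h ∉ O X p → ∃ Z : Set A.left, Z.Finite ∧ (∀ z ∈ Z, Cod2 z) ∧
      ∀ (M : Type) [Field M] [Algebra K M] (χ : Fn X →ₐ[K] M) (d : κ → Derivation K M M)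
        (𝒪 : ValuationSubring M) (c : X.left), Cf χ 𝒪 c → (∀ k, ∀ x ∈ 𝒪, d k x ∈ 𝒪) →
        (∀ k y, d k (χ (pb α y)) = χ (pb α (v k y))) → p ⤳ c → ∃ z ∈ Z, z ⤳ α.left c := by
    intro p hp hn
    obtain ⟨hy, H | H⟩ := polar hα hδ.mem hh hp hn
    · exact ⟨{α.left p}, Set.finite_singleton _, fun z hz => hz ▸ H,
        fun M _ _ χ d 𝒪 c _ _ _ hc => ⟨_, rfl, hc.map α.left.continuous⟩⟩
    have hcl : IsClosed (closure {α.left p} ∩ ⋂ k, {x | α.left p ⤳ x ∧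
        ∀ a ∈ O A x, a ∈ mp A (α.left p) 1 → v k a ∈ mp A x 1}) :=
      isClosed_closure.inter (isClosed_iInter fun k => Bad_closed (hv k) _)
    obtain ⟨S, hS, hSC, hC⟩ := fin_max hcl
    refine ⟨S, hS, fun z hz => ⟨_, hy, fun e => hy (hden _ fun k a ha => ?_),
      specializes_iff_mem_closure.2 (hSC hz).1⟩, fun M _ _ χ d 𝒪 c h1 h2 h3 hc => ?_⟩
    · have h4 := Set.mem_iInter.1 (hSC hz).2 k
      rw [← e] at h4
      exact h4.2 a (mem_O_of_mp ha) ha
    · have h4 : α.left p ⤳ α.left c := hc.map α.left.continuous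
      refine hC _ ⟨specializes_iff_mem_closure.1 h4, Set.mem_iInter.2 fun k =>
        ⟨h4, fun a ha h6 => ((h1.map hα).non _ (hv k _ a ha)).1 ?_⟩⟩
      have h7 := tan_val h1 (d k) (h2 k) (pb_mem_O (φ := α) ha) fun D hD =>
        mem_mp_of_spec hc (hD _ (pb_mem_O ha)) ((hD.of_spec hc).mp_two (H a h6))
      rwa [h3] at h7
  choose Z h1 h2 h3 using fun d : {d | IsDiv d ∧ h ∉ O X d} => one d d.2.1 d.2.2
  refine ⟨⋃ d, Z d, Set.finite_iUnion h1, fun z hz => ?_, fun M _ _ χ d 𝒪 c h5 h6 h7 h8 => ?_⟩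
  · obtain ⟨d, hd⟩ := Set.mem_iUnion.1 hz
    exact h2 d z hd
  · obtain ⟨p, hc, hp, hn⟩ := hartogs (fun k => h8 (h5.mem h k))
    obtain ⟨z, hz, h9⟩ := h3 ⟨p, hp, hn⟩ M χ d 𝒪 c h5 h6 h7 hc
    exact ⟨z, Set.mem_iUnion.2 ⟨_, hz⟩, h9⟩

theorem nopole [Fintype κ] (hα : Dom α) (hδ : IsFrame δ) (hh : Good α δ h)
    (hv : ∀ k x, RegAt (v k) x) (hden : Den v) {μ : Fin g → κ → K}
    (hμ : ∀ i y, δ i y = ∑ k, μ i k • v k y) {χ : Fn X →ₐ[K] M} {d : κ → Derivation K M M}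
    {𝒪 : ValuationSubring M} (h𝒪 : PreV K (fun k x => d k x) 𝒪)
    (hd : ∀ k y, d k (χ (pb α y)) = χ (pb α (v k y))) : χ h ∈ 𝒪 := by
  by_contra hn
  obtain ⟨c, hc⟩ := exists_cf χ 𝒪 h𝒪.alg
  obtain ⟨𝒵, -, h1, h2⟩ := badV hα hδ hh hv hden
  obtain ⟨z, hz, h3⟩ := h2 M χ d 𝒪 c hc h𝒪.mem hd hn
  obtain ⟨a₁, k₁, a₂, k₂, i₁, i₂, hu⟩ := two_fields hδ (cod2_spec (h1 z hz) h3)
  have hj := hc.map hα
  have hd' : ∀ k y, d k ((χ.comp (pbF hα)) y) = (χ.comp (pbF hα)) (v k y) := hd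
  generalize χ.comp (pbF hα) = j at hj hd'
  obtain ⟨D, hD⟩ : ∃ D : Fin g → Derivation K M M, ∀ i x, D i x = ∑ k, μ i k • d k x :=
    ⟨fun i => ∑ k, μ i k • d k, fun i x => (congrFun (map_sum (Derivation.coeFnAddMonoidHom
      (R := K) (A := M) (M := M)) _ _) x).trans (Finset.sum_apply x _ _)⟩
  have h4 : ∀ i, ∀ x ∈ 𝒪, D i x ∈ 𝒪 := fun i x hx => by
    rw [hD]
    refine sum_mem fun k _ => ?_
    rw [Algebra.smul_def]
    exact mul_mem (h𝒪.alg _) (h𝒪.mem k x hx)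
  have h5 : ∀ i y, D i (j y) = j (δ i y) := fun i y => by
    rw [hD, hμ, map_sum]
    exact Finset.sum_congr rfl fun k _ => by rw [hd', map_smul]
  have h6 := BadV_det 𝒪 (D i₁) (D i₂) (h4 i₁) (h4 i₂) ((hj.non _ (mem_O_of_mp k₁)).2 k₁)
    ((hj.non _ (mem_O_of_mp k₂)).2 k₂)
  rw [h5, h5, h5, h5, ← map_mul, ← map_mul, ← map_sub] at h6
  exact hu.2 ((hj.non _ hu.1).1 h6)

end Pool.Agent.Work.MP_e120ef_ag.H
end

-- merged part: Pool.Agent.Work.MP_e120ef_ag.H.Den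
section
/-!
# The leaves are dense

Plans.  `O₀_pdF`: from `imT b * x = imT a` get `imT (b * b) * pdF l x = imT (b * pdT a - a * pdT b)`.
`tay`: `pdF l x = ∑ k, C l k * tl N k x` (`tl_apply`, `hC`).  Let `S'` be the span of `S` over `O₀ K n` (finite sums `∑ o i * s i`; `Submodule.span (O₀ K n) S`); it is stable under all `pdF l` and consists of elements of `M₀`.  Apply `zero_of_stable` to the set of the `a.1` with `imT a ∈ S'` (`pdF_im`, `pdT_val`, `imT_inj`).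
`Den_val`: the value at the origin `constantCoeff a / constantCoeff b` is well defined, and multiplicative.
`leaf`: `j` maps `B A U` into `O₀` (`Algebra.adjoin_le` with `Subalgebra.comap`); `e = val ∘ j`; `p` from `lft_point` (`LocallyOfFiniteType A.hom` holds).  For `a ∈ mp A p 1` write `s * a = b` (`aff_frac`); `e s ≠ 0` (`HasVal.isU`), `e b = 0` (`hasVal_iff`, `HasVal.unique`), so `j a ∈ M₀`.  Apply `tay` to `j '' S`.
`den_of_leaf`: given `y ≠ gp A` invariant, take a closed `q` with `y ⤳ q` (`exists_closed_spec`), `z` with `(tr z).left p = q` (`exists_pt`, `exists_tr`), and `S = pb (tr z) '' {a | a ∈ O A q ∧ a ∈ mp A y 1}` (`mem_mp_of_spec`, `pb_tr_mem_mp`); it contains a nonzero element (`exists_ne_zero`, `spec_frac`, `pbF (dom_tr z)` is injective).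
-/

open CategoryTheory AlgebraicGeometry MvPowerSeries

namespace Pool.Agent.Work.MP_e120ef_ag.H

section tay

variable {K : Type} [NontriviallyNormedField K] [IsUltrametricDist K] {n g : ℕ}

/-- the elements vanishing at the origin -/
def M₀ (x : FT K n) : Prop :=
  ∃ a b : T K n, constantCoeff a.1 = 0 ∧ constantCoeff b.1 ≠ 0 ∧ imT b * x = imT a

theorem imT_O₀ (a : T K n) : imT a ∈ O₀ K n := by
  exact ⟨a, 1, by simp, by rw [imT, map_one, one_mul]⟩

theorem O₀_pdF (l : Fin n) {x : FT K n} (hx : x ∈ O₀ K n) : pdF K l x ∈ O₀ K n := by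
  obtain ⟨a, b, hb, h⟩ := hx
  refine ⟨b * pdT K l a - a * pdT K l b, b * b, by simpa using hb, ?_⟩
  have h1 := congrArg (pdF K l) h
  rw [Derivation.leibniz, pdF_im, pdF_im, smul_eq_mul, smul_eq_mul] at h1
  simp only [imT, map_mul, map_sub] at h h1 ⊢
  rw [← h1, ← h]
  ring

theorem Den_val : ∃ e : O₀ K n →ₐ[K] K, ∀ (x : O₀ K n) (a b : T K n), imT b * x = imT a →
    constantCoeff b.1 * e x = constantCoeff a.1 := by
  let c : T K n →+* K := constantCoeff.comp (T K n).val.toRingHom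
  have h0 : ∀ x : O₀ K n, ∃ a b : T K n, c b ≠ 0 ∧ imT b * x = imT a := fun x => x.2
  have h1 : ∀ x : O₀ K n, ∃ t : K, ∀ a b : T K n, imT b * x = imT a → c b * t = c a := by
    intro x
    obtain ⟨a₀, b₀, hb, h⟩ := h0 x
    refine ⟨c a₀ / c b₀, fun a b h' => ?_⟩
    have e : b * a₀ = a * b₀ := imT_inj (by
      simp only [imT, map_mul] at h h' ⊢
      rw [← h, ← h']
      ring)
    rw [← mul_div_assoc, ← map_mul, e, map_mul, mul_div_cancel_right₀ _ hb]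
  choose t ht using h1
  have h2 : ∀ k : K, t (algebraMap K _ k) = k := fun k => by
    have := ht (algebraMap K _ k) (algebraMap K _ k) 1 (by
      rw [imT, imT, map_one, one_mul, ← IsScalarTower.algebraMap_apply]
      rfl)
    rw [map_one, one_mul] at this
    exact this.trans (constantCoeff_C (σ := Fin n) k)
  refine ⟨{ toFun := t
            map_one' := by simpa using h2 1
            map_mul' := fun x y => ?_
            map_zero' := by simpa using h2 0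
            map_add' := fun x y => ?_
            commutes' := h2 }, ht⟩
  · obtain ⟨a, b, hb, h⟩ := h0 x
    obtain ⟨a', b', hb', h'⟩ := h0 y
    have := ht (x * y) (a * a') (b * b') (by
      simp only [imT, map_mul, MulMemClass.coe_mul] at h h' ⊢
      rw [← h, ← h']
      ring)
    rw [map_mul, map_mul, ← ht x a b h, ← ht y a' b' h'] at this
    exact mul_left_cancel₀ (mul_ne_zero hb hb') (this.trans (by ring))
  · obtain ⟨a, b, hb, h⟩ := h0 x
    obtain ⟨a', b', hb', h'⟩ := h0 y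
    have := ht (x + y) (a * b' + a' * b) (b * b') (by
      simp only [imT, map_mul, map_add, AddMemClass.coe_add] at h h' ⊢
      rw [← h, ← h']
      ring)
    rw [map_add, map_mul, map_mul, map_mul, ← ht x a b h, ← ht y a' b' h'] at this
    exact mul_left_cancel₀ (mul_ne_zero hb hb') (this.trans (by ring))

theorem tay [CharZero K] {N : Fin g → Fin n → T K n} {C : Fin n → Fin g → FT K n}
    (hO : ∀ l k, C l k ∈ O₀ K n)
    (hC : ∀ l i, ∑ k, C l k * imT (N k i) = if l = i then 1 else 0) {S : Set (FT K n)}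
    (h0 : ∀ x ∈ S, M₀ x) (hd : ∀ x ∈ S, ∀ k, tl N k x ∈ S) : ∀ x ∈ S, x = 0 := by
  obtain ⟨e, he⟩ := Den_val (K := K) (n := n)
  have h1 : ∀ x ∈ Submodule.span (O₀ K n) S, ∃ h : x ∈ O₀ K n, e ⟨x, h⟩ = 0 := by
    intro x hx
    induction hx using Submodule.span_induction with
    | mem x hx =>
      obtain ⟨a, b, ha, hb, h⟩ := h0 x hx
      have := he ⟨x, a, b, hb, h⟩ a b h
      exact ⟨⟨a, b, hb, h⟩, (mul_eq_zero.1 (this.trans ha)).resolve_left hb⟩
    | zero => exact ⟨zero_mem _, map_zero e⟩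
    | add x y _ _ hx hy =>
      obtain ⟨hx, ex⟩ := hx
      obtain ⟨hy, ey⟩ := hy
      exact ⟨add_mem hx hy, (map_add e ⟨x, hx⟩ ⟨y, hy⟩).trans (by rw [ex, ey, add_zero])⟩
    | smul o x _ hx =>
      obtain ⟨hx, ex⟩ := hx
      exact ⟨mul_mem o.2 hx, (map_mul e o ⟨x, hx⟩).trans (by rw [ex, mul_zero])⟩
  have h2 : ∀ l, ∀ x ∈ Submodule.span (O₀ K n) S, pdF K l x ∈ Submodule.span (O₀ K n) S := by
    intro l x hx
    induction hx using Submodule.span_induction with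
    | mem x hx =>
      have e1 : pdF K l x = ∑ k, (⟨C l k, hO l k⟩ : O₀ K n) • tl N k x := by
        change _ = ∑ k, C l k * tl N k x
        simp only [tl_apply, Finset.mul_sum, ← mul_assoc]
        rw [Finset.sum_comm]
        simp only [← Finset.sum_mul, hC, ite_mul, one_mul, zero_mul, Finset.sum_ite_eq,
          Finset.mem_univ, if_true]
      rw [e1]
      exact sum_mem fun k _ => Submodule.smul_mem _ _ (Submodule.subset_span (hd x hx k))
    | zero => rw [map_zero]; exact zero_mem _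
    | add x y _ _ hx hy => rw [map_add]; exact add_mem hx hy
    | smul o x hx' hx =>
      have e1 : pdF K l (o • x) = o • pdF K l x + (⟨_, O₀_pdF l o.2⟩ : O₀ K n) • x := by
        change pdF K l (o.1 * x) = o.1 * pdF K l x + pdF K l o.1 * x
        rw [Derivation.leibniz, smul_eq_mul, smul_eq_mul, mul_comm x]
      rw [e1]
      exact add_mem (Submodule.smul_mem _ _ hx) (Submodule.smul_mem _ _ hx')
  have h3 := zero_of_stable (S := {F | ∃ a : T K n, a.1 = F ∧ imT a ∈ Submodule.span (O₀ K n) S})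
    (by
      rintro _ ⟨a, rfl, ha⟩
      obtain ⟨h, eh⟩ := h1 _ ha
      have := he ⟨_, h⟩ a 1 (by rw [imT, map_one, one_mul])
      rw [eh, mul_zero] at this
      exact this.symm)
    (by
      rintro _ ⟨a, rfl, ha⟩ l
      exact ⟨pdT K l a, rfl, pdF_im l a ▸ h2 l _ ha⟩)
  intro x hx
  obtain ⟨a, b, -, hb, h⟩ := h0 x hx
  have h4 : a = 0 := Subtype.ext (h3 a.1 ⟨a, rfl, h ▸
    Submodule.smul_mem _ (⟨imT b, imT_O₀ b⟩ : O₀ K n) (Submodule.subset_span hx)⟩)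
  rw [h4, imT, imT, map_zero] at h
  refine (mul_eq_zero.1 h).resolve_left fun h5 => hb ?_
  rw [imT_inj (h5.trans (map_zero _).symm)]
  exact map_zero _

end tay

/-- no nonzero function vanishes on the formal leaf through `p` -/
def LeafAt {K : Type} [Field K] {A : Sch K} [IsIntegral A.left] {κ : Type} (v : κ → Dr A)
    (p : A.left) : Prop :=
  ∀ S : Set (Fn A), (∀ a ∈ S, a ∈ mp A p 1) → (∀ a ∈ S, ∀ k, v k a ∈ S) → ∀ a ∈ S, a = 0

theorem leaf {K : Type} [NontriviallyNormedField K] [IsUltrametricDist K] [CharZero K] {n g : ℕ}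
    {A : Sch K} [IsIntegral A.left] [IsProper A.hom] {v : Fin g → Dr A}
    {N : Fin g → Fin n → T K n} {C : Fin n → Fin g → FT K n} (hO : ∀ l k, C l k ∈ O₀ K n)
    (hC : ∀ l i, ∑ k, C l k * imT (N k i) = if l = i then 1 else 0) (j : Fn A →ₐ[K] FT K n)
    (hj : ∀ k y, tl N k (j y) = j (v k y)) {U : A.left.Opens} (hU : IsAffineOpen U)
    (hg : gp A ∈ U) {Y : Set (Fn A)} (hY : B A U ≤ Algebra.adjoin K Y)
    (hjY : ∀ y ∈ Y, j y ∈ O₀ K n) : ∃ p, IsClosed ({p} : Set A.left) ∧ LeafAt v p := by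
  obtain ⟨e, he⟩ := Den_val (K := K) (n := n)
  have hB : ∀ b : B A U, (j.comp (B A U).val) b ∈ O₀ K n := fun b =>
    (hY.trans (Algebra.adjoin_le (S := (O₀ K n).comap j) hjY)) b.2
  obtain ⟨p, hp, hc, H⟩ := lft_point hU hg (e.comp ((j.comp (B A U).val).codRestrict _ hB))
  refine ⟨p, hc, fun S h1 h2 a ha => (map_eq_zero j).1 (tay hO hC (S := j '' S) ?_ ?_ _ ⟨a, ha, rfl⟩)⟩
  · rintro _ ⟨a, ha, rfl⟩
    obtain ⟨s, hs, hu, hsa⟩ := aff_frac hU hp (mem_O_of_mp (h1 a ha))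
    have k1 : e ⟨_, hB ⟨s, hs⟩⟩ ≠ 0 := (H ⟨s, hs⟩).isU.1 hu
    have k2 : e ⟨_, hB ⟨s * a, hsa⟩⟩ = 0 := (H ⟨s * a, hsa⟩).unique (hasVal_iff.2 (by
      rw [map_zero, sub_zero]
      exact O_mul_mem_mp hu.1 (h1 a ha)))
    obtain ⟨a₁, b₁, hb₁, e₁⟩ := hB ⟨s, hs⟩
    obtain ⟨a₂, b₂, hb₂, e₂⟩ := hB ⟨s * a, hsa⟩
    have k3 := he ⟨_, hB ⟨s, hs⟩⟩ a₁ b₁ e₁
    have k4 := he ⟨_, hB ⟨s * a, hsa⟩⟩ a₂ b₂ e₂
    rw [k2, mul_zero] at k4
    refine ⟨b₁ * a₂, b₂ * a₁, ?_, ?_, ?_⟩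
    · rw [MulMemClass.coe_mul, map_mul, ← k4, mul_zero]
    · rw [MulMemClass.coe_mul, map_mul, ← k3]
      exact mul_ne_zero hb₂ (mul_ne_zero hb₁ k1)
    · change imT b₁ * j s = _ at e₁
      change imT b₂ * j (s * a) = _ at e₂
      simp only [imT, map_mul] at e₁ e₂ ⊢
      rw [← e₁, ← e₂]
      ring
  · rintro _ ⟨a, ha, rfl⟩ k
    exact ⟨v k a, h2 a ha k, (hj k a).symm⟩

theorem den_of_leaf {K : Type} [Field K] [IsAlgClosed K] {A : Sch K} [GrpObj A] [IsProper A.hom]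
    [GeometricallyIntegral A.hom] {κ : Type} {v : κ → Dr A} (hv : ∀ k x, RegAt (v k) x)
    (htr : ∀ k y a, v k (pb (tr y) a) = pb (tr y) (v k a)) {p : A.left}
    (hp : IsClosed ({p} : Set A.left)) (h : LeafAt v p) : Den v := by
  intro y hy
  by_contra hne
  obtain ⟨q, hyq, hq⟩ := exists_closed_spec y
  obtain ⟨P, rfl⟩ := exists_pt hp
  obtain ⟨Q, rfl⟩ := exists_pt hq
  obtain ⟨z, hz⟩ := exists_tr Q P
  obtain ⟨e, he, he0⟩ := exists_ne_zero hne
  obtain ⟨s, -, hs1, hs2⟩ := spec_frac hyq (mem_O_of_mp he)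
  have h1 := h (pb (tr z) '' {a | a ∈ O A (pt Q) ∧ a ∈ mp A y 1})
    (by
      rintro _ ⟨a, ha, rfl⟩
      rw [pb_tr_mem_mp, hz]
      exact mem_mp_of_spec hyq ha.1 ha.2)
    (by
      rintro _ ⟨a, ha, rfl⟩ k
      exact ⟨v k a, ⟨hv k _ a ha.1, hy k a ha.2⟩, (htr k z a).symm⟩)
    _ ⟨s * e, ⟨hs2, O_mul_mem_mp hs1.1 he⟩, rfl⟩
  exact mul_ne_zero hs1.ne_zero he0 ((map_eq_zero (pbF (dom_tr z))).1 h1)

theorem exists_gens {K : Type} [Field K] (A : Sch K) [IsIntegral A.left] [IsProper A.hom] :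
    ∃ (U : A.left.Opens) (Y : Finset (Fn A)), IsAffineOpen U ∧ gp A ∈ U ∧
      B A U ≤ Algebra.adjoin K (Y : Set (Fn A)) := by
  obtain ⟨U, hU, hx, -⟩ := exists_aff (W := ⊤) (x := gp A) trivial
  obtain ⟨Y, hY⟩ := (Subalgebra.fg_iff_finiteType _).2 (aff_finiteType hU hx)
  exact ⟨U, Y, hU, hx, hY.ge⟩

end Pool.Agent.Work.MP_e120ef_ag.H
end
end
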