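import Pool.Agent.Work.MP_e120ef_ag.H.DerL
import Pool.Agent.Work.MP_e120ef_ag.Bad
import Pool.Agent.Work.MP_e120ef_ag.H.Den

attribute [-instance] Subalgebra.normedCommRing Subalgebra.seminormedCommRing
  Subalgebra.seminormedRing Subalgebra.normedRing
  Localization.subalgebra.instIsFractionRingSubtypeMemSubalgebra
attribute [local instance 2000] RingHomClass.toAddMonoidHomClass AddMonoidHomClass.toAddHomClass
  RingHom.instRingHomClass AlgHomClass.toRingHomClass IsDomain.to_noZeroDivisors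
  IsDomain.toNontrivial NeZero.one RingHomClass.toMonoidHomClass MonoidHomClass.toMulHomClass
  RingHomClass.toMonoidWithZeroHomClass AddMonoidHomClass.toZeroHomClass MonoidHomClass.toOneHomClass
attribute [-instance] instCharZeroOfIsSemireal AlgHom.instContinuousLinearMapClassOfAlgHomClass
  RingHomClass.toLinearMapClassRat RingHomClass.toLinearMapClassNNRat NumberField.to_charZero

-- merged part: Pool.Agent.Work.MP_e120ef_ag.H.AE
section
/-!
# Algebras over a field of small functions; systems of auxiliary functions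

Plans.  `Pres.mem`, `RJ_ae`, `RJ_ctl`: `Algebra.adjoin_induction` (`Nev.Sm.finite`, `mem_regV`, `Nev.Sm.ctl`; a constant `algebraMap K M c` is `J (algebraMap K F c)`).
`RJ_fin`: give `RJ J ψ` the `F`-algebra structure `J.codRestrict`; if `x : Fin n → B₀` generates `B₀` (`Algebra.FiniteType.iff_quotient_mvPolynomial''`), then `MvPolynomial.aeval (ψ ∘ x) : MvPolynomial (Fin n) F → RJ J ψ` is surjective (its range, mapped to `M`, is a `K`-subalgebra containing the generators).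
`RJ_noeth`: `RJ_fin`, `Algebra.FiniteType.isNoetherianRing`.  `RJ_ideal`: `Submodule.span_induction`, `RJ_ae`; nonunits form an ideal of the valuation ring (`regV_nonunits`, or `ValuationSubring.mem_nonunits_iff`).
`mult_bd`: the ideals of `RJ J ψ` spanned by the `D^[i] x`, `i ≤ μ`, stabilise (as `Bad_stab` in `Bad.lean`), so `D^[μ + 1] x = ∑ i ≤ μ, r i * D^[i] x`.  Outside a finite set the `ι (r i)` are regular.  If `ord z u > μ`, `u = ι x`, then `ord z (N.D^[i] u) = ord z u - i` and `N.D^[i] u ≠ 0` for `i ≤ μ + 1` (`ord_D`); divide the relation by `N.D^[μ + 1] u`: `1` is a sum of nonunits.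
`Aux.union`: `Fin.append` or `finSumFinEquiv`, `s = max s₁ s₂` (`h𝒯`).  `Aux.biUnion`: `Set.Finite.induction_on`.
`Aux.endgame`: `Nev.endgame` with `L = 2 * s * μ * H.card * r + 1`, `m i = L * (k i + 1)`, and the union of the exceptional sets.
-/

namespace Pool.Agent.Work.MP_e120ef_ag.H

variable {K F B₀ M : Type} [Field K] [Field F] [CommRing B₀] [Field M] [Algebra K F] [Algebra K B₀]
  [Algebra K M] (J : F →ₐ[K] M) (ψ : B₀ →ₐ[K] M)

/-- the algebra generated by the two images -/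
def RJ : Subalgebra K M := Algebra.adjoin K (Set.range J ∪ Set.range ψ)

theorem J_mem (a : F) : J a ∈ RJ J ψ := Algebra.subset_adjoin (Or.inl ⟨a, rfl⟩)

theorem ψ_mem (b : B₀) : ψ b ∈ RJ J ψ := Algebra.subset_adjoin (Or.inr ⟨b, rfl⟩)

/-- `ψ` with values in `RJ J ψ` -/
def ψR : B₀ →+* RJ J ψ := (ψ.codRestrict (RJ J ψ) (ψ_mem J ψ)).toRingHom

theorem coe_ψR (b : B₀) : (ψR J ψ b : M) = ψ b := rfl

/-- `J` with values in `RJ J ψ` -/
def JR : F →+* RJ J ψ := (J.codRestrict (RJ J ψ) (J_mem J ψ)).toRingHom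

theorem coe_JR (a : F) : (JR J ψ a : M) = J a := rfl

/-- derivations preserving the image of `J` and `RJ J ψ` -/
structure Pres (D : Derivation K M M) : Prop where
  mapJ : ∀ a, ∃ a', D (J a) = J a'
  mapψ : ∀ b, D (ψ b) ∈ RJ J ψ

theorem RJ_fin [Algebra.FiniteType K B₀] : (JR J ψ).FiniteType := by
  let _ := (JR J ψ).toAlgebra
  obtain ⟨n, f, hf⟩ := (Algebra.FiniteType.iff_quotient_mvPolynomial'' (R := K) (S := B₀)).1
    inferInstance
  let g : MvPolynomial (Fin n) F →ₐ[F] RJ J ψ :=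
    MvPolynomial.aeval fun i => ψR J ψ (f (MvPolynomial.X i))
  have h1 : ∀ a, JR J ψ a ∈ g.range := fun a => g.range.algebraMap_mem a
  have h2 : ∀ P, ψR J ψ (f P) ∈ g.range := fun P => by
    induction P using MvPolynomial.induction_on with
    | C c =>
      have : ψR J ψ (f (MvPolynomial.C c)) = JR J ψ (algebraMap K F c) := Subtype.ext (by
        rw [coe_ψR, coe_JR, ← MvPolynomial.algebraMap_eq, f.commutes, ψ.commutes, J.commutes])
      exact this ▸ h1 _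
    | add p q hp hq =>
      rw [map_add, map_add]
      exact add_mem hp hq
    | mul_X p i hp =>
      rw [map_mul, map_mul]
      exact mul_mem hp ⟨MvPolynomial.X i, MvPolynomial.aeval_X _ _⟩
  refine Algebra.FiniteType.of_surjective g ?_
  rintro ⟨x, hx⟩
  show (⟨x, hx⟩ : RJ J ψ) ∈ g.range
  induction hx using Algebra.adjoin_induction with
  | mem x hx =>
    rcases hx with ⟨a, rfl⟩ | ⟨b, rfl⟩
    · exact h1 a
    · obtain ⟨P, rfl⟩ := hf b
      exact h2 P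
  | algebraMap c =>
    have := h1 (algebraMap K F c)
    exact (Subtype.ext (J.commutes c) : JR J ψ (algebraMap K F c) = ⟨_, _⟩) ▸ this
  | add x y _ _ hx hy => exact add_mem hx hy
  | mul x y _ _ hx hy => exact mul_mem hx hy

theorem RJ_noeth [Algebra.FiniteType K B₀] : IsNoetherianRing (RJ J ψ) := by
  let _ := (JR J ψ).toAlgebra
  have : Algebra.FiniteType F (RJ J ψ) := RJ_fin J ψ
  exact Algebra.FiniteType.isNoetherianRing F _

variable {J ψ}

theorem Pres.mem {D : Derivation K M M} (h : Pres J ψ D) {x : M} (hx : x ∈ RJ J ψ) :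
    D x ∈ RJ J ψ := by
  induction hx using Algebra.adjoin_induction with
  | mem x hx =>
    rcases hx with ⟨a, rfl⟩ | ⟨b, rfl⟩
    · obtain ⟨a', h'⟩ := h.mapJ a
      exact h' ▸ J_mem J ψ a'
    · exact h.mapψ b
  | algebraMap c =>
    rw [D.map_algebraMap]
    exact zero_mem _
  | add x y _ _ hx hy =>
    rw [map_add]
    exact add_mem hx hy
  | mul x y h1 h2 hx hy =>
    rw [D.leibniz]
    exact add_mem (mul_mem h1 hy) (mul_mem h2 hx)

variable {K' M' : Type} [NontriviallyNormedField K'] [Field M'] [Algebra K' M']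
  {N : Nev K' Rad.out M'} {ι : M →+* M'} {𝒯 : Pt1 K' Rad.out → ℝ}

theorem RJ_ctl (hsm : ∀ a, N.Sm (ι (J a))) {h𝒯 : ∀ w, 0 ≤ 𝒯 w} (hψ : ∀ b, ι (ψ b) ∈ N.ctl 𝒯 h𝒯)
    {x : M} (hx : x ∈ RJ J ψ) : ι x ∈ N.ctl 𝒯 h𝒯 := by
  induction hx using Algebra.adjoin_induction with
  | mem x hx =>
    rcases hx with ⟨a, rfl⟩ | ⟨b, rfl⟩
    exacts [(hsm a).ctl, hψ b]
  | algebraMap c => exact J.commutes c ▸ (hsm _).ctl
  | add x y _ _ hx hy =>
    rw [map_add]
    exact add_mem hx hy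
  | mul x y _ _ hx hy =>
    rw [map_mul]
    exact mul_mem hx hy

theorem RJ_ae (hsm : ∀ a, N.Sm (ι (J a))) {x : M} (hx : x ∈ RJ J ψ) :
    ∃ Ξ : Set (Pt1 K' Rad.out), Ξ.Finite ∧
      ∀ z ∉ Ξ, (∀ b, ι (ψ b) ∈ N.regV z) → ι x ∈ N.regV z := by
  have h1 : ∀ a, ∃ Ξ : Set (Pt1 K' Rad.out), Ξ.Finite ∧
      ∀ z ∉ Ξ, (∀ b, ι (ψ b) ∈ N.regV z) → ι (J a) ∈ N.regV z := fun a =>
    ⟨_, (hsm a).finite, fun z hz _ => N.mem_regV.2 (not_lt.1 hz)⟩
  induction hx using Algebra.adjoin_induction with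
  | mem x hx =>
    rcases hx with ⟨a, rfl⟩ | ⟨b, rfl⟩
    exacts [h1 a, ⟨∅, Set.finite_empty, fun z _ h => h b⟩]
  | algebraMap c => exact J.commutes c ▸ h1 _
  | add x y _ _ hx hy =>
    obtain ⟨A, hA, hx⟩ := hx
    obtain ⟨B, hB, hy⟩ := hy
    refine ⟨A ∪ B, hA.union hB, fun z hz h => ?_⟩
    rw [map_add]
    exact add_mem (hx z (fun k => hz (Or.inl k)) h) (hy z (fun k => hz (Or.inr k)) h)
  | mul x y _ _ hx hy =>
    obtain ⟨A, hA, hx⟩ := hx
    obtain ⟨B, hB, hy⟩ := hy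
    refine ⟨A ∪ B, hA.union hB, fun z hz h => ?_⟩
    rw [map_mul]
    exact mul_mem (hx z (fun k => hz (Or.inl k)) h) (hy z (fun k => hz (Or.inr k)) h)

theorem RJ_ideal (hsm : ∀ a, N.Sm (ι (J a))) {I : Ideal B₀} {x : RJ J ψ}
    (hx : x ∈ I.map (ψR J ψ)) : ∃ Ξ : Set (Pt1 K' Rad.out), Ξ.Finite ∧
      ∀ z ∉ Ξ, (∀ b, ι (ψ b) ∈ N.regV z) → (∀ b ∈ I, ι (ψ b) ∈ (N.regV z).nonunits) →
        ι x ∈ (N.regV z).nonunits := by
  induction hx using Submodule.span_induction with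
  | mem x hx =>
    obtain ⟨b, hb, rfl⟩ := hx
    exact ⟨∅, Set.finite_empty, fun z _ _ h => h b hb⟩
  | zero => exact ⟨∅, Set.finite_empty, fun z _ _ _ => N.regV_nonunits.2 (Or.inl (map_zero ι))⟩
  | add x y _ _ hx hy =>
    obtain ⟨A, hA, hx⟩ := hx
    obtain ⟨B, hB, hy⟩ := hy
    refine ⟨A ∪ B, hA.union hB, fun z hz h h' => ?_⟩
    rw [Subalgebra.coe_add, map_add, ValuationSubring.mem_nonunits_iff]
    exact Valuation.map_add_lt _
      ((N.regV z).mem_nonunits_iff.1 (hx z (fun k => hz (Or.inl k)) h h'))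
      ((N.regV z).mem_nonunits_iff.1 (hy z (fun k => hz (Or.inr k)) h h'))
  | smul a x _ hx =>
    obtain ⟨A, hA, ha⟩ := RJ_ae hsm a.2
    obtain ⟨B, hB, hx⟩ := hx
    refine ⟨A ∪ B, hA.union hB, fun z hz h h' => ?_⟩
    rw [smul_eq_mul, Subalgebra.coe_mul, map_mul, ValuationSubring.mem_nonunits_iff, map_mul]
    exact (mul_le_of_le_one_left' (((N.regV z).valuation_le_one_iff _).2
      (ha z (fun k => hz (Or.inl k)) h))).trans_lt
      ((N.regV z).mem_nonunits_iff.1 (hx z (fun k => hz (Or.inr k)) h h'))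

theorem mult_bd [Algebra.FiniteType K B₀] (hsm : ∀ a, N.Sm (ι (J a))) {D : Derivation K M M}
    (hD : Pres J ψ D) (hι : ∀ x, N.D (ι x) = ι (D x)) {x : M} (hx : x ∈ RJ J ψ) :
    ∃ (μ : ℕ) (Ξ : Set (Pt1 K' Rad.out)), Ξ.Finite ∧
      ∀ z ∉ Ξ, (∀ b, ι (ψ b) ∈ N.regV z) → N.ord z (ι x) ≤ μ := by
  have := RJ_noeth J ψ
  have hm : ∀ i, D^[i] x ∈ RJ J ψ := fun i => by
    induction i with
    | zero => exact hx
    | succ i ih =>
      rw [Function.iterate_succ_apply']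
      exact hD.mem ih
  have hi : ∀ i, N.D^[i] (ι x) = ι (D^[i] x) := fun i => by
    induction i with
    | zero => rfl
    | succ i ih => rw [Function.iterate_succ_apply', Function.iterate_succ_apply', ih, hι]
  let y : ℕ → RJ J ψ := fun i => ⟨D^[i] x, hm i⟩
  obtain ⟨μ, hμ⟩ := monotone_stabilizes_iff_noetherian.2 this
    ⟨fun m => Submodule.span (RJ J ψ) (Set.range fun i : Fin m => y i), fun a b hab =>
      Submodule.span_mono (by
        rintro _ ⟨i, rfl⟩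
        exact ⟨Fin.castLE hab i, rfl⟩)⟩
  have h1 : y μ ∈ Submodule.span (RJ J ψ) (Set.range fun i : Fin μ => y i) :=
    (hμ (μ + 1) μ.le_succ).ge (Submodule.subset_span ⟨Fin.last μ, rfl⟩)
  obtain ⟨r, hr⟩ := (Submodule.mem_span_range_iff_exists_fun _).1 h1
  choose Ξ hΞ hreg using fun i => RJ_ae hsm (r i).2
  refine ⟨μ, ⋃ i, Ξ i, Set.finite_iUnion hΞ, fun z hz h => ?_⟩
  by_contra hc
  have h2 : ∀ i ≤ μ, N.D^[i] (ι x) ≠ 0 ∧ N.ord z (N.D^[i] (ι x)) = N.ord z (ι x) - i := by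
    intro i
    induction i with
    | zero =>
      refine fun _ => ⟨fun e => hc ?_, by simp⟩
      rw [show ι x = 0 from e, N.ord_zero]
      exact Int.natCast_nonneg _
    | succ i ih =>
      intro hi
      have h3 := (ih (by omega)).2
      have h4 := N.ord_D z (N.D^[i] (ι x)) (by omega)
      rw [Function.iterate_succ_apply']
      exact ⟨h4.1, by rw [h4.2, h3]; omega⟩
  obtain ⟨h3, h4⟩ := h2 μ le_rfl
  have h5 : ∑ i : Fin μ, ι (r i) * (N.D^[i] (ι x) * (N.D^[μ] (ι x))⁻¹) = 1 := by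
    have := congrArg (fun u : RJ J ψ => ι u) hr
    simp only [smul_eq_mul, AddSubmonoidClass.coe_finset_sum, Subalgebra.coe_mul, map_sum,
      map_mul, y, ← hi] at this
    simp only [← mul_assoc]
    rw [← Finset.sum_mul, this, mul_inv_cancel₀ h3]
  have h6 := (N.regV z).valuation.map_sum_lt (s := Finset.univ) one_ne_zero
    (f := fun i : Fin μ => ι (r i) * (N.D^[i] (ι x) * (N.D^[μ] (ι x))⁻¹)) fun i _ => by
      obtain ⟨h7, h8⟩ := h2 i i.2.le
      have := i.2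
      rw [map_mul]
      refine (mul_le_of_le_one_left' (((N.regV z).valuation_le_one_iff _).2
        (hreg i z (fun k => hz (Set.mem_iUnion.2 ⟨i, k⟩)) h))).trans_lt
        ((N.regV z).mem_nonunits_iff.1 (N.regV_nonunits.2 (Or.inr ?_)))
      rw [N.ord_mul z _ _ h7 (inv_ne_zero h3), NevA_ord_inv, h8, h4]
      omega
  rw [h5, map_one] at h6
  exact lt_irrefl _ h6

variable (N 𝒯) in
/-- functions of controlled growth vanishing to high order at almost all points of `Z` -/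
def Aux (Z : Set (Pt1 K' Rad.out)) : Prop :=
  ∃ r s : ℕ, ∀ L : ℕ, ∃ (k : Fin r → ℕ) (σ : Fin r → M') (Ξ : Set (Pt1 K' Rad.out)), Ξ.Finite ∧
    (∀ i, Le (N.T (σ i)) fun w => k i * (s * 𝒯 w)) ∧
    ∀ z ∈ Z, z ∉ Ξ → ∃ i, ((L * (k i + 1) : ℕ) : ℤ) ≤ N.ord z (σ i)

theorem Aux.mono {Z Z' : Set (Pt1 K' Rad.out)} (h : Aux N 𝒯 Z) (hZ : Z' ⊆ Z) : Aux N 𝒯 Z' := by
  obtain ⟨r, s, h⟩ := h
  refine ⟨r, s, fun L => ?_⟩
  obtain ⟨k, σ, Ξ, h1, h2, h3⟩ := h L
  exact ⟨k, σ, Ξ, h1, h2, fun z hz => h3 z (hZ hz)⟩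

theorem Aux.union (h𝒯 : ∀ w, 0 ≤ 𝒯 w) {Z Z' : Set (Pt1 K' Rad.out)} (h : Aux N 𝒯 Z)
    (h' : Aux N 𝒯 Z') : Aux N 𝒯 (Z ∪ Z') := by
  obtain ⟨r, s, h⟩ := h
  obtain ⟨r', s', h'⟩ := h'
  refine ⟨r + r', max s s', fun L => ?_⟩
  obtain ⟨k, σ, Ξ, h1, h2, h3⟩ := h L
  obtain ⟨k', σ', Ξ', h1', h2', h3'⟩ := h' L
  have key : ∀ (a b : ℕ), b ≤ max s s' → Le (fun w => a * (b * 𝒯 w))
      fun w => a * ((max s s' : ℕ) * 𝒯 w) := fun a b hb => Le.of_le fun w _ =>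
    mul_le_mul_of_nonneg_left (mul_le_mul_of_nonneg_right (Nat.cast_le.2 hb) (h𝒯 w))
      (Nat.cast_nonneg a)
  refine ⟨Fin.append k k', Fin.append σ σ', Ξ ∪ Ξ', h1.union h1', fun i => ?_, fun z hz hn => ?_⟩
  · induction i using Fin.addCases with
    | left i =>
      rw [Fin.append_left, Fin.append_left]
      exact (h2 i).trans (key _ _ (le_max_left _ _))
    | right i =>
      rw [Fin.append_right, Fin.append_right]
      exact (h2' i).trans (key _ _ (le_max_right _ _))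
  · rcases hz with hz | hz
    · obtain ⟨i, hi⟩ := h3 z hz fun e => hn (Or.inl e)
      exact ⟨Fin.castAdd r' i, by rwa [Fin.append_left, Fin.append_left]⟩
    · obtain ⟨i, hi⟩ := h3' z hz fun e => hn (Or.inr e)
      exact ⟨Fin.natAdd r i, by rwa [Fin.append_right, Fin.append_right]⟩

theorem Aux.biUnion (h𝒯 : ∀ w, 0 ≤ 𝒯 w) {α : Type} {S : Set α} (hS : S.Finite)
    {Z : α → Set (Pt1 K' Rad.out)} (h : ∀ a ∈ S, Aux N 𝒯 (Z a)) : Aux N 𝒯 (⋃ a ∈ S, Z a) := by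
  induction S, hS using Set.Finite.induction_on with
  | empty =>
    exact ⟨0, 0, fun L => ⟨Fin.elim0, Fin.elim0, ∅, Set.finite_empty, fun i => i.elim0,
      fun z hz => by simp at hz⟩⟩
  | insert _ _ ih =>
    rw [Set.biUnion_insert]
    exact (h _ (Set.mem_insert _ _)).union h𝒯 (ih fun a ha => h a (Set.mem_insert_of_mem _ ha))

theorem Aux.endgame {α : Type} (H : Finset α) (h : α → M') {Z : Set (Pt1 K' Rad.out)}
    (hZ : Aux N (fun w => ∑ a ∈ H, N.T (h a) w) Z) (hp : ∀ a ∈ H, ∀ z, N.ord z (h a) < 0 → z ∈ Z)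
    (hb : ∀ a ∈ H, Le (fun w => Real.posLog (N.nr w (h a))) fun _ => 0)
    (hm : ∀ a ∈ H, ∃ (μ : ℕ) (Ξ : Set (Pt1 K' Rad.out)), Ξ.Finite ∧
      ∀ z ∉ Ξ, -N.ord z (h a) ≤ μ) : Le (fun w => ∑ a ∈ H, N.T (h a) w) fun _ => 0 := by
  obtain ⟨r, s, hZ⟩ := hZ
  choose! μ Ξ hΞ hμ using hm
  obtain ⟨k, σ, Ξ', h1, h2, h3⟩ := hZ (2 * s * H.sup μ * H.card * r + 1)
  refine N.endgame H h σ (fun i => (2 * s * H.sup μ * H.card * r + 1) * (k i + 1)) k (H.sup μ) s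
    (Ξ := Ξ' ∪ ⋃ a ∈ (H : Set α), Ξ a) (h1.union (H.finite_toSet.biUnion hΞ)) hb
    (fun a ha z hz h0 => ⟨?_, h3 z (hp a ha z h0) fun e => hz (Or.inl e)⟩) h2
    (fun i => Nat.mul_pos (Nat.succ_pos _) (Nat.succ_pos _)) fun i => ?_
  · exact (hμ a ha z fun e => hz (Or.inr (Set.mem_biUnion ha e))).trans
      (Int.ofNat_le.2 (Finset.le_sup ha))
  · rw [Fintype.card_fin]
    exact Nat.mul_le_mul (Nat.le_succ _) (Nat.le_succ _)

end Pool.Agent.Work.MP_e120ef_ag.H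
end

-- merged part: Pool.Agent.Work.MP_e120ef_ag.H.AuxT
section
/-!
# The auxiliary function over a field of moving coefficients; a height estimate

Plans.  `aux_tw`: as `aux_alg` (file `AuxA`, reuse `AuxA_indep`, `AuxA_deg`, `AuxA_count`, `sec_bound`, `Fl_*`), but `D` is not linear over `C`.  First, `D (Fl x k) ⊆ Fl x (k + c)` as in `Fl_der` (`SB_ind`; `D (c • a) = c' • a + c • D a`).
Let `W j` be the set of `σ ∈ restrictDegree (Fin (s + 2)) C k` with `D^[i] (aeval y σ) ∈ q` for `i < j`.  By induction on `j`, for `c : C` and `a : B`, `D^[j] (c • a) - c • D^[j] a` lies in the `C`-span of the `D^[i] a`, `i < j`; hence `W j` is a `C`-submodule, `σ ↦ mk (D^[j] (aeval y σ))` is `C`-linear on `W j` with kernel `W (j + 1)` and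
values in `Fl (mk ∘ x) (c₁ (k + 1))`, so `finrank (W j) ≤ finrank (W (j + 1)) + bound` (`LinearMap.finrank_range_add_finrank_ker`).
`height_two`: let `p ≤ q` be a minimal prime over `span {a₁}` (`Ideal.exists_minimalPrimes_le`); `a₁ ≠ 0` since the determinant `u` is nonzero, so `p ≠ ⊥`.  If `p = q`, then `s * a₂ ^ N ∈ span {a₁}` for some `s ∉ q` (`Ideal.exists_mul_pow_mem..`: localise at `q`, where the maximal ideal is the radical of `span {a₁}`,
`IsLocalization.AtPrime.radical_map_of_mem_minimalPrimes`).  The derivation `d = d₁ a₁ • d₂ - d₂ a₁ • d₁` kills `a₁`, preserves `span {a₁}`, and `d a₂ = u`.  From `s a₂ ^ (N + 1) ∈ span {a₁}` get `(N + 1) s ^ 2 u a₂ ^ N ∈ span {a₁}`; descend to `N = 0`.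
-/

namespace Pool.Agent.Work.MP_e120ef_ag.H

theorem AuxT_iter_add {B : Type} [AddCommGroup B] (D : B →+ B) (j : ℕ) (a b : B) :
    D^[j] (a + b) = D^[j] a + D^[j] b := by
  induction j generalizing a b with
  | zero => rfl
  | succ j ih => rw [Function.iterate_succ_apply, Function.iterate_succ_apply,
      Function.iterate_succ_apply, map_add, ih]

theorem AuxT_iter_smul {C B Q : Type} [Field C] [AddCommGroup B] [Module C B] [AddCommGroup Q]
    [Module C Q] (D : B →+ B) (hD : ∀ c : C, ∃ c' : C, ∀ a, D (c • a) = c' • a + c • D a)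
    (π : B →ₗ[C] Q) (j : ℕ) : ∀ (c : C) (a : B), (∀ i < j, π (D^[i] a) = 0) →
      π (D^[j] (c • a)) = c • π (D^[j] a) := by
  induction j with
  | zero => exact fun c a _ => π.map_smul c a
  | succ j ih =>
    intro c a h
    obtain ⟨c', hc'⟩ := hD c
    rw [Function.iterate_succ_apply, Function.iterate_succ_apply, hc', AuxT_iter_add, map_add,
      ih c' a fun i hi => h i (hi.trans j.lt_succ_self), h j j.lt_succ_self, smul_zero, zero_add]
    exact ih c (D a) fun i hi => h (i + 1) (Nat.succ_lt_succ hi)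

theorem AuxT_chain {C V B Q : Type} [Field C] [AddCommGroup V] [Module C V] [Module.Finite C V]
    [AddCommGroup B] [Module C B] [AddCommGroup Q] [Module C Q] (φ : V →ₗ[C] B) (D : B →+ B)
    (hD : ∀ c : C, ∃ c' : C, ∀ a, D (c • a) = c' • a + c • D a) (π : B →ₗ[C] Q)
    (F : Submodule C Q) [Module.Finite C F] {N : ℕ} (hF : ∀ v, ∀ j < N, π (D^[j] (φ v)) ∈ F)
    (h : N * Module.finrank C F < Module.finrank C V) :
    ∃ v, v ≠ 0 ∧ ∀ j < N, π (D^[j] (φ v)) = 0 := by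
  have key : ∀ j ≤ N, ∃ W : Submodule C V, (∀ v ∈ W, ∀ i < j, π (D^[i] (φ v)) = 0) ∧
      Module.finrank C V ≤ Module.finrank C W + j * Module.finrank C F := by
    intro j
    induction j with
    | zero => exact fun _ => ⟨⊤, fun _ _ _ hi => absurd hi (Nat.not_lt_zero _), by simp⟩
    | succ j ih =>
      intro hj
      obtain ⟨W, h1, h2⟩ := ih (Nat.le_of_succ_le hj)
      let ψ : W →ₗ[C] F :=
        { toFun := fun v => ⟨π (D^[j] (φ v)), hF v j hj⟩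
          map_add' := fun v w => Subtype.ext (by
            simp only [Submodule.coe_add, map_add, AuxT_iter_add])
          map_smul' := fun c v => Subtype.ext (by
            simp only [Submodule.coe_smul, map_smul, RingHom.id_apply]
            exact AuxT_iter_smul D hD π j c _ (h1 v v.2)) }
      refine ⟨(LinearMap.ker ψ).map W.subtype, ?_, ?_⟩
      · rintro _ ⟨v, hv, rfl⟩ i hi
        rcases (Nat.lt_succ_iff_lt_or_eq).1 hi with hi | rfl
        · exact h1 v v.2 i hi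
        · exact congrArg Subtype.val (LinearMap.mem_ker.1 hv)
      · have h3 := LinearMap.finrank_range_add_finrank_ker ψ
        have h4 : Module.finrank C (LinearMap.range ψ) ≤ Module.finrank C F :=
          Submodule.finrank_le _
        rw [Submodule.finrank_map_subtype_eq]
        nlinarith
  obtain ⟨W, h1, h2⟩ := key N le_rfl
  have h3 : W ≠ ⊥ := fun e => by
    rw [e, finrank_bot] at h2
    omega
  obtain ⟨v, hv, h0⟩ := Submodule.exists_mem_ne_zero_of_ne_bot h3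
  exact ⟨v, h0, h1 v hv⟩

theorem AuxT_der {C B : Type} [Field C] [CommRing B] [Algebra C B] (D : B →+ B)
    (hD : ∀ a b, D (a * b) = a * D b + b * D a)
    (hC : ∀ c : C, ∃ c' : C, ∀ a, D (c • a) = c' • a + c • D a) {n : ℕ} {x : Fin n → B}
    (hx : Function.Surjective (MvPolynomial.aeval x : MvPolynomial (Fin n) C →ₐ[C] B)) :
    ∃ c : ℕ, ∀ (j k : ℕ), ∀ a ∈ Fl C x k, D^[j] a ∈ Fl C x (k + c * j) := by
  choose c hc using fun i => Fl_exists hx (D (x i))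
  obtain ⟨c0, h0⟩ : ∃ c0, ∀ i, c i ≤ c0 := ⟨_, fun i => Finset.le_sup (Finset.mem_univ i)⟩
  have h1 : D 1 = 0 := by simpa using hD 1 1
  let P : ℕ → Submodule C B := fun k =>
    { carrier := {a | a ∈ Fl C x k ∧ D a ∈ Fl C x (k + c0)}
      add_mem' := fun ha hb => ⟨add_mem ha.1 hb.1, by
        rw [map_add]
        exact add_mem ha.2 hb.2⟩
      zero_mem' := ⟨zero_mem _, by
        rw [map_zero]
        exact zero_mem _⟩
      smul_mem' := fun r a ha => ⟨Submodule.smul_mem _ r ha.1, by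
        obtain ⟨r', hr'⟩ := hC r
        rw [hr']
        exact add_mem (Submodule.smul_mem _ _ (Fl_mono x (Nat.le_add_right _ _) ha.1))
          (Submodule.smul_mem _ _ ha.2)⟩ }
  have key : ∀ k, ∀ a ∈ Fl C x k, D a ∈ Fl C x (k + c0) := by
    intro k a ha
    obtain ⟨p, hp, rfl⟩ := SB_mem.1 ha
    refine (SB_ind (fun k => (P k).comap
      (MvPolynomial.aeval x : MvPolynomial (Fin n) C →ₐ[C] B).toLinearMap) (fun k => ?_)
      (fun k i p _ h2 => ?_) k p hp).2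
    · refine ⟨by simpa using SB_one x k, ?_⟩
      simp only [AlgHom.toLinearMap_apply, map_one, h1]
      exact zero_mem _
    · have h3 := Fl_mono x (by have := h0 i; omega : k + c i ≤ k + 1 + c0) (Fl_mul h2.1 (hc i))
      have h4 := Fl_mono x (by omega : 1 + (k + c0) ≤ k + 1 + c0) (Fl_mul (SB_X x i) h2.2)
      refine ⟨by simpa using Fl_mul h2.1 (SB_X x i), ?_⟩
      simp only [AlgHom.toLinearMap_apply, map_mul, MvPolynomial.aeval_X, hD]
      exact add_mem h3 h4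
  refine ⟨c0, fun j => ?_⟩
  induction j with
  | zero => exact fun k a ha => ha
  | succ j ih =>
    intro k a ha
    rw [Function.iterate_succ_apply', mul_add, mul_one, ← add_assoc]
    exact key _ _ (ih k a ha)

theorem aux_tw {C B : Type} [Field C] [CommRing B] [IsDomain B] [Algebra C B]
    [Algebra.FiniteType C B] (D : B →+ B) (hD : ∀ a b, D (a * b) = a * D b + b * D a)
    (hC : ∀ c : C, ∃ c' : C, D (algebraMap C B c) = algebraMap C B c') {p q : Ideal B} [p.IsPrime]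
    [q.IsPrime] (hp : p ≠ ⊥) (hq : p < q) :
    ∃ (n : ℕ) (y : Fin n → B), ∀ L : ℕ, ∃ (k : ℕ) (σ : MvPolynomial (Fin n) C),
      MvPolynomial.aeval y σ ≠ 0 ∧ (∀ i, σ.degreeOf i ≤ k) ∧
      ∀ j < L * (k + 1), D^[j] (MvPolynomial.aeval y σ) ∈ q := by
  have hC' : ∀ c : C, ∃ c' : C, ∀ a, D (c • a) = c' • a + c • D a := fun c => by
    obtain ⟨c', h⟩ := hC c
    refine ⟨c', fun a => ?_⟩
    rw [Algebra.smul_def, Algebra.smul_def, Algebra.smul_def, hD, h]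
    ring
  obtain ⟨s, g, hinj, hfin⟩ := exists_finite_inj_algHom_of_fg C (B ⧸ q)
  obtain ⟨y, hy⟩ := AuxA_indep hp hq hinj
  obtain ⟨n, f, hf⟩ := Algebra.FiniteType.iff_quotient_mvPolynomial''.1
    (inferInstance : Algebra.FiniteType C B)
  obtain ⟨x, hx⟩ : ∃ x : Fin n → B,
      Function.Surjective (MvPolynomial.aeval x : MvPolynomial (Fin n) C →ₐ[C] B) := by
    refine ⟨fun i => f (MvPolynomial.X i), ?_⟩
    rwa [show MvPolynomial.aeval (fun i => f (MvPolynomial.X i)) = f from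
      MvPolynomial.algHom_ext fun i => MvPolynomial.aeval_X _ i]
  choose e he using fun i => Fl_exists hx (y i)
  have h0 : ∀ i, y i ∈ Fl C x (Finset.univ.sup e) := fun i =>
    Fl_mono x (Finset.le_sup (Finset.mem_univ i)) (he i)
  generalize Finset.univ.sup e = c₀ at h0
  obtain ⟨c, hc⟩ := AuxT_der D hD hC' hx
  obtain ⟨M, hM⟩ := sec_bound g hfin fun i => Ideal.Quotient.mkₐ C q (x i)
  refine ⟨s + 2, y, fun L => ?_⟩
  have h1 := AuxA_count L M (c₀ * (s + 2) + c * L) s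
  generalize L * M * (c₀ * (s + 2) + c * L + 1) ^ s = k at h1
  obtain ⟨σ, h4, h3⟩ := AuxT_chain (V := MvPolynomial.restrictDegree (Fin (s + 2)) C k)
    ((MvPolynomial.aeval y).toLinearMap ∘ₗ Submodule.subtype _) D hC'
    (Ideal.Quotient.mkₐ C q).toLinearMap
    (Fl C (fun i => Ideal.Quotient.mkₐ C q (x i)) ((c₀ * (s + 2) + c * L) * (k + 1)))
    (N := L * (k + 1)) (fun σ j hj => by
      refine Fl_map (Ideal.Quotient.mkₐ C q) ?_
      refine Fl_mono x ?_ (hc j _ _ (Fl_aeval h0 (AuxA_deg σ.2)))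
      have h2 : c * j ≤ c * (L * (k + 1)) := Nat.mul_le_mul_left c hj.le
      nlinarith [Nat.zero_le (c₀ * (s + 2))])
    (lt_of_le_of_lt (Nat.mul_le_mul_left _ (hM _)) (h1.trans_eq (finrank_restrictDegree _ _).symm))
  refine ⟨k, σ, fun h => h4 (Subtype.ext (hy (h.trans (map_zero _).symm))), fun i => ?_,
    fun j hj => Ideal.Quotient.eq_zero_iff_mem.1 (h3 j hj)⟩
  exact MvPolynomial.degreeOf_le_iff.2 fun m hm =>
    (MvPolynomial.mem_restrictDegree _ _ k).1 σ.2 m hm i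

theorem AuxT_pow {R : Type} [CommRing R] (d : R →+ R) (h : ∀ a b, d (a * b) = a * d b + b * d a)
    (a : R) (N : ℕ) : d (a ^ (N + 1)) = (N + 1 : ℕ) * a ^ N * d a := by
  induction N with
  | zero => simp
  | succ N ih =>
    rw [pow_succ, h, ih]
    push_cast
    ring

theorem height_two {K R : Type} [Field K] [CharZero K] [CommRing R] [IsDomain R] [Algebra K R]
    (d₁ d₂ : R →+ R) (h₁ : ∀ a b, d₁ (a * b) = a * d₁ b + b * d₁ a)
    (h₂ : ∀ a b, d₂ (a * b) = a * d₂ b + b * d₂ a) {q : Ideal R} [q.IsPrime] {a₁ a₂ : R}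
    (ha₁ : a₁ ∈ q) (ha₂ : a₂ ∈ q) (hu : d₁ a₁ * d₂ a₂ - d₂ a₁ * d₁ a₂ ∉ q) :
    ∃ p : Ideal R, p.IsPrime ∧ p ≠ ⊥ ∧ p < q := by
  have hq : q.IsPrime := inferInstance
  have h0 : a₁ ≠ 0 := fun e => hu (by simp [e])
  have key : ∀ N : ℕ, ∀ s ∉ q, ¬ a₁ ∣ s * a₂ ^ N := by
    intro N
    induction N with
    | zero => exact fun s hs h => hs (q.mem_of_dvd (by simpa using h) ha₁)
    | succ N ih =>
      rintro s hs ⟨r, hr⟩
      have hN : ((N + 1 : ℕ) : R) ∉ q := fun h => hq.ne_top (q.eq_top_of_isUnit_mem h (by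
        rw [← map_natCast (algebraMap K R)]
        exact (IsUnit.mk0 _ (Nat.cast_ne_zero.2 N.succ_ne_zero)).map _))
      have e₁ := congrArg d₁ hr
      have e₂ := congrArg d₂ hr
      rw [h₁, h₁, AuxT_pow d₁ h₁] at e₁
      rw [h₂, h₂, AuxT_pow d₂ h₂] at e₂
      refine ih (s * s * (N + 1 : ℕ) * (d₁ a₁ * d₂ a₂ - d₂ a₁ * d₁ a₂)) (fun h => ?_)
        ⟨s * (d₁ a₁ * d₂ r - d₂ a₁ * d₁ r) - r * (d₁ a₁ * d₂ s - d₂ a₁ * d₁ s), ?_⟩
      · rcases hq.mem_or_mem h with h | h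
        · rcases hq.mem_or_mem h with h | h
          · exact hs ((hq.mem_or_mem h).elim id id)
          · exact hN h
        · exact hu h
      · linear_combination (s * d₁ a₁) * e₂ - (s * d₂ a₁) * e₁ -
          (d₁ a₁ * d₂ s - d₂ a₁ * d₁ s) * hr
  obtain ⟨p, hp, h3, h4⟩ := Ideal.exists_le_prime_disjoint (Ideal.span {a₁})
    (q.primeCompl ⊔ Submonoid.powers a₂) (Set.disjoint_left.2 fun z hz hz' => by
      obtain ⟨s, hs, _, ⟨N, rfl⟩, rfl⟩ := Submonoid.mem_sup.1 hz'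
      exact key N s hs (Ideal.mem_span_singleton.1 hz))
  refine ⟨p, hp, fun e => h0 ?_, lt_of_le_of_ne (fun z hz => by_contra fun hz' => ?_) fun e => ?_⟩
  · have := h3 (Ideal.mem_span_singleton_self a₁)
    rwa [e] at this
  · exact Set.disjoint_left.1 h4 hz (Submonoid.mem_sup_left hz')
  · exact Set.disjoint_left.1 h4 (e ▸ ha₂ : a₂ ∈ p)
      (Submonoid.mem_sup_right (Submonoid.mem_powers a₂))

end Pool.Agent.Work.MP_e120ef_ag.H
end

-- merged part: Pool.Agent.Work.MP_e120ef_ag.H.AuxI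
section
/-!
# Auxiliary functions for an ideal of codimension two with moving coefficients

Plans.  `aux_alg`: `R` is Noetherian, so `I.minimalPrimes` is finite (`Ideal.finite_minimalPrimes_of_isNoetherianRing`); enumerate it by `Fin r` and use `aux_tw` for each member; the product lies in every minimal prime, and `Ideal.sInf_minimalPrimes`.
`aux_ideal`: let `R = RJ J ψ` with the `F`-algebra structure `(JR J ψ).toAlgebra` (`RJ_fin`), `I' = I.map (ψR J ψ)`, and restrict `D`, `w₁`, `w₂` to additive maps `R →+ R` (`Pres.mem`).  For a prime `q ≥ I'` apply `ht` to `q.comap (ψR J ψ)` (`Ideal.map_le_iff_le_comap`) and `height_two`.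
From `aux_alg` get `y`; `ctl_fin` with `RJ_ctl` gives `s` (take the sum or the maximum over `i`); `T_polyS` with `c = ι.comp J` bounds `T (ι (aeval (y i) (σ i)))` (`MvPolynomial.eval₂_comp_left`, `Le.mul`).
The exceptional set is the union of the sets of `RJ_ae` for the finitely many `D^[j] (aeval (y i) (σ i))`, `j ≤ L * (k i + 1)`, and of `RJ_ideal` for a power of each of the finitely many products (`Fintype.piFinset`).  If for each `i` some `j i < L * (k i + 1)` gives a unit, the product is a unit, contradiction; so for some `i` all are nonunits: `Nev.ord_ge`.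
-/

namespace Pool.Agent.Work.MP_e120ef_ag.H

theorem aux_alg {C R : Type} [Field C] [CommRing R] [IsDomain R] [Algebra C R]
    [Algebra.FiniteType C R] (D : R →+ R) (hD : ∀ a b, D (a * b) = a * D b + b * D a)
    (hC : ∀ c : C, ∃ c' : C, D (algebraMap C R c) = algebraMap C R c') (I : Ideal R)
    (ht : ∀ q : Ideal R, q.IsPrime → I ≤ q → ∃ p : Ideal R, p.IsPrime ∧ p ≠ ⊥ ∧ p < q) :
    ∃ (r : ℕ) (n : Fin r → ℕ) (y : ∀ i, Fin (n i) → R), ∀ L : ℕ,
      ∃ (k : Fin r → ℕ) (σ : ∀ i, MvPolynomial (Fin (n i)) C),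
        (∀ i, MvPolynomial.aeval (y i) (σ i) ≠ 0) ∧ (∀ i l, (σ i).degreeOf l ≤ k i) ∧
        ∀ j : Fin r → ℕ, (∀ i, j i < L * (k i + 1)) →
          ∏ i, D^[j i] (MvPolynomial.aeval (y i) (σ i)) ∈ I.radical := by
  have : IsNoetherianRing R := Algebra.FiniteType.isNoetherianRing C R
  obtain ⟨r, q, -, hq⟩ := (Ideal.finite_minimalPrimes_of_isNoetherianRing R I).fin_param
  have h1 : ∀ i, q i ∈ I.minimalPrimes := fun i => hq ▸ Set.mem_range_self i
  choose p hp h2 h3 using fun i => ht (q i) (h1 i).1.1 (h1 i).1.2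
  choose n y h using fun i =>
    haveI := (h1 i).1.1
    aux_tw D hD hC (h2 i) (h3 i)
  refine ⟨r, n, y, fun L => ?_⟩
  choose k σ h2 h3 h4 using fun i => h i L
  refine ⟨k, σ, h2, h3, fun j hj => ?_⟩
  rw [← Ideal.sInf_minimalPrimes, ← hq, Ideal.mem_sInf]
  rintro _ ⟨i, rfl⟩
  exact (q i).mem_of_dvd (Finset.dvd_prod_of_mem _ (Finset.mem_univ i)) (h4 i _ (hj i))

theorem AuxI_core {C R : Type} [Field C] [CommRing R] [IsDomain R] [Algebra C R]
    [Algebra.FiniteType C R] (D : R →+ R) (hD : ∀ a b, D (a * b) = a * D b + b * D a)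
    (hC : ∀ c : C, ∃ c' : C, D (algebraMap C R c) = algebraMap C R c') (I : Ideal R)
    (ht : ∀ q : Ideal R, q.IsPrime → I ≤ q → ∃ p : Ideal R, p.IsPrime ∧ p ≠ ⊥ ∧ p < q)
    {K' M' : Type} [NontriviallyNormedField K'] [Field M'] [Algebra K' M']
    {N : Nev K' Rad.out M'} {𝒯 : Pt1 K' Rad.out → ℝ} {h𝒯 : ∀ w, 0 ≤ 𝒯 w} (φ : R →+* M')
    (hφ : Function.Injective φ) (hd : ∀ x, φ (D x) = N.D (φ x))
    (hsm : ∀ a, N.Sm (φ (algebraMap C R a))) (hctl : ∀ x, φ x ∈ N.ctl 𝒯 h𝒯)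
    {Z : Set (Pt1 K' Rad.out)}
    (hreg : ∀ x, ∃ Ξ : Set (Pt1 K' Rad.out), Ξ.Finite ∧ ∀ z ∈ Z, z ∉ Ξ → φ x ∈ N.regV z)
    (hnon : ∀ x ∈ I, ∃ Ξ : Set (Pt1 K' Rad.out), Ξ.Finite ∧
      ∀ z ∈ Z, z ∉ Ξ → φ x ∈ (N.regV z).nonunits) : Aux N 𝒯 Z := by
  have hrad : ∀ x, ∃ Ξ : Set (Pt1 K' Rad.out), Ξ.Finite ∧ (x ∈ I.radical →
      ∀ z ∈ Z, z ∉ Ξ → (N.regV z).valuation (φ x) < 1) := fun x => by
    by_cases hx : x ∈ I.radical
    · obtain ⟨m, hm⟩ := hx
      obtain ⟨Ξ, h1, h2⟩ := hnon _ hm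
      refine ⟨Ξ, h1, fun _ z hz hΞ => ?_⟩
      have h3 := (ValuationSubring.mem_nonunits_iff _).1 (h2 z hz hΞ)
      rw [map_pow, map_pow] at h3
      exact not_le.1 fun h4 => h3.not_ge (one_le_pow_of_one_le' h4 m)
    · exact ⟨∅, Set.finite_empty, fun h => absurd h hx⟩
  choose Ξ₁ f₁ g₁ using hreg
  choose Ξ₂ f₂ g₂ using hrad
  obtain ⟨r, n, y, h⟩ := aux_alg D hD hC I ht
  obtain ⟨s, hs⟩ := Nev.ctl_fin (y := fun x : Σ i, Fin (n i) => φ (y x.1 x.2)) fun x => hctl _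
  refine ⟨r, s, fun L => ?_⟩
  obtain ⟨k, σ, h0, h1, h2⟩ := h L
  refine ⟨k, fun i => φ (MvPolynomial.aeval (y i) (σ i)),
    (⋃ i, Ξ₁ (MvPolynomial.aeval (y i) (σ i))) ∪
      ⋃ j ∈ {j : Fin r → ℕ | ∀ i, j i ∈ Set.Iio (L * (k i + 1))},
        Ξ₂ (∏ i, D^[j i] (MvPolynomial.aeval (y i) (σ i))),
    (Set.finite_iUnion fun i => f₁ _).union
      ((Set.Finite.pi' fun i => Set.finite_Iio _).biUnion fun j _ => f₂ _), fun i => ?_,
    fun z hz hΞ => ?_⟩
  · have h3 := Nev.T_polyS (φ.comp (algebraMap C R)) hsm (φ ∘ y i) (σ i) (h1 i)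
    rw [← MvPolynomial.eval₂_comp_left, ← MvPolynomial.aeval_def] at h3
    refine h3.trans (Le.mul (Le.trans (Le.of_le fun w _ => ?_) hs) (Nat.cast_nonneg _))
    rw [Fintype.sum_sigma]
    exact Finset.single_le_sum (f := fun i => ∑ l, N.T (φ (y i l)) w)
      (fun i _ => Finset.sum_nonneg fun l _ => N.T_nonneg _ w) (Finset.mem_univ i)
  · by_contra hn
    rw [Set.mem_union, not_or, Set.mem_iUnion, Set.mem_iUnion₂] at hΞ
    have h3 : ∀ i, ∃ j < L * (k i + 1),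
        1 ≤ (N.regV z).valuation (φ (D^[j] (MvPolynomial.aeval (y i) (σ i)))) := fun i => by
      by_contra h4
      refine hn ⟨i, N.ord_ge ((map_ne_zero_iff φ hφ).2 (h0 i)) (fun j hj => ?_)
        (g₁ _ z hz fun h5 => hΞ.1 ⟨i, h5⟩)⟩
      rw [← (Function.Semiconj.iterate_right (f := φ) hd j).eq, ValuationSubring.mem_nonunits_iff]
      exact not_le.1 fun h5 => h4 ⟨j, hj, h5⟩
    choose j h4 h5 using h3
    refine (g₂ _ (h2 j h4) z hz fun h6 => hΞ.2 ⟨j, h4, h6⟩).not_ge ?_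
    rw [map_prod, map_prod]
    exact Finset.one_le_prod' fun i _ => h5 i

variable {K F B₀ M : Type} [Field K] [CharZero K] [Field F] [CommRing B₀] [Field M] [Algebra K F]
  [Algebra K B₀] [Algebra.FiniteType K B₀] [Algebra K M] {J : F →ₐ[K] M} {ψ : B₀ →ₐ[K] M}
  {K' M' : Type} [NontriviallyNormedField K'] [Field M'] [Algebra K' M']
  {N : Nev K' Rad.out M'} {ι : M →+* M'} {𝒯 : Pt1 K' Rad.out → ℝ}

/-- the restriction of a derivation -/
def AuxI_res {D : Derivation K M M} (h : Pres J ψ D) : RJ J ψ →+ RJ J ψ where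
  toFun x := ⟨D x, h.mem x.2⟩
  map_zero' := Subtype.ext (map_zero D)
  map_add' x y := Subtype.ext (map_add D x.1 y.1)

omit [CharZero K] [Algebra.FiniteType K B₀] in
theorem AuxI_mul {D : Derivation K M M} (h : Pres J ψ D) (a b : RJ J ψ) :
    AuxI_res h (a * b) = a * AuxI_res h b + b * AuxI_res h a :=
  Subtype.ext (D.leibniz a.1 b.1)

theorem aux_ideal (hsm : ∀ a, N.Sm (ι (J a))) {h𝒯 : ∀ w, 0 ≤ 𝒯 w}
    (hψ : ∀ b, ι (ψ b) ∈ N.ctl 𝒯 h𝒯) {D : Derivation K M M} (hD : Pres J ψ D)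
    (hι : ∀ x, N.D (ι x) = ι (D x)) (I : Ideal B₀)
    (ht : ∀ q : Ideal B₀, q.IsPrime → I ≤ q → ∃ a₁ ∈ q, ∃ a₂ ∈ q, ∃ u ∉ q,
      ∃ w₁ w₂ : Derivation K M M, Pres J ψ w₁ ∧ Pres J ψ w₂ ∧
        w₁ (ψ a₁) * w₂ (ψ a₂) - w₂ (ψ a₁) * w₁ (ψ a₂) = ψ u) :
    Aux N 𝒯 {z | (∀ b, ι (ψ b) ∈ N.regV z) ∧ ∀ b ∈ I, ι (ψ b) ∈ (N.regV z).nonunits} := by
  let _ : Algebra F (RJ J ψ) := (JR J ψ).toAlgebra
  have : Algebra.FiniteType F (RJ J ψ) := RJ_fin J ψ
  refine AuxI_core (C := F) (h𝒯 := h𝒯) (AuxI_res hD) (AuxI_mul hD) (fun c => ?_) (I.map (ψR J ψ))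
    (fun q hq h => ?_) (ι.comp (RJ J ψ).val.toRingHom) (ι.injective.comp Subtype.val_injective)
    (fun x => (hι x).symm) hsm (fun x => RJ_ctl hsm hψ x.2) (fun x => ?_) fun x hx => ?_
  · obtain ⟨c', hc⟩ := hD.mapJ c
    exact ⟨c', Subtype.ext hc⟩
  · obtain ⟨a₁, h₁, a₂, h₂, u, hu, w₁, w₂, p₁, p₂, e⟩ :=
      ht (q.comap (ψR J ψ)) (Ideal.comap_isPrime _ _) (Ideal.map_le_iff_le_comap.1 h)
    refine height_two (K := K) (AuxI_res p₁) (AuxI_res p₂) (AuxI_mul p₁) (AuxI_mul p₂) h₁ h₂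
      fun h3 => hu ?_
    refine Ideal.mem_comap.2 (Eq.subst (motive := (· ∈ q)) (Subtype.ext ?_) h3)
    exact e
  · obtain ⟨Ξ, h1, h2⟩ := RJ_ae hsm x.2
    exact ⟨Ξ, h1, fun z hz h => h2 z h hz.1⟩
  · obtain ⟨Ξ, h1, h2⟩ := RJ_ideal hsm hx
    exact ⟨Ξ, h1, fun z hz h => h2 z h hz.1 hz.2⟩

end Pool.Agent.Work.MP_e120ef_ag.H
end

-- merged part: Pool.Agent.Work.MP_e120ef_ag.H.CoreG
section
/-!
# The second main theorem argument along one branch

Plans (`π = pbF h.dom`, `j = φ.comp π`, `ψ U = j.comp (B A U).val`, `D = ∑ k, J (ν k) • d k` as a derivation of `M`, `𝒪 z = (N.regV z).comap ι`, `comap_nonunits`).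
`two_fields_B`: `y` from `aff_point`, `z ⤳ y` by `aff_spec`, `cod2_spec`, `two_fields`; multiply `a i` by `s i` from `aff_frac`; modulo `mp A y 1` the determinant is multiplied by the unit `s₁ * s₂` (`IsU.add_mp`, `mem_pr`; `IsFrame.mem`, `mem_B`).
`ctl_alg`: `ctl_root` for the image of the polynomial (`Polynomial.map`; it is nonzero because `ρ` is injective); the coefficients by `Algebra.adjoin_induction`.  `ctl_self`: `s = 1`, `Finset.single_le_sum`, `T_nonneg`.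
`CD.exists_D`: `Pres`: `J (ν k) * J a' = J (ν k * a')`; `v k b ∈ B A U` by `reg`.
`CD.aux`: take `𝒵` from `badV`, `𝒰` from `fin_cover A`; for `U ∈ 𝒰`, `Z ∈ 𝒵`, `Z ∈ U` use `aux_ideal` with `ψ U`, `I = pr _` (`aff_finiteType`, `two_fields_B`, the derivations `w i`); `Aux.biUnion` (over `𝒰 ×ˢ 𝒵`, with the empty set if `Z ∉ U`), `Aux.mono`.  If `ord z < 0` let `c` be the centre of `𝒪 z` (`exists_cf`), `U ∋ α c`, `Z ⤳ α c` (so `Z ∈ U`, `Specializes.mem_open`); `Cf.map`, `B_le_O`, `mem_pr`, `mem_mp_of_spec`.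
`CD.mult`: for `U ∈ 𝒰` take `a U` from `Bad_kill_all`, `mult_bd` for `j (a U)`; at `z` with centre `c`, `α c ∈ U`, `ι (φ (π a * h))` is regular; `ord_mul` (`ord_zero` if `h = 0`).
`CD.small`: `𝒯 = ∑ h ∈ H, T (ι (φ h))`, `ctl_self`, `ctl_alg` (constants: `IsScalarTower.algebraMap_apply`, `sm_alg`), `Aux.biUnion` over `H`, `pgp` with `inv_mem`, `Aux.endgame`, `sm_of_ctl`.
-/

open CategoryTheory AlgebraicGeometry

namespace Pool.Agent.Work.MP_e120ef_ag.H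

variable {K : Type} [Field K] {K' M' : Type} [NontriviallyNormedField K'] [Field M']
  [Algebra K' M'] {N : Nev K' Rad.out M'} {𝒯 : Pt1 K' Rad.out → ℝ} {h𝒯 : ∀ w, 0 ≤ 𝒯 w}

theorem ctl_alg {F : Type} [Field F] [Algebra K F] (ρ : F →+* M')
    (hK : ∀ c : K, ρ (algebraMap K F c) ∈ N.ctl 𝒯 h𝒯) {H : Finset F}
    (hH : ∀ h ∈ H, ρ h ∈ N.ctl 𝒯 h𝒯) {a : F}
    (ha : IsAlgebraic (Algebra.adjoin K {u | ∃ h ∈ H, ∃ h' ∈ H, u = h / h'}) a) :
    ρ a ∈ N.ctl 𝒯 h𝒯 := by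
  obtain ⟨Q, hQ0, hQ⟩ := ha
  have hc : ∀ x ∈ Algebra.adjoin K {u | ∃ h ∈ H, ∃ h' ∈ H, u = h / h'}, ρ x ∈ N.ctl 𝒯 h𝒯 := by
    intro x hx
    induction hx using Algebra.adjoin_induction with
    | mem x hx =>
      obtain ⟨h, hh, h', hh', rfl⟩ := hx
      rw [map_div₀]
      exact div_mem (hH _ hh) (hH _ hh')
    | algebraMap c => exact hK c
    | add x y _ _ ihx ihy => rw [map_add]; exact add_mem ihx ihy
    | mul x y _ _ ihx ihy => rw [map_mul]; exact mul_mem ihx ihy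
  refine Nev.ctl_root (p := Q.map (ρ.comp (algebraMap _ F))) ?_ (fun i => ?_) ?_
  · exact (Polynomial.map_ne_zero_iff fun x y hxy => Subtype.ext (ρ.injective hxy)).2 hQ0
  · rw [Polynomial.coeff_map]
    exact hc _ (Q.coeff i).2
  · rw [Polynomial.eval_map, ← Polynomial.hom_eval₂, ← Polynomial.aeval_def, hQ, map_zero]

theorem ctl_self {α : Type} (H : Finset α) (u : α → M') {a : α} (ha : a ∈ H) :
    u a ∈ N.ctl (fun w => ∑ b ∈ H, N.T (u b) w)
      fun w => Finset.sum_nonneg fun b _ => N.T_nonneg (u b) w := by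
  refine Nev.mem_ctl.2 ⟨1, Le.of_le fun w _ => ?_⟩
  rw [Nat.cast_one, one_mul]
  exact Finset.single_le_sum (f := fun b => N.T (u b) w) (fun b _ => N.T_nonneg (u b) w) ha

theorem CoreG_B {A : Sch K} [IsIntegral A.left] {D : Dr A} (hD : ∀ x, RegAt D x)
    {U : A.left.Opens} : ∀ b ∈ B A U, D b ∈ B A U :=
  fun b hb => mem_B.2 fun x hx => hD x b (mem_B.1 hb x hx)

variable [CharZero K] {X A : Sch K} [GrpObj A] [IsProper A.hom] [GeometricallyIntegral A.hom]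
  {g : ℕ} {δ : Fin g → Dr A}

theorem two_fields_B (hδ : IsFrame δ) {U : A.left.Opens} (hU : IsAffineOpen U) {z : A.left}
    (hz : z ∈ U) (hc : Cod2 z) (q : Ideal (B A U)) [q.IsPrime] (hq : pr hz ≤ q) :
    ∃ a₁ ∈ q, ∃ a₂ ∈ q, ∃ u ∉ q, ∃ i₁ i₂,
      δ i₁ a₁ * δ i₂ a₂ - δ i₂ a₁ * δ i₁ a₂ = (u : Fn A) := by
  obtain ⟨y, hy, rfl⟩ := aff_point hU (gp_mem hz) q
  obtain ⟨a₁, h1, a₂, h2, i₁, i₂, hu⟩ :=
    two_fields hδ (cod2_spec hc ((aff_spec hU hz hy).2 hq))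
  obtain ⟨s₁, -, u₁, b₁⟩ := aff_frac hU hy (mem_O_of_mp h1)
  obtain ⟨s₂, -, u₂, b₂⟩ := aff_frac hU hy (mem_O_of_mp h2)
  have hB := fun i => CoreG_B (U := U) (hδ.mem i)
  have hO := fun i => hδ.mem i y
  refine ⟨⟨s₁ * a₁, b₁⟩, (mem_pr hy _).2 (O_mul_mem_mp u₁.1 h1),
    ⟨s₂ * a₂, b₂⟩, (mem_pr hy _).2 (O_mul_mem_mp u₂.1 h2),
    ⟨_, sub_mem (mul_mem (hB i₁ _ b₁) (hB i₂ _ b₂)) (mul_mem (hB i₂ _ b₁) (hB i₁ _ b₂))⟩, ?_,
    i₁, i₂, rfl⟩
  rw [mem_pr]
  have o₁ := mem_O_of_mp h1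
  have o₂ := mul_mem u₂.1 (mem_O_of_mp h2)
  have m₁ := O_mul_mem_mp (sub_mem (mul_mem (hO i₁ _ u₁.1) (hO i₂ _ o₂))
    (mul_mem (hO i₂ _ u₁.1) (hO i₁ _ o₂))) h1
  have m₂ := O_mul_mem_mp (mul_mem u₁.1 (sub_mem (mul_mem (hO i₁ _ o₁) (hO i₂ _ u₂.1))
    (mul_mem (hO i₂ _ o₁) (hO i₁ _ u₂.1)))) h2
  have key := (((u₁.mul u₂).mul hu).add_mp (add_mem m₁ m₂)).2
  convert key using 2
  simp only [Derivation.leibniz, smul_eq_mul]
  ring

variable [IsIntegral X.left] [IsProper X.hom] [Smooth X.hom] {κ F M : Type} [Fintype κ] [Field F]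
  [Field M] [Algebra K F] [Algebra K M] [Algebra K K'] [Algebra K M'] [IsScalarTower K K' M']

/-- the data along one branch -/
structure CD (α : X ⟶ A) (δ : Fin g → Dr A) (v : κ → Dr A) (J : F →ₐ[K] M) (φ : Fn X →ₐ[K] M)
    (d : κ → Derivation K M M) (N : Nev K' Rad.out M') (ι : M →ₐ[K] M') : Prop where
  dom : Dom α
  frame : IsFrame δ
  reg : ∀ k x, RegAt (v k) x
  den : Den v
  d_φ : ∀ k y, d k (φ (pb α y)) = φ (pb α (v k y))
  d_J : ∀ k a, ∃ a', d k (J a) = J a'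
  lift : ∀ i, ∃ w : Derivation K M M, (∀ y, w (φ (pb α y)) = φ (pb α (δ i y))) ∧
    ∀ a, ∃ a', w (J a) = J a'
  sm : ∀ a, N.Sm (ι (J a))
  D_ι : ∃ ν : κ → F, ∀ x, N.D (ι x) = ι (∑ k, J (ν k) * d k x)
  pre : ∀ z, PreV K (fun k x => d k x) ((N.regV z).comap ι.toRingHom)
  grow : ∀ k, ∃ C : ℝ, ∀ (w : Pt1 K' Rad.out) x,
    N.nr w (ι (d k x)) ≤ Real.exp (C * (1 + Real.log ‖w.v‖)) * N.nr w (ι x)

variable {α : X ⟶ A} {v : κ → Dr A} {J : F →ₐ[K] M} {φ : Fn X →ₐ[K] M}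
  {d : κ → Derivation K M M} {ι : M →ₐ[K] M'} (H : CD α δ v J φ d N ι) {h : Fn X}
include H

theorem CD.exists_D : ∃ D : Derivation K M M, (∀ x, N.D (ι x) = ι (D x)) ∧
    ∀ U, Pres J ((φ.comp (pbF H.dom)).comp (B A U).val) D := by
  obtain ⟨ν, hν⟩ := H.D_ι
  have hD : ∀ x, (∑ k, J (ν k) • d k : Derivation K M M) x = ∑ k, J (ν k) * d k x := fun x => by
    have := map_sum Derivation.coeFnAddMonoidHom (fun k => J (ν k) • d k) Finset.univ
    have h2 := congrFun this x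
    rw [Finset.sum_apply] at h2
    exact h2
  refine ⟨∑ k, J (ν k) • d k, fun x => by rw [hD, hν], fun U => ⟨fun a => ?_, fun b => ?_⟩⟩
  · choose a' ha' using fun k => H.d_J k a
    exact ⟨∑ k, ν k * a' k, by simp only [hD, ha', map_sum, map_mul]⟩
  · rw [hD]
    refine sum_mem fun k _ => mul_mem (J_mem _ _ _) ?_
    have := H.d_φ k b
    exact this ▸ ψ_mem J ((φ.comp (pbF H.dom)).comp (B A U).val) ⟨_, CoreG_B (H.reg k) _ b.2⟩

theorem CD.aux (hh : Good α δ h) (hc : ∀ y, ι (φ (pb α y)) ∈ N.ctl 𝒯 h𝒯) :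
    Aux N 𝒯 {z | N.ord z (ι (φ h)) < 0} := by
  obtain ⟨D, hD, hP⟩ := H.exists_D
  obtain ⟨𝒵, hf, hcod, hbad⟩ := badV H.dom H.frame hh H.reg H.den
  obtain ⟨𝒰, h𝒰f, h𝒰a, -, h𝒰c⟩ := fin_cover A
  choose w hw hwJ using H.lift
  let Z : A.left.Opens × A.left → Set (Pt1 K' Rad.out) := fun p =>
    {z | p.2 ∈ p.1 ∧ (∀ b : B A p.1, ι (φ (pb α b)) ∈ N.regV z) ∧
      ∀ b : B A p.1, (b : Fn A) ∈ mp A p.2 1 → ι (φ (pb α b)) ∈ (N.regV z).nonunits}
  refine (Aux.biUnion h𝒯 (h𝒰f.prod hf) (Z := Z) ?_).mono ?_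
  · rintro ⟨U, y⟩ ⟨hU, hy⟩
    by_cases hyU : y ∈ U
    · have := aff_finiteType (h𝒰a U hU) (gp_mem hyU)
      have hPw : ∀ i, Pres J ((φ.comp (pbF H.dom)).comp (B A U).val) (w i) := fun i =>
        ⟨hwJ i, fun b => by
          have := hw i b
          exact this ▸ ψ_mem J ((φ.comp (pbF H.dom)).comp (B A U).val)
            ⟨_, CoreG_B (H.frame.mem i) _ b.2⟩⟩
      refine (aux_ideal (ι := ι.toRingHom) (ψ := (φ.comp (pbF H.dom)).comp (B A U).val)
        (h𝒯 := h𝒯) H.sm (fun b => hc b) (hP U) hD (pr hyU) ?_).mono ?_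
      · intro (q : Ideal (B A U)) hq hle
        obtain ⟨a₁, h1, a₂, h2, u, hu, i₁, i₂, e⟩ :=
          two_fields_B H.frame (h𝒰a U hU) hyU (hcod _ hy) q (by exact hle)
        refine ⟨a₁, h1, a₂, h2, u, hu, w i₁, w i₂, hPw i₁, hPw i₂, ?_⟩
        have e2 := congrArg (φ.comp (pbF H.dom)) e
        rw [map_sub, map_mul, map_mul] at e2
        change w i₁ (φ (pb α a₁)) * w i₂ (φ (pb α a₂)) - w i₂ (φ (pb α a₁)) * w i₁ (φ (pb α a₂)) = _
        rw [hw, hw, hw, hw]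
        exact e2
      · rintro z ⟨-, h1, h2⟩
        exact ⟨h1, fun b hb => h2 b ((mem_pr hyU b).1 hb)⟩
    · exact ⟨0, 0, fun L => ⟨Fin.elim0, Fin.elim0, ∅, Set.finite_empty, fun i => i.elim0,
        fun z hz => absurd hz.1 hyU⟩⟩
  · intro z hz
    obtain ⟨c, hcf⟩ := exists_cf φ ((N.regV z).comap ι.toRingHom) (H.pre z).alg
    obtain ⟨y, hy, hs⟩ := hbad M φ d _ c hcf (H.pre z).mem H.d_φ
      fun h1 => (N.mem_regV.1 h1).not_gt hz
    obtain ⟨U, hU, hcU⟩ := h𝒰c (α.left c)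
    have hc' := hcf.map H.dom
    exact Set.mem_biUnion (x := (U, y)) ⟨hU, hy⟩ ⟨hs.mem_open U.isOpen hcU,
      fun b => hc'.mem b (B_le_O hcU b.2), fun b hb => (comap_nonunits ι.toRingHom _ _).1
        ((hc'.non b (B_le_O hcU b.2)).2 (mem_mp_of_spec hs (B_le_O hcU b.2) hb))⟩

theorem CD.mult (hh : Good α δ h) : ∃ (μ : ℕ) (Ξ : Set (Pt1 K' Rad.out)), Ξ.Finite ∧
    ∀ z ∉ Ξ, -N.ord z (ι (φ h)) ≤ μ := by
  have := av_smooth A
  obtain ⟨D, hD, hP⟩ := H.exists_D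
  obtain ⟨𝒰, h𝒰f, h𝒰a, h𝒰n, h𝒰c⟩ := fin_cover A
  have key : ∀ U : 𝒰, ∃ (μ : ℕ) (Ξ : Set (Pt1 K' Rad.out)), Ξ.Finite ∧ ∀ z ∉ Ξ, ∀ c,
      Cf φ ((N.regV z).comap ι.toRingHom) c → α.left c ∈ U.1 → -N.ord z (ι (φ h)) ≤ μ := by
    rintro ⟨U, hU⟩
    obtain ⟨x, hx⟩ := h𝒰n U hU
    have := aff_finiteType (h𝒰a U hU) (gp_mem hx)
    obtain ⟨a, ha, ha0, hk⟩ := Bad_kill_all H.dom H.frame.mem hh (h𝒰a U hU)
    obtain ⟨μ, Ξ, hΞ, hμ⟩ := mult_bd (ι := ι.toRingHom) H.sm (hP U) hD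
      (ψ_mem J ((φ.comp (pbF H.dom)).comp (B A U).val) ⟨a, ha⟩)
    refine ⟨μ, Ξ, hΞ, fun z hz c hcf hcU => ?_⟩
    have h1 : N.ord z (ι (φ (pb α a))) ≤ μ :=
      hμ z hz fun b => (hcf.map H.dom).mem b (B_le_O hcU b.2)
    have h2 : 0 ≤ N.ord z (ι (φ (pb α a * h))) := hcf.mem _ (hk c hcU)
    by_cases h0 : ι (φ h) = 0
    · rw [h0, N.ord_zero]
      omega
    have h3 : ι (φ (pb α a)) ≠ 0 :=
      (map_ne_zero (ι.comp (φ.comp (pbF H.dom)))).2 ha0
    rw [map_mul, map_mul, N.ord_mul z _ _ h3 h0] at h2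
    omega
  choose μ Ξ hΞ hμ using key
  have := h𝒰f.to_subtype
  have := Fintype.ofFinite 𝒰
  refine ⟨Finset.univ.sup μ, ⋃ U, Ξ U, Set.finite_iUnion hΞ, fun z hz => ?_⟩
  obtain ⟨c, hcf⟩ := exists_cf φ ((N.regV z).comap ι.toRingHom) (H.pre z).alg
  obtain ⟨U, hU, hcU⟩ := h𝒰c (α.left c)
  have h1 := hμ ⟨U, hU⟩ z (fun h2 => hz (Set.mem_iUnion.2 ⟨_, h2⟩)) c hcf hcU
  have h2 : μ ⟨U, hU⟩ ≤ Finset.univ.sup μ := Finset.le_sup (Finset.mem_univ _)
  omega

theorem CD.small {S : Finset (Fn X)} (hS : ∀ h ∈ S, Good α δ h)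
    (halg : ∀ y, IsAlgebraic (Algebra.adjoin K {u | ∃ h ∈ S, ∃ h' ∈ S, u = h / h'}) (pb α y)) :
    (∀ y, N.Sm (ι (φ (pb α y)))) ∧ ∀ h ∈ S, N.Sm (ι (φ h)) := by
  have hS' := fun h (hh : h ∈ S) => ctl_self (N := N) S (fun h => ι (φ h)) hh
  have hc := fun y => ctl_alg (ι.comp φ).toRingHom (fun c => by
    have e : (ι.comp φ).toRingHom (algebraMap K (Fn X) c)
        = algebraMap K' M' (algebraMap K K' c) :=
      ((ι.comp φ).commutes c).trans (IsScalarTower.algebraMap_apply K K' M' c)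
    rw [e]
    exact (Nev.sm_alg _).ctl) hS' (halg y)
  have hA := Aux.biUnion (fun w => Finset.sum_nonneg fun b _ => N.T_nonneg (ι (φ b)) w)
    S.finite_toSet fun h hh => H.aux (hS h hh) hc
  have hle := Aux.endgame S (fun h => ι (φ h)) hA (fun a ha z hz => Set.mem_biUnion ha hz)
    (fun a ha => pgp N ι H.grow fun 𝒪 h𝒪 =>
      inv_mem H.dom H.frame (hS a ha) H.reg H.den h𝒪 H.d_φ)
    fun a ha => H.mult (hS a ha)
  exact ⟨fun y => Nev.sm_of_ctl (hc y) hle, fun h hh => Nev.sm_of_ctl (hS' h hh) hle⟩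

end Pool.Agent.Work.MP_e120ef_ag.H
end

-- merged part: Pool.Agent.Work.MP_e120ef_ag.H.Main2
section
/-!
# The theorem
-/

open CategoryTheory AlgebraicGeometry

namespace Pool.Agent.Work.MP_e120ef_ag.H

theorem Main2_comb {K F ι : Type} [Field K] [Field F] [Algebra K F] [Fintype ι] (c : ι → K)
    (δ : ι → Derivation K F F) : ∃ v : Derivation K F F, ∀ a, v a = ∑ i, c i • δ i a :=
  ⟨∑ i, c i • δ i, fun a => (congrFun (map_sum (Derivation.coeFnAddMonoidHom (R := K)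
    (A := F) (M := F)) _ _) a).trans (Finset.sum_apply a _ _)⟩

variable {K : Type} [NontriviallyNormedField K] [IsUltrametricDist K] [CompleteSpace K]
  [IsAlgClosed K] [CharZero K] {n g g' : ℕ} {K₁ : Type} [NontriviallyNormedField K₁]
  [IsUltrametricDist K₁] [CompleteSpace K₁] [NormedAlgebra K K₁] {Γ : GD K n K₁} {G X A : Sch K}
  [GrpObj G] [IsIntegral G.left] [LocallyOfFiniteType G.hom] [IsIntegral X.left] [GrpObj A]
  [IsProper A.hom] [GeometricallyIntegral A.hom] {U : G.left.Opens} {𝒩 : ND (B G U) n} {M : Type}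
  [Field M] [Algebra K M] {𝓜 : MI 𝒩 M} {φ : Fn X →ₐ[K] M} {ξ : Fin g' → Dr G}
  {N : Fin g' → Fin n → T K n} {K' : Type} [NontriviallyNormedField K'] [IsUltrametricDist K']
  [CompleteSpace K'] [IsAlgClosed K'] [CharZero K'] [NormedAlgebra K K'] {s : ℕ}
  {γ : Fin s → Arc 𝓜 K'} {α : X ⟶ A} {δ : Fin g → Dr A} (hα : Dom α) (hδ : IsFrame δ)
  (hξ : IsGFrame ξ) (hγ : ∀ x, (∀ j, (nev K' Rad.out).Sm ((γ j).ι x)) → ∃ a, x = 𝓜.J a)
  (hq : ∀ q, IsClosed ({q} : Set G.left) → Nonempty (Chart Γ 𝓜 φ ξ N q))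
include hα hδ hξ hγ hq

theorem stepA2 : ∃ c : Fin g' → Fin g → K, ∀ k y,
    𝓜.hat (ξ k) (φ (pb α y)) = φ (pb α (∑ i, c k i • δ i y)) := by
  let j := φ.comp (pbF hα)
  choose c hc using fun k => hδ.span M j ((𝓜.hat (ξ k) : M →ₗ[K] M) ∘ₗ j.toLinearMap) fun a b => by
    exact (congrArg (𝓜.hat (ξ k)) (map_mul j a b)).trans ((𝓜.hat (ξ k)).leibniz _ _)
  replace hc : ∀ k a, 𝓜.hat (ξ k) (j a) = ∑ i, c k i * j (δ i a) := hc
  have h1 : ∀ k i 𝒪, PreV K (fun k x => 𝓜.hat (ξ k) x) 𝒪 → c k i ∈ 𝒪 := fun k i 𝒪 h =>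
    solve hδ j h.alg (h.mem k) (hc k) i
  choose r hr using fun k i => hγ (c k i) fun l => (γ l).sm_of_preV ξ (hξ.memB U) (h1 k i)
  choose v hv using fun k i => hc_const hq (r := r k i)
    (fun 𝒪 h => hr k i ▸ h1 k i 𝒪 h.toPreV) fun q c' 𝒪 h =>
      solve hδ (c'.χ.comp (pbF hα)) h.alg (h.mem k) (c := fun i => c'.j (r k i))
        (fun y => c'.tl_eq (y' := fun i => pb α (δ i y)) ((hc k y).trans
          (Finset.sum_congr rfl fun i _ => by rw [hr]; rfl))) i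
  refine ⟨v, fun k y => (hc k y).trans ?_⟩
  change _ = j _
  rw [map_sum]
  exact Finset.sum_congr rfl fun i _ => by
    rw [hr, hv, AlgHom.commutes, map_smul, Algebra.smul_def]

variable [IsProper X.hom] [Smooth X.hom]

theorem main2 {q₀ : G.left} (c₀ : Chart Γ 𝓜 φ ξ N q₀) {C : Fin n → Fin g' → FT K n}
    (hO : ∀ l k, C l k ∈ O₀ K n)
    (hC : ∀ l i, ∑ k, C l k * imT (N k i) = if l = i then 1 else 0) {W : A.left.Opens}
    (hW : IsAffineOpen W) (hg : gp A ∈ W) {Y : Set (Fn A)} (hY : B A W ≤ Algebra.adjoin K Y)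
    (hjY : ∀ y ∈ Y, c₀.χ (pb α y) ∈ O₀ K n) {S : Finset (Fn X)} (hS : ∀ h ∈ S, Good α δ h)
    (halg : ∀ y, IsAlgebraic (Algebra.adjoin K {u | ∃ h ∈ S, ∃ h' ∈ S, u = h / h'}) (pb α y)) :
    ∀ h ∈ S, ∃ c : K, h = algebraMap K (Fn X) c := by
  obtain ⟨c, hc⟩ := stepA2 hα hδ hξ hγ hq
  choose v hv using fun k => Main2_comb (c k) δ
  have h1 : ∀ k y, 𝓜.hat (ξ k) (φ (pb α y)) = φ (pb α (v k y)) := fun k y => by rw [hc, hv]
  have h2 : ∀ q (c' : Chart Γ 𝓜 φ ξ N q) k y, tl N k (c'.χ (pb α y)) = c'.χ (pb α (v k y)) :=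
    fun q c' k y => by
      simpa using c'.tl_eq (ι := Unit) (r := fun _ => 1) (y' := fun _ => pb α (v k y))
        (by simpa using h1 k y)
  have hreg : ∀ k x, RegAt (v k) x := fun k x a ha => by
    rw [hv]
    exact sum_mem fun i _ => Subalgebra.smul_mem _ (hδ.mem i x a ha) _
  obtain ⟨p, hp, hl⟩ := leaf hO hC (c₀.χ.comp (pbF hα)) (h2 _ c₀) hW hg hY hjY
  have hden : Den v := den_of_leaf hreg (fun k y a => by
    rw [hv, hv, ← pbF_apply (dom_tr y), ← pbF_apply (dom_tr y), map_sum]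
    exact Finset.sum_congr rfl fun i _ => by rw [map_smul, pbF_apply, pbF_apply, hδ.tr]) hp hl
  obtain ⟨P, -, hP⟩ := 𝓜.pd_hat ξ hξ.span'
  obtain ⟨μ, ρ, h3, h4⟩ := lift_frame 𝓜.J (φ.comp (pbF hα)) ξ δ (fun k => 𝓜.hat (ξ k)) c
    (hξ.span M 𝓜.J) hδ.comm (fun k => 𝓜.hat_J (ξ k)) hc fun x hx =>
      𝓜.pd_const fun l => by simp only [hP, hx, mul_zero, Finset.sum_const_zero]
  replace h4 : ∀ i y, φ (pb α (δ i y)) =
    ∑ k, μ i k • 𝓜.hat (ξ k) (φ (pb α y)) + ρ i (φ (pb α y)) := h4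
  have h5 := fun l => CD.small (α := α) (δ := δ) (v := v) (J := 𝓜.J) (φ := φ)
    (d := fun k => 𝓜.hat (ξ k)) (N := nev K' Rad.out) (ι := (γ l).ι)
    ⟨hα, hδ, hreg, hden, h1, fun k a => ⟨_, 𝓜.hat_J (ξ k) a⟩, fun i => by
      obtain ⟨w, hw⟩ := Main2_comb (μ i) fun k => 𝓜.hat (ξ k)
      refine ⟨w + ρ i, fun y => by rw [h4, Derivation.add_apply, hw],
        fun a => ⟨∑ k, μ i k • ξ k a, ?_⟩⟩
      simp only [Derivation.add_apply, hw, h3, add_zero, map_sum, map_smul, 𝓜.hat_J],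
      (γ l).sm, ⟨fun k => ∑ m, (γ l).μ m * P m k, fun x => by
        rw [(γ l).D_ι]
        simp only [hP, map_sum, map_mul, Finset.mul_sum, Finset.sum_mul, mul_assoc]
        exact Finset.sum_comm⟩,
      (γ l).preV ξ (hξ.memB U), fun k => (γ l).grow (ξ k)⟩ hS halg
  have h6 : ∀ i y, δ i y = ∑ k, μ i k • v k y := fun i y => by
    obtain ⟨a, ha⟩ := hγ _ fun l => (h5 l).1 y
    refine (φ.comp (pbF hα)).injective ((h4 i y).trans ?_)
    change _ = φ.comp (pbF hα) _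
    rw [show ρ i (φ (pb α y)) = 0 from ha ▸ h3 i a, add_zero, map_sum]
    exact Finset.sum_congr rfl fun k _ => by rw [map_smul, h1]; rfl
  intro h hh
  obtain ⟨r, hr⟩ := hγ _ fun l => (h5 l).2 h hh
  obtain ⟨a, ha⟩ := hc_const hq (r := r)
    (fun 𝒪 H => hr ▸ inv_mem hα hδ (hS h hh) hreg hden H h1) fun q c' 𝒪 H =>
      c'.j_eq hr ▸ nopole hα hδ (hS h hh) hreg hden h6 (d := tl N) H (h2 q c')
  exact ⟨a, φ.injective (show φ h = φ _ by rw [hr, ha, AlgHom.commutes, AlgHom.commutes])⟩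

omit hα hδ hξ hγ hq

theorem final2 (α : X ⟶ A) [IsDominant α.left] {t : Fin g → Fn A} (ht : IsTranscendenceBasis K t)
    {m : ℕ} (hκ : ∀ a : Fn A, AlgQ K (Pluri (O X) (fun i => pull α (t i)) m) (pull α a))
    {f : G.left → X.left} (hf : Mero f) : g = 0 := by
  classical
  simp only [pull_eq] at hκ
  have hα : Dom α := dom_gp α
  obtain ⟨g₁, δ, hδ⟩ := exists_frame A
  have span : ∀ D : Dr A, ∃ c : Fin g₁ → Fn A, ∀ a, D a = ∑ k, c k * δ k a := fun D =>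
    hδ.span (Fn A) (AlgHom.id K _) D fun a b => D.leibniz a b
  obtain ⟨b, -, hu⟩ := hδ.unit (gp A)
  obtain rfl : g = g₁ := frame_card δ span b hu.ne_zero ht
  obtain ⟨g', ξ, hξ⟩ := exists_gframe G
  obtain ⟨U, hU, hg, -⟩ := exists_aff (W := ⊤) (x := gp G) trivial
  have := lft_finiteType hU hg
  obtain ⟨n, ⟨𝒩⟩⟩ := exists_ND (B G U) (aff_frac_field hU hg)
  obtain ⟨K₁, _, _, _, _, ⟨Γ⟩⟩ := exists_GD K n
  obtain ⟨K', _, _, _, _, _, _, _, _⟩ := exists_Kp K K₁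
  obtain ⟨M, _, _, ⟨𝓜⟩⟩ := exists_MI' 𝒩
  obtain ⟨φ, hφ⟩ := exists_phiG 𝓜 hf hU hg
  obtain ⟨s, γ, hγ⟩ := exists_arcs 𝓜 K' Γ
  obtain ⟨W, Y, hW, hgW, hY⟩ := exists_gens A
  obtain ⟨N, hq, q₀, c₀, C, h1, hO, hC⟩ := exists_charts Γ 𝓜 hf hU hg hφ hξ (Y.image (pb α))
  obtain ⟨H, hH, hH'⟩ := fin_alg (pbF hα) ht hκ
  have h0 := (_root_.map_ne_zero (pbF hα)).2 (frame_det δ span ht)
  have e : {u | ∃ h ∈ H.image fun u => u * pbF hα (Matrix.of fun i k => δ k (t i)).det ^ m,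
      ∃ h' ∈ H.image fun u => u * pbF hα (Matrix.of fun i k => δ k (t i)).det ^ m, u = h / h'} =
      {u | ∃ h ∈ H, ∃ h' ∈ H, u = h / h'} := by
    simp only [Finset.mem_image, exists_exists_and_eq_and, mul_div_mul_right _ _ (pow_ne_zero m h0)]
  have h2 := main2 hα hδ hξ hγ hq c₀ hO hC hW hgW hY
    (fun y hy => h1 _ (Finset.mem_image_of_mem _ hy))
    (S := H.image fun u => u * pbF hα (Matrix.of fun i k => δ k (t i)).det ^ m)
    (fun u hu x D h3 h4 => by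
      obtain ⟨u', hu', rfl⟩ := Finset.mem_image.1 hu
      have h5 := hH u' hu' x D h3
      simp only [h4] at h5
      rw [AlgHom.map_det]
      exact h5) (fun y => e ▸ hH' y)
  by_contra hg0
  have i : Fin g := ⟨0, Nat.pos_of_ne_zero hg0⟩
  have h3 : Algebra.adjoin K {u | ∃ h ∈ H, ∃ h' ∈ H, u = h / h'} = ⊥ := by
    rw [← e]
    refine le_bot_iff.1 (Algebra.adjoin_le ?_)
    rintro _ ⟨h, hh, h', hh', rfl⟩
    obtain ⟨a, rfl⟩ := h2 h hh
    obtain ⟨a', rfl⟩ := h2 h' hh'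
    rw [← map_div₀]
    exact Subalgebra.algebraMap_mem _ _
  have h4 := hH' (t i)
  rw [h3] at h4
  refine ht.1.transcendental i ((isAlgebraic_algHom_iff (pbF hα) (pbF hα).injective).1 ?_)
  exact Subalgebra.isAlgebraic_of_isAlgebraic_bot h4

end Pool.Agent.Work.MP_e120ef_ag.H
end
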